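import Pool.Agent.Lib.H1F.N.N0

/-!
# H1F, chunk N1

Basic facts about the rings `Fr x y z U = k[x, y, z, 1/U(x,y,z)]`.
-/

open MvPolynomial

namespace H1F

variable {k K : Type*} [Field k] [Field K] [Algebra k K]

theorem N1_poly_mem {x y z : K} {S : Subalgebra k K} (hx : x ∈ S) (hy : y ∈ S) (hz : z ∈ S)
    (P : MvPolynomial (Fin 3) k) : aeval ![x, y, z] P ∈ S := by
  have h1 : aeval ![x, y, z] P ∈ Algebra.adjoin k (Set.range ![x, y, z]) := by
    rw [Algebra.adjoin_range_eq_range_aeval]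
    exact ⟨P, rfl⟩
  refine Algebra.adjoin_le ?_ h1
  rintro _ ⟨i, rfl⟩
  fin_cases i
  · exact hx
  · exact hy
  · exact hz

theorem N1_x_mem (x y z : K) (U : MvPolynomial (Fin 3) k) : x ∈ Fr x y z U :=
  Algebra.subset_adjoin (by simp)

theorem N1_y_mem (x y z : K) (U : MvPolynomial (Fin 3) k) : y ∈ Fr x y z U :=
  Algebra.subset_adjoin (by simp)

theorem N1_z_mem (x y z : K) (U : MvPolynomial (Fin 3) k) : z ∈ Fr x y z U :=
  Algebra.subset_adjoin (by simp)

theorem N1_u_mem (x y z : K) (U : MvPolynomial (Fin 3) k) :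
    (aeval ![x, y, z] U)⁻¹ ∈ Fr x y z U :=
  Algebra.subset_adjoin (by simp)

/-- Elements of `Fr`: fractions `P(x,y,z) / U(x,y,z) ^ N`.  (`Algebra.adjoin_induction` for one
direction: the set of such fractions is a subalgebra.) -/
theorem mem_Fr {x y z : K} {U : MvPolynomial (Fin 3) k} (hU : aeval ![x, y, z] U ≠ 0) {r : K} :
    r ∈ Fr x y z U ↔ ∃ (P : MvPolynomial (Fin 3) k) (N : ℕ),
      r * aeval ![x, y, z] U ^ N = aeval ![x, y, z] P := by
  constructor
  · intro hr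
    unfold Fr at hr
    induction hr using Algebra.adjoin_induction with
    | mem r hr =>
      rcases hr with rfl | rfl | rfl | rfl
      · exact ⟨X 0, 0, by simp⟩
      · exact ⟨X 1, 0, by simp⟩
      · exact ⟨X 2, 0, by simp⟩
      · exact ⟨1, 1, by rw [pow_one, inv_mul_cancel₀ hU, map_one]⟩
    | algebraMap r => exact ⟨C r, 0, by simp⟩
    | add r s _ _ hr hs =>
      obtain ⟨P, N, hP⟩ := hr
      obtain ⟨Q, M, hQ⟩ := hs
      refine ⟨P * U ^ M + Q * U ^ N, N + M, ?_⟩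
      rw [map_add, map_mul, map_mul, map_pow, map_pow, ← hP, ← hQ]
      ring
    | mul r s _ _ hr hs =>
      obtain ⟨P, N, hP⟩ := hr
      obtain ⟨Q, M, hQ⟩ := hs
      refine ⟨P * Q, N + M, ?_⟩
      rw [map_mul, ← hP, ← hQ]
      ring
  · rintro ⟨P, N, hP⟩
    have h1 : r = aeval ![x, y, z] P * ((aeval ![x, y, z] U)⁻¹) ^ N := by
      rw [← hP, inv_pow, mul_inv_cancel_right₀ (pow_ne_zero _ hU)]
    rw [h1]
    exact mul_mem (N1_poly_mem (N1_x_mem x y z U) (N1_y_mem x y z U) (N1_z_mem x y z U) P)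
      (pow_mem (N1_u_mem x y z U) N)

/-- Polynomials lie in `Fr`. -/
theorem aeval_mem_Fr (x y z : K) (U P : MvPolynomial (Fin 3) k) :
    aeval ![x, y, z] P ∈ Fr x y z U :=
  N1_poly_mem (N1_x_mem x y z U) (N1_y_mem x y z U) (N1_z_mem x y z U) P

/-- Divisors of `U` are units of `Fr U`. -/
theorem N1_inv_mem {x y z : K} {U G : MvPolynomial (Fin 3) k} (h : G ∣ U)
    (hU : aeval ![x, y, z] U ≠ 0) : (aeval ![x, y, z] G)⁻¹ ∈ Fr x y z U := by
  obtain ⟨H, rfl⟩ := h
  rw [map_mul] at hU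
  have hG := left_ne_zero_of_mul hU
  have hH := right_ne_zero_of_mul hU
  have h1 : (aeval ![x, y, z] G)⁻¹ = aeval ![x, y, z] H * (aeval ![x, y, z] (G * H))⁻¹ := by
    rw [map_mul, mul_inv]
    field_simp
  rw [h1]
  exact mul_mem (aeval_mem_Fr x y z _ H) (N1_u_mem x y z _)

/-- `Fr U ≤ Fr U'` if `U` divides `U'`. -/
theorem Fr_mono {x y z : K} {U U' : MvPolynomial (Fin 3) k} (h : U ∣ U')
    (hU' : aeval ![x, y, z] U' ≠ 0) : Fr x y z U ≤ Fr x y z U' := by
  refine Algebra.adjoin_le ?_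
  rintro r (rfl | rfl | rfl | rfl)
  · exact N1_x_mem _ y z U'
  · exact N1_y_mem x _ z U'
  · exact N1_z_mem x y _ U'
  · exact N1_inv_mem h hU'

/-- Divisors of `U` are units of `Fr U`. -/
theorem inv_mem_Fr {x y z : K} {U G : MvPolynomial (Fin 3) k} (h : G ∣ U)
    (hU : aeval ![x, y, z] U ≠ 0) : (aeval ![x, y, z] G)⁻¹ ∈ Fr x y z U :=
  N1_inv_mem h hU

/-- `Fr U` with `G` inverted. -/
theorem Fr_sup_inv {x y z : K} {U G : MvPolynomial (Fin 3) k}
    (hU : aeval ![x, y, z] (U * G) ≠ 0) :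
    Fr x y z U ⊔ Algebra.adjoin k {(aeval ![x, y, z] G)⁻¹} = Fr x y z (U * G) := by
  apply le_antisymm
  · refine sup_le (Fr_mono (dvd_mul_right U G) hU) ?_
    refine Algebra.adjoin_le ?_
    rintro r hr
    rw [Set.mem_singleton_iff] at hr
    rw [hr]
    exact inv_mem_Fr (dvd_mul_left G U) hU
  · have hle : Fr x y z U ≤ Fr x y z U ⊔ Algebra.adjoin k {(aeval ![x, y, z] G)⁻¹} := le_sup_left
    have hle' : Algebra.adjoin k {(aeval ![x, y, z] G)⁻¹} ≤
        Fr x y z U ⊔ Algebra.adjoin k {(aeval ![x, y, z] G)⁻¹} := le_sup_right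
    refine Algebra.adjoin_le ?_
    rintro r (rfl | rfl | rfl | rfl)
    · exact hle (N1_x_mem _ y z U)
    · exact hle (N1_y_mem x _ z U)
    · exact hle (N1_z_mem x y _ U)
    · rw [map_mul, mul_inv]
      exact mul_mem (hle (N1_u_mem x y z U))
        (hle' (Algebra.subset_adjoin (Set.mem_singleton _)))

/-- The torus ring is `Fr` of `A v w`. -/
theorem K3_eq_Fr {A v w : K} (h : aeval ![A, v, w] (uT k) ≠ 0) :
    K3 k A v w = Fr A v w (uT k) := by
  have e : aeval ![A, v, w] (uT k) = A * v * w := by simp [uT]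
  have hA : A ≠ 0 := by rintro rfl; apply h; rw [e]; ring
  have hv : v ≠ 0 := by rintro rfl; apply h; rw [e]; ring
  have hw : w ≠ 0 := by rintro rfl; apply h; rw [e]; ring
  have e0 : aeval ![A, v, w] (X 0 : MvPolynomial (Fin 3) k) = A := by simp
  have e1 : aeval ![A, v, w] (X 1 : MvPolynomial (Fin 3) k) = v := by simp
  have e2 : aeval ![A, v, w] (X 2 : MvPolynomial (Fin 3) k) = w := by simp
  have d0 : (X 0 : MvPolynomial (Fin 3) k) ∣ uT k := ⟨X 1 * X 2, by unfold uT; ring⟩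
  have d1 : (X 1 : MvPolynomial (Fin 3) k) ∣ uT k := ⟨X 0 * X 2, by unfold uT; ring⟩
  have d2 : (X 2 : MvPolynomial (Fin 3) k) ∣ uT k := ⟨X 0 * X 1, by unfold uT; ring⟩
  apply le_antisymm
  · refine Algebra.adjoin_le ?_
    rintro r (rfl | rfl | rfl | rfl | rfl | rfl)
    · exact N1_x_mem _ v w _
    · have := inv_mem_Fr d0 h
      rwa [e0] at this
    · exact N1_y_mem A _ w _
    · have := inv_mem_Fr d1 h
      rwa [e1] at this
    · exact N1_z_mem A v _ _
    · have := inv_mem_Fr d2 h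
      rwa [e2] at this
  · refine Algebra.adjoin_le ?_
    have m : ∀ t ∈ ({A, A⁻¹, v, v⁻¹, w, w⁻¹} : Set K), t ∈ K3 k A v w := fun t ht =>
      Algebra.subset_adjoin ht
    rintro r (hr | hr | hr | hr)
    · rw [hr]; exact m _ (by simp)
    · rw [hr]; exact m _ (by simp)
    · rw [hr]; exact m _ (by simp)
    · rw [hr, e, mul_inv, mul_inv]
      exact mul_mem (mul_mem (m _ (by simp)) (m _ (by simp))) (m _ (by simp))

end H1F
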