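import Pool.Agent.Lib.H1F.N.N1

/-!
# H1F, chunk N2

Intersections of the rings `Fr` (unique factorization in `k[X0,X1,X2]`).
-/

open MvPolynomial

namespace H1F

variable {k K : Type*} [Field k] [Field K] [Algebra k K]


/-- Proof: by `mem_Fr` `r = a/(U G)^N = b/(U H)^M` with polynomials `a, b`.  If `G ∣ U` then
`(U G)^N ∣ U^(2N)` and `r ∈ Fr U`.  Otherwise `a U^M H^M = b U^N G^N` (the evaluation map is
injective by algebraic independence) and `G^N` divides `a U^M H^M`; as `G` is prime and divides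
neither `U` nor `H`, `G^N ∣ a` (`Prime.pow_dvd_of_dvd_mul_left`), so `r = (a/G^N)/U^N`. -/
theorem Fr_inf {x y z : K} (hind : AlgebraicIndependent k ![x, y, z])
    {U G H : MvPolynomial (Fin 3) k} (hU : U ≠ 0) (hG : Prime G) (hH : ¬ G ∣ H) {r : K}
    (h1 : r ∈ Fr x y z (U * G)) (h2 : r ∈ Fr x y z (U * H)) : r ∈ Fr x y z U := by
  have inj : Function.Injective (aeval ![x, y, z] : MvPolynomial (Fin 3) k →ₐ[k] K) := hind
  have ne : ∀ {P : MvPolynomial (Fin 3) k}, P ≠ 0 → aeval ![x, y, z] P ≠ 0 := fun hP h =>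
    hP (inj (by rw [h, map_zero]))
  have hH0 : H ≠ 0 := by
    rintro rfl
    exact hH (dvd_zero G)
  obtain ⟨a, N, ha⟩ := (mem_Fr (ne (mul_ne_zero hU hG.ne_zero))).1 h1
  obtain ⟨b, M, hb⟩ := (mem_Fr (ne (mul_ne_zero hU hH0))).1 h2
  rw [mem_Fr (ne hU)]
  by_cases hGU : G ∣ U
  · obtain ⟨V, hV⟩ := hGU
    refine ⟨a * V ^ N, 2 * N, ?_⟩
    have e : (U : MvPolynomial (Fin 3) k) ^ (2 * N) = (U * G) ^ N * V ^ N := by
      rw [two_mul, pow_add, ← mul_pow, ← mul_pow]
      congr 1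
      calc U * U = U * (G * V) := by rw [← hV]
        _ = U * G * V := by ring
    rw [← map_pow, e, map_mul, map_pow, ← mul_assoc, ha, map_mul]
  · have key : a * (U * H) ^ M = b * (U * G) ^ N := by
      apply inj
      rw [map_mul, map_mul, map_pow, map_pow, ← ha, ← hb]
      ring
    have hd : G ^ N ∣ a * (U * H) ^ M := by
      rw [key, mul_pow]
      exact ⟨b * U ^ N, by ring⟩
    have hn : ¬ G ∣ (U * H) ^ M := by
      intro h
      rcases hG.dvd_or_dvd (hG.dvd_of_dvd_pow h) with h | h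
      · exact hGU h
      · exact hH h
    obtain ⟨c, hc⟩ := hG.pow_dvd_of_dvd_mul_right N hn hd
    refine ⟨c, N, ?_⟩
    have hGne := ne hG.ne_zero
    have h3 : (r * aeval ![x, y, z] U ^ N) * aeval ![x, y, z] G ^ N =
        aeval ![x, y, z] c * aeval ![x, y, z] G ^ N := by
      rw [hc] at ha
      rw [map_mul, mul_pow, map_mul, map_pow] at ha
      rw [mul_assoc, ha]
      ring
    exact mul_right_cancel₀ (pow_ne_zero _ hGne) h3

end H1F
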