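import Pool.Agent.Lib.H1F.N.N0

/-!
# H1F, chunk N3

Explicit primes of the polynomial ring in three variables and non-divisibility.
-/

open MvPolynomial

namespace H1F

variable {k : Type*} [Field k]

theorem N3_sub (i : Fin 3) (f P : MvPolynomial (Fin 3) k) :
    (X i - f) ∣ P - aeval (Function.update (X : Fin 3 → MvPolynomial (Fin 3) k) i f) P := by
  induction P using MvPolynomial.induction_on with
  | C a => simp
  | add P Q hP hQ =>
    rw [map_add]
    have h := dvd_add hP hQ
    convert h using 1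
    ring
  | mul_X P j hP =>
    rw [map_mul, aeval_X]
    have h2 : (X i - f) ∣ (X j : MvPolynomial (Fin 3) k) -
        Function.update (X : Fin 3 → MvPolynomial (Fin 3) k) i f j := by
      by_cases hj : j = i
      · subst hj
        rw [Function.update_self]
      · rw [Function.update_of_ne hj, sub_self]
        exact dvd_zero _
    have h := dvd_add (Dvd.dvd.mul_right hP (X j))
      (Dvd.dvd.mul_left h2 (aeval (Function.update (X : Fin 3 → MvPolynomial (Fin 3) k) i f) P))
    convert h using 1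
    ring

theorem N3_self (i : Fin 3) (f : MvPolynomial (Fin 3) k) (hf : i ∉ f.vars) :
    aeval (Function.update (X : Fin 3 → MvPolynomial (Fin 3) k) i f) f = f := by
  have h1 : aeval (Function.update (X : Fin 3 → MvPolynomial (Fin 3) k) i f) f =
      aeval (X : Fin 3 → MvPolynomial (Fin 3) k) f := by
    apply MvPolynomial.eval₂Hom_congr' rfl _ rfl
    intro j hj _
    refine Function.update_of_ne ?_ _ _
    rintro rfl
    exact hf hj
  rw [h1, aeval_X_left, AlgHom.id_apply]

theorem N3_kill (i : Fin 3) (f : MvPolynomial (Fin 3) k) (hf : i ∉ f.vars) :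
    aeval (Function.update (X : Fin 3 → MvPolynomial (Fin 3) k) i f) (X i - f) = 0 := by
  rw [map_sub, aeval_X, Function.update_self, N3_self i f hf, sub_self]

/-- Divisibility by `X i - f`. -/
theorem N3_dvd_iff (i : Fin 3) (f P : MvPolynomial (Fin 3) k) (hf : i ∉ f.vars) :
    (X i - f) ∣ P ↔ aeval (Function.update (X : Fin 3 → MvPolynomial (Fin 3) k) i f) P = 0 := by
  constructor
  · rintro ⟨Q, rfl⟩
    rw [map_mul, N3_kill i f hf, zero_mul]
  · intro h
    have := N3_sub i f P
    rwa [h, sub_zero] at this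

/-- `X i - f` is prime if the variable `i` does not occur in `f`.  Proof: the quotient of the
polynomial ring by `X i - f` embeds into the polynomial ring: the kernel of the endomorphism
`φ` with `X i ↦ f`, `X j ↦ X j` for `j ≠ i` is generated by `X i - f`, because
`P - φ P` is divisible by `X i - f` for every `P` (induction on `P`).  Hence: `X i - f ∣ P` iff
`φ P = 0`, and the range is a domain. -/
theorem prime_X_sub (i : Fin 3) (f : MvPolynomial (Fin 3) k) (hf : i ∉ f.vars) :
    Prime (X i - f) := by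
  refine ⟨?_, ?_, ?_⟩
  · intro h
    apply hf
    rw [← sub_eq_zero.1 h, vars_X]
    exact Finset.mem_singleton_self i
  · intro h
    have h1 := h.map (aeval (Function.update (X : Fin 3 → MvPolynomial (Fin 3) k) i f))
    rw [N3_kill i f hf] at h1
    exact not_isUnit_zero h1
  · intro a b hab
    rw [N3_dvd_iff i f _ hf, map_mul] at hab
    rcases mul_eq_zero.1 hab with h | h
    · left; rwa [N3_dvd_iff i f _ hf]
    · right; rwa [N3_dvd_iff i f _ hf]

/-- Divisibility by `X i - f`. -/
theorem X_sub_dvd_iff (i : Fin 3) (f P : MvPolynomial (Fin 3) k) (hf : i ∉ f.vars) :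
    (X i - f) ∣ P ↔ aeval (Function.update (X : Fin 3 → MvPolynomial (Fin 3) k) i f) P = 0 :=
  N3_dvd_iff i f P hf

theorem N3_vars_one (i : Fin 3) : i ∉ (1 : MvPolynomial (Fin 3) k).vars := by
  rw [vars_one]; exact Finset.notMem_empty i

theorem N3_vars_zero (i : Fin 3) : i ∉ (0 : MvPolynomial (Fin 3) k).vars := by
  rw [vars_0]; exact Finset.notMem_empty i

theorem N3_vars_X {i j : Fin 3} (h : i ≠ j) : i ∉ (X j : MvPolynomial (Fin 3) k).vars := by
  rw [vars_X, Finset.mem_singleton]; exact h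

theorem N3_vars_pow {i j : Fin 3} (h : i ≠ j) (p : ℕ) :
    i ∉ (X j ^ p : MvPolynomial (Fin 3) k).vars := fun hi =>
  N3_vars_X h (vars_pow _ _ hi)

theorem prime_X (i : Fin 3) : Prime (X i : MvPolynomial (Fin 3) k) := by
  have := prime_X_sub i (0 : MvPolynomial (Fin 3) k) (N3_vars_zero i)
  rwa [sub_zero] at this

theorem prime_pB : Prime (pB k) := prime_X_sub 1 1 (N3_vars_one 1)

theorem prime_pD : Prime (pD k) := prime_X_sub 2 1 (N3_vars_one 2)

theorem prime_pE : Prime (pE k) := prime_X_sub 1 (X 2) (N3_vars_X (by decide))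

/-- Non-divisibility from one value: if `G` vanishes at a point of an extension of `k`, but `P`
does not, then `G` does not divide `P`. -/
theorem not_dvd_of_eval {F : Type*} [Field F] [Algebra k F] (x : Fin 3 → F)
    {G P : MvPolynomial (Fin 3) k} (hG : aeval x G = 0) (hP : aeval x P ≠ 0) : ¬ G ∣ P := by
  rintro ⟨Q, rfl⟩
  apply hP
  rw [map_mul, hG, zero_mul]

/-- `β` does not divide `δ (A-1)(A-v^p)(A-w^p)`, and so on: the six statements used below.
Evaluate at suitable points of `k(t) = RatFunc k`, e.g. `(A, v, w) = (t + t ^ 3, 1, t)`. -/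
theorem not_dvd_list (p : ℕ) (hp : 2 ≤ p) :
    ¬ pB k ∣ pD k * pE k * pH k p ∧ ¬ pD k ∣ pB k * pE k * pH k p ∧
    ¬ pE k ∣ pB k * pD k * pH k p ∧
    ¬ (X 1 : MvPolynomial (Fin 3) k) ∣ pB k * pD k * pE k ∧
    ¬ (X 2 : MvPolynomial (Fin 3) k) ∣ pB k * pD k * pE k ∧
    (pB k ≠ 0 ∧ pD k ≠ 0 ∧ pE k ≠ 0 ∧ pH k p ≠ 0 ∧ uT k ≠ 0) := by
  have n1 : ∀ i : Fin 3, (X i - 1 : MvPolynomial (Fin 3) k) ≠ 0 := fun i =>
    (prime_X_sub i 1 (N3_vars_one i)).ne_zero
  have n1' : ∀ i : Fin 3, (1 - X i : MvPolynomial (Fin 3) k) ≠ 0 := fun i h =>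
    n1 i (by rw [← neg_sub, h, neg_zero])
  have n2 : ∀ {i j : Fin 3}, i ≠ j → (X i - X j ^ p : MvPolynomial (Fin 3) k) ≠ 0 := fun h =>
    (prime_X_sub _ _ (N3_vars_pow h p)).ne_zero
  have n0 : ∀ i : Fin 3, (X i : MvPolynomial (Fin 3) k) ≠ 0 := fun i => (prime_X i).ne_zero
  have u00 : ∀ f : MvPolynomial (Fin 3) k, Function.update (X : Fin 3 → MvPolynomial (Fin 3) k) 1 f 0 =
      X 0 := fun f => Function.update_of_ne (by decide) _ _
  have u11 : ∀ f : MvPolynomial (Fin 3) k, Function.update (X : Fin 3 → MvPolynomial (Fin 3) k) 1 f 1 =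
      f := fun f => Function.update_self _ _ _
  have u12 : ∀ f : MvPolynomial (Fin 3) k, Function.update (X : Fin 3 → MvPolynomial (Fin 3) k) 1 f 2 =
      X 2 := fun f => Function.update_of_ne (by decide) _ _
  have u20 : ∀ f : MvPolynomial (Fin 3) k, Function.update (X : Fin 3 → MvPolynomial (Fin 3) k) 2 f 0 =
      X 0 := fun f => Function.update_of_ne (by decide) _ _
  have u21 : ∀ f : MvPolynomial (Fin 3) k, Function.update (X : Fin 3 → MvPolynomial (Fin 3) k) 2 f 1 =
      X 1 := fun f => Function.update_of_ne (by decide) _ _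
  have u22 : ∀ f : MvPolynomial (Fin 3) k, Function.update (X : Fin 3 → MvPolynomial (Fin 3) k) 2 f 2 =
      f := fun f => Function.update_self _ _ _
  refine ⟨?_, ?_, ?_, ?_, ?_, n1 1, n1 2, prime_pE.ne_zero, ?_, ?_⟩
  · unfold pB
    rw [X_sub_dvd_iff 1 1 _ (N3_vars_one 1)]
    simp only [pD, pE, pH, map_mul, map_sub, map_pow, map_one, aeval_X, u00, u11, u12, one_pow]
    exact mul_ne_zero (mul_ne_zero (n1 2) (n1' 2))
      (mul_ne_zero (mul_ne_zero (n1 0) (n1 0)) (n2 (by decide)))
  · unfold pD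
    rw [X_sub_dvd_iff 2 1 _ (N3_vars_one 2)]
    simp only [pB, pE, pH, map_mul, map_sub, map_pow, map_one, aeval_X, u20, u21, u22, one_pow]
    exact mul_ne_zero (mul_ne_zero (n1 1) (n1 1))
      (mul_ne_zero (mul_ne_zero (n1 0) (n2 (by decide))) (n1 0))
  · unfold pE
    rw [X_sub_dvd_iff 1 (X 2) _ (N3_vars_X (by decide))]
    simp only [pB, pD, pH, map_mul, map_sub, map_pow, map_one, aeval_X, u00, u11, u12]
    exact mul_ne_zero (mul_ne_zero (n1 2) (n1 2))
      (mul_ne_zero (mul_ne_zero (n1 0) (n2 (by decide))) (n2 (by decide)))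
  · have h := X_sub_dvd_iff 1 (0 : MvPolynomial (Fin 3) k) (pB k * pD k * pE k) (N3_vars_zero 1)
    rw [sub_zero] at h
    rw [h]
    simp only [pB, pD, pE, map_mul, map_sub, map_one, aeval_X, u11, u12]
    refine mul_ne_zero (mul_ne_zero ?_ (n1 2)) ?_
    · rw [zero_sub]; exact neg_ne_zero.2 one_ne_zero
    · rw [zero_sub]; exact neg_ne_zero.2 (n0 2)
  · have h := X_sub_dvd_iff 2 (0 : MvPolynomial (Fin 3) k) (pB k * pD k * pE k) (N3_vars_zero 2)
    rw [sub_zero] at h
    rw [h]
    simp only [pB, pD, pE, map_mul, map_sub, map_one, aeval_X, u21, u22]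
    refine mul_ne_zero (mul_ne_zero (n1 1) ?_) ?_
    · rw [zero_sub]; exact neg_ne_zero.2 one_ne_zero
    · rw [sub_zero]; exact n0 1
  · unfold pH
    exact mul_ne_zero (mul_ne_zero (n1 0) (n2 (by decide))) (n2 (by decide))
  · unfold uT
    exact mul_ne_zero (mul_ne_zero (n0 0) (n0 1)) (n0 2)

end H1F
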