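import Pool.Agent.Lib.H1F.N.N8
import Pool.Agent.Lib.H1F.N.N3
import Pool.Agent.Lib.H1F.N.N2

/-!
# H1F, chunk N11

The chart `P3` (coordinates `β = v - 1`, `δ = w - 1`, `y`; characteristic `p`).
-/

open MvPolynomial

namespace H1F

variable {k K : Type*} [Field k] [Field K] [Algebra k K]


/-- The polynomial `A v w` in the coordinates `β, δ, y` of `P3` (`X 0 = β`, `X 1 = δ`,
`X 2 = y`). -/
noncomputable def uP (k : Type*) [Field k] (p : ℕ) : MvPolynomial (Fin 3) k :=
  (1 + X 0 ^ (p - 1) * X 1 + X 0 * X 1 * (X 0 - X 1) * X 2) * (1 + X 0) * (1 + X 1)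

theorem A_eq (p : ℕ) {A v w : K} (h : AlgebraicIndependent k ![A, v, w]) :
    A = 1 + (v - 1) ^ (p - 1) * (w - 1) + (v - 1) * (w - 1) * ((v - 1) - (w - 1)) *
      yy p A v w := by
  obtain ⟨-, -, -, -, hv1, hw1, hvw, -, -⟩ := ind_ne h
  have h1 : v - 1 ≠ 0 := sub_ne_zero.2 hv1
  have h2 : w - 1 ≠ 0 := sub_ne_zero.2 hw1
  have h3 : v - w ≠ 0 := sub_ne_zero.2 hvw
  have h4 : (v - 1) - (w - 1) = v - w := by ring
  unfold yy
  rw [h4, mul_div_cancel₀ _ (mul_ne_zero (mul_ne_zero h1 h2) h3)]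
  ring

/-- the substitution `A = 1 + β^(p-1) δ + β δ (β - δ) y`, `v = 1 + β`, `w = 1 + δ` -/
noncomputable def N11_psi (k : Type*) [Field k] (p : ℕ) :
    MvPolynomial (Fin 3) k →ₐ[k] MvPolynomial (Fin 3) k :=
  aeval ![1 + X 0 ^ (p - 1) * X 1 + X 0 * X 1 * (X 0 - X 1) * X 2, 1 + X 0, 1 + X 1]

theorem N11_clear (p : ℕ) {A v w : K} (h : AlgebraicIndependent k ![A, v, w])
    (P : MvPolynomial (Fin 3) k) : ∃ (N : ℕ) (Q : MvPolynomial (Fin 3) k),
      aeval ![A, v, w] Q = ((v - 1) * (w - 1) * (v - w)) ^ N *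
        aeval ![v - 1, w - 1, yy p A v w] P ∧
      N11_psi k p Q = (X 0 * X 1 * (X 0 - X 1)) ^ N * P := by
  have hA := A_eq p h
  induction P using MvPolynomial.induction_on with
  | C c =>
    refine ⟨0, C c, ?_, ?_⟩
    · rw [algHom_C, algHom_C, pow_zero, one_mul]
    · rw [algHom_C, pow_zero, one_mul]
      rfl
  | add P P' hP hP' =>
    obtain ⟨N, Q, h1, h2⟩ := hP
    obtain ⟨N', Q', h1', h2'⟩ := hP'
    refine ⟨N + N', ((X 1 - 1) * (X 2 - 1) * (X 1 - X 2)) ^ N' * Q +
      ((X 1 - 1) * (X 2 - 1) * (X 1 - X 2)) ^ N * Q', ?_, ?_⟩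
    · rw [map_add, map_add, map_mul, map_mul, h1, h1']
      simp only [map_pow, map_mul, map_sub, map_one, aeval_X, Matrix.cons_val_zero,
        Matrix.cons_val_one, Matrix.cons_val]
      ring
    · rw [map_add, map_mul, map_mul, h2, h2']
      simp only [N11_psi, map_pow, map_mul, map_sub, map_one, aeval_X, Matrix.cons_val_zero,
        Matrix.cons_val_one, Matrix.cons_val]
      ring
  | mul_X P j hP =>
    obtain ⟨N, Q, h1, h2⟩ := hP
    fin_cases j
    · refine ⟨N, Q * (X 1 - 1), ?_, ?_⟩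
      · rw [map_mul, map_mul, h1]
        simp only [map_pow, map_mul, map_sub, map_one, aeval_X, Matrix.cons_val_zero,
          Matrix.cons_val_one, Matrix.cons_val, Fin.zero_eta, Fin.mk_one]
        ring
      · rw [map_mul, h2]
        simp only [N11_psi, map_pow, map_mul, map_sub, map_one, aeval_X, Matrix.cons_val_zero,
          Matrix.cons_val_one, Matrix.cons_val, Fin.zero_eta, Fin.mk_one]
        ring
    · refine ⟨N, Q * (X 2 - 1), ?_, ?_⟩
      · rw [map_mul, map_mul, h1]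
        simp only [map_pow, map_mul, map_sub, map_one, aeval_X, Matrix.cons_val_zero,
          Matrix.cons_val_one, Matrix.cons_val, Fin.zero_eta, Fin.mk_one]
        ring
      · rw [map_mul, h2]
        simp only [N11_psi, map_pow, map_mul, map_sub, map_one, aeval_X, Matrix.cons_val_zero,
          Matrix.cons_val_one, Matrix.cons_val, Fin.zero_eta, Fin.mk_one]
        ring
    · refine ⟨N + 1, Q * (X 0 - 1 - (X 1 - 1) ^ (p - 1) * (X 2 - 1)), ?_, ?_⟩
      · rw [map_mul, map_mul, h1]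
        simp only [map_pow, map_mul, map_sub, map_one, aeval_X, Matrix.cons_val_zero,
          Matrix.cons_val_one, Matrix.cons_val, Fin.reduceFinMk]
        linear_combination (((v - 1) * (w - 1) * (v - w)) ^ N *
          aeval ![v - 1, w - 1, yy p A v w] P) * hA
      · rw [map_mul, h2]
        simp only [N11_psi, map_pow, map_mul, map_sub, map_one, aeval_X, Matrix.cons_val_zero,
          Matrix.cons_val_one, Matrix.cons_val, Fin.reduceFinMk]
        ring

theorem ind_P3 (p : ℕ) {A v w : K} (h : AlgebraicIndependent k ![A, v, w]) :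
    AlgebraicIndependent k ![v - 1, w - 1, yy p A v w] := by
  rw [algebraicIndependent_iff]
  intro P hP
  obtain ⟨N, Q, h1, h2⟩ := N11_clear p h P
  rw [hP, mul_zero] at h1
  have hQ : Q = 0 := (algebraicIndependent_iff.1 h) Q h1
  rw [hQ, map_zero] at h2
  have h0 : (X 0 : MvPolynomial (Fin 3) k) ≠ 0 := X_ne_zero 0
  have h1' : (X 1 : MvPolynomial (Fin 3) k) ≠ 0 := X_ne_zero 1
  have h01 : (X 0 - X 1 : MvPolynomial (Fin 3) k) ≠ 0 :=
    (prime_X_sub 0 (X 1) (N3_vars_X (by decide))).ne_zero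
  rcases mul_eq_zero.1 h2.symm with h3 | h3
  · exact absurd h3 (pow_ne_zero _ (mul_ne_zero (mul_ne_zero h0 h1') h01))
  · exact h3

theorem N11_ne (p : ℕ) {A v w : K} (h : AlgebraicIndependent k ![A, v, w])
    {P : MvPolynomial (Fin 3) k} (hP : P ≠ 0) :
    aeval ![v - 1, w - 1, yy p A v w] P ≠ 0 := fun h0 =>
  hP ((algebraicIndependent_iff.1 (ind_P3 p h)) P h0)

theorem N11_uP (p : ℕ) {A v w : K} (h : AlgebraicIndependent k ![A, v, w]) :
    aeval ![v - 1, w - 1, yy p A v w] (uP k p) = A * v * w := by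
  have hA := A_eq p h
  simp only [uP, map_pow, map_mul, map_sub, map_one, map_add, aeval_X, Matrix.cons_val_zero,
    Matrix.cons_val_one, Matrix.cons_val]
  rw [← hA]
  ring

theorem N11_uP_ne (p : ℕ) {A v w : K} (h : AlgebraicIndependent k ![A, v, w]) :
    aeval ![v - 1, w - 1, yy p A v w] (uP k p) ≠ 0 := by
  obtain ⟨hA, hv, hw, -⟩ := ind_ne h
  rw [N11_uP p h]
  exact mul_ne_zero (mul_ne_zero hA hv) hw

theorem N11_uP_ne0 (p : ℕ) : uP k p ≠ 0 := by
  intro h
  have h1 := congrArg (constantCoeff (σ := Fin 3) (R := k)) h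
  unfold uP at h1
  simp at h1

theorem P3_eq (p : ℕ) {A v w : K} (h : AlgebraicIndependent k ![A, v, w]) :
    ring k p A v w .P3 = Fr (v - 1) (w - 1) (yy p A v w) (uP k p) := by
  obtain ⟨hA, hv, hw, -⟩ := ind_ne h
  have hne := N11_uP_ne p h
  have hAe := A_eq p h
  have e1 : aeval ![v - 1, w - 1, yy p A v w]
      (1 + X 0 ^ (p - 1) * X 1 + X 0 * X 1 * (X 0 - X 1) * X 2 : MvPolynomial (Fin 3) k) = A := by
    simp only [map_pow, map_mul, map_sub, map_one, map_add, aeval_X, Matrix.cons_val_zero,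
      Matrix.cons_val_one, Matrix.cons_val]
    exact hAe.symm
  have e2 : aeval ![v - 1, w - 1, yy p A v w] (1 + X 0 : MvPolynomial (Fin 3) k) = v := by
    simp
  have e3 : aeval ![v - 1, w - 1, yy p A v w] (1 + X 1 : MvPolynomial (Fin 3) k) = w := by
    simp
  apply le_antisymm
  · refine Algebra.adjoin_le ?_
    rintro r (hr | hr | hr | hr | hr | hr)
    · rw [hr]; exact N1_x_mem _ _ _ _
    · rw [hr]; exact N1_y_mem _ _ _ _
    · rw [hr]; exact N1_z_mem _ _ _ _
    · have d : (1 + X 0 ^ (p - 1) * X 1 + X 0 * X 1 * (X 0 - X 1) * X 2 :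
          MvPolynomial (Fin 3) k) ∣ uP k p := ⟨(1 + X 0) * (1 + X 1), by unfold uP; ring⟩
      have := inv_mem_Fr d hne
      rw [e1] at this
      rw [hr]
      exact this
    · have d : (1 + X 0 : MvPolynomial (Fin 3) k) ∣ uP k p :=
        ⟨(1 + X 0 ^ (p - 1) * X 1 + X 0 * X 1 * (X 0 - X 1) * X 2) * (1 + X 1),
        by unfold uP; ring⟩
      have := inv_mem_Fr d hne
      rw [e2] at this
      rw [hr]
      exact this
    · have d : (1 + X 1 : MvPolynomial (Fin 3) k) ∣ uP k p :=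
        ⟨(1 + X 0 ^ (p - 1) * X 1 + X 0 * X 1 * (X 0 - X 1) * X 2) * (1 + X 0),
        by unfold uP; ring⟩
      have := inv_mem_Fr d hne
      rw [e3] at this
      rw [hr]
      exact this
  · have m : ∀ t ∈ ({v - 1, w - 1, yy p A v w, A⁻¹, v⁻¹, w⁻¹} : Set K),
        t ∈ ring k p A v w .P3 := fun t ht => Algebra.subset_adjoin ht
    refine Algebra.adjoin_le ?_
    rintro r (hr | hr | hr | hr)
    · rw [hr]; exact m _ (by simp)
    · rw [hr]; exact m _ (by simp)
    · rw [hr]; exact m _ (by simp)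
    · rw [hr, N11_uP p h, mul_inv, mul_inv]
      exact mul_mem (mul_mem (m _ (by simp)) (m _ (by simp))) (m _ (by simp))

theorem N11_poly_mem (p : ℕ) (A v w : K) (P : MvPolynomial (Fin 3) k) :
    aeval ![v - 1, w - 1, yy p A v w] P ∈ ring k p A v w .P3 :=
  N1_poly_mem (Algebra.subset_adjoin (by simp)) (Algebra.subset_adjoin (by simp))
    (Algebra.subset_adjoin (by simp)) P

theorem N11_gens (p : ℕ) {A v w : K} (h : AlgebraicIndependent k ![A, v, w]) :
    A ∈ ring k p A v w .P3 ∧ A⁻¹ ∈ ring k p A v w .P3 ∧ v ∈ ring k p A v w .P3 ∧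
    v⁻¹ ∈ ring k p A v w .P3 ∧ w ∈ ring k p A v w .P3 ∧ w⁻¹ ∈ ring k p A v w .P3 ∧
    v - 1 ∈ ring k p A v w .P3 ∧ w - 1 ∈ ring k p A v w .P3 ∧
    yy p A v w ∈ ring k p A v w .P3 := by
  have m : ∀ t ∈ ({v - 1, w - 1, yy p A v w, A⁻¹, v⁻¹, w⁻¹} : Set K),
      t ∈ ring k p A v w .P3 := fun t ht => Algebra.subset_adjoin ht
  have hv : v ∈ ring k p A v w .P3 := by
    have h1 := (ring k p A v w .P3).add_mem (m (v - 1) (by simp)) (ring k p A v w .P3).one_mem
    rwa [sub_add_cancel] at h1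
  have hw : w ∈ ring k p A v w .P3 := by
    have h1 := (ring k p A v w .P3).add_mem (m (w - 1) (by simp)) (ring k p A v w .P3).one_mem
    rwa [sub_add_cancel] at h1
  refine ⟨?_, m _ (by simp), hv, m _ (by simp), hw, m _ (by simp), m _ (by simp), m _ (by simp),
    m _ (by simp)⟩
  have h1 := N11_poly_mem (k := k) p A v w
    (1 + X 0 ^ (p - 1) * X 1 + X 0 * X 1 * (X 0 - X 1) * X 2)
  simp only [map_pow, map_mul, map_sub, map_one, map_add, aeval_X, Matrix.cons_val_zero,
    Matrix.cons_val_one, Matrix.cons_val] at h1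
  rwa [← A_eq p h] at h1

theorem K3_le_P3 (p : ℕ) {A v w : K} (h : AlgebraicIndependent k ![A, v, w]) :
    K3 k A v w ≤ ring k p A v w .P3 := by
  obtain ⟨h1, h2, h3, h4, h5, h6, -⟩ := N11_gens p h
  refine Algebra.adjoin_le ?_
  rintro r (hr | hr | hr | hr | hr | hr)
  · rw [hr]; exact h1
  · rw [hr]; exact h2
  · rw [hr]; exact h3
  · rw [hr]; exact h4
  · rw [hr]; exact h5
  · rw [hr]; exact h6

/-- the quotients in `P3` -/
theorem N11_quot (p : ℕ) [Fact p.Prime] [CharP k p] {A v w : K}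
    (h : AlgebraicIndependent k ![A, v, w]) :
    (A - 1) / (v - 1) ∈ ring k p A v w .P3 ∧ (A - 1) / (w - 1) ∈ ring k p A v w .P3 ∧
    (A - v ^ p) / (v - 1) ∈ ring k p A v w .P3 ∧ (A - v ^ p) / (v - w) ∈ ring k p A v w .P3 ∧
    (A - w ^ p) / (w - 1) ∈ ring k p A v w .P3 ∧ (A - w ^ p) / (v - w) ∈ ring k p A v w .P3 := by
  obtain ⟨-, -, -, -, hv1, hw1, hvw, -, -⟩ := ind_ne h
  have h1 : v - 1 ≠ 0 := sub_ne_zero.2 hv1
  have h2 : w - 1 ≠ 0 := sub_ne_zero.2 hw1
  have h3 : v - w ≠ 0 := sub_ne_zero.2 hvw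
  have hA := A_eq p h
  have hp2 : 2 ≤ p := (Fact.out : p.Prime).two_le
  obtain ⟨q, rfl⟩ : ∃ q, p = q + 2 := ⟨p - 2, by omega⟩
  have : CharP K (q + 2) := (Algebra.charP_iff k K (q + 2)).1 inferInstance
  have hvp : v ^ (q + 2) = (v - 1) ^ (q + 2) + 1 := by
    rw [sub_pow_char, one_pow, sub_add_cancel]
  have hwp : w ^ (q + 2) = (w - 1) ^ (q + 2) + 1 := by
    rw [sub_pow_char, one_pow, sub_add_cancel]
  have hq : q + 2 - 1 = q + 1 := rfl
  rw [hq] at hA
  have key : ∀ (P : MvPolynomial (Fin 3) k) (x y : K), y ≠ 0 →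
      x = y * aeval ![v - 1, w - 1, yy (q + 2) A v w] P →
      x / y ∈ ring k (q + 2) A v w .P3 := by
    intro P x y hy hx
    have h4 : x / y = aeval ![v - 1, w - 1, yy (q + 2) A v w] P := by
      rw [hx, mul_div_cancel_left₀ _ hy]
    rw [h4]
    exact N11_poly_mem _ _ _ _ _
  generalize yy (q + 2) A v w = Y at hA key
  refine ⟨?_, ?_, ?_, ?_, ?_, ?_⟩
  · apply key (X 0 ^ q * X 1 + X 1 * (X 0 - X 1) * X 2) _ _ h1
    simp only [map_pow, map_mul, map_sub, map_one, map_add, aeval_X, Matrix.cons_val_zero,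
      Matrix.cons_val_one, Matrix.cons_val]
    linear_combination hA
  · apply key (X 0 ^ (q + 1) + X 0 * (X 0 - X 1) * X 2) _ _ h2
    simp only [map_pow, map_mul, map_sub, map_one, map_add, aeval_X, Matrix.cons_val_zero,
      Matrix.cons_val_one, Matrix.cons_val]
    linear_combination hA
  · apply key (X 0 ^ q * X 1 + X 1 * (X 0 - X 1) * X 2 - X 0 ^ (q + 1)) _ _ h1
    simp only [map_pow, map_mul, map_sub, map_one, map_add, aeval_X, Matrix.cons_val_zero,
      Matrix.cons_val_one, Matrix.cons_val]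
    linear_combination hA - hvp
  · apply key (- X 0 ^ (q + 1) + X 0 * X 1 * X 2) _ _ h3
    simp only [map_pow, map_mul, map_sub, map_one, map_add, map_neg, aeval_X, Matrix.cons_val_zero,
      Matrix.cons_val_one, Matrix.cons_val]
    linear_combination hA - hvp
  · apply key (X 0 ^ (q + 1) + X 0 * (X 0 - X 1) * X 2 - X 1 ^ (q + 1)) _ _ h2
    simp only [map_pow, map_mul, map_sub, map_one, map_add, aeval_X, Matrix.cons_val_zero,
      Matrix.cons_val_one, Matrix.cons_val]
    linear_combination hA - hwp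
  · apply key (X 1 * (∑ i ∈ Finset.range (q + 1), X 0 ^ i * X 1 ^ (q + 1 - 1 - i)) +
      X 0 * X 1 * X 2) _ _ h3
    have hg := (Commute.all (v - 1) (w - 1)).mul_geom_sum₂ (q + 1)
    simp only [map_pow, map_mul, map_sub, map_one, map_add, map_sum, aeval_X,
      Matrix.cons_val_zero, Matrix.cons_val_one, Matrix.cons_val]
    linear_combination hA - hwp - (w - 1) * hg

/-- `NI f` is contained in `P3[1/den f]`: for the frames `0, 2` (`den = δ (v-w)`) etc.  The only
non-trivial generators are `q_f = (a_f - 1)/(v_f - 1)`, a multiple of `(A-1)/(v-1)`,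
`(A-1)/(w-1)`, `(A-v^p)/(v-w)`, `(A - v^p)/(v-1)`, `(A-w^p)/(w-1)`, `(A-w^p)/(v-w)` by a unit of
the torus; all six lie in `P3` (in characteristic `p`, `A - v^p = (A-1) - (v-1)^p`). -/
theorem NI_le_P3 (p : ℕ) [Fact p.Prime] [CharP k p] {A v w : K}
    (h : AlgebraicIndependent k ![A, v, w]) (f : Fin 6) :
    ring k p A v w (.NI f) ≤
      ring k p A v w .P3 ⊔ Algebra.adjoin k {(aeval ![A, v, w] (den k f))⁻¹} := by
  obtain ⟨hA, hv, hw, hA1, hv1, hw1, hvw, -, -⟩ := ind_ne h
  have h1 : v - 1 ≠ 0 := sub_ne_zero.2 hv1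
  have h2 : w - 1 ≠ 0 := sub_ne_zero.2 hw1
  have h3 : v - w ≠ 0 := sub_ne_zero.2 hvw
  have h3' : w - v ≠ 0 := sub_ne_zero.2 hvw.symm
  obtain ⟨mA, mA', mv, mv', mw, mw', mB, mD, -⟩ := N11_gens p h
  obtain ⟨q1, q2, q3, q4, q5, q6⟩ := N11_quot p h
  have mE : v - w ∈ ring k p A v w .P3 := (ring k p A v w .P3).sub_mem mv mw
  have mvp : v ^ p ∈ ring k p A v w .P3 := (ring k p A v w .P3).pow_mem mv p
  have mvp' : (v⁻¹) ^ p ∈ ring k p A v w .P3 := (ring k p A v w .P3).pow_mem mv' p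
  have mwp : w ^ p ∈ ring k p A v w .P3 := (ring k p A v w .P3).pow_mem mw p
  have mwp' : (w⁻¹) ^ p ∈ ring k p A v w .P3 := (ring k p A v w .P3).pow_mem mw' p
  have hle : ring k p A v w .P3 ≤ ring k p A v w .P3 ⊔
    Algebra.adjoin k {(aeval ![A, v, w] (den k f))⁻¹} := le_sup_left
  have hi : (aeval ![A, v, w] (den k f))⁻¹ ∈ ring k p A v w .P3 ⊔
      Algebra.adjoin k {(aeval ![A, v, w] (den k f))⁻¹} :=
    (le_sup_right : _ ≤ ring k p A v w .P3 ⊔ Algebra.adjoin k {(aeval ![A, v, w] (den k f))⁻¹})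
      (Algebra.subset_adjoin (Set.mem_singleton _))
  set R := ring k p A v w .P3 ⊔ Algebra.adjoin k {(aeval ![A, v, w] (den k f))⁻¹} with hR
  clear_value R
  have tA := hle mA
  have tA' := hle mA'
  have tv := hle mv
  have tv' := hle mv'
  have tw := hle mw
  have tw' := hle mw'
  have tB := hle mB
  have tD := hle mD
  have tE := hle mE
  have tvp := hle mvp
  have tvp' := hle mvp'
  have twp := hle mwp
  have twp' := hle mwp'
  have t1 := hle q1
  have t2 := hle q2
  have t3 := hle q3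
  have t4 := hle q4
  have t5 := hle q5
  have t6 := hle q6
  have iB : ∀ z, z ≠ 0 → ((v - 1) * z)⁻¹ ∈ R → z ∈ R → (v - 1)⁻¹ ∈ R := by
    intro z hz h4 h5
    have h6 := R.mul_mem h5 h4
    rwa [show z * ((v - 1) * z)⁻¹ = (v - 1)⁻¹ by field_simp] at h6
  have iD : ∀ z, z ≠ 0 → ((w - 1) * z)⁻¹ ∈ R → z ∈ R → (w - 1)⁻¹ ∈ R := by
    intro z hz h4 h5
    have h6 := R.mul_mem h5 h4
    rwa [show z * ((w - 1) * z)⁻¹ = (w - 1)⁻¹ by field_simp] at h6
  have iE : ∀ z, z ≠ 0 → (z * (v - w))⁻¹ ∈ R → z ∈ R → (v - w)⁻¹ ∈ R := by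
    intro z hz h4 h5
    have h6 := R.mul_mem h5 h4
    rwa [show z * (z * (v - w))⁻¹ = (v - w)⁻¹ by field_simp] at h6
  refine Algebra.adjoin_le ?_
  fin_cases f
  · -- frame 0
    have hd : aeval ![A, v, w] (den k 0) = (w - 1) * (v - w) := by simp [den, pD, pE]
    replace hi : ((w - 1) * (v - w))⁻¹ ∈ R := by rw [← hd]; exact hi
    have uD := iD _ h3 hi tE
    have uE := iE _ h2 hi tD
    rintro r (hr | hr | hr | hr | hr)
    · rw [hr]; exact tB
    · rw [hr]; exact t1
    · rw [hr]; exact uD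
    · rw [hr]; exact tA'
    · have e : (w - 1) / (w - v) = -((w - 1) * (v - w)⁻¹) := by
        field_simp
        ring
      have h4 : r = -((w - 1) * (v - w)⁻¹) := hr.trans e
      rw [h4]
      exact R.neg_mem (R.mul_mem tD uE)
  · -- frame 1
    have hd : aeval ![A, v, w] (den k 1) = (v - 1) * (v - w) := by simp [den, pB, pE]
    replace hi : ((v - 1) * (v - w))⁻¹ ∈ R := by rw [← hd]; exact hi
    have uB := iB _ h3 hi tE
    have uE := iE _ h1 hi tB
    rintro r (hr | hr | hr | hr | hr)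
    · rw [hr]; exact tD
    · rw [hr]; exact t2
    · rw [hr]; exact uB
    · rw [hr]; exact tA'
    · have h4 : r = (v - 1) * (v - w)⁻¹ := hr.trans (div_eq_mul_inv _ _)
      rw [h4]
      exact R.mul_mem tB uE
  · -- frame 2
    have hd : aeval ![A, v, w] (den k 2) = (w - 1) * (v - w) := by simp [den, pD, pE]
    replace hi : ((w - 1) * (v - w))⁻¹ ∈ R := by rw [← hd]; exact hi
    have uD := iD _ h3 hi tE
    have uE := iE _ h2 hi tD
    rintro r (hr | hr | hr | hr | hr)
    · have h4 : r = -((v - 1) * v⁻¹) := by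
        refine hr.trans ?_
        show v⁻¹ - 1 = _
        field_simp
        ring
      rw [h4]
      exact R.neg_mem (R.mul_mem tB tv')
    · have h4 : r = -((A - v ^ p) / (v - 1) * (v * (v⁻¹) ^ p)) := by
        refine hr.trans ?_
        show (A / v ^ p - 1) / (v⁻¹ - 1) = _
        have h5 : v⁻¹ - 1 ≠ 0 := by
          intro h6
          apply hv1
          rw [sub_eq_zero, inv_eq_one] at h6
          exact h6
        have h6 : v ^ p ≠ 0 := pow_ne_zero _ hv
        have h7 : 1 - v ≠ 0 := sub_ne_zero.2 hv1.symm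
        rw [inv_pow]
        field_simp
        ring
      rw [h4]
      exact R.neg_mem (R.mul_mem t3 (R.mul_mem tv tvp'))
    · have h4 : r = -(v * (v - w)⁻¹) := by
        refine hr.trans ?_
        show (w / v - 1)⁻¹ = _
        have h5 : w / v - 1 = (w - v) / v := by field_simp
        rw [h5, inv_div]
        field_simp
        ring
      rw [h4]
      exact R.neg_mem (R.mul_mem tv uE)
    · have h4 : r = v ^ p * A⁻¹ := by
        refine hr.trans ?_
        show (A / v ^ p)⁻¹ = _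
        rw [inv_div, div_eq_mul_inv]
      rw [h4]
      exact R.mul_mem tvp tA'
    · have h4 : r = -((v - w) * (w - 1)⁻¹) := by
        refine hr.trans ?_
        show (w / v - 1) / (w / v - v⁻¹) = _
        have h5 : w / v - 1 = (w - v) / v := by field_simp
        have h6 : w / v - v⁻¹ = (w - 1) / v := by field_simp
        rw [h5, h6]
        field_simp
        ring
      rw [h4]
      exact R.neg_mem (R.mul_mem tE uD)
  · -- frame 3
    have hd : aeval ![A, v, w] (den k 3) = (v - 1) * (w - 1) := by simp [den, pB, pD]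
    replace hi : ((v - 1) * (w - 1))⁻¹ ∈ R := by rw [← hd]; exact hi
    have uB := iB _ h2 hi tD
    have uD := iD _ h1 (by rwa [mul_comm]) tB
    rintro r (hr | hr | hr | hr | hr)
    · have h4 : r = -((v - w) * v⁻¹) := by
        refine hr.trans ?_
        show w / v - 1 = _
        field_simp
        ring
      rw [h4]
      exact R.neg_mem (R.mul_mem tE tv')
    · have h4 : r = -((A - v ^ p) / (v - w) * (v * (v⁻¹) ^ p)) := by
        refine hr.trans ?_
        show (A / v ^ p - 1) / (w / v - 1) = _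
        have h5 : w / v - 1 = (w - v) / v := by field_simp
        have h6 : v ^ p ≠ 0 := pow_ne_zero _ hv
        rw [h5, inv_pow]
        field_simp
        ring
      rw [h4]
      exact R.neg_mem (R.mul_mem t4 (R.mul_mem tv tvp'))
    · have h4 : r = -(v * (v - 1)⁻¹) := by
        refine hr.trans ?_
        show (v⁻¹ - 1)⁻¹ = _
        have h5 : v⁻¹ - 1 = -((v - 1) / v) := by
          field_simp
          ring
        rw [h5, inv_neg, inv_div, div_eq_mul_inv]
      rw [h4]
      exact R.neg_mem (R.mul_mem tv uB)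
    · have h4 : r = v ^ p * A⁻¹ := by
        refine hr.trans ?_
        show (A / v ^ p)⁻¹ = _
        rw [inv_div, div_eq_mul_inv]
      rw [h4]
      exact R.mul_mem tvp tA'
    · have h4 : r = (v - 1) * (w - 1)⁻¹ := by
        refine hr.trans ?_
        show (v⁻¹ - 1) / (v⁻¹ - w / v) = _
        have h5 : v⁻¹ - 1 = -((v - 1) / v) := by
          field_simp
          ring
        have h6 : v⁻¹ - w / v = -((w - 1) / v) := by
          field_simp
          ring
        rw [h5, h6]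
        field_simp
      rw [h4]
      exact R.mul_mem tB uD
  · -- frame 4
    have hd : aeval ![A, v, w] (den k 4) = (v - 1) * (v - w) := by simp [den, pB, pE]
    replace hi : ((v - 1) * (v - w))⁻¹ ∈ R := by rw [← hd]; exact hi
    have uB := iB _ h3 hi tE
    have uE := iE _ h1 hi tB
    rintro r (hr | hr | hr | hr | hr)
    · have h4 : r = -((w - 1) * w⁻¹) := by
        refine hr.trans ?_
        show w⁻¹ - 1 = _
        field_simp
        ring
      rw [h4]
      exact R.neg_mem (R.mul_mem tD tw')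
    · have h4 : r = -((A - w ^ p) / (w - 1) * (w * (w⁻¹) ^ p)) := by
        refine hr.trans ?_
        show (A / w ^ p - 1) / (w⁻¹ - 1) = _
        have h5 : w⁻¹ - 1 = -((w - 1) / w) := by
          field_simp
          ring
        have h6 : w ^ p ≠ 0 := pow_ne_zero _ hw
        rw [h5, inv_pow]
        field_simp
      rw [h4]
      exact R.neg_mem (R.mul_mem t5 (R.mul_mem tw twp'))
    · have h4 : r = w * (v - w)⁻¹ := by
        refine hr.trans ?_
        show (v / w - 1)⁻¹ = _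
        have h5 : v / w - 1 = (v - w) / w := by field_simp
        rw [h5, inv_div, div_eq_mul_inv]
      rw [h4]
      exact R.mul_mem tw uE
    · have h4 : r = w ^ p * A⁻¹ := by
        refine hr.trans ?_
        show (A / w ^ p)⁻¹ = _
        rw [inv_div, div_eq_mul_inv]
      rw [h4]
      exact R.mul_mem twp tA'
    · have h4 : r = (v - w) * (v - 1)⁻¹ := by
        refine hr.trans ?_
        show (v / w - 1) / (v / w - w⁻¹) = _
        have h5 : v / w - 1 = (v - w) / w := by field_simp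
        have h6 : v / w - w⁻¹ = (v - 1) / w := by field_simp
        rw [h5, h6]
        field_simp
      rw [h4]
      exact R.mul_mem tE uB
  · -- frame 5
    have hd : aeval ![A, v, w] (den k 5) = (v - 1) * (w - 1) := by simp [den, pB, pD]
    replace hi : ((v - 1) * (w - 1))⁻¹ ∈ R := by rw [← hd]; exact hi
    have uB := iB _ h2 hi tD
    have uD := iD _ h1 (by rwa [mul_comm]) tB
    rintro r (hr | hr | hr | hr | hr)
    · have h4 : r = (v - w) * w⁻¹ := by
        refine hr.trans ?_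
        show v / w - 1 = _
        field_simp
      rw [h4]
      exact R.mul_mem tE tw'
    · have h4 : r = (A - w ^ p) / (v - w) * (w * (w⁻¹) ^ p) := by
        refine hr.trans ?_
        show (A / w ^ p - 1) / (v / w - 1) = _
        have h5 : v / w - 1 = (v - w) / w := by field_simp
        have h6 : w ^ p ≠ 0 := pow_ne_zero _ hw
        rw [h5, inv_pow]
        field_simp
      rw [h4]
      exact R.mul_mem t6 (R.mul_mem tw twp')
    · have h4 : r = -(w * (w - 1)⁻¹) := by
        refine hr.trans ?_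
        show (w⁻¹ - 1)⁻¹ = _
        have h5 : w⁻¹ - 1 = -((w - 1) / w) := by
          field_simp
          ring
        rw [h5, inv_neg, inv_div, div_eq_mul_inv]
      rw [h4]
      exact R.neg_mem (R.mul_mem tw uD)
    · have h4 : r = w ^ p * A⁻¹ := by
        refine hr.trans ?_
        show (A / w ^ p)⁻¹ = _
        rw [inv_div, div_eq_mul_inv]
      rw [h4]
      exact R.mul_mem twp tA'
    · have h4 : r = (w - 1) * (v - 1)⁻¹ := by
        refine hr.trans ?_
        show (w⁻¹ - 1) / (w⁻¹ - v / w) = _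
        have h5 : w⁻¹ - 1 = -((w - 1) / w) := by
          field_simp
          ring
        have h6 : w⁻¹ - v / w = -((v - 1) / w) := by
          field_simp
          ring
        rw [h5, h6]
        field_simp
      rw [h4]
      exact R.mul_mem tD uB

theorem N11_sup (p : ℕ) {A v w : K} (h : AlgebraicIndependent k ![A, v, w])
    {G : MvPolynomial (Fin 3) k} (hG : G ≠ 0) {g : K}
    (hg : aeval ![v - 1, w - 1, yy p A v w] G = g) :
    ring k p A v w .P3 ⊔ Algebra.adjoin k {g⁻¹} =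
      Fr (v - 1) (w - 1) (yy p A v w) (uP k p * G) := by
  rw [← hg, P3_eq p h]
  exact Fr_sup_inv (N11_ne p h (mul_ne_zero (N11_uP_ne0 p) hG))

theorem N11_prime01 : Prime (X 0 - X 1 : MvPolynomial (Fin 3) k) :=
  prime_X_sub 0 (X 1) (N3_vars_X (by decide))

theorem N11_not1 : ¬ (X 1 : MvPolynomial (Fin 3) k) ∣ X 0 - X 1 := by
  refine not_dvd_of_eval ![(1 : k), 0, 0] ?_ ?_
  · simp
  · simp

theorem N11_not0 : ¬ (X 0 : MvPolynomial (Fin 3) k) ∣ X 0 - X 1 := by
  refine not_dvd_of_eval ![(0 : k), 1, 0] ?_ ?_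
  · simp
  · simp

theorem N11_not01 : ¬ (X 0 : MvPolynomial (Fin 3) k) ∣ X 1 := by
  refine not_dvd_of_eval ![(0 : k), 1, 0] ?_ ?_
  · simp
  · simp

/-- Intersections inside localizations of `P3`. -/
theorem P3_inf1 (p : ℕ) {A v w : K} (h : AlgebraicIndependent k ![A, v, w]) {r : K}
    (h1 : r ∈ ring k p A v w .P3 ⊔ Algebra.adjoin k {((v - 1) * (w - 1))⁻¹})
    (h2 : r ∈ ring k p A v w .P3 ⊔ Algebra.adjoin k {((v - 1) * (v - w))⁻¹}) :
    r ∈ ring k p A v w .P3 ⊔ Algebra.adjoin k {(v - 1)⁻¹} := by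
  rw [N11_sup p h (mul_ne_zero (X_ne_zero 0) (X_ne_zero 1)) (by simp), ← mul_assoc] at h1
  rw [N11_sup p h (mul_ne_zero (X_ne_zero 0) N11_prime01.ne_zero) (by simp), ← mul_assoc] at h2
  rw [N11_sup p h (X_ne_zero 0) (by simp)]
  exact Fr_inf (ind_P3 p h) (mul_ne_zero (N11_uP_ne0 p) (X_ne_zero 0)) (prime_X 1) N11_not1 h1 h2

theorem P3_inf2 (p : ℕ) {A v w : K} (h : AlgebraicIndependent k ![A, v, w]) {r : K}
    (h1 : r ∈ ring k p A v w .P3 ⊔ Algebra.adjoin k {((v - 1) * (w - 1))⁻¹})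
    (h2 : r ∈ ring k p A v w .P3 ⊔ Algebra.adjoin k {((w - 1) * (v - w))⁻¹}) :
    r ∈ ring k p A v w .P3 ⊔ Algebra.adjoin k {(w - 1)⁻¹} := by
  rw [mul_comm (v - 1) (w - 1), N11_sup p h (mul_ne_zero (X_ne_zero 1) (X_ne_zero 0)) (by simp),
    ← mul_assoc] at h1
  rw [N11_sup p h (mul_ne_zero (X_ne_zero 1) N11_prime01.ne_zero) (by simp), ← mul_assoc] at h2
  rw [N11_sup p h (X_ne_zero 1) (by simp)]
  exact Fr_inf (ind_P3 p h) (mul_ne_zero (N11_uP_ne0 p) (X_ne_zero 1)) (prime_X 0) N11_not0 h1 h2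

theorem P3_inf3 (p : ℕ) {A v w : K} (h : AlgebraicIndependent k ![A, v, w]) {r : K}
    (h1 : r ∈ ring k p A v w .P3 ⊔ Algebra.adjoin k {(v - 1)⁻¹})
    (h2 : r ∈ ring k p A v w .P3 ⊔ Algebra.adjoin k {(w - 1)⁻¹}) :
    r ∈ ring k p A v w .P3 := by
  rw [N11_sup p h (X_ne_zero 0) (by simp)] at h1
  rw [N11_sup p h (X_ne_zero 1) (by simp)] at h2
  rw [P3_eq p h]
  exact Fr_inf (ind_P3 p h) (N11_uP_ne0 p) (prime_X 0) N11_not01 h1 h2

end H1F
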