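import Pool.Agent.Lib.H1F.N.N0

/-!
# H1F, chunk N30

The ring `L`: powers of lifts.
-/

open MvPolynomial

namespace H1F

theorem N30_pow {L : Type*} [CommRing L] (y t : L) (ht : t * t = 0) (n : ℕ) :
    (y + t) ^ n = y ^ n + n * y ^ (n - 1) * t := by
  induction n with
  | zero => simp
  | succ n ih =>
    rw [pow_succ, ih]
    cases n with
    | zero => simp
    | succ m =>
      have h1 : m + 1 - 1 = m := rfl
      have h2 : m + 1 + 1 - 1 = m + 1 := rfl
      rw [h1, h2]
      push_cast
      linear_combination ((m : L) + 1) * y ^ m * ht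

variable {L K : Type*} [CommRing L] [Field K] (π : L →+* K) (p : ℕ)

/-- `p ^ 2 = 0` in `L`: `π (p x) = 0` because `p = 0` in `K`. -/
theorem p_mul_p_mul (hchar : (p : K) = 0) (ann : ∀ x, (p : L) * x = 0 ↔ π x = 0) (x : L) :
    (p : L) * (p * x) = 0 := by
  rw [ann, map_mul, map_natCast, hchar, zero_mul]

/-- The `p`-th power of a lift does not depend on the lift. -/
theorem pow_p_eq (hp : 2 ≤ p) (hchar : (p : K) = 0)
    (ker : ∀ x, π x = 0 ↔ ∃ y, x = (p : L) * y)
    (ann : ∀ x, (p : L) * x = 0 ↔ π x = 0) {x y : L} (h : π x = π y) : x ^ p = y ^ p := by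
  obtain ⟨z, hz⟩ := (ker (x - y)).1 (by rw [map_sub, h, sub_self])
  have hx : x = y + (p : L) * z := by linear_combination hz
  have h1 : ((p : L) * z) * ((p : L) * z) = 0 := by
    have := p_mul_p_mul π p hchar ann (z * z)
    linear_combination this
  rw [hx, N30_pow _ _ h1]
  have h2 := p_mul_p_mul π p hchar ann (y ^ (p - 1) * z)
  linear_combination h2

/-- The polynomial `φ(b) = ((1+b)^p - 1 - b^p)/p` with integer coefficients. -/
def phi (p : ℕ) {S : Type*} [CommRing S] (b : S) : S :=
  ∑ j ∈ Finset.Ioo 0 p, (((p.choose j) / p : ℕ) : S) * b ^ j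

theorem one_add_pow_p (hp : p.Prime) {S : Type*} [CommRing S] (b : S) :
    (1 + b) ^ p = 1 + b ^ p + p * phi p b := by
  have hp0 := hp.pos
  have h1 : Finset.range (p + 1) = insert 0 (insert p (Finset.Ioo 0 p)) := by
    ext i
    simp only [Finset.mem_range, Finset.mem_insert, Finset.mem_Ioo]
    omega
  rw [add_comm 1 b, add_pow, h1, Finset.sum_insert, Finset.sum_insert, phi, Finset.mul_sum]
  · have h2 : ∀ j ∈ Finset.Ioo 0 p, b ^ j * 1 ^ (p - j) * (p.choose j : S) =
        (p : S) * ((((p.choose j) / p : ℕ) : S) * b ^ j) := by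
      intro j hj
      rw [Finset.mem_Ioo] at hj
      have h3 : p ∣ p.choose j := hp.dvd_choose_self (by omega) hj.2
      have h4 : ((p.choose j : ℕ) : S) = (p : S) * (((p.choose j) / p : ℕ) : S) := by
        rw [← Nat.cast_mul, Nat.mul_div_cancel' h3]
      rw [h4, one_pow]
      ring
    rw [Finset.sum_congr rfl h2]
    simp
    ring
  · simp
  · simp only [Finset.mem_insert, Finset.mem_Ioo]
    omega

end H1F
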