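import Pool.Agent.Lib.H1F.N.N0

/-!
# H1F, chunk N31

Lifts of elements of `R c ⊔ R d`.
-/

open MvPolynomial

namespace H1F

variable {k K : Type*} [Field k] [Field K] [Algebra k K]

theorem exists_lift_sup {p : ℕ} {ι : Type*} {R : ι → Subalgebra k K} (F : LiftedFamily p R)
    (c d : ι) {r : K} (hr : r ∈ R c ⊔ R d) : ∃ x ∈ F.T c d, F.π x = r := by
  have hc : ∀ r ∈ R c, r ∈ (F.T c d).map F.π := by
    intro r hr
    obtain ⟨x, hx, hxr⟩ := F.lift c r hr
    exact ⟨x, F.le_left c d hx, hxr⟩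
  have hd : ∀ r ∈ R d, r ∈ (F.T c d).map F.π := by
    intro r hr
    obtain ⟨x, hx, hxr⟩ := F.lift d r hr
    exact ⟨x, F.le_right c d hx, hxr⟩
  let E : Subalgebra k K :=
    { (F.T c d).map F.π with
      algebraMap_mem' := fun a => hc _ ((R c).algebraMap_mem a) }
  have h1 : R c ⊔ R d ≤ E := sup_le hc hd
  obtain ⟨x, hx, hxr⟩ := h1 hr
  exact ⟨x, hx, hxr⟩

/-- A multiple of `p` in `S c` is `p` times an element over `R c`. -/
theorem of_mul_mem_self {p : ℕ} {ι : Type*} {R : ι → Subalgebra k K} (F : LiftedFamily p R)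
    (c : ι) {x : F.L} (hx : (p : F.L) * x ∈ F.S c) : F.π x ∈ R c := by
  have h1 := F.of_mul_mem c c x (F.le_left c c hx)
  rwa [sup_idem] at h1

end H1F
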