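import Pool.Agent.Lib.H1F.N.N22
import Pool.Agent.Lib.H1F.N.N30
import Pool.Agent.Lib.H1F.N.N31

/-!
# H1F, chunk N32

The global lift of `A` up to `p`-th powers.
-/

open MvPolynomial

namespace H1F

variable {k K : Type*} [Field k] [Field K] [Algebra k K]


/-- The unit `u_c` (`1`, `v` or `w`) with `A = A_c * u_c ^ p`, where `A_c` is the distinguished
unit of the chart `c`. -/
def unitOf (v w : K) : Ch → K
  | .NI f => ![1, 1, v, v, w, w] f
  | .NII f => ![1, 1, v, v, w, w] f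
  | .M i => ![1, v, w] i
  | _ => 1

theorem N32_unit_ne {v w : K} (hv : v ≠ 0) (hw : w ≠ 0) (c : Ch) : unitOf v w c ≠ 0 := by
  cases c with
  | NI f => fin_cases f <;> simp [unitOf, hv, hw]
  | NII f => fin_cases f <;> simp [unitOf, hv, hw]
  | M i => fin_cases i <;> simp [unitOf, hv, hw]
  | T6 => exact one_ne_zero
  | P1 => exact one_ne_zero
  | P2 => exact one_ne_zero
  | P3 => exact one_ne_zero
  | P4 => exact one_ne_zero
  | Y0 => exact one_ne_zero

theorem N32_fa (p : ℕ) (A v w : K) (f : Fin 6) :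
    fa p A v w f = A / (![1, 1, v, v, w, w] f : K) ^ p := by
  fin_cases f <;> simp [fa]

theorem N32_NI (a v w : K) (hv : v ≠ 1) :
    a ∈ NI k a v w ∧ a⁻¹ ∈ NI k a v w ∧ v ∈ NI k a v w ∧ (w - 1)⁻¹ ∈ NI k a v w := by
  have m : ∀ t ∈ ({v - 1, (a - 1) / (v - 1), (w - 1)⁻¹, a⁻¹, (w - 1) / (w - v)} : Set K),
      t ∈ NI k a v w := fun t ht => Algebra.subset_adjoin ht
  have hv' : v - 1 ≠ 0 := sub_ne_zero.mpr hv
  refine ⟨?_, m _ (by simp), ?_, m _ (by simp)⟩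
  · have e : a = 1 + (v - 1) * ((a - 1) / (v - 1)) := by
      field_simp
      ring
    have h1 : 1 + (v - 1) * ((a - 1) / (v - 1)) ∈ NI k a v w :=
      add_mem (one_mem _) (mul_mem (m _ (by simp)) (m _ (by simp)))
    rwa [← e] at h1
  · have h1 : v - 1 + 1 ∈ NI k a v w := add_mem (m _ (by simp)) (one_mem _)
    rwa [sub_add_cancel] at h1

theorem N32_NII (a v w : K) (ha : a ≠ 1) :
    a ∈ NII k a v w ∧ a⁻¹ ∈ NII k a v w ∧ v ∈ NII k a v w ∧ (w - 1)⁻¹ ∈ NII k a v w := by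
  have m : ∀ t ∈ ({a - 1, (v - 1) / (a - 1), (w - 1)⁻¹, a⁻¹, (w - 1) / (w - v)} : Set K),
      t ∈ NII k a v w := fun t ht => Algebra.subset_adjoin ht
  have ha' : a - 1 ≠ 0 := sub_ne_zero.mpr ha
  refine ⟨?_, m _ (by simp), ?_, m _ (by simp)⟩
  · have h1 : a - 1 + 1 ∈ NII k a v w := add_mem (m _ (by simp)) (one_mem _)
    rwa [sub_add_cancel] at h1
  · have e : v = 1 + (a - 1) * ((v - 1) / (a - 1)) := by
      field_simp
      ring
    have h1 : 1 + (a - 1) * ((v - 1) / (a - 1)) ∈ NII k a v w :=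
      add_mem (one_mem _) (mul_mem (m _ (by simp)) (m _ (by simp)))
    rwa [← e] at h1

theorem N32_MM (p : ℕ) (a v w : K) :
    a ∈ MM k p a v w ∧ a⁻¹ ∈ MM k p a v w ∧ (v - 1)⁻¹ ∈ MM k p a v w ∧
      (w - 1)⁻¹ ∈ MM k p a v w := by
  have m : ∀ t ∈ ({a, a⁻¹, (v - 1)⁻¹, (w - 1)⁻¹, (v - 1) ^ p / (a - v ^ p),
      (w - 1) ^ p / (a - w ^ p)} : Set K), t ∈ MM k p a v w := fun t ht =>
    Algebra.subset_adjoin ht
  exact ⟨m _ (by simp), m _ (by simp), m _ (by simp), m _ (by simp)⟩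

theorem N32_P3 (p : ℕ) {A v w : K} (h : AlgebraicIndependent k ![A, v, w]) :
    A ∈ P3 k p A v w ∧ A⁻¹ ∈ P3 k p A v w ∧ v ∈ P3 k p A v w ∧ w ∈ P3 k p A v w := by
  obtain ⟨-, -, -, -, hv1, hw1, hvw, -, -⟩ := ind_ne h
  have m : ∀ t ∈ ({v - 1, w - 1, yy p A v w, A⁻¹, v⁻¹, w⁻¹} : Set K), t ∈ P3 k p A v w :=
    fun t ht => Algebra.subset_adjoin ht
  have mv : v ∈ P3 k p A v w := by
    have h1 : v - 1 + 1 ∈ P3 k p A v w := add_mem (m _ (by simp)) (one_mem _)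
    rwa [sub_add_cancel] at h1
  have mw : w ∈ P3 k p A v w := by
    have h1 : w - 1 + 1 ∈ P3 k p A v w := add_mem (m _ (by simp)) (one_mem _)
    rwa [sub_add_cancel] at h1
  refine ⟨?_, m _ (by simp), mv, mw⟩
  have hv' : v - 1 ≠ 0 := sub_ne_zero.mpr hv1
  have hw' : w - 1 ≠ 0 := sub_ne_zero.mpr hw1
  have hvw' : v - w ≠ 0 := sub_ne_zero.mpr hvw
  have e : A = 1 + (v - 1) ^ (p - 1) * (w - 1) +
      yy p A v w * ((v - 1) * (w - 1) * (v - w)) := by
    unfold yy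
    rw [div_mul_cancel₀ _ (mul_ne_zero (mul_ne_zero hv' hw') hvw')]
    ring
  have h1 : 1 + (v - 1) ^ (p - 1) * (w - 1) +
      yy p A v w * ((v - 1) * (w - 1) * (v - w)) ∈ P3 k p A v w :=
    add_mem (add_mem (one_mem _) (mul_mem (pow_mem (m _ (by simp)) _) (m _ (by simp))))
      (mul_mem (m _ (by simp)) (mul_mem (mul_mem (m _ (by simp)) (m _ (by simp)))
        (sub_mem mv mw)))
  rwa [← e] at h1

theorem N32_frame_ne (p : ℕ) {A v w : K} (h : AlgebraicIndependent k ![A, v, w]) (f : Fin 6) :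
    fa p A v w f ≠ 1 ∧ fv v w f ≠ 1 := by
  obtain ⟨-, -, -, h1, h2, -⟩ := ind_ne (frame_ind p h f)
  exact ⟨h1, h2⟩

/-- `A / u_c ^ p` and its inverse lie in the ring of the chart `c`. -/
theorem unit_mem (p : ℕ) {A v w : K} (h : AlgebraicIndependent k ![A, v, w]) (c : Ch)
    (hc : c.inV) :
    A / unitOf v w c ^ p ∈ ring k p A v w c ∧ (A / unitOf v w c ^ p)⁻¹ ∈ ring k p A v w c := by
  cases c with
  | NI f =>
    have e : A / unitOf v w (Ch.NI f) ^ p = fa p A v w f := (N32_fa p A v w f).symm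
    rw [e]
    obtain ⟨h1, h2, -, -⟩ := N32_NI (k := k) (fa p A v w f) (fv v w f) (fw v w f)
      (N32_frame_ne p h f).2
    exact ⟨h1, h2⟩
  | NII f =>
    have e : A / unitOf v w (Ch.NII f) ^ p = fa p A v w f := (N32_fa p A v w f).symm
    rw [e]
    obtain ⟨h1, h2, -, -⟩ := N32_NII (k := k) (fa p A v w f) (fv v w f) (fw v w f)
      (N32_frame_ne p h f).1
    exact ⟨h1, h2⟩
  | M i =>
    fin_cases i
    · have e : A / unitOf v w (Ch.M 0) ^ p = A := by simp [unitOf]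
      change A / unitOf v w (Ch.M 0) ^ p ∈ MM k p A v w ∧
        (A / unitOf v w (Ch.M 0) ^ p)⁻¹ ∈ MM k p A v w
      rw [e]
      exact ⟨(N32_MM p A v w).1, (N32_MM p A v w).2.1⟩
    · exact ⟨(N32_MM p (A / v ^ p) v⁻¹ (w / v)).1, (N32_MM p (A / v ^ p) v⁻¹ (w / v)).2.1⟩
    · exact ⟨(N32_MM p (A / w ^ p) w⁻¹ (v / w)).1, (N32_MM p (A / w ^ p) w⁻¹ (v / w)).2.1⟩
  | T6 =>
    have e : A / unitOf v w Ch.T6 ^ p = A := by simp [unitOf]
    rw [e]
    exact ⟨Algebra.subset_adjoin (by simp), Algebra.subset_adjoin (by simp)⟩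
  | P1 => exact absurd hc id
  | P2 => exact absurd hc id
  | P3 =>
    have e : A / unitOf v w Ch.P3 ^ p = A := by simp [unitOf]
    rw [e]
    exact ⟨(N32_P3 p h).1, (N32_P3 p h).2.1⟩
  | P4 => exact absurd hc id
  | Y0 => exact absurd hc id

theorem N32_tri {v w : K} (hv : v ≠ 0) (hw : w ≠ 0) (f : Fin 6) (j : Fin 3) :
    (![1, v, w] j : K) / (![1, 1, v, v, w, w] f : K) = 1 ∨
    (![1, v, w] j : K) / (![1, 1, v, v, w, w] f : K) = fv v w f ∨
    (![1, v, w] j : K) / (![1, 1, v, v, w, w] f : K) = fw v w f := by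
  fin_cases f <;> fin_cases j <;> simp [fv, fw, hv, hw]

/-- in the chart `c` the quotients `u_j / u_c` or their transforms are regular -/
theorem N32_tau (p : ℕ) {A v w : K} (h : AlgebraicIndependent k ![A, v, w]) (c : Ch)
    (hc : c.inV) (j : Fin 3) :
    (![1, v, w] j : K) / unitOf v w c ∈ ring k p A v w c ∨
    ((![1, v, w] j : K) / unitOf v w c - 1)⁻¹ ∈ ring k p A v w c := by
  obtain ⟨-, hv, hw, -⟩ := ind_ne h
  cases c with
  | NI f =>
    obtain ⟨-, -, h3, h4⟩ := N32_NI (k := k) (fa p A v w f) (fv v w f) (fw v w f)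
      (N32_frame_ne p h f).2
    change (![1, v, w] j : K) / (![1, 1, v, v, w, w] f : K) ∈ _ ∨
      ((![1, v, w] j : K) / (![1, 1, v, v, w, w] f : K) - 1)⁻¹ ∈ _
    rcases N32_tri hv hw f j with e | e | e
    · rw [e]
      exact Or.inl (one_mem _)
    · rw [e]
      exact Or.inl h3
    · rw [e]
      exact Or.inr h4
  | NII f =>
    obtain ⟨-, -, h3, h4⟩ := N32_NII (k := k) (fa p A v w f) (fv v w f) (fw v w f)
      (N32_frame_ne p h f).1
    change (![1, v, w] j : K) / (![1, 1, v, v, w, w] f : K) ∈ _ ∨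
      ((![1, v, w] j : K) / (![1, 1, v, v, w, w] f : K) - 1)⁻¹ ∈ _
    rcases N32_tri hv hw f j with e | e | e
    · rw [e]
      exact Or.inl (one_mem _)
    · rw [e]
      exact Or.inl h3
    · rw [e]
      exact Or.inr h4
  | M i =>
    fin_cases i
    · have e0 : unitOf v w (Ch.M 0) = 1 := rfl
      change (![1, v, w] j : K) / unitOf v w (Ch.M 0) ∈ MM k p A v w ∨
        ((![1, v, w] j : K) / unitOf v w (Ch.M 0) - 1)⁻¹ ∈ MM k p A v w
      rw [e0, div_one]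
      fin_cases j
      · exact Or.inl (one_mem _)
      · exact Or.inr (N32_MM p A v w).2.2.1
      · exact Or.inr (N32_MM p A v w).2.2.2
    · have e0 : unitOf v w (Ch.M 1) = v := rfl
      change (![1, v, w] j : K) / unitOf v w (Ch.M 1) ∈ MM k p (A / v ^ p) v⁻¹ (w / v) ∨
        ((![1, v, w] j : K) / unitOf v w (Ch.M 1) - 1)⁻¹ ∈ MM k p (A / v ^ p) v⁻¹ (w / v)
      rw [e0]
      fin_cases j
      · right
        have := (N32_MM (k := k) p (A / v ^ p) v⁻¹ (w / v)).2.2.1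
        change (1 / v - 1)⁻¹ ∈ _
        rwa [one_div]
      · left
        change v / v ∈ _
        rw [div_self hv]
        exact one_mem _
      · exact Or.inr (N32_MM p (A / v ^ p) v⁻¹ (w / v)).2.2.2
    · have e0 : unitOf v w (Ch.M 2) = w := rfl
      change (![1, v, w] j : K) / unitOf v w (Ch.M 2) ∈ MM k p (A / w ^ p) w⁻¹ (v / w) ∨
        ((![1, v, w] j : K) / unitOf v w (Ch.M 2) - 1)⁻¹ ∈ MM k p (A / w ^ p) w⁻¹ (v / w)
      rw [e0]
      fin_cases j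
      · right
        have := (N32_MM (k := k) p (A / w ^ p) w⁻¹ (v / w)).2.2.1
        change (1 / w - 1)⁻¹ ∈ _
        rwa [one_div]
      · exact Or.inr (N32_MM p (A / w ^ p) w⁻¹ (v / w)).2.2.2
      · left
        change w / w ∈ _
        rw [div_self hw]
        exact one_mem _
  | T6 =>
    left
    have e0 : unitOf v w Ch.T6 = 1 := rfl
    rw [e0, div_one]
    fin_cases j
    · exact one_mem _
    · exact Algebra.subset_adjoin (by simp)
    · exact Algebra.subset_adjoin (by simp)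
  | P1 => exact absurd hc id
  | P2 => exact absurd hc id
  | P3 =>
    left
    have e0 : unitOf v w Ch.P3 = 1 := rfl
    rw [e0, div_one]
    fin_cases j
    · exact one_mem _
    · exact (N32_P3 p h).2.2.1
    · exact (N32_P3 p h).2.2.2
  | P4 => exact absurd hc id
  | Y0 => exact absurd hc id

theorem N32_unit_eq (v w : K) (d : Ch) : ∃ j : Fin 3, unitOf v w d = ![1, v, w] j := by
  cases d with
  | NI f => fin_cases f <;> [exact ⟨0, rfl⟩; exact ⟨0, rfl⟩; exact ⟨1, rfl⟩; exact ⟨1, rfl⟩;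
      exact ⟨2, rfl⟩; exact ⟨2, rfl⟩]
  | NII f => fin_cases f <;> [exact ⟨0, rfl⟩; exact ⟨0, rfl⟩; exact ⟨1, rfl⟩; exact ⟨1, rfl⟩;
      exact ⟨2, rfl⟩; exact ⟨2, rfl⟩]
  | M i => exact ⟨i, rfl⟩
  | T6 => exact ⟨0, rfl⟩
  | P1 => exact ⟨0, rfl⟩
  | P2 => exact ⟨0, rfl⟩
  | P3 => exact ⟨0, rfl⟩
  | P4 => exact ⟨0, rfl⟩
  | Y0 => exact ⟨0, rfl⟩

/-- if `s = (τ - 1)⁻¹` and `τ ^ p` lie in `E`, so does `τ` -/
theorem N32_root (E : Subalgebra k K) {τ : K} (hτ : τ ≠ 1) {p : ℕ} (hp : 2 ≤ p) (h1 : τ ^ p ∈ E)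
    (h2 : (τ - 1)⁻¹ ∈ E) : τ ∈ E := by
  have hτ' : τ - 1 ≠ 0 := sub_ne_zero.mpr hτ
  set s : K := (τ - 1)⁻¹ with hs
  have hs0 : s ≠ 0 := inv_ne_zero hτ'
  have e1 : τ * s = 1 + s := by
    rw [hs]
    field_simp
    ring
  obtain ⟨q, rfl⟩ : ∃ q, p = q + 1 := ⟨p - 1, by omega⟩
  have hg : ∀ n : ℕ, ∃ g ∈ E, (1 + s) ^ n = 1 + s * g := by
    intro n
    induction n with
    | zero => exact ⟨0, zero_mem _, by simp⟩
    | succ n ih =>
      obtain ⟨g, hg, e⟩ := ih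
      refine ⟨1 + g + s * g, add_mem (add_mem (one_mem _) hg) (mul_mem h2 hg), ?_⟩
      rw [pow_succ, e]
      ring
  obtain ⟨g, hgE, hge⟩ := hg (q + 1)
  have e2 : s⁻¹ = τ ^ (q + 1) * s ^ q - g := by
    apply mul_left_cancel₀ hs0
    rw [mul_inv_cancel₀ hs0]
    have e3 : τ ^ (q + 1) * s ^ (q + 1) = 1 + s * g := by
      rw [← mul_pow, e1, hge]
    rw [pow_succ s q] at e3
    linear_combination -e3
  have h3 : s⁻¹ ∈ E := by
    rw [e2]
    exact sub_mem (mul_mem h1 (pow_mem h2 q)) hgE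
  have h4 : s⁻¹ + 1 ∈ E := add_mem h3 (one_mem _)
  have e5 : s⁻¹ + 1 = τ := by
    rw [hs, inv_inv, sub_add_cancel]
  rwa [e5] at h4

/-- The quotients `u_c / u_d` lie in `E = R c ⊔ R d`.  Proof: if `u_c ≠ u_d` put `t = x_i / x_j`
(`v`, `w`, `w / v` or an inverse), where `i, j` are the variables of the frames of `c`, `d`.
By `unit_mem` `t ^ p, t ^ -p ∈ E`.  In the chart `c` (frame `i`) either `t ∈ R c` (first entry `v_f`
of the frame, or `T6`, `P3`), and then `t⁻¹ = t^-p t^(p-1)`, or `s = (t-1)⁻¹ ∈ R c` (second entry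
`w_f` of the frame, charts `M`): then `1 + s = t s`, so `t^p s^p = (1+s)^p = 1 + s g` with
`g ∈ E`, `t^p s^(p-1) = s⁻¹ + g`, hence `s⁻¹ ∈ E` and `t = 1 + s⁻¹ ∈ E`. -/
theorem unit_div_mem (p : ℕ) (hp : 2 ≤ p) {A v w : K} (h : AlgebraicIndependent k ![A, v, w])
    (c d : Ch) (hc : c.inV) (hd : d.inV) :
    unitOf v w c / unitOf v w d ∈ ring k p A v w c ⊔ ring k p A v w d := by
  obtain ⟨hA, hv, hw, -⟩ := ind_ne h
  have huc := N32_unit_ne hv hw c
  have hud := N32_unit_ne hv hw d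
  set E := ring k p A v w c ⊔ ring k p A v w d with hE
  have lc : ring k p A v w c ≤ E := le_sup_left
  have ld : ring k p A v w d ≤ E := le_sup_right
  obtain ⟨hc1, hc2⟩ := unit_mem p h c hc
  obtain ⟨hd1, hd2⟩ := unit_mem p h d hd
  set τ : K := unitOf v w d / unitOf v w c with hτ
  have hτ0 : τ ≠ 0 := div_ne_zero hud huc
  have et : unitOf v w c / unitOf v w d = τ⁻¹ := by rw [hτ, inv_div]
  have hτp : τ ^ p ∈ E := by
    have e : τ ^ p = (A / unitOf v w c ^ p) * (A / unitOf v w d ^ p)⁻¹ := by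
      rw [hτ, div_pow, inv_div]
      field_simp
    rw [e]
    exact mul_mem (lc hc1) (ld hd2)
  have hτp' : (τ ^ p)⁻¹ ∈ E := by
    have e : (τ ^ p)⁻¹ = (A / unitOf v w d ^ p) * (A / unitOf v w c ^ p)⁻¹ := by
      rw [hτ, div_pow, inv_div, inv_div]
      field_simp
    rw [e]
    exact mul_mem (ld hd1) (lc hc2)
  have hτE : τ ∈ E := by
    by_cases h1 : τ = 1
    · rw [h1]
      exact one_mem _
    obtain ⟨j, hj⟩ := N32_unit_eq v w d
    have h2 := N32_tau p h c hc j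
    rw [← hj] at h2
    rcases h2 with h3 | h3
    · exact lc h3
    · exact N32_root E h1 hp hτp (lc h3)
  have e : τ⁻¹ = (τ ^ p)⁻¹ * τ ^ (p - 1) := by
    obtain ⟨q, rfl⟩ : ∃ q, p = q + 1 := ⟨p - 1, by omega⟩
    rw [Nat.add_sub_cancel, pow_succ]
    field_simp
  rw [et, e]
  exact mul_mem hτp' (pow_mem hτE _)

/-- Proof.  For every chart `c` choose `Ã_c ∈ S c` over `A / u_c^p` and a lift `ũ_c ∈ L` of
`u_c`; put `Â_c = Ã_c * ũ_c ^ p`, a lift of `A`.  With the reference `Â_{T6}` write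
`Â_c - Â_{T6} = p y_c` and `G c = π(y_c) / A`.  Then `G` is a cocycle: with a lift `x ∈ T c d` of
`u_c / u_d`, `Ã_c x^p - Ã_d ∈ T c d` maps to `0`, so it is `p z` with `π z ∈ R c ⊔ R d`
(`of_mul_mem`), and (`pow_p_eq`) `Â_c - Â_d = ũ_d^p p z`, so `G c - G d = u_d^p π(z) / A`
`= π(z) / A_d ∈ R c ⊔ R d`.  By `cousin` there is `G₀`; take
`𝔄 = Â_{T6} (1 + p g₀)` with `π g₀ = G₀`.  Then `𝔄 = Â_c (1 + p (g₀ - g_c))`
`= Ã_c (1 + p (g₀ - g_c)) * ũ_c^p`, with `Ã_c (1 + p (g₀ - g_c)) ∈ S c` by `mul_mem`. -/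
theorem exists_global (p : ℕ) [Fact p.Prime] [CharP k p] (hp : 5 ≤ p) {A v w : K}
    (h : AlgebraicIndependent k ![A, v, w])
    (F : LiftedFamily p (fun c : {c : Ch // c.inV} ↦ ring k p A v w c.1)) :
    ∃ a b : F.L, F.π a = A ∧ a ∈ F.S ⟨.NI 0, trivial⟩ ∧ a ∈ F.S ⟨.NI 1, trivial⟩ ∧
      a ∈ F.S ⟨.P3, trivial⟩ ∧ b ∈ F.S ⟨.NI 3, trivial⟩ ∧
      ∀ u : F.L, F.π u = v → a = b * u ^ p := by
  classical
  have hp2 : 2 ≤ p := by omega
  obtain ⟨hA, hv, hw, -⟩ := ind_ne h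
  have hchar : (p : K) = 0 := by
    have h1 := congrArg (algebraMap k K) (CharP.cast_eq_zero k p)
    rwa [map_natCast, map_zero] at h1
  have hpp : ∀ x : F.L, (p : F.L) * (p * x) = 0 := p_mul_p_mul F.π p hchar F.ann
  have hpow : ∀ {x y : F.L}, F.π x = F.π y → x ^ p = y ^ p := fun hxy =>
    pow_p_eq F.π p hp2 hchar F.ker F.ann hxy
  have hmul : ∀ {x y : F.L}, F.π x = F.π y → (p : F.L) * x = p * y := by
    intro x y hxy
    have h1 : (p : F.L) * (x - y) = 0 := (F.ann _).2 (by rw [map_sub, hxy, sub_self])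
    linear_combination h1
  have hue : ∀ c : {c : Ch // c.inV}, unitOf v w c.1 ≠ 0 := fun c => N32_unit_ne hv hw c.1
  have hex1 : ∀ c : {c : Ch // c.inV}, ∃ x ∈ F.S c, F.π x = A / unitOf v w c.1 ^ p := fun c =>
    F.lift c _ (unit_mem p h c.1 c.2).1
  choose At hAtS hAtπ using hex1
  have hex2 : ∀ c : {c : Ch // c.inV}, ∃ x : F.L, F.π x = unitOf v w c.1 := fun c => F.surj _
  choose ut hut using hex2
  set Ah : {c : Ch // c.inV} → F.L := fun c => At c * ut c ^ p with hAh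
  have hAhπ : ∀ c, F.π (Ah c) = A := by
    intro c
    rw [hAh]
    simp only [map_mul, map_pow, hAtπ, hut]
    exact div_mul_cancel₀ _ (pow_ne_zero _ (hue c))
  set c0 : {c : Ch // c.inV} := ⟨.T6, trivial⟩ with hc0
  have hex3 : ∀ c : {c : Ch // c.inV}, ∃ y : F.L, Ah c - Ah c0 = (p : F.L) * y := fun c =>
    (F.ker _).1 (by rw [map_sub, hAhπ, hAhπ, sub_self])
  choose y hy using hex3
  set G : Ch → K := fun c => if hc : c.inV then F.π (y ⟨c, hc⟩) / A else 0 with hG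
  have hGc : ∀ c : {c : Ch // c.inV}, G c.1 = F.π (y c) / A := by
    intro c
    rw [hG]
    simp only [dif_pos c.2]
  have hcoc : Cocycle k p A v w G := by
    intro c' d' hc' hd'
    have e1 := hGc ⟨c', hc'⟩
    have e2 := hGc ⟨d', hd'⟩
    simp only at e1 e2
    rw [e1, e2]
    set c : {c : Ch // c.inV} := ⟨c', hc'⟩ with hcdef
    set d : {c : Ch // c.inV} := ⟨d', hd'⟩ with hddef
    obtain ⟨x, hxT, hx⟩ := exists_lift_sup F c d (unit_div_mem p hp2 h c' d' hc' hd')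
    have h1 : F.π (At c * x ^ p - At d) = 0 := by
      rw [map_sub, map_mul, map_pow, hx, hAtπ, hAtπ]
      have hu := hue c
      have hu' := hue d
      simp only [hcdef, hddef] at hu hu' ⊢
      rw [div_pow]
      field_simp
      ring
    obtain ⟨z, hz⟩ := (F.ker _).1 h1
    have hzT : (p : F.L) * z ∈ F.T c d := by
      rw [← hz]
      exact sub_mem (mul_mem (F.le_left c d (hAtS c)) (pow_mem hxT p)) (F.le_right c d (hAtS d))
    have hzR := F.of_mul_mem c d z hzT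
    have h2 : ut c ^ p = (x * ut d) ^ p := by
      apply hpow
      rw [map_mul, hx, hut, hut]
      simp only [hcdef, hddef]
      exact (div_mul_cancel₀ _ (hue d)).symm
    have h3 : (p : F.L) * (y c - y d - z * ut d ^ p) = 0 := by
      have e3 := hy c
      have e4 := hy d
      simp only [hAh] at e3 e4
      rw [h2, mul_pow] at e3
      linear_combination -e3 + e4 + ut d ^ p * hz
    have h4 := (F.ann _).1 h3
    rw [map_sub, map_sub, map_mul, map_pow, hut] at h4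
    have h5 : F.π (y c) / A - F.π (y d) / A = F.π z * (A / unitOf v w d.1 ^ p)⁻¹ := by
      rw [inv_div]
      field_simp
      linear_combination h4
    rw [h5]
    exact mul_mem hzR (Algebra.mem_sup_right (unit_mem p h d' hd').2)
  obtain ⟨G₀, hN, hP⟩ := cousin p hp h hcoc
  obtain ⟨g₀, hg₀⟩ := F.surj G₀
  have hex4 : ∀ c : {c : Ch // c.inV}, ∃ g : F.L, F.π g = G c.1 := fun c => F.surj _
  choose g hg using hex4
  set 𝔄 : F.L := Ah c0 * (1 + p * g₀) with h𝔄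
  set bb : {c : Ch // c.inV} → F.L := fun c => At c * (1 + p * (g₀ - g c)) with hbb
  have hkey : ∀ c, 𝔄 = bb c * ut c ^ p := by
    intro c
    have e1 : (p : F.L) * y c = p * (Ah c0 * g c) := by
      apply hmul
      rw [map_mul, hAhπ, hg, hGc, mul_div_cancel₀ _ hA]
    have e2 : Ah c = Ah c0 * (1 + p * g c) := by linear_combination hy c + e1
    have e3 : bb c * ut c ^ p = Ah c * (1 + p * (g₀ - g c)) := by
      simp only [hbb, hAh]
      ring
    rw [e3, e2, h𝔄]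
    linear_combination (-Ah c0) * hpp (g c * (g₀ - g c))
  have hbbS : ∀ c : {c : Ch // c.inV}, G₀ - G c.1 ∈ ring k p A v w c.1 → bb c ∈ F.S c := by
    intro c hc
    simp only [hbb]
    refine mul_mem (hAtS c) (add_mem (one_mem _) (F.mul_mem c _ ?_))
    rw [map_sub, hg₀, hg]
    exact hc
  have hone : ∀ c : {c : Ch // c.inV}, unitOf v w c.1 = 1 →
      G₀ - G c.1 ∈ ring k p A v w c.1 → 𝔄 ∈ F.S c := by
    intro c hc hGc
    have h1 : ut c ^ p = 1 := by
      rw [hpow (y := 1) (by rw [hut, hc, map_one]), one_pow]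
    rw [hkey c, h1, mul_one]
    exact hbbS c hGc
  refine ⟨𝔄, bb ⟨.NI 3, trivial⟩, ?_, hone _ rfl (hN 0), hone _ rfl (hN 1), hone _ rfl hP,
    hbbS _ (hN 3), ?_⟩
  · rw [h𝔄, map_mul, hAhπ, map_add, map_mul, map_natCast, hchar, zero_mul, map_one, add_zero,
      mul_one]
  · intro u hu
    have h1 : u ^ p = ut ⟨.NI 3, trivial⟩ ^ p := hpow (by rw [hu, hut]; rfl)
    rw [h1]
    exact hkey _

end H1F
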