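import Pool.Agent.Lib.H1F.N.N34
import Pool.Agent.Lib.H1F.N.N32

/-!
# H1F, chunk N36

Comparison along the curve `C_x`.
-/

open MvPolynomial

namespace H1F

variable {k K : Type*} [Field k] [Field K] [Algebra k K]


theorem N36_phi_map (p : ℕ) {S S' : Type*} [CommRing S] [CommRing S'] (f : S →+* S') (b : S) :
    f (phi p b) = phi p (f b) := by
  unfold phi
  rw [map_sum]
  refine Finset.sum_congr rfl (fun j _ => ?_)
  rw [map_mul, map_natCast, map_pow]

/-- the identity in `L` -/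
theorem N36_id {L : Type*} [CommRing L] (p : ℕ) (hp : 1 ≤ p)
    (hpp : ∀ x : L, (p : L) * (p * x) = 0) {a B b d y κ b₃ q₃ κ₃ i x₁ x₂ φ : L}
    (hB3 : B = 1 + b₃ * q₃ + p * κ₃) (hb3 : b₃ = (d - b) * i + p * x₁)
    (hq3 : q₃ = i ^ (p - 1) * (b ^ (p - 1) - b * d * y) + p * x₂)
    (hui : (1 + b) ^ p * i ^ p = 1) (h1b : (1 + b) ^ p = 1 + b ^ p + p * φ)
    (ha : a = B * (1 + b) ^ p)
    (hκ : a = 1 + b ^ (p - 1) * d + b * d * (b - d) * y + p * κ) :
    (p : L) * κ = p * (φ + (1 + b) ^ p * (κ₃ + x₁ * (i ^ (p - 1) * (b ^ (p - 1) - b * d * y)) +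
      x₂ * ((d - b) * i))) := by
  have hI : i ^ p = i ^ (p - 1) * i := by
    rw [← pow_succ, Nat.sub_add_cancel hp]
  have hbp : b ^ p = b ^ (p - 1) * b := by
    rw [← pow_succ, Nat.sub_add_cancel hp]
  have e1 : b₃ * q₃ = (d - b) * (b ^ (p - 1) - b * d * y) * i ^ p +
      p * (x₁ * (i ^ (p - 1) * (b ^ (p - 1) - b * d * y)) + x₂ * ((d - b) * i)) +
      p * (p * (x₁ * x₂)) := by
    rw [hb3, hq3, hI]
    ring
  rw [hpp, add_zero] at e1
  have e2 : a = (1 + b) ^ p + (d - b) * (b ^ (p - 1) - b * d * y) * ((1 + b) ^ p * i ^ p) +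
      p * ((1 + b) ^ p * (κ₃ + x₁ * (i ^ (p - 1) * (b ^ (p - 1) - b * d * y)) +
        x₂ * ((d - b) * i))) := by
    rw [ha, hB3, e1]
    ring
  rw [hui, mul_one] at e2
  linear_combination e2 - hκ + h1b + hbp

/-- the elements of the join have values -/
theorem N36_val (p : ℕ) [Fact p.Prime] [CharP k p] (hp : 5 ≤ p) {A v w : K}
    (h : AlgebraicIndependent k ![A, v, w]) {r : K}
    (hr : r ∈ ring k p A v w (.NI 3) ⊔ ring k p A v w .P3) :
    ∃ c : RatFunc k, HasVal k (v - 1) (w - 1) (yy p A v w) (xx k p) r c := by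
  have h1 : ring k p A v w (.NI 3) ⊔ ring k p A v w .P3 =
      Algebra.adjoin k ((ring k p A v w (.NI 3) : Set K) ∪ (ring k p A v w .P3 : Set K)) := by
    rw [Algebra.adjoin_union, Algebra.adjoin_eq, Algebra.adjoin_eq]
  rw [h1] at hr
  obtain ⟨c, -, hc⟩ := HasVal.of_adjoin (β := v - 1) (δ := w - 1) (y := yy p A v w)
    (x := xx k p) (⊤ : Subalgebra k (RatFunc k)) (s := (ring k p A v w (.NI 3) : Set K) ∪
      (ring k p A v w .P3 : Set K)) (by
      rintro s (hs | hs)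
      · obtain ⟨c, -, hc⟩ := val_x p hp h hs
        exact ⟨c, Algebra.mem_top, hc⟩
      · obtain ⟨c, -, hc⟩ := (val_P3 p hp h hs).2.2
        exact ⟨c, Algebra.mem_top, hc⟩) hr
  exact ⟨c, hc⟩

theorem N36_X_ne : (1 + RatFunc.X : RatFunc k) ≠ 0 := by
  have h1 : (1 + RatFunc.X : RatFunc k) =
      algebraMap (Polynomial k) (RatFunc k) (Polynomial.X + Polynomial.C 1) := by
    rw [map_add, RatFunc.algebraMap_X, RatFunc.algebraMap_C, map_one, add_comm]
  rw [h1]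
  intro h2
  have h3 := (map_eq_zero_iff _ (RatFunc.algebraMap_injective k)).1 h2
  exact Polynomial.X_add_C_ne_zero 1 h3

/-- In the chart `NI 3` (frame `(A/v^p; w/v, 1/v)`) take lifts `b₃, q₃ ∈ S (NI 3)` of
`w/v - 1 = (δ-β)/v` and of `q = (A/v^p-1)/(w/v-1) = v^(1-p) (β^(p-1) - β δ y)`, and
`B = 1 + b₃ q₃ + p κ₃` with `π κ₃ ∈ NI 3`.  Let `i ∈ S (P3)` be a lift of `1/v`; then (everything in
`L`) `(1+b) i = 1 + p (..)`, `b₃ = (d-b) i + p x₁`, `q₃ = i^(p-1) (b^(p-1) - b d y) + p x₂` with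
`π x₁, π x₂ ∈ NI 3 ⊔ P3`, and `a = B (1+b)^p`, `(1+b)^p i^p = 1` (`pow_p_eq`).  So
`a = (1+b)^p + (d-b)(b^(p-1) - b d y) + p (1+β)^p (κ₃ + x₁ q + x₂ b₃)`
`  = 1 + b^(p-1) d + b d (b-d) y + p (φ(b) + (1+β^p) (κ₃ + ..))`.  On `C_x` both `q` and `b₃` vanish. -/
theorem curve_x (p : ℕ) [Fact p.Prime] [CharP k p] (hp : 5 ≤ p) {A v w : K}
    (h : AlgebraicIndependent k ![A, v, w])
    (F : LiftedFamily p (fun c : {c : Ch // c.inV} ↦ ring k p A v w c.1))
    {a B b d y κ : F.L} (ha : F.π a = A) (hB : B ∈ F.S ⟨.NI 3, trivial⟩)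
    (haB : ∀ u : F.L, F.π u = v → a = B * u ^ p)
    (hb : F.π b = v - 1) (hbP : b ∈ F.S ⟨.P3, trivial⟩)
    (hd : F.π d = w - 1) (hdP : d ∈ F.S ⟨.P3, trivial⟩)
    (hy : F.π y = yy p A v w) (hyP : y ∈ F.S ⟨.P3, trivial⟩)
    (hκ : a = 1 + b ^ (p - 1) * d + b * d * (b - d) * y + p * κ) :
    ∃ c ∈ Einf k, HasVal k (v - 1) (w - 1) (yy p A v w) (xx k p) (F.π κ)
      (phi p (RatFunc.X : RatFunc k) + (1 + RatFunc.X ^ p) * c) := by
  have hpr : p.Prime := Fact.out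
  have hpk : (p : k) = 0 := CharP.cast_eq_zero k p
  have hpK : (p : K) = 0 := by
    rw [← map_natCast (algebraMap k K), hpk, map_zero]
  have hpR : (p : RatFunc k) = 0 := by
    rw [← map_natCast (algebraMap k (RatFunc k)), hpk, map_zero]
  have hinj : Function.Injective (aeval (R := k) ![A, v, w]) := h
  have hne : ∀ P : MvPolynomial (Fin 3) k, P ≠ 0 → aeval ![A, v, w] P ≠ 0 := by
    intro P hP h0
    exact hP (hinj (by rw [h0, map_zero]))
  obtain ⟨-, -, -, -, -, -, -, hE, -, hU⟩ := not_dvd_list (k := k) p (by omega)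
  have hv0 : v ≠ 0 := by
    intro h0
    apply hne _ hU
    simp [uT, h0]
  have hvw : w - v ≠ 0 := by
    intro h0
    apply hne _ hE
    have h1 : v = w := by linear_combination -h0
    simp [pE, h1]
  -- the projections
  obtain ⟨u, hu⟩ := F.surj v
  have hπB : F.π B = A / v ^ p := by
    have h1 := congrArg F.π (haB u hu)
    rw [ha, map_mul, map_pow, hu] at h1
    exact (eq_div_iff (pow_ne_zero p hv0)).2 h1.symm
  have hAv : A - v ^ p = (w - v) * ((v - 1) ^ (p - 1) - (v - 1) * (w - 1) * yy p A v w) := by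
    have h1 := A_eq p h
    have h2 : v ^ p = 1 + (v - 1) ^ p := by
      have h3 := one_add_pow_p p hpr (v - 1)
      rw [hpK, zero_mul, add_zero] at h3
      rw [← h3]
      ring
    have h3 : (v - 1) ^ p = (v - 1) ^ (p - 1) * (v - 1) := by
      rw [← pow_succ, Nat.sub_add_cancel (by omega)]
    rw [h2, h3]
    nth_rw 1 [h1]
    ring
  obtain ⟨m, hm⟩ : ∃ m : K, m = (v - 1) ^ (p - 1) - (v - 1) * (w - 1) * yy p A v w := ⟨_, rfl⟩
  have hQ : (A / v ^ p - 1) / (w / v - 1) = v⁻¹ ^ (p - 1) * m := by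
    have h1 : w / v - 1 = (w - v) / v := by field_simp
    have h2 : A / v ^ p - 1 = (w - v) * m / v ^ p := by
      rw [hm, ← hAv]
      field_simp
    have h3 : v ^ p = v ^ (p - 1) * v := by
      rw [← pow_succ, Nat.sub_add_cancel (by omega)]
    rw [h1, h2, h3, inv_pow]
    have h4 : v ^ (p - 1) ≠ 0 := pow_ne_zero _ hv0
    field_simp
  obtain ⟨b₃, hb₃S, hb₃⟩ := F.lift ⟨.NI 3, trivial⟩ (w / v - 1)
    (Algebra.subset_adjoin (by simp [fv]))
  obtain ⟨q₃, hq₃S, hq₃⟩ := F.lift ⟨.NI 3, trivial⟩ ((A / v ^ p - 1) / (w / v - 1))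
    (Algebra.subset_adjoin (by simp [fa, fv]))
  obtain ⟨i, hiS, hi⟩ := F.lift ⟨.P3, trivial⟩ v⁻¹
    (Algebra.subset_adjoin (by simp))
  -- `κ₃`
  have hb3ne : w / v - 1 ≠ 0 := by
    have h1 : w / v - 1 = (w - v) / v := by field_simp
    rw [h1]
    exact div_ne_zero hvw hv0
  obtain ⟨κ₃, hκ₃⟩ := (F.ker (B - 1 - b₃ * q₃)).1 (by
    rw [map_sub, map_sub, map_one, map_mul, hπB, hb₃, hq₃]
    field_simp
    ring)
  have hκ₃R : F.π κ₃ ∈ ring k p A v w (.NI 3) := by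
    refine of_mul_mem_self F ⟨.NI 3, trivial⟩ ?_
    rw [← hκ₃]
    exact sub_mem (sub_mem hB (one_mem _)) (mul_mem hb₃S hq₃S)
  -- `x₁`, `x₂`
  obtain ⟨x₁, hx₁⟩ := (F.ker (b₃ - (d - b) * i)).1 (by
    rw [map_sub, map_mul, map_sub, hb₃, hd, hb, hi]
    field_simp
    ring)
  have hx₁R : F.π x₁ ∈ ring k p A v w (.NI 3) ⊔ ring k p A v w .P3 := by
    refine F.of_mul_mem ⟨.NI 3, trivial⟩ ⟨.P3, trivial⟩ x₁ ?_
    rw [← hx₁]
    exact sub_mem (F.le_left _ _ hb₃S) (F.le_right _ _ (mul_mem (sub_mem hdP hbP) hiS))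
  obtain ⟨x₂, hx₂⟩ := (F.ker (q₃ - i ^ (p - 1) * (b ^ (p - 1) - b * d * y))).1 (by
    rw [map_sub, map_mul, map_pow, map_sub, map_pow, map_mul, map_mul, hb, hd, hy, hi, hq₃, hQ, hm,
      sub_self])
  have hx₂R : F.π x₂ ∈ ring k p A v w (.NI 3) ⊔ ring k p A v w .P3 := by
    refine F.of_mul_mem ⟨.NI 3, trivial⟩ ⟨.P3, trivial⟩ x₂ ?_
    rw [← hx₂]
    refine sub_mem (F.le_left _ _ hq₃S) (F.le_right _ _ (mul_mem (pow_mem hiS _) ?_))
    exact sub_mem (pow_mem hbP _) (mul_mem (mul_mem hbP hdP) hyP)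
  -- the identity
  have hpp : ∀ x : F.L, (p : F.L) * (p * x) = 0 := fun x => p_mul_p_mul F.π p hpK F.ann x
  have hui : (1 + b) ^ p * i ^ p = 1 := by
    rw [← mul_pow]
    have h1 := pow_p_eq F.π p (by omega) hpK F.ker F.ann (x := (1 + b) * i) (y := 1) (by
      rw [map_mul, map_add, map_one, hb, hi]
      have h2 : 1 + (v - 1) = v := by ring
      rw [h2, mul_inv_cancel₀ hv0])
    rw [h1, one_pow]
  have hab : a = B * (1 + b) ^ p := haB (1 + b) (by rw [map_add, map_one, hb]; ring)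
  have hid := N36_id p (by omega) hpp (B := B) (b₃ := b₃) (q₃ := q₃) (κ₃ := κ₃) (i := i)
    (x₁ := x₁) (x₂ := x₂) (φ := phi p b) (by linear_combination hκ₃) (by linear_combination hx₁)
    (by linear_combination hx₂) hui (one_add_pow_p p hpr b) hab hκ
  have hπκ : F.π κ = phi p (v - 1) + v ^ p * (F.π κ₃ + F.π x₁ * (v⁻¹ ^ (p - 1) * m) +
      F.π x₂ * (((w - 1) - (v - 1)) * v⁻¹)) := by
    have h1 := (F.ann (κ - (phi p b + (1 + b) ^ p * (κ₃ + x₁ * (i ^ (p - 1) *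
      (b ^ (p - 1) - b * d * y)) + x₂ * ((d - b) * i))))).1 (by rw [mul_sub, hid, sub_self])
    rw [map_sub, sub_eq_zero] at h1
    rw [h1]
    simp only [map_add, map_mul, map_pow, map_sub, map_one, hb, hd, hy, hi, N36_phi_map]
    rw [← hm]
    have h2 : 1 + (v - 1) = v := by ring
    rw [h2]
  -- the values
  have hXne := N36_X_ne (k := k)
  have vphi : HasVal k (v - 1) (w - 1) (yy p A v w) (xx k p) (phi p (v - 1))
      (phi p (RatFunc.X : RatFunc k)) := by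
    have h1 := HasVal.aeval (k := k) (β := v - 1) (δ := w - 1) (y := yy p A v w) (x := xx k p)
      (phi p (X 0))
    have h2 := N36_phi_map p (aeval (R := k) ![v - 1, w - 1, yy p A v w]).toRingHom (X 0)
    have h3 := N36_phi_map p (aeval (R := k) (xx k p)).toRingHom (X 0)
    simp only [AlgHom.toRingHom_eq_coe, RingHom.coe_coe, aeval_X] at h2 h3
    rw [h2, h3] at h1
    exact h1
  have vv : HasVal k (v - 1) (w - 1) (yy p A v w) (xx k p) (v ^ p)
      ((1 + RatFunc.X : RatFunc k) ^ p) := by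
    have h1 := HasVal.aeval (k := k) (β := v - 1) (δ := w - 1) (y := yy p A v w) (x := xx k p)
      ((1 + X 0) ^ p)
    simp only [map_pow, map_add, map_one, aeval_X] at h1
    have h2 : (1 : K) + ![v - 1, w - 1, yy p A v w] 0 = v := by
      rw [Matrix.cons_val_zero]
      ring
    rw [h2] at h1
    exact h1
  have vq : HasVal k (v - 1) (w - 1) (yy p A v w) (xx k p) (v⁻¹ ^ (p - 1) * m) 0 := by
    refine ⟨X 0 ^ (p - 1) - X 0 * X 1 * X 2, (1 + X 0) ^ (p - 1), ?_, ?_, ?_, ?_⟩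
    · simp only [map_pow, map_add, map_one, aeval_X]
      exact (isUnit_iff_ne_zero.2 hXne).pow _
    · simp only [map_pow, map_add, map_one, aeval_X, Matrix.cons_val_zero]
      have h2 : (1 : K) + (v - 1) = v := by ring
      rw [h2]
      exact pow_ne_zero _ hv0
    · simp only [map_pow, map_add, map_one, map_sub, map_mul, aeval_X, Matrix.cons_val_zero,
        Matrix.cons_val_one, Matrix.cons_val]
      have h2 : (1 : K) + (v - 1) = v := by ring
      rw [h2, hm, inv_pow]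
      have h4 : v ^ (p - 1) ≠ 0 := pow_ne_zero _ hv0
      field_simp
    · simp only [map_pow, map_sub, map_mul, aeval_X, xx, Matrix.cons_val_zero,
        Matrix.cons_val_one, Matrix.cons_val]
      have h3 : p - 1 = p - 3 + 2 := by omega
      rw [zero_mul, h3]
      ring
  have vb : HasVal k (v - 1) (w - 1) (yy p A v w) (xx k p) (((w - 1) - (v - 1)) * v⁻¹) 0 := by
    refine ⟨X 1 - X 0, 1 + X 0, ?_, ?_, ?_, ?_⟩
    · simp only [map_add, map_one, aeval_X]
      exact isUnit_iff_ne_zero.2 hXne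
    · simp only [map_add, map_one, aeval_X, Matrix.cons_val_zero]
      have h2 : (1 : K) + (v - 1) = v := by ring
      rw [h2]
      exact hv0
    · simp only [map_add, map_one, map_sub, aeval_X, Matrix.cons_val_zero, Matrix.cons_val_one]
      have h2 : (1 : K) + (v - 1) = v := by ring
      rw [h2]
      field_simp
    · simp only [map_sub, aeval_X, xx, Matrix.cons_val_zero, Matrix.cons_val_one]
      ring
  obtain ⟨c, hc, hvc⟩ := val_x p hp h hκ₃R
  obtain ⟨c₁, hc₁⟩ := N36_val p hp h hx₁R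
  obtain ⟨c₂, hc₂⟩ := N36_val p hp h hx₂R
  refine ⟨c, hc, ?_⟩
  have hfin := vphi.add (vv.mul ((hvc.add (hc₁.mul vq)).add (hc₂.mul vb)))
  rw [← hπκ] at hfin
  have he : phi p (RatFunc.X : RatFunc k) + (1 + RatFunc.X) ^ p * (c + c₁ * 0 + c₂ * 0) =
      phi p (RatFunc.X : RatFunc k) + (1 + RatFunc.X ^ p) * c := by
    rw [one_add_pow_p p hpr, hpR]
    ring
  rw [he] at hfin
  exact hfin

end H1F
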