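import Pool.Agent.Lib.H1F.N.N34
import Pool.Agent.Lib.H1F.N.N30

/-!
# H1F, chunk N37

The Taylor expansion at the origin of `P3`.
-/

open MvPolynomial

namespace H1F

theorem N37_coeff {k : Type*} [Field k] (a : Fin 3 → Polynomial k) (ha : ∀ i, (a i).coeff 0 = 0)
    (P : MvPolynomial (Fin 3) k) :
    (aeval a P).coeff 0 = constantCoeff P ∧
      (aeval a P).coeff 1 = ∑ i, P.coeff (Finsupp.single i 1) * (a i).coeff 1 := by
  induction P using MvPolynomial.induction_on with
  | C c =>
    constructor
    · rw [algHom_C, constantCoeff_C]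
      simp
    · rw [algHom_C, Finset.sum_eq_zero]
      · simp [Polynomial.coeff_C]
      · intro i _
        rw [coeff_C, if_neg, zero_mul]
        intro h
        have := congrArg (fun f : Fin 3 →₀ ℕ => f i) h
        simp at this
  | add P Q hP hQ =>
    constructor
    · rw [map_add, Polynomial.coeff_add, hP.1, hQ.1, map_add]
    · rw [map_add, Polynomial.coeff_add, hP.2, hQ.2, ← Finset.sum_add_distrib]
      refine Finset.sum_congr rfl fun i _ => ?_
      rw [coeff_add, add_mul]
  | mul_X P j hP =>
    constructor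
    · rw [map_mul, aeval_X, Polynomial.mul_coeff_zero, ha, mul_zero, map_mul, constantCoeff_X,
        mul_zero]
    · rw [map_mul, aeval_X, Polynomial.mul_coeff_one, ha, mul_zero, add_zero, hP.1,
        Finset.sum_eq_single j]
      · rw [coeff_mul_X', if_pos (by simp), tsub_self, constantCoeff_eq]
      · intro i _ hij
        rw [coeff_mul_X', if_neg, zero_mul]
        rw [Finsupp.support_single_ne_zero _ one_ne_zero, Finset.mem_singleton]
        exact fun h => hij h.symm
      · intro h
        exact absurd (Finset.mem_univ j) h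

theorem N37_val {k K : Type*} [Field k] [Field K] [Algebra k K] {β δ y κ : K}
    (h : AlgebraicIndependent k ![β, δ, y]) (P U : MvPolynomial (Fin 3) k)
    (hU : constantCoeff U = 1) (hκ : κ * aeval ![β, δ, y] U = aeval ![β, δ, y] P)
    (a : Fin 3 → Polynomial k) (ha : ∀ i, (a i).coeff 0 = 0) (x : Fin 3 → RatFunc k)
    (hx : x = algebraMap (Polynomial k) (RatFunc k) ∘ a) {c : RatFunc k}
    (hc : HasVal k β δ y x κ c) :
    c * algebraMap (Polynomial k) (RatFunc k) (aeval a U) =
      algebraMap (Polynomial k) (RatFunc k) (aeval a P) := by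
  have hev : ∀ Q : MvPolynomial (Fin 3) k,
      aeval x Q = algebraMap (Polynomial k) (RatFunc k) (aeval a Q) := by
    intro Q
    rw [hx, aeval_algebraMap_apply]
  have hU0 : U ≠ 0 := by
    rintro rfl
    rw [map_zero] at hU
    exact zero_ne_one hU
  have h1 : aeval x U ≠ 0 := by
    rw [hev]
    intro h2
    have h3 : aeval a U = 0 := by
      apply RatFunc.algebraMap_injective k
      rw [h2, map_zero]
    have h4 := (N37_coeff a ha U).1
    rw [h3, hU, Polynomial.coeff_zero] at h4
    exact zero_ne_one h4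
  have h2 : HasVal k β δ y x κ (aeval x P / aeval x U) := by
    refine ⟨P, U, isUnit_iff_ne_zero.2 h1, ?_, hκ, div_mul_cancel₀ _ h1⟩
    intro h3
    apply hU0
    apply h
    show aeval ![β, δ, y] U = aeval ![β, δ, y] 0
    rw [h3, map_zero]
  rw [hc.unique h h2, ← hev, ← hev, div_mul_cancel₀ _ h1]

variable {k K : Type*} [Field k] [Field K] [Algebra k K]


/-- Let `κ ∈ P3` have constant values on `C_z` and `C_y`, and the value
`φ(T) + (1+T^p) c`, `c` constant, on `C_x`.  Contradiction.  Proof: `κ = P/U`, `U` a power of `uP`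
(`P3_eq`, `mem_Fr`), `U(0) = 1`.  For `(x, z) ∈ k²` consider the value of `κ` at the point
`(x ε, z ε, 0)` of the dual numbers; its `ε`-coefficient is linear in `(x, z)`.  The value on `C_z`
is the power series `κ(0, T, 0) ∈ k[T]_(T)`; modulo `T^2` it is the value at `(0, ε, 0)`: the
coefficient for `(0,1)` is `0`.  As `p - 3 ≥ 2`, the value on `C_y` modulo `T^2` is the value at
`(ε, 0, 0)`: coefficient `0` for `(1,0)`; and the value on `C_x` modulo `T^2` is the value at
`(ε, ε, 0)`, with coefficient `1` (`φ(T) = T + ...`, as `choose p 1 / p = 1`).  But `1 ≠ 0 + 0`. -/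
theorem taylor (p : ℕ) [Fact p.Prime] [CharP k p] (hp : 5 ≤ p) {A v w : K}
    (h : AlgebraicIndependent k ![A, v, w]) {κ : K} (hκ : κ ∈ ring k p A v w .P3) (cz cy cx : k)
    (hz : HasVal k (v - 1) (w - 1) (yy p A v w) (xz k) κ (algebraMap k (RatFunc k) cz))
    (hy : HasVal k (v - 1) (w - 1) (yy p A v w) (xy k p) κ (algebraMap k (RatFunc k) cy))
    (hx : HasVal k (v - 1) (w - 1) (yy p A v w) (xx k p) κ
      (phi p (RatFunc.X : RatFunc k) + (1 + RatFunc.X ^ p) * algebraMap k (RatFunc k) cx)) :
    False := by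
  have hi := ind_P3 p h
  have hU0 : constantCoeff (uP k p) = 1 := by
    unfold uP
    simp
  have hne : aeval ![v - 1, w - 1, yy p A v w] (uP k p) ≠ 0 := by
    intro h3
    have h4 : uP k p = 0 := by
      apply hi
      show aeval ![v - 1, w - 1, yy p A v w] (uP k p) = aeval ![v - 1, w - 1, yy p A v w] 0
      rw [h3, map_zero]
    rw [h4, map_zero] at hU0
    exact zero_ne_one hU0
  rw [P3_eq p h, mem_Fr hne] at hκ
  obtain ⟨P, N, hP⟩ := hκ
  rw [← map_pow] at hP
  have hU : constantCoeff (uP k p ^ N) = 1 := by rw [map_pow, hU0, one_pow]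
  generalize uP k p ^ N = U at hP hU
  have hp3 : 2 ≤ p - 3 := by omega
  have hXp : ((Polynomial.X : Polynomial k) ^ (p - 3)).coeff 0 = 0 := by
    rw [Polynomial.coeff_X_pow, if_neg (by omega)]
  have hXp1 : ((Polynomial.X : Polynomial k) ^ (p - 3)).coeff 1 = 0 := by
    rw [Polynomial.coeff_X_pow, if_neg (by omega)]
  have hinj := RatFunc.algebraMap_injective k
  have hC : ∀ c : k, algebraMap k (RatFunc k) c =
      algebraMap (Polynomial k) (RatFunc k) (Polynomial.C c) := by
    intro c
    rw [IsScalarTower.algebraMap_apply k (Polynomial k) (RatFunc k)]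
    rfl
  -- the three curves
  let az : Fin 3 → Polynomial k := ![0, Polynomial.X, 0]
  let ay : Fin 3 → Polynomial k := ![Polynomial.X, 0, -Polynomial.X ^ (p - 3)]
  let ax : Fin 3 → Polynomial k := ![Polynomial.X, Polynomial.X, Polynomial.X ^ (p - 3)]
  have haz : ∀ i, (az i).coeff 0 = 0 := by
    intro i
    fin_cases i <;> simp [az]
  have hay : ∀ i, (ay i).coeff 0 = 0 := by
    intro i
    fin_cases i
    · simp [ay]
    · simp [ay]
    · show (-Polynomial.X ^ (p - 3) : Polynomial k).coeff 0 = 0
      rw [Polynomial.coeff_neg, hXp, neg_zero]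
  have hax : ∀ i, (ax i).coeff 0 = 0 := by
    intro i
    fin_cases i
    · simp [ax]
    · simp [ax]
    · exact hXp
  have e1 := N37_val hi P U hU hP az haz (xz k) (by
    funext i
    fin_cases i <;> simp [xz, az, RatFunc.algebraMap_X]) hz
  have e2 := N37_val hi P U hU hP ay hay (xy k p) (by
    funext i
    fin_cases i <;> simp [xy, ay, RatFunc.algebraMap_X]) hy
  have e3 := N37_val hi P U hU hP ax hax (xx k p) (by
    funext i
    fin_cases i <;> simp [xx, ax, RatFunc.algebraMap_X]) hx
  have hphi : phi p (RatFunc.X : RatFunc k) + (1 + RatFunc.X ^ p) * algebraMap k (RatFunc k) cx =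
      algebraMap (Polynomial k) (RatFunc k)
        (phi p (Polynomial.X : Polynomial k) + (1 + Polynomial.X ^ p) * Polynomial.C cx) := by
    unfold phi
    rw [hC]
    simp [RatFunc.algebraMap_X]
  rw [hC, ← map_mul] at e1 e2
  rw [hphi, ← map_mul] at e3
  replace e1 := hinj e1
  replace e2 := hinj e2
  replace e3 := hinj e3
  obtain ⟨uz0, uz1⟩ := N37_coeff az haz U
  obtain ⟨uy0, uy1⟩ := N37_coeff ay hay U
  obtain ⟨ux0, ux1⟩ := N37_coeff ax hax U
  obtain ⟨pz0, pz1⟩ := N37_coeff az haz P
  obtain ⟨py0, py1⟩ := N37_coeff ay hay P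
  obtain ⟨px0, px1⟩ := N37_coeff ax hax P
  rw [hU] at uz0 uy0 ux0
  have sz : ∀ f : Fin 3 → k, ∑ i, f i * (az i).coeff 1 = f 1 := by
    intro f
    rw [Fin.sum_univ_three]
    simp [az]
  have sy : ∀ f : Fin 3 → k, ∑ i, f i * (ay i).coeff 1 = f 0 := by
    intro f
    rw [Fin.sum_univ_three]
    have : (ay 2).coeff 1 = 0 := by
      show (-Polynomial.X ^ (p - 3) : Polynomial k).coeff 1 = 0
      rw [Polynomial.coeff_neg, hXp1, neg_zero]
    rw [this]
    simp [ay]
  have sx : ∀ f : Fin 3 → k, ∑ i, f i * (ax i).coeff 1 = f 0 + f 1 := by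
    intro f
    rw [Fin.sum_univ_three]
    have : (ax 2).coeff 1 = 0 := hXp1
    rw [this]
    simp [ax]
  rw [sz (fun i => coeff (Finsupp.single i 1) U)] at uz1
  rw [sz (fun i => coeff (Finsupp.single i 1) P)] at pz1
  rw [sy (fun i => coeff (Finsupp.single i 1) U)] at uy1
  rw [sy (fun i => coeff (Finsupp.single i 1) P)] at py1
  rw [sx (fun i => coeff (Finsupp.single i 1) U)] at ux1
  rw [sx (fun i => coeff (Finsupp.single i 1) P)] at px1
  -- coefficients
  have z0 := congrArg (fun q : Polynomial k => q.coeff 0) e1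
  have z1 := congrArg (fun q : Polynomial k => q.coeff 1) e1
  have y0 := congrArg (fun q : Polynomial k => q.coeff 0) e2
  have y1 := congrArg (fun q : Polynomial k => q.coeff 1) e2
  have x0 := congrArg (fun q : Polynomial k => q.coeff 0) e3
  have x1 := congrArg (fun q : Polynomial k => q.coeff 1) e3
  simp only [Polynomial.coeff_C_mul] at z0 z1 y0 y1
  simp only [Polynomial.mul_coeff_zero, Polynomial.mul_coeff_one] at x0 x1
  have f0 : (phi p (Polynomial.X : Polynomial k) + (1 + Polynomial.X ^ p) *
      Polynomial.C cx).coeff 0 = cx := by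
    unfold phi
    rw [Polynomial.coeff_add, Polynomial.finsetSum_coeff, Finset.sum_eq_zero, zero_add,
      Polynomial.coeff_mul_C, Polynomial.coeff_add, Polynomial.coeff_one_zero,
      Polynomial.coeff_X_pow, if_neg (by omega), add_zero, one_mul]
    intro j hj
    rw [Finset.mem_Ioo] at hj
    rw [Polynomial.mul_coeff_zero, Polynomial.coeff_X_pow, if_neg (by omega), mul_zero]
  have f1 : (phi p (Polynomial.X : Polynomial k) + (1 + Polynomial.X ^ p) *
      Polynomial.C cx).coeff 1 = 1 := by
    unfold phi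
    rw [Polynomial.coeff_add, Polynomial.finsetSum_coeff, Finset.sum_eq_single 1,
      Polynomial.coeff_mul_C, Polynomial.coeff_add, Polynomial.coeff_X_pow, if_neg (by omega),
      pow_one, Polynomial.coeff_one, if_neg one_ne_zero, add_zero, zero_mul, add_zero,
      Nat.choose_one_right, Nat.div_self (by omega), Nat.cast_one, one_mul, Polynomial.coeff_X_one]
    · intro j hj hj1
      rw [← Polynomial.C_eq_natCast, Polynomial.coeff_C_mul, Polynomial.coeff_X_pow,
        if_neg (fun h => hj1 h.symm), mul_zero]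
    · intro hn
      exact absurd (Finset.mem_Ioo.2 ⟨one_pos, by omega⟩) hn
  rw [f0, ux0, px0, mul_one] at x0
  rw [f0, f1, ux0, ux1, px1] at x1
  rw [uz0, pz0, mul_one] at z0
  rw [uz1, pz1] at z1
  rw [uy0, py0, mul_one] at y0
  rw [uy1, py1] at y1
  subst z0
  rw [y0] at y1
  rw [x0] at x1
  have : (1 : k) = 0 := by linear_combination x1 - y1 - z1
  exact one_ne_zero this

end H1F
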