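import Pool.Agent.Lib.H1F.N.N35
import Pool.Agent.Lib.H1F.N.N36
import Pool.Agent.Lib.H1F.N.N37

/-!
# H1F, chunk N38

Part N, conclusion.
-/

open MvPolynomial

namespace H1F

variable {k K : Type*} [Field k] [Field K] [Algebra k K]


/-- Assembly: `exists_global`; lifts `b, d, y ∈ S P3`; `expand`; the values of `κ` on the three
curves lie in `k[1/T]` (`curve_z`, `curve_y`, `curve_x`) and in `k[T, 1/(1+T)]` (`val_P3`; for `C_x`
divide by `1 + T^p = (1+T)^p`), hence are constant (`Einf_inf_Ezero`, `HasVal.unique`); `taylor`. -/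
theorem no_lifted_family (p : ℕ) [Fact p.Prime] [CharP k p] (hp : 5 ≤ p) {A v w : K}
    (h : AlgebraicIndependent k ![A, v, w])
    (F : LiftedFamily p (fun c : {c : Ch // c.inV} ↦ ring k p A v w c.1)) : False := by
  have hpr : p.Prime := Fact.out
  have hpk : (p : k) = 0 := CharP.cast_eq_zero k p
  have hpR : (p : RatFunc k) = 0 := by
    rw [← map_natCast (algebraMap k (RatFunc k)), hpk, map_zero]
  obtain ⟨a, B, ha, ha0, ha1, haP, hB, haB⟩ := exists_global p hp h F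
  obtain ⟨b, hbP, hb⟩ := F.lift ⟨.P3, trivial⟩ (v - 1) (Algebra.subset_adjoin (by simp))
  obtain ⟨d, hdP, hd⟩ := F.lift ⟨.P3, trivial⟩ (w - 1) (Algebra.subset_adjoin (by simp))
  obtain ⟨y, hyP, hy⟩ := F.lift ⟨.P3, trivial⟩ (yy p A v w) (Algebra.subset_adjoin (by simp))
  obtain ⟨κ, hκR, hκ⟩ := expand p hp h F ha haP hb hbP hd hdP hy hyP
  have hi := ind_P3 p h
  obtain ⟨⟨ez, hez, hvz⟩, ⟨ey, hey, hvy⟩, ⟨ex, hex, hvx⟩⟩ := val_P3 p hp h hκR
  obtain ⟨cz, hcz, hz⟩ := curve_z p hp h F ha ha0 hb hbP hd hdP hy hyP hκ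
  obtain ⟨cy, hcy, hy'⟩ := curve_y p hp h F ha ha1 hb hbP hd hdP hy hyP hκ
  obtain ⟨cx, hcx, hx⟩ := curve_x p hp h F ha hB haB hb hbP hd hdP hy hyP hκ
  have ez1 := hz.unique hi hvz
  have ey1 := hy'.unique hi hvy
  have ex1 := hx.unique hi hvx
  obtain ⟨kz, hkz⟩ := Einf_inf_Ezero hcz (by rw [ez1]; exact hez)
  obtain ⟨ky, hky⟩ := Einf_inf_Ezero hcy (by rw [ey1]; exact hey)
  have hX0 : (RatFunc.X : RatFunc k) ∈ Ezero k := Algebra.subset_adjoin (by simp)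
  have hX1 : (1 + RatFunc.X : RatFunc k)⁻¹ ∈ Ezero k := Algebra.subset_adjoin (by simp)
  have hphi : phi p (RatFunc.X : RatFunc k) ∈ Ezero k := by
    unfold phi
    exact sum_mem fun j _ => mul_mem (natCast_mem _ _) (pow_mem hX0 _)
  have hcx0 : cx ∈ Ezero k := by
    have h1 : (1 + RatFunc.X ^ p : RatFunc k) = (1 + RatFunc.X) ^ p := by
      rw [one_add_pow_p p hpr, hpR]
      ring
    have h2 : (1 + RatFunc.X : RatFunc k) ^ p ≠ 0 := pow_ne_zero _ N36_X_ne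
    have h3 : cx = (1 + RatFunc.X : RatFunc k)⁻¹ ^ p * (ex - phi p (RatFunc.X : RatFunc k)) := by
      rw [← ex1, h1, inv_pow]
      field_simp
      ring
    rw [h3]
    exact mul_mem (pow_mem hX1 _) (sub_mem hex hphi)
  obtain ⟨kx, hkx⟩ := Einf_inf_Ezero hcx hcx0
  rw [hkz] at hz
  rw [hky] at hy'
  rw [hkx] at hx
  exact taylor p hp h hκR kz ky kx hz hy' hx

end H1F
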