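import Pool.Agent.Lib.H1F.Rings

/-!
# H1F, part N: the algebraic non-liftability statement (definitions)

`Fr x y z U` is the subring `k[x, y, z, 1/U(x,y,z)]` of `K`.
-/

open MvPolynomial

namespace H1F

section

variable {k K : Type*} [Field k] [Field K] [Algebra k K]

/-- The subring `k[x, y, z, 1/U(x,y,z)]` of `K`. -/
noncomputable def Fr (x y z : K) (U : MvPolynomial (Fin 3) k) : Subalgebra k K :=
  Algebra.adjoin k {x, y, z, (aeval ![x, y, z] U)⁻¹}

/-- The ring `k[a, 1/a]`. -/
def K1 (k : Type*) {K : Type*} [Field k] [Field K] [Algebra k K] (a : K) : Subalgebra k K :=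
  Algebra.adjoin k {a, a⁻¹}

/-- The ring `k[a, 1/a, v, 1/v]`. -/
def K2 (k : Type*) {K : Type*} [Field k] [Field K] [Algebra k K] (a v : K) : Subalgebra k K :=
  Algebra.adjoin k {a, a⁻¹, v, v⁻¹}

/-- The ring `k[a, 1/a, v, 1/v, w, 1/w]` of functions on the torus. -/
def K3 (k : Type*) {K : Type*} [Field k] [Field K] [Algebra k K] (a v w : K) : Subalgebra k K :=
  Algebra.adjoin k {a, a⁻¹, v, v⁻¹, w, w⁻¹}

end

/-- A flat lift modulo `p ^ 2` of a family of subrings `R c` of `K`: a ring `L` with a surjection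
`π : L → K` whose kernel is `p L`, such that `p x = 0` iff `π x = 0` (flatness over `ℤ/p²`),
together with lifts `S c` of `R c` and lifts `T c d` of `R c ⊔ R d`.  The condition `mul_mem`
says that `S c` contains the part of the kernel which belongs to `R c`, and `of_mul_mem`
that `T c d` contains nothing more than the part which belongs to `R c ⊔ R d`. -/
structure LiftedFamily (p : ℕ) {k : Type*} {K : Type*} [Field k] [Field K] [Algebra k K]
    {ι : Type*} (R : ι → Subalgebra k K) where
  /-- the lift of `K` -/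
  L : Type*
  [commRing : CommRing L]
  /-- the reduction map -/
  π : L →+* K
  surj : Function.Surjective π
  ker : ∀ x, π x = 0 ↔ ∃ y, x = (p : L) * y
  ann : ∀ x, (p : L) * x = 0 ↔ π x = 0
  /-- the lift of `R c` -/
  S : ι → Subring L
  /-- the lift of `R c ⊔ R d` -/
  T : ι → ι → Subring L
  le_left : ∀ c d, S c ≤ T c d
  le_right : ∀ c d, S d ≤ T c d
  map : ∀ c, ∀ x ∈ S c, π x ∈ R c
  lift : ∀ c, ∀ r ∈ R c, ∃ x ∈ S c, π x = r
  mul_mem : ∀ c x, π x ∈ R c → (p : L) * x ∈ S c
  of_mul_mem : ∀ c d x, (p : L) * x ∈ T c d → π x ∈ R c ⊔ R d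

attribute [instance] LiftedFamily.commRing

section

variable (k : Type*) [Field k] (p : ℕ)

/-- The polynomial `A v w` (with `A = X 0`, `v = X 1`, `w = X 2`). -/
noncomputable def uT : MvPolynomial (Fin 3) k := X 0 * X 1 * X 2

/-- `β = v - 1`. -/
noncomputable def pB : MvPolynomial (Fin 3) k := X 1 - 1

/-- `δ = w - 1`. -/
noncomputable def pD : MvPolynomial (Fin 3) k := X 2 - 1

/-- `e = v - w`. -/
noncomputable def pE : MvPolynomial (Fin 3) k := X 1 - X 2

/-- `h = (A - 1)(A - v^p)(A - w^p)`. -/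
noncomputable def pH : MvPolynomial (Fin 3) k := (X 0 - 1) * (X 0 - X 1 ^ p) * (X 0 - X 2 ^ p)

/-- The denominators of the six frames on the torus. -/
noncomputable def den : Fin 6 → MvPolynomial (Fin 3) k :=
  ![pD k * pE k, pB k * pE k, pD k * pE k, pB k * pD k, pB k * pE k, pB k * pD k]

/-- The denominators of the three charts `M` on the torus. -/
noncomputable def mden : Fin 3 → MvPolynomial (Fin 3) k :=
  ![pB k * pD k * ((X 0 - X 1 ^ p) * (X 0 - X 2 ^ p)),
    pB k * pE k * ((X 0 - 1) * (X 0 - X 2 ^ p)),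
    pD k * pE k * ((X 0 - 1) * (X 0 - X 1 ^ p))]

end

/-- An additive Cousin datum on the charts of `V⁺`. -/
def Cocycle (k : Type*) {K : Type*} [Field k] [Field K] [Algebra k K] (p : ℕ) (A v w : K)
    (G : Ch → K) : Prop :=
  ∀ c d : Ch, c.inV → d.inV → G c - G d ∈ ring k p A v w c ⊔ ring k p A v w d

end H1F
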