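import Pool.Agent.Lib.H1F.N.N8
import Pool.Agent.Lib.H1F.N.N3

/-!
# H1F, chunk N10

The charts as subrings of localizations of the torus ring.
-/

open MvPolynomial

namespace H1F

variable {k K : Type*} [Field k] [Field K] [Algebra k K]

theorem N10_neg {S : Subalgebra k K} {x : K} (hx : N8_U S x) : N8_U S (-x) :=
  ⟨neg_mem hx.1, by rw [inv_neg]; exact neg_mem hx.2⟩

theorem N10_swap {S : Subalgebra k K} {x y : K} (hx : N8_U S (x - y)) : N8_U S (y - x) := by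
  have := N10_neg hx
  rwa [neg_sub] at this

theorem N10_unit {A v w : K} {U G : MvPolynomial (Fin 3) k} (hU : aeval ![A, v, w] U ≠ 0)
    (hG : G ∣ U) {x : K} (hx : aeval ![A, v, w] G = x) : N8_U (Fr A v w U) x := by
  rw [← hx]
  exact ⟨aeval_mem_Fr _ _ _ _ _, inv_mem_Fr hG hU⟩

theorem N10_ne {A v w : K} (h : AlgebraicIndependent k ![A, v, w]) {P : MvPolynomial (Fin 3) k}
    (hP : P ≠ 0) : aeval ![A, v, w] P ≠ 0 := fun h0 =>
  hP (h.eq_zero_of_aeval_eq_zero P h0)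

theorem N10_xp {i j : Fin 3} (h : i ≠ j) (p : ℕ) : (X i - X j ^ p : MvPolynomial (Fin 3) k) ≠ 0 :=
  (prime_X_sub _ _ (N3_vars_pow h p)).ne_zero

theorem N10_x1 (i : Fin 3) : (X i - 1 : MvPolynomial (Fin 3) k) ≠ 0 :=
  (prime_X_sub i 1 (N3_vars_one i)).ne_zero

theorem N10_uT : uT k ≠ 0 := by
  unfold uT
  exact mul_ne_zero (mul_ne_zero (prime_X 0).ne_zero (prime_X 1).ne_zero) (prime_X 2).ne_zero

theorem N10_pH (p : ℕ) : pH k p ≠ 0 := by
  unfold pH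
  exact mul_ne_zero (mul_ne_zero (N10_x1 0) (N10_xp (by decide) p)) (N10_xp (by decide) p)

theorem N10_U0 : (X 0 : MvPolynomial (Fin 3) k) ∣ uT k := ⟨X 1 * X 2, by unfold uT; ring⟩
theorem N10_U1 : (X 1 : MvPolynomial (Fin 3) k) ∣ uT k := ⟨X 0 * X 2, by unfold uT; ring⟩
theorem N10_U2 : (X 2 : MvPolynomial (Fin 3) k) ∣ uT k := ⟨X 0 * X 1, by unfold uT; ring⟩

theorem N10_h0 (p : ℕ) : (X 0 - 1 : MvPolynomial (Fin 3) k) ∣ pH k p :=
  ⟨(X 0 - X 1 ^ p) * (X 0 - X 2 ^ p), by unfold pH; ring⟩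
theorem N10_h1 (p : ℕ) : (X 0 - X 1 ^ p : MvPolynomial (Fin 3) k) ∣ pH k p :=
  ⟨(X 0 - 1) * (X 0 - X 2 ^ p), by unfold pH; ring⟩
theorem N10_h2 (p : ℕ) : (X 0 - X 2 ^ p : MvPolynomial (Fin 3) k) ∣ pH k p :=
  ⟨(X 0 - 1) * (X 0 - X 1 ^ p), by unfold pH; ring⟩

section eval

variable (A v w : K)

theorem N10_eA : aeval ![A, v, w] (X 0 : MvPolynomial (Fin 3) k) = A := by simp
theorem N10_ev : aeval ![A, v, w] (X 1 : MvPolynomial (Fin 3) k) = v := by simp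
theorem N10_ew : aeval ![A, v, w] (X 2 : MvPolynomial (Fin 3) k) = w := by simp
theorem N10_eB : aeval ![A, v, w] (pB k) = v - 1 := by simp [pB]
theorem N10_eD : aeval ![A, v, w] (pD k) = w - 1 := by simp [pD]
theorem N10_eE : aeval ![A, v, w] (pE k) = v - w := by simp [pE]
theorem N10_e0 : aeval ![A, v, w] (X 0 - 1 : MvPolynomial (Fin 3) k) = A - 1 := by simp
theorem N10_e1 (p : ℕ) :
    aeval ![A, v, w] (X 0 - X 1 ^ p : MvPolynomial (Fin 3) k) = A - v ^ p := by simp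
theorem N10_e2 (p : ℕ) :
    aeval ![A, v, w] (X 0 - X 2 ^ p : MvPolynomial (Fin 3) k) = A - w ^ p := by simp

end eval

/-- On `NI f` only `β, δ, v - w` have to be inverted (besides `A, v, w`). -/
theorem NI_le (p : ℕ) {A v w : K} (h : AlgebraicIndependent k ![A, v, w]) (f : Fin 6) :
    ring k p A v w (.NI f) ≤ Fr A v w (uT k * (pB k * pD k * pE k)) := by
  obtain ⟨hA, hv, hw, -⟩ := N8_ne h
  have hU : aeval ![A, v, w] (uT k * (pB k * pD k * pE k)) ≠ 0 := N10_ne h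
    (mul_ne_zero N10_uT (mul_ne_zero (mul_ne_zero prime_pB.ne_zero prime_pD.ne_zero)
      prime_pE.ne_zero))
  set S := Fr A v w (uT k * (pB k * pD k * pE k)) with hS
  have uA : N8_U S A := N10_unit hU (N10_U0.mul_right _) (N10_eA _ _ _)
  have uv : N8_U S v := N10_unit hU (N10_U1.mul_right _) (N10_ev _ _ _)
  have uw : N8_U S w := N10_unit hU (N10_U2.mul_right _) (N10_ew _ _ _)
  have uB : N8_U S (v - 1) := N10_unit hU ⟨uT k * (pD k * pE k), by ring⟩ (N10_eB _ _ _)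
  have uD : N8_U S (w - 1) := N10_unit hU ⟨uT k * (pB k * pE k), by ring⟩ (N10_eD _ _ _)
  have uE : N8_U S (v - w) := N10_unit hU ⟨uT k * (pB k * pD k), by ring⟩ (N10_eE _ _ _)
  have key : ∀ a' v' w' : K, N8_U S a' → N8_U S (v' - 1) → N8_U S (w' - 1) → N8_U S (w' - v') →
      NI k a' v' w' ≤ S := by
    intro a' v' w' ha hv1 hw1 hwv
    refine Algebra.adjoin_le ?_
    rintro r (rfl | rfl | rfl | rfl | rfl)
    · exact hv1.1
    · rw [div_eq_mul_inv]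
      exact mul_mem (sub_mem ha.1 (one_mem S)) hv1.2
    · exact hw1.2
    · exact ha.2
    · rw [div_eq_mul_inv]
      exact mul_mem hw1.1 hwv.2
  have a1 : N8_U S (v⁻¹ - 1) := by
    have e : v⁻¹ - 1 = (1 - v) / v := by field_simp
    rw [e]; exact (N10_swap uB).div uv
  have a2 : N8_U S (w⁻¹ - 1) := by
    have e : w⁻¹ - 1 = (1 - w) / w := by field_simp
    rw [e]; exact (N10_swap uD).div uw
  have a3 : N8_U S (w / v - 1) := by
    have e : w / v - 1 = (w - v) / v := by field_simp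
    rw [e]; exact (N10_swap uE).div uv
  have a4 : N8_U S (v / w - 1) := by
    have e : v / w - 1 = (v - w) / w := by field_simp
    rw [e]; exact uE.div uw
  have a5 : N8_U S (w / v - v⁻¹) := by
    have e : w / v - v⁻¹ = (w - 1) / v := by field_simp
    rw [e]; exact uD.div uv
  have a6 : N8_U S (v / w - w⁻¹) := by
    have e : v / w - w⁻¹ = (v - 1) / w := by field_simp
    rw [e]; exact uB.div uw
  fin_cases f
  · exact key A v w uA uB uD (N10_swap uE)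
  · exact key A w v uA uD uB uE
  · exact key (A / v ^ p) v⁻¹ (w / v) (uA.div (uv.pow p)) a1 a3 a5
  · exact key (A / v ^ p) (w / v) v⁻¹ (uA.div (uv.pow p)) a3 a1 (N10_swap a5)
  · exact key (A / w ^ p) w⁻¹ (v / w) (uA.div (uw.pow p)) a2 a4 a6
  · exact key (A / w ^ p) (v / w) w⁻¹ (uA.div (uw.pow p)) a4 a2 (N10_swap a6)

theorem N10_key {S : Subalgebra k K} {a' v' w' : K} (ha : N8_U S a') (ha1 : N8_U S (a' - 1))
    (hv : v' ∈ S) (hw1 : N8_U S (w' - 1)) (hwv : N8_U S (w' - v')) : NII k a' v' w' ≤ S := by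
  refine Algebra.adjoin_le ?_
  rintro r (rfl | rfl | rfl | rfl | rfl)
  · exact ha1.1
  · rw [div_eq_mul_inv]
    exact mul_mem (sub_mem hv (one_mem S)) ha1.2
  · exact hw1.2
  · exact ha.2
  · rw [div_eq_mul_inv]
    exact mul_mem hw1.1 hwv.2

section units

variable {S : Subalgebra k K} {A v w : K}

theorem N10_a1 (hv : v ≠ 0) (uv : N8_U S v) (uB : N8_U S (v - 1)) : N8_U S (v⁻¹ - 1) := by
  have e : v⁻¹ - 1 = (1 - v) / v := by field_simp
  rw [e]; exact (N10_swap uB).div uv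

theorem N10_a3 (hv : v ≠ 0) (uv : N8_U S v) (uE : N8_U S (v - w)) : N8_U S (w / v - 1) := by
  have e : w / v - 1 = (w - v) / v := by field_simp
  rw [e]; exact (N10_swap uE).div uv

theorem N10_a5 (hv : v ≠ 0) (uv : N8_U S v) (uD : N8_U S (w - 1)) : N8_U S (w / v - v⁻¹) := by
  have e : w / v - v⁻¹ = (w - 1) / v := by field_simp
  rw [e]; exact uD.div uv

theorem N10_a7 (hv : v ≠ 0) (uv : N8_U S v) (p : ℕ) (u : N8_U S (A - v ^ p)) :
    N8_U S (A / v ^ p - 1) := by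
  have e : A / v ^ p - 1 = (A - v ^ p) / v ^ p := by
    rw [sub_div, div_self (pow_ne_zero p hv)]
  rw [e]; exact u.div (uv.pow p)

end units

theorem N10_F0 {S : Subalgebra k K} {A v w : K} (uA : N8_U S A) (uv : N8_U S v)
    (u0 : N8_U S (A - 1)) (uD : N8_U S (w - 1)) (uE : N8_U S (v - w)) : NII k A v w ≤ S :=
  N10_key uA u0 uv.1 uD (N10_swap uE)

theorem N10_F2 {S : Subalgebra k K} {A v w : K} (p : ℕ) (hv : v ≠ 0) (uA : N8_U S A)
    (uv : N8_U S v) (u1 : N8_U S (A - v ^ p)) (uD : N8_U S (w - 1)) (uE : N8_U S (v - w)) :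
    NII k (A / v ^ p) v⁻¹ (w / v) ≤ S :=
  N10_key (uA.div (uv.pow p)) (N10_a7 hv uv p u1) uv.2 (N10_a3 hv uv uE) (N10_a5 hv uv uD)

theorem N10_F3 {S : Subalgebra k K} {A v w : K} (p : ℕ) (hv : v ≠ 0) (uA : N8_U S A)
    (uv : N8_U S v) (uw : N8_U S w) (u1 : N8_U S (A - v ^ p)) (uB : N8_U S (v - 1))
    (uD : N8_U S (w - 1)) : NII k (A / v ^ p) (w / v) v⁻¹ ≤ S :=
  N10_key (uA.div (uv.pow p)) (N10_a7 hv uv p u1) (uw.div uv).1 (N10_a1 hv uv uB)
    (N10_swap (N10_a5 hv uv uD))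

/-- On `NII f` only `den f` and `h`. -/
theorem NII_le (p : ℕ) [Fact p.Prime] [CharP k p] {A v w : K}
    (h : AlgebraicIndependent k ![A, v, w]) (f : Fin 6) :
    ring k p A v w (.NII f) ≤ Fr A v w (uT k * (den k f * pH k p)) := by
  obtain ⟨hA, hv, hw, -⟩ := N8_ne h
  have pB0 := (prime_pB (k := k)).ne_zero
  have pD0 := (prime_pD (k := k)).ne_zero
  have pE0 := (prime_pE (k := k)).ne_zero
  have gen : ∀ G : MvPolynomial (Fin 3) k, G ≠ 0 →
      aeval ![A, v, w] (uT k * (G * pH k p)) ≠ 0 := fun G hG =>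
    N10_ne h (mul_ne_zero N10_uT (mul_ne_zero hG (N10_pH p)))
  have gA : ∀ G : MvPolynomial (Fin 3) k, G ≠ 0 → N8_U (Fr A v w (uT k * (G * pH k p))) A :=
    fun G hG => N10_unit (gen G hG) (N10_U0.mul_right _) (N10_eA _ _ _)
  have gv : ∀ G : MvPolynomial (Fin 3) k, G ≠ 0 → N8_U (Fr A v w (uT k * (G * pH k p))) v :=
    fun G hG => N10_unit (gen G hG) (N10_U1.mul_right _) (N10_ev _ _ _)
  have gw : ∀ G : MvPolynomial (Fin 3) k, G ≠ 0 → N8_U (Fr A v w (uT k * (G * pH k p))) w :=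
    fun G hG => N10_unit (gen G hG) (N10_U2.mul_right _) (N10_ew _ _ _)
  have g0 : ∀ G : MvPolynomial (Fin 3) k, G ≠ 0 →
      N8_U (Fr A v w (uT k * (G * pH k p))) (A - 1) := fun G hG =>
    N10_unit (gen G hG) (((N10_h0 p).mul_left _).mul_left _) (N10_e0 _ _ _)
  have g1 : ∀ G : MvPolynomial (Fin 3) k, G ≠ 0 →
      N8_U (Fr A v w (uT k * (G * pH k p))) (A - v ^ p) := fun G hG =>
    N10_unit (gen G hG) (((N10_h1 p).mul_left _).mul_left _) (N10_e1 _ _ _ p)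
  have g2 : ∀ G : MvPolynomial (Fin 3) k, G ≠ 0 →
      N8_U (Fr A v w (uT k * (G * pH k p))) (A - w ^ p) := fun G hG =>
    N10_unit (gen G hG) (((N10_h2 p).mul_left _).mul_left _) (N10_e2 _ _ _ p)
  have gB : ∀ G : MvPolynomial (Fin 3) k, G ≠ 0 → pB k ∣ G →
      N8_U (Fr A v w (uT k * (G * pH k p))) (v - 1) := fun G hG hd =>
    N10_unit (gen G hG) ((hd.mul_right _).mul_left _) (N10_eB _ _ _)
  have gD : ∀ G : MvPolynomial (Fin 3) k, G ≠ 0 → pD k ∣ G →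
      N8_U (Fr A v w (uT k * (G * pH k p))) (w - 1) := fun G hG hd =>
    N10_unit (gen G hG) ((hd.mul_right _).mul_left _) (N10_eD _ _ _)
  have gE : ∀ G : MvPolynomial (Fin 3) k, G ≠ 0 → pE k ∣ G →
      N8_U (Fr A v w (uT k * (G * pH k p))) (v - w) := fun G hG hd =>
    N10_unit (gen G hG) ((hd.mul_right _).mul_left _) (N10_eE _ _ _)
  have nDE : pD k * pE k ≠ 0 := mul_ne_zero pD0 pE0
  have nBE : pB k * pE k ≠ 0 := mul_ne_zero pB0 pE0
  have nBD : pB k * pD k ≠ 0 := mul_ne_zero pB0 pD0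
  fin_cases f
  · exact N10_F0 (gA _ nDE) (gv _ nDE) (g0 _ nDE) (gD _ nDE (dvd_mul_right _ _))
      (gE _ nDE (dvd_mul_left _ _))
  · exact N10_F0 (gA _ nBE) (gw _ nBE) (g0 _ nBE) (gB _ nBE (dvd_mul_right _ _))
      (N10_swap (gE _ nBE (dvd_mul_left _ _)))
  · exact N10_F2 p hv (gA _ nDE) (gv _ nDE) (g1 _ nDE) (gD _ nDE (dvd_mul_right _ _))
      (gE _ nDE (dvd_mul_left _ _))
  · exact N10_F3 p hv (gA _ nBD) (gv _ nBD) (gw _ nBD) (g1 _ nBD)
      (gB _ nBD (dvd_mul_right _ _)) (gD _ nBD (dvd_mul_left _ _))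
  · exact N10_F2 p hw (gA _ nBE) (gw _ nBE) (g2 _ nBE) (gB _ nBE (dvd_mul_right _ _))
      (N10_swap (gE _ nBE (dvd_mul_left _ _)))
  · exact N10_F3 p hw (gA _ nBD) (gw _ nBD) (gv _ nBD) (g2 _ nBD)
      (gD _ nBD (dvd_mul_left _ _)) (gB _ nBD (dvd_mul_right _ _))

/-- More precisely for three frames. -/
theorem NII_le_mden (p : ℕ) [Fact p.Prime] [CharP k p] {A v w : K}
    (h : AlgebraicIndependent k ![A, v, w]) :
    ring k p A v w (.NII 3) ≤ Fr A v w (uT k * mden k p 0) ∧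
    ring k p A v w (.NII 1) ≤ Fr A v w (uT k * mden k p 1) ∧
    ring k p A v w (.NII 0) ≤ Fr A v w (uT k * mden k p 2) := by
  obtain ⟨hA, hv, hw, -⟩ := N8_ne h
  have pB0 := (prime_pB (k := k)).ne_zero
  have pD0 := (prime_pD (k := k)).ne_zero
  have pE0 := (prime_pE (k := k)).ne_zero
  have m0 : aeval ![A, v, w] (uT k * mden k p 0) ≠ 0 := N10_ne h (mul_ne_zero N10_uT
    (mul_ne_zero (mul_ne_zero pB0 pD0) (mul_ne_zero (N10_xp (by decide) p) (N10_xp (by decide) p))))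
  have m1 : aeval ![A, v, w] (uT k * mden k p 1) ≠ 0 := N10_ne h (mul_ne_zero N10_uT
    (mul_ne_zero (mul_ne_zero pB0 pE0) (mul_ne_zero (N10_x1 0) (N10_xp (by decide) p))))
  have m2 : aeval ![A, v, w] (uT k * mden k p 2) ≠ 0 := N10_ne h (mul_ne_zero N10_uT
    (mul_ne_zero (mul_ne_zero pD0 pE0) (mul_ne_zero (N10_x1 0) (N10_xp (by decide) p))))
  refine ⟨?_, ?_, ?_⟩
  · exact N10_F3 p hv (N10_unit m0 (N10_U0.mul_right _) (N10_eA _ _ _))
      (N10_unit m0 (N10_U1.mul_right _) (N10_ev _ _ _))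
      (N10_unit m0 (N10_U2.mul_right _) (N10_ew _ _ _))
      (N10_unit m0 ⟨uT k * (pB k * pD k * (X 0 - X 2 ^ p)), by simp [mden]; ring⟩ (N10_e1 _ _ _ p))
      (N10_unit m0 ⟨uT k * (pD k * ((X 0 - X 1 ^ p) * (X 0 - X 2 ^ p))), by simp [mden]; ring⟩
        (N10_eB _ _ _))
      (N10_unit m0 ⟨uT k * (pB k * ((X 0 - X 1 ^ p) * (X 0 - X 2 ^ p))), by simp [mden]; ring⟩
        (N10_eD _ _ _))
  · exact N10_F0 (N10_unit m1 (N10_U0.mul_right _) (N10_eA _ _ _))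
      (N10_unit m1 (N10_U2.mul_right _) (N10_ew _ _ _))
      (N10_unit m1 ⟨uT k * (pB k * pE k * (X 0 - X 2 ^ p)), by simp [mden]; ring⟩ (N10_e0 _ _ _))
      (N10_unit m1 ⟨uT k * (pE k * ((X 0 - 1) * (X 0 - X 2 ^ p))), by simp [mden]; ring⟩
        (N10_eB _ _ _))
      (N10_swap (N10_unit m1 ⟨uT k * (pB k * ((X 0 - 1) * (X 0 - X 2 ^ p))), by
        simp [mden]; ring⟩ (N10_eE _ _ _)))
  · exact N10_F0 (N10_unit m2 (N10_U0.mul_right _) (N10_eA _ _ _))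
      (N10_unit m2 (N10_U1.mul_right _) (N10_ev _ _ _))
      (N10_unit m2 ⟨uT k * (pD k * pE k * (X 0 - X 1 ^ p)), by simp [mden]; ring⟩ (N10_e0 _ _ _))
      (N10_unit m2 ⟨uT k * (pE k * ((X 0 - 1) * (X 0 - X 1 ^ p))), by simp [mden]; ring⟩
        (N10_eD _ _ _))
      (N10_unit m2 ⟨uT k * (pD k * ((X 0 - 1) * (X 0 - X 1 ^ p))), by simp [mden]; ring⟩
        (N10_eE _ _ _))

theorem N10_MM {S : Subalgebra k K} {a' v' w' : K} (p : ℕ) (ha : N8_U S a')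
    (hv : N8_U S (v' - 1)) (hw : N8_U S (w' - 1)) (h1 : N8_U S (a' - v' ^ p))
    (h2 : N8_U S (a' - w' ^ p)) : MM k p a' v' w' ≤ S := by
  refine Algebra.adjoin_le ?_
  rintro r (rfl | rfl | rfl | rfl | rfl | rfl)
  · exact ha.1
  · exact ha.2
  · exact hv.2
  · exact hw.2
  · rw [div_eq_mul_inv]
    exact mul_mem (pow_mem hv.1 p) h1.2
  · rw [div_eq_mul_inv]
    exact mul_mem (pow_mem hw.1 p) h2.2

theorem N10_MM2 {S : Subalgebra k K} {A v w : K} (p : ℕ) (hv0 : v ≠ 0) (hA : N8_U S A)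
    (uv : N8_U S v) (hB : N8_U S (v - 1)) (hE : N8_U S (v - w)) (h0 : N8_U S (A - 1))
    (h2 : N8_U S (A - w ^ p)) : MM k p (A / v ^ p) v⁻¹ (w / v) ≤ S := by
  refine N10_MM p (hA.div (uv.pow p)) (N10_a1 hv0 uv hB) (N10_a3 hv0 uv hE) ?_ ?_
  · have e : A / v ^ p - v⁻¹ ^ p = (A - 1) / v ^ p := by
      rw [inv_pow]; field_simp
    rw [e]; exact h0.div (uv.pow p)
  · have e : A / v ^ p - (w / v) ^ p = (A - w ^ p) / v ^ p := by
      rw [div_pow, sub_div]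
    rw [e]; exact h2.div (uv.pow p)

/-- The charts `M`. -/
theorem M_le (p : ℕ) [Fact p.Prime] [CharP k p] {A v w : K}
    (h : AlgebraicIndependent k ![A, v, w]) (i : Fin 3) :
    ring k p A v w (.M i) ≤ Fr A v w (uT k * mden k p i) := by
  obtain ⟨hA, hv, hw, -⟩ := N8_ne h
  have pB0 := (prime_pB (k := k)).ne_zero
  have pD0 := (prime_pD (k := k)).ne_zero
  have pE0 := (prime_pE (k := k)).ne_zero
  have m0 : aeval ![A, v, w] (uT k * mden k p 0) ≠ 0 := N10_ne h (mul_ne_zero N10_uT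
    (mul_ne_zero (mul_ne_zero pB0 pD0) (mul_ne_zero (N10_xp (by decide) p) (N10_xp (by decide) p))))
  have m1 : aeval ![A, v, w] (uT k * mden k p 1) ≠ 0 := N10_ne h (mul_ne_zero N10_uT
    (mul_ne_zero (mul_ne_zero pB0 pE0) (mul_ne_zero (N10_x1 0) (N10_xp (by decide) p))))
  have m2 : aeval ![A, v, w] (uT k * mden k p 2) ≠ 0 := N10_ne h (mul_ne_zero N10_uT
    (mul_ne_zero (mul_ne_zero pD0 pE0) (mul_ne_zero (N10_x1 0) (N10_xp (by decide) p))))
  fin_cases i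
  · show MM k p A v w ≤ Fr A v w (uT k * mden k p 0)
    exact N10_MM p (N10_unit m0 (N10_U0.mul_right _) (N10_eA _ _ _))
      (N10_unit m0 ⟨uT k * (pD k * ((X 0 - X 1 ^ p) * (X 0 - X 2 ^ p))), by simp [mden]; ring⟩
        (N10_eB _ _ _))
      (N10_unit m0 ⟨uT k * (pB k * ((X 0 - X 1 ^ p) * (X 0 - X 2 ^ p))), by simp [mden]; ring⟩
        (N10_eD _ _ _))
      (N10_unit m0 ⟨uT k * (pB k * pD k * (X 0 - X 2 ^ p)), by simp [mden]; ring⟩ (N10_e1 _ _ _ p))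
      (N10_unit m0 ⟨uT k * (pB k * pD k * (X 0 - X 1 ^ p)), by simp [mden]; ring⟩ (N10_e2 _ _ _ p))
  · show MM k p (A / v ^ p) v⁻¹ (w / v) ≤ Fr A v w (uT k * mden k p 1)
    exact N10_MM2 p hv (N10_unit m1 (N10_U0.mul_right _) (N10_eA _ _ _))
      (N10_unit m1 (N10_U1.mul_right _) (N10_ev _ _ _))
      (N10_unit m1 ⟨uT k * (pE k * ((X 0 - 1) * (X 0 - X 2 ^ p))), by simp [mden]; ring⟩
        (N10_eB _ _ _))
      (N10_unit m1 ⟨uT k * (pB k * ((X 0 - 1) * (X 0 - X 2 ^ p))), by simp [mden]; ring⟩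
        (N10_eE _ _ _))
      (N10_unit m1 ⟨uT k * (pB k * pE k * (X 0 - X 2 ^ p)), by simp [mden]; ring⟩ (N10_e0 _ _ _))
      (N10_unit m1 ⟨uT k * (pB k * pE k * (X 0 - 1)), by simp [mden]; ring⟩ (N10_e2 _ _ _ p))
  · show MM k p (A / w ^ p) w⁻¹ (v / w) ≤ Fr A v w (uT k * mden k p 2)
    exact N10_MM2 p hw (N10_unit m2 (N10_U0.mul_right _) (N10_eA _ _ _))
      (N10_unit m2 (N10_U2.mul_right _) (N10_ew _ _ _))
      (N10_unit m2 ⟨uT k * (pE k * ((X 0 - 1) * (X 0 - X 1 ^ p))), by simp [mden]; ring⟩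
        (N10_eD _ _ _))
      (N10_swap (N10_unit m2 ⟨uT k * (pD k * ((X 0 - 1) * (X 0 - X 1 ^ p))), by
        simp [mden]; ring⟩ (N10_eE _ _ _)))
      (N10_unit m2 ⟨uT k * (pD k * pE k * (X 0 - X 1 ^ p)), by simp [mden]; ring⟩ (N10_e0 _ _ _))
      (N10_unit m2 ⟨uT k * (pD k * pE k * (X 0 - 1)), by simp [mden]; ring⟩ (N10_e1 _ _ _ p))

/-- The chart `T6`. -/
theorem T6_eq (p : ℕ) {A v w : K} (h : AlgebraicIndependent k ![A, v, w]) :
    ring k p A v w .T6 = Fr A v w (uT k * pH k p) := by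
  have hU : aeval ![A, v, w] (uT k * pH k p) ≠ 0 := N10_ne h (mul_ne_zero N10_uT (N10_pH p))
  show T6 k p A v w = Fr A v w (uT k * pH k p)
  have uA := N10_unit hU ((N10_U0 (k := k)).mul_right (pH k p)) (N10_eA A v w)
  have uv := N10_unit hU ((N10_U1 (k := k)).mul_right (pH k p)) (N10_ev A v w)
  have uw := N10_unit hU ((N10_U2 (k := k)).mul_right (pH k p)) (N10_ew A v w)
  apply le_antisymm
  · refine Algebra.adjoin_le ?_
    rintro r (hr | hr | hr | hr | hr | hr | hr | hr | hr) <;> rw [hr]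
    · exact uA.1
    · exact uA.2
    · exact uv.1
    · exact uv.2
    · exact uw.1
    · exact uw.2
    · exact (N10_unit hU ((N10_h0 (k := k) p).mul_left (uT k)) (N10_e0 A v w)).2
    · exact (N10_unit hU ((N10_h1 (k := k) p).mul_left (uT k)) (N10_e1 A v w p)).2
    · exact (N10_unit hU ((N10_h2 (k := k) p).mul_left (uT k)) (N10_e2 A v w p)).2
  · have m : ∀ t ∈ ({A, A⁻¹, v, v⁻¹, w, w⁻¹, (A - 1)⁻¹, (A - v ^ p)⁻¹, (A - w ^ p)⁻¹} : Set K),
        t ∈ T6 k p A v w := fun t ht => Algebra.subset_adjoin ht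
    refine Algebra.adjoin_le ?_
    rintro r (hr | hr | hr | hr)
    · rw [hr]; exact m _ (by simp)
    · rw [hr]; exact m _ (by simp)
    · rw [hr]; exact m _ (by simp)
    · have e : aeval ![A, v, w] (uT k * pH k p) =
          A * v * w * ((A - 1) * (A - v ^ p) * (A - w ^ p)) := by simp [uT, pH]
      rw [hr, e, mul_inv, mul_inv, mul_inv, mul_inv, mul_inv]
      exact mul_mem (mul_mem (mul_mem (m _ (by simp)) (m _ (by simp))) (m _ (by simp)))
        (mul_mem (mul_mem (m _ (by simp)) (m _ (by simp))) (m _ (by simp)))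

end H1F
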