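import Pool.Agent.Lib.H1F.N.N7
import Pool.Agent.Lib.H1F.N.N10
import Pool.Agent.Lib.H1F.N.N11
import Pool.Agent.Lib.H1F.N.N2

/-!
# H1F, chunk N12

Step (a) for a Cousin datum and the comparisons.
-/

open MvPolynomial

namespace H1F

variable {k K : Type*} [Field k] [Field K] [Algebra k K]

theorem N12_ne_zero {A v w : K} (h : AlgebraicIndependent k ![A, v, w])
    {U : MvPolynomial (Fin 3) k} (hU : U ≠ 0) : aeval ![A, v, w] U ≠ 0 := by
  intro h0
  have hinj : Function.Injective (aeval ![A, v, w] : MvPolynomial (Fin 3) k →ₐ[k] K) := h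
  exact hU (hinj (by rw [h0, map_zero]))

/-- the missing prime of a frame -/
theorem N12_missing (p : ℕ) (hp : 2 ≤ p) (f : Fin 6) :
    ∃ G : MvPolynomial (Fin 3) k, Prime G ∧ ¬ G ∣ pH k p ∧
      pB k * pD k * pE k = den k f * G := by
  obtain ⟨h1, h2, h3, -⟩ := not_dvd_list (k := k) p hp
  have hB : ¬ pB k ∣ pH k p := fun h => h1 (dvd_mul_of_dvd_right h _)
  have hD : ¬ pD k ∣ pH k p := fun h => h2 (dvd_mul_of_dvd_right h _)
  have hE : ¬ pE k ∣ pH k p := fun h => h3 (dvd_mul_of_dvd_right h _)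
  fin_cases f
  · exact ⟨pB k, prime_pB, hB, by change _ = pD k * pE k * _; ring⟩
  · exact ⟨pD k, prime_pD, hD, by change _ = pB k * pE k * _; ring⟩
  · exact ⟨pB k, prime_pB, hB, by change _ = pD k * pE k * _; ring⟩
  · exact ⟨pE k, prime_pE, hE, by change _ = pB k * pD k * _; ring⟩
  · exact ⟨pD k, prime_pD, hD, by change _ = pB k * pE k * _; ring⟩
  · exact ⟨pE k, prime_pE, hE, by change _ = pB k * pD k * _; ring⟩

/-- a difference through an intermediate element -/
theorem N12_sub_mem {S : Subalgebra k K} {x y z : K} (h1 : x - y ∈ S) (h2 : y - z ∈ S) :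
    x - z ∈ S := by
  have h3 := add_mem h1 h2
  rwa [sub_add_sub_cancel] at h3

theorem N12_sub_mem' {S : Subalgebra k K} {x y z : K} (h1 : x - y ∈ S) (h2 : z - y ∈ S) :
    x - z ∈ S := by
  have h3 := sub_mem h1 h2
  rwa [sub_sub_sub_cancel_right] at h3

/-- The solution on `V(N_f)`. -/
theorem exists_GF (p : ℕ) {A v w : K} (h : AlgebraicIndependent k ![A, v, w]) {G : Ch → K}
    (hG : Cocycle k p A v w G) : ∃ GF : Fin 6 → K, ∀ f,
      GF f - G (.NI f) ∈ ring k p A v w (.NI f) ∧ GF f - G (.NII f) ∈ ring k p A v w (.NII f) := by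
  have key : ∀ f : Fin 6, ∃ g : K, g - G (.NI f) ∈ ring k p A v w (.NI f) ∧
      g - G (.NII f) ∈ ring k p A v w (.NII f) := by
    intro f
    obtain ⟨ha, -, -, ha1, hv, hw, hvw, -, -⟩ := ind_ne (frame_ind p h f)
    obtain ⟨x, hx, y, hy, hxy⟩ := stepA ha ha1 hv hw hvw (hG (.NI f) (.NII f) trivial trivial)
    refine ⟨G (.NI f) - x, ?_, ?_⟩
    · rw [sub_sub_cancel_left]
      exact neg_mem hx
    · have h1 : G (.NI f) - x - G (.NII f) = y := by
        rw [sub_right_comm, hxy, add_sub_cancel_left]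
      rw [h1]
      exact hy
  choose GF hGF using key
  exact ⟨GF, hGF⟩

/-- Comparison of two frames (through `NI`). -/
theorem GF_NI (p : ℕ) {A v w : K} (h : AlgebraicIndependent k ![A, v, w]) {G : Ch → K}
    (hG : Cocycle k p A v w G) {GF : Fin 6 → K} (hF : ∀ f,
      GF f - G (.NI f) ∈ ring k p A v w (.NI f) ∧ GF f - G (.NII f) ∈ ring k p A v w (.NII f))
    (f f' : Fin 6) : GF f - GF f' ∈ ring k p A v w (.NI f) ⊔ ring k p A v w (.NI f') := by
  have hl : ring k p A v w (.NI f) ≤ ring k p A v w (.NI f) ⊔ ring k p A v w (.NI f') :=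
    le_sup_left
  have hr : ring k p A v w (.NI f') ≤ ring k p A v w (.NI f) ⊔ ring k p A v w (.NI f') :=
    le_sup_right
  exact N12_sub_mem' (N12_sub_mem (hl (hF f).1) (hG _ _ trivial trivial)) (hr (hF f').1)

/-- Comparison of two frames on the torus, same exceptional divisor (through `NI` and `NII`,
`Fr_inf` with the missing prime `β`, `δ` or `v - w` against `den f * h`). -/
theorem GF_same (p : ℕ) [Fact p.Prime] [CharP k p] {A v w : K}
    (h : AlgebraicIndependent k ![A, v, w]) {G : Ch → K}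
    (hG : Cocycle k p A v w G) {GF : Fin 6 → K} (hF : ∀ f,
      GF f - G (.NI f) ∈ ring k p A v w (.NI f) ∧ GF f - G (.NII f) ∈ ring k p A v w (.NII f))
    (f f' : Fin 6) (hff : den k f = den k f') : GF f - GF f' ∈ Fr A v w (uT k * den k f) := by
  obtain ⟨g, hg, hgH, hgB⟩ := N12_missing (k := k) p (Fact.out : p.Prime).two_le f
  obtain ⟨-, -, -, -, -, hB0, hD0, hE0, hH0, hT0⟩ :=
    not_dvd_list (k := k) p (Fact.out : p.Prime).two_le
  have hden0 : den k f ≠ 0 := by
    intro h0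
    rw [h0, zero_mul] at hgB
    exact mul_ne_zero (mul_ne_zero hB0 hD0) hE0 hgB
  refine Fr_inf h (mul_ne_zero hT0 hden0) hg hgH ?_ ?_
  · have h1 : uT k * den k f * g = uT k * (pB k * pD k * pE k) := by rw [hgB]; ring
    rw [h1]
    exact sup_le (NI_le p h f) (NI_le p h f') (GF_NI p h hG hF f f')
  · have h1 : uT k * den k f * pH k p = uT k * (den k f * pH k p) := by ring
    rw [h1]
    have hf := NII_le p h f
    have hf' := NII_le p h f'
    rw [← hff] at hf'
    have h2 := hG (.NII f) (.NII f') trivial trivial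
    exact N12_sub_mem' (N12_sub_mem (hf (hF f).2) (sup_le hf hf' h2)) (hf' (hF f').2)

/-- Comparison with `T6` (through `NII`). -/
theorem GF_T6 (p : ℕ) [Fact p.Prime] [CharP k p] {A v w : K}
    (h : AlgebraicIndependent k ![A, v, w]) {G : Ch → K}
    (hG : Cocycle k p A v w G) {GF : Fin 6 → K} (hF : ∀ f,
      GF f - G (.NI f) ∈ ring k p A v w (.NI f) ∧ GF f - G (.NII f) ∈ ring k p A v w (.NII f))
    (f : Fin 6) : GF f - G .T6 ∈ Fr A v w (uT k * (den k f * pH k p)) := by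
  obtain ⟨g, hg, hgH, hgB⟩ := N12_missing (k := k) p (Fact.out : p.Prime).two_le f
  obtain ⟨-, -, -, -, -, hB0, hD0, hE0, hH0, hT0⟩ :=
    not_dvd_list (k := k) p (Fact.out : p.Prime).two_le
  have hden0 : den k f ≠ 0 := by
    intro h0
    rw [h0, zero_mul] at hgB
    exact mul_ne_zero (mul_ne_zero hB0 hD0) hE0 hgB
  have hf := NII_le p h f
  have hT : ring k p A v w .T6 ≤ Fr A v w (uT k * (den k f * pH k p)) := by
    rw [T6_eq p h]
    refine Fr_mono ⟨den k f, by ring⟩ (N12_ne_zero h ?_)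
    exact mul_ne_zero hT0 (mul_ne_zero hden0 hH0)
  exact N12_sub_mem (hf (hF f).2) (sup_le hf hT (hG _ _ trivial trivial))

/-- Comparison with the charts `M` (through `NII`). -/
theorem GF_M (p : ℕ) [Fact p.Prime] [CharP k p] {A v w : K}
    (h : AlgebraicIndependent k ![A, v, w]) {G : Ch → K}
    (hG : Cocycle k p A v w G) {GF : Fin 6 → K} (hF : ∀ f,
      GF f - G (.NI f) ∈ ring k p A v w (.NI f) ∧ GF f - G (.NII f) ∈ ring k p A v w (.NII f)) :
    GF 3 - G (.M 0) ∈ Fr A v w (uT k * mden k p 0) ∧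
    GF 1 - G (.M 1) ∈ Fr A v w (uT k * mden k p 1) ∧
    GF 0 - G (.M 2) ∈ Fr A v w (uT k * mden k p 2) := by
  obtain ⟨h0, h1, h2⟩ := NII_le_mden p h
  refine ⟨?_, ?_, ?_⟩
  · exact N12_sub_mem (h0 (hF 3).2) (sup_le h0 (M_le p h 0) (hG (.NII 3) (.M 0) trivial trivial))
  · exact N12_sub_mem (h1 (hF 1).2) (sup_le h1 (M_le p h 1) (hG (.NII 1) (.M 1) trivial trivial))
  · exact N12_sub_mem (h2 (hF 0).2) (sup_le h2 (M_le p h 2) (hG (.NII 0) (.M 2) trivial trivial))

/-- Comparison with `P3` (through `NI`). -/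
theorem GF_P3 (p : ℕ) [Fact p.Prime] [CharP k p] {A v w : K}
    (h : AlgebraicIndependent k ![A, v, w]) {G : Ch → K}
    (hG : Cocycle k p A v w G) {GF : Fin 6 → K} (hF : ∀ f,
      GF f - G (.NI f) ∈ ring k p A v w (.NI f) ∧ GF f - G (.NII f) ∈ ring k p A v w (.NII f))
    (f : Fin 6) : GF f - G .P3 ∈
      ring k p A v w .P3 ⊔ Algebra.adjoin k {(aeval ![A, v, w] (den k f))⁻¹} := by
  have hf := NI_le_P3 p h f
  exact N12_sub_mem (hf (hF f).1)
    (sup_le hf le_sup_left (hG (.NI f) .P3 trivial trivial))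

end H1F
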