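import Pool.Agent.Lib.H1F.N.N0

/-!
# H1F, chunk N4

The first Cech cohomology of an affine scheme vanishes, as an additive Cousin problem.
-/

open MvPolynomial

namespace H1F

variable {k K : Type*} [Field k] [Field K] [Algebra k K]

/-- the elements which are multiplied into `E` by a power of `u` -/
def N4_loc (E : Subalgebra k K) {u : K} (hu : u ∈ E) : Subalgebra k K where
  carrier := {x | ∃ N : ℕ, u ^ N * x ∈ E}
  mul_mem' := by
    rintro x y ⟨N, hN⟩ ⟨M, hM⟩
    refine ⟨N + M, ?_⟩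
    have h : u ^ (N + M) * (x * y) = (u ^ N * x) * (u ^ M * y) := by ring
    rw [h]
    exact mul_mem hN hM
  add_mem' := by
    rintro x y ⟨N, hN⟩ ⟨M, hM⟩
    refine ⟨N + M, ?_⟩
    have h : u ^ (N + M) * (x + y) = u ^ M * (u ^ N * x) + u ^ N * (u ^ M * y) := by ring
    rw [h]
    exact add_mem (mul_mem (pow_mem hu M) hN) (mul_mem (pow_mem hu N) hM)
  algebraMap_mem' := fun r => ⟨0, by
    rw [pow_zero, one_mul]
    exact E.algebraMap_mem r⟩

theorem N4_den (E : Subalgebra k K) {u : K} (hu : u ∈ E) (S : Set K) (hS : ∀ s ∈ S, u * s ∈ E)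
    {x : K} (hx : x ∈ E ⊔ Algebra.adjoin k S) : ∃ N : ℕ, u ^ N * x ∈ E := by
  have h1 : E ⊔ Algebra.adjoin k S ≤ N4_loc E hu := by
    refine sup_le ?_ ?_
    · intro y hy
      exact ⟨0, by rw [pow_zero, one_mul]; exact hy⟩
    · rw [Algebra.adjoin_le_iff]
      intro s hs
      exact ⟨1, by rw [pow_one]; exact hS s hs⟩
  exact h1 hx

theorem N4_mono (E : Subalgebra k K) {u x : K} (hu : u ∈ E) {N M : ℕ} (h : N ≤ M)
    (hx : u ^ N * x ∈ E) : u ^ M * x ∈ E := by
  have h1 : u ^ M * x = u ^ (M - N) * (u ^ N * x) := by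
    rw [← mul_assoc, ← pow_add, Nat.sub_add_cancel h]
  rw [h1]
  exact mul_mem (pow_mem hu _) hx

/-- Let `E` be a subring of `K`, `g i` elements which generate the unit ideal of `E`, and
`G i ∈ K` with `G i - G j ∈ E[1/(g i), 1/(g j)]`.  Then there is `G₀ ∈ K` with
`G₀ - G i ∈ E[1/(g i)]` for all `i`.

Proof. Choose `N` with `(g i g j)^N (G i - G j) ∈ E` for all `i, j`.  The powers `(g i)^N` also
generate the unit ideal: `1 = ∑ c j (g j)^N`, `c j ∈ E`.  Put `G₀ = ∑ c j (g j)^N G j`.  Then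
`(g i)^N (G₀ - G i) = ∑ c j (g i g j)^N (G j - G i) ∈ E`. -/
theorem cech {n : ℕ} (E : Subalgebra k K) (g : Fin n → E) (hg : ∀ i, g i ≠ 0)
    (h1 : Ideal.span (Set.range g) = ⊤) (G : Fin n → K)
    (hG : ∀ i j, G i - G j ∈ E ⊔ Algebra.adjoin k {((g i : K))⁻¹, ((g j : K))⁻¹}) :
    ∃ G₀ : K, ∀ i, G₀ - G i ∈ E ⊔ Algebra.adjoin k {((g i : K))⁻¹} := by
  have hg0 : ∀ i, (g i : K) ≠ 0 := fun i h => hg i (Subtype.ext h)
  have hex : ∀ i j, ∃ N : ℕ, ((g i : K) * (g j : K)) ^ N * (G i - G j) ∈ E := by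
    intro i j
    refine N4_den E (mul_mem (g i).2 (g j).2) _ ?_ (hG i j)
    intro s hs
    rw [Set.mem_insert_iff, Set.mem_singleton_iff] at hs
    rcases hs with rfl | rfl
    · have h : (g i : K) * (g j : K) * (g i : K)⁻¹ = g j := by
        field_simp [hg0 i]
      rw [h]
      exact (g j).2
    · have h : (g i : K) * (g j : K) * (g j : K)⁻¹ = g i := by
        field_simp [hg0 j]
      rw [h]
      exact (g i).2
  choose M hM using hex
  set N := ∑ i, ∑ j, M i j with hN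
  have hle : ∀ i j, M i j ≤ N := by
    intro i j
    refine le_trans (Finset.single_le_sum (f := fun j => M i j) (fun _ _ => Nat.zero_le _)
      (Finset.mem_univ j)) ?_
    exact Finset.single_le_sum (f := fun i => ∑ j, M i j) (fun _ _ => Nat.zero_le _)
      (Finset.mem_univ i)
  have hMN : ∀ i j, ((g i : K) * (g j : K)) ^ N * (G i - G j) ∈ E := fun i j =>
    N4_mono E (mul_mem (g i).2 (g j).2) (hle i j) (hM i j)
  have h2 := Ideal.span_pow_eq_top (Set.range g) h1 N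
  rw [← Set.range_comp, Ideal.eq_top_iff_one, Ideal.mem_span_range_iff_exists_fun] at h2
  obtain ⟨c, hc⟩ := h2
  have hcK : ∑ j, (c j : K) * (g j : K) ^ N = 1 := by
    have h := congrArg (fun z : E => (z : K)) hc
    simp only [Function.comp_apply] at h
    rw [AddSubmonoidClass.coe_finsetSum] at h
    simpa using h
  refine ⟨∑ j, (c j : K) * (g j : K) ^ N * G j, fun i => ?_⟩
  have h3 : (g i : K) ^ N * (∑ j, (c j : K) * (g j : K) ^ N * G j - G i) =
      ∑ j, (c j : K) * (((g j : K) * (g i : K)) ^ N * (G j - G i)) := by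
    have h4 : G i = ∑ j, (c j : K) * (g j : K) ^ N * G i := by
      rw [← Finset.sum_mul, hcK, one_mul]
    conv_lhs => rw [h4, ← Finset.sum_sub_distrib, Finset.mul_sum]
    refine Finset.sum_congr rfl fun j _ => ?_
    rw [mul_pow]
    ring
  have h5 : (g i : K) ^ N * (∑ j, (c j : K) * (g j : K) ^ N * G j - G i) ∈ E := by
    rw [h3]
    exact sum_mem fun j _ => mul_mem (c j).2 (hMN j i)
  have h6 : ∑ j, (c j : K) * (g j : K) ^ N * G j - G i =
      ((g i : K) ^ N * (∑ j, (c j : K) * (g j : K) ^ N * G j - G i)) * ((g i : K)⁻¹) ^ N := by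
    have h7 : (g i : K) ^ N * ((g i : K)⁻¹) ^ N = 1 := by
      rw [← mul_pow, mul_inv_cancel₀ (hg0 i), one_pow]
    rw [mul_right_comm, h7, one_mul]
  rw [h6]
  refine mul_mem (Algebra.mem_sup_left h5) (Algebra.mem_sup_right (pow_mem ?_ N))
  exact Algebra.subset_adjoin (Set.mem_singleton _)

/-- If `g, h` generate the unit ideal of `E` then `E[1/g] ∩ E[1/h] = E`. -/
theorem inf_of_comax (E : Subalgebra k K) (g h : E) (hg : g ≠ 0) (hh : h ≠ 0)
    (h1 : Ideal.span {g, h} = ⊤) {r : K} (hr : r ∈ E ⊔ Algebra.adjoin k {(g : K)⁻¹})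
    (hr' : r ∈ E ⊔ Algebra.adjoin k {(h : K)⁻¹}) : r ∈ E := by
  have hg0 : (g : K) ≠ 0 := fun h => hg (Subtype.ext h)
  have hh0 : (h : K) ≠ 0 := fun h => hh (Subtype.ext h)
  obtain ⟨N, hN⟩ := N4_den E g.2 _ (by
    intro s hs
    rw [Set.mem_singleton_iff] at hs
    rw [hs, mul_inv_cancel₀ hg0]
    exact one_mem E) hr
  obtain ⟨M, hM⟩ := N4_den E h.2 _ (by
    intro s hs
    rw [Set.mem_singleton_iff] at hs
    rw [hs, mul_inv_cancel₀ hh0]
    exact one_mem E) hr'
  have h2 : (1 : E) ∈ Ideal.span {g, h} := by rw [h1]; exact Submodule.mem_top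
  obtain ⟨a, b, hab⟩ := Ideal.mem_span_pair.1 h2
  have h3 : IsCoprime g h := ⟨a, b, hab⟩
  obtain ⟨c, d, hcd⟩ := h3.pow (m := N) (n := M)
  have h4 : (c : K) * (g : K) ^ N + (d : K) * (h : K) ^ M = 1 := by
    have h5 := congrArg (fun z : E => (z : K)) hcd
    simpa using h5
  have h5 : r = (c : K) * ((g : K) ^ N * r) + (d : K) * ((h : K) ^ M * r) := by
    linear_combination (-r) * h4
  rw [h5]
  exact add_mem (mul_mem c.2 hN) (mul_mem d.2 hM)

end H1F
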