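import Pool.Agent.Lib.H1F.N.N1

/-!
# H1F, chunk N5

`H^1` of the punctured torus: the element `h` is a nonzerodivisor on the local cohomology
`E_{βδ} / (E_β + E_δ)`.
-/

open MvPolynomial

namespace H1F

variable {k K : Type*} [Field k] [Field K] [Algebra k K]

/-- `f` vanishes for `w = 1` iff `w - 1` divides it. -/
theorem N5_dvd_pD {f : MvPolynomial (Fin 3) k}
    (h : aeval ![(X 0 : MvPolynomial (Fin 3) k), X 1, 1] f = 0) : pD k ∣ f := by
  have hext : (Ideal.Quotient.mkₐ k (Ideal.span {pD k})).comp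
      (aeval ![(X 0 : MvPolynomial (Fin 3) k), X 1, 1]) =
      Ideal.Quotient.mkₐ k (Ideal.span {pD k}) := by
    apply MvPolynomial.algHom_ext
    intro i
    rw [AlgHom.comp_apply, aeval_X]
    fin_cases i
    · rfl
    · rfl
    · change Ideal.Quotient.mk (Ideal.span {pD k}) 1 = Ideal.Quotient.mk (Ideal.span {pD k}) (X 2)
      rw [eq_comm, Ideal.Quotient.eq]
      exact Ideal.subset_span (Set.mem_singleton _)
  have h2 := AlgHom.congr_fun hext f
  rw [AlgHom.comp_apply, h, map_zero] at h2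
  have h3 : Ideal.Quotient.mk (Ideal.span {pD k}) f = 0 := h2.symm
  rw [Ideal.Quotient.eq_zero_iff_mem, Ideal.mem_span_singleton] at h3
  exact h3

/-- `f` vanishes for `v = w = 1` iff it lies in the ideal of `v - 1` and `w - 1`. -/
theorem N5_mem_span {f : MvPolynomial (Fin 3) k}
    (h : aeval ![(X 0 : MvPolynomial (Fin 3) k), 1, 1] f = 0) :
    ∃ a b, f = pB k * a + pD k * b := by
  have hext : (Ideal.Quotient.mkₐ k (Ideal.span {pB k, pD k})).comp
      (aeval ![(X 0 : MvPolynomial (Fin 3) k), 1, 1]) =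
      Ideal.Quotient.mkₐ k (Ideal.span {pB k, pD k}) := by
    apply MvPolynomial.algHom_ext
    intro i
    rw [AlgHom.comp_apply, aeval_X]
    fin_cases i
    · rfl
    · change Ideal.Quotient.mk (Ideal.span {pB k, pD k}) 1 =
        Ideal.Quotient.mk (Ideal.span {pB k, pD k}) (X 1)
      rw [eq_comm, Ideal.Quotient.eq]
      exact Ideal.subset_span (Set.mem_insert _ _)
    · change Ideal.Quotient.mk (Ideal.span {pB k, pD k}) 1 =
        Ideal.Quotient.mk (Ideal.span {pB k, pD k}) (X 2)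
      rw [eq_comm, Ideal.Quotient.eq]
      exact Ideal.subset_span (Set.mem_insert_of_mem _ (Set.mem_singleton _))
  have h2 := AlgHom.congr_fun hext f
  rw [AlgHom.comp_apply, h, map_zero] at h2
  have h3 : Ideal.Quotient.mk (Ideal.span {pB k, pD k}) f = 0 := h2.symm
  rw [Ideal.Quotient.eq_zero_iff_mem, Ideal.mem_span_pair] at h3
  obtain ⟨a, b, hab⟩ := h3
  exact ⟨a, b, by rw [← hab]; ring⟩

theorem N5_pB_ne : aeval ![(X 0 : MvPolynomial (Fin 3) k), X 1, 1] (pB k) ≠ 0 := by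
  intro h
  have h1 : aeval ![(X 0 : MvPolynomial (Fin 3) k), X 1, 1] (pB k) = X 1 - 1 := by
    unfold pB
    rw [map_sub, map_one, aeval_X]
    rfl
  rw [h1] at h
  have h2 := congrArg (eval (fun _ => (0 : k))) h
  simp at h2

theorem N5_pD_ne : pD k ≠ 0 := by
  intro h
  have h2 := congrArg (eval (fun _ => (0 : k))) h
  unfold pD at h2
  simp at h2

theorem N5_pB_ne' : pB k ≠ 0 := by
  intro h
  have h2 := congrArg (eval (fun _ => (0 : k))) h
  unfold pB at h2
  simp at h2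

/-- `B^m`, `D` is a regular sequence -/
theorem N5_reg {s t : MvPolynomial (Fin 3) k} (m : ℕ) (h : pD k * s = pB k ^ m * t) :
    pD k ∣ t := by
  apply N5_dvd_pD
  have h1 := congrArg (aeval ![(X 0 : MvPolynomial (Fin 3) k), X 1, 1]) h
  have h2 : aeval ![(X 0 : MvPolynomial (Fin 3) k), X 1, 1] (pD k) = 0 := by
    unfold pD
    rw [map_sub, map_one, aeval_X]
    change (1 : MvPolynomial (Fin 3) k) - 1 = 0
    rw [sub_self]
  rw [map_mul, map_mul, h2, zero_mul, map_pow] at h1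
  exact (mul_eq_zero.1 h1.symm).resolve_left (pow_ne_zero m N5_pB_ne)

theorem N5_case_one {H : MvPolynomial (Fin 3) k}
    (hH : aeval ![(X 0 : MvPolynomial (Fin 3) k), 1, 1] H ≠ 0) (m : ℕ) :
    ∀ a b c : MvPolynomial (Fin 3) k, H * a = pB k ^ m * b + pD k * c →
      ∃ x y, a = pB k ^ m * x + pD k * y := by
  induction m with
  | zero =>
    intro a b c _
    exact ⟨a, 0, by ring⟩
  | succ m ih =>
    intro a b c h
    have h1 : aeval ![(X 0 : MvPolynomial (Fin 3) k), 1, 1] a = 0 := by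
      have h2 := congrArg (aeval ![(X 0 : MvPolynomial (Fin 3) k), 1, 1]) h
      have h3 : aeval ![(X 0 : MvPolynomial (Fin 3) k), 1, 1] (pB k) = 0 := by
        unfold pB
        rw [map_sub, map_one, aeval_X]
        change (1 : MvPolynomial (Fin 3) k) - 1 = 0
        rw [sub_self]
      have h4 : aeval ![(X 0 : MvPolynomial (Fin 3) k), 1, 1] (pD k) = 0 := by
        unfold pD
        rw [map_sub, map_one, aeval_X]
        change (1 : MvPolynomial (Fin 3) k) - 1 = 0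
        rw [sub_self]
      rw [map_mul, map_add, map_mul, map_mul, map_pow, h3, h4, pow_succ, mul_zero, zero_mul,
        zero_mul, add_zero] at h2
      exact (mul_eq_zero.1 h2).resolve_left hH
    obtain ⟨a1, a2, ha⟩ := N5_mem_span h1
    have h2 : pD k * (c - H * a2) = pB k ^ 1 * (H * a1 - pB k ^ m * b) := by
      rw [ha] at h
      linear_combination -h
    obtain ⟨e, he⟩ := N5_reg 1 h2
    obtain ⟨x, y, hxy⟩ := ih a1 b e (by linear_combination he)
    refine ⟨x, pB k * y + a2, ?_⟩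
    rw [ha, hxy]
    ring

theorem N5_primary {H : MvPolynomial (Fin 3) k}
    (hH : aeval ![(X 0 : MvPolynomial (Fin 3) k), 1, 1] H ≠ 0) (m n : ℕ) :
    ∀ a b c : MvPolynomial (Fin 3) k, H * a = pB k ^ m * b + pD k ^ n * c →
      ∃ x y, a = pB k ^ m * x + pD k ^ n * y := by
  induction n with
  | zero =>
    intro a b c _
    exact ⟨0, a, by ring⟩
  | succ n ih =>
    intro a b c h
    obtain ⟨x, y, hxy⟩ := N5_case_one hH m a b (pD k ^ n * c) (by rw [h]; ring)
    have h2 : pD k * (H * y - pD k ^ n * c) = pB k ^ m * (b - H * x) := by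
      rw [hxy] at h
      linear_combination h
    obtain ⟨z, hz⟩ := N5_reg m h2
    have h3 : H * y - pD k ^ n * c = pB k ^ m * z := by
      apply mul_left_cancel₀ (N5_pD_ne (k := k))
      rw [h2, hz]
      ring
    obtain ⟨x', y', hxy'⟩ := ih y z c (by linear_combination h3)
    refine ⟨x + pD k * x', y', ?_⟩
    rw [hxy, hxy']
    ring

/-- Let `E = k[A^±, v^±, w^±]`, `β = v - 1`, `δ = w - 1`, and `H` a polynomial with
`H(A, 1, 1) ≠ 0`.  If `d ∈ E[1/(βδ)]` is a difference of elements of `E[1/(βH)]` and of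
`E[1/(δH)]`, then it is a difference of elements of `E[1/β]` and `E[1/δ]`.

Proof. Work in the polynomial ring `P = k[X0, β, δ]` (change of variables) or with expansions.
Write `d = a / (βδ)^N` with `a ∈ E`, `d₁ = a₁ / (βH)^M`, `d₂ = a₂/(δH)^M` with `M ≥ N`; multiplying by
`(βδH)^M`: `H^M a (βδ)^(M-N) = a₁ δ^M - a₂ β^M` in `E`, so `H^M a (βδ)^(M-N) ∈ (β^M, δ^M)`,
and as `β, δ` is a regular sequence `H^M a ∈ (β^N, δ^N)` in `E`.  `E/(β^N, δ^N)` is free over
`D = k[A, 1/A]` with basis `β^i δ^j`, `0 ≤ i, j < N`, and `H^M` acts on it as (nonzero constant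
`H(A,1,1)^M` of the domain `D`) + (nilpotent, raising `i + j`): injectively.  So
`a ∈ (β^N, δ^N)`, i.e. `a = β^N b + δ^N c` and `d = b/δ^N + c/β^N`. -/
theorem h2 {A v w : K} (hind : AlgebraicIndependent k ![A, v, w]) (H : MvPolynomial (Fin 3) k)
    (hH : aeval ![(X 0 : MvPolynomial (Fin 3) k), 1, 1] H ≠ 0) {d d₁ d₂ : K}
    (hd : d ∈ Fr A v w (uT k * (pB k * pD k)))
    (h₁ : d₁ ∈ Fr A v w (uT k * (pB k * H))) (h₂ : d₂ ∈ Fr A v w (uT k * (pD k * H)))
    (h : d = d₁ - d₂) :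
    ∃ e₁ ∈ Fr A v w (uT k * pB k), ∃ e₂ ∈ Fr A v w (uT k * pD k), d = e₁ - e₂ := by
  have hinj : Function.Injective (aeval ![A, v, w] : MvPolynomial (Fin 3) k →ₐ[k] K) := hind
  have hne : ∀ {U : MvPolynomial (Fin 3) k}, U ≠ 0 → aeval ![A, v, w] U ≠ 0 := by
    intro U hU h0
    exact hU (hinj (by rw [h0, map_zero]))
  have hH0 : H ≠ 0 := by
    rintro rfl
    exact hH (map_zero _)
  have hT0 : uT k ≠ 0 := by
    unfold uT
    exact mul_ne_zero (mul_ne_zero (X_ne_zero 0) (X_ne_zero 1)) (X_ne_zero 2)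
  have hB0 : pB k ≠ 0 := N5_pB_ne'
  have hD0 : pD k ≠ 0 := N5_pD_ne
  obtain ⟨a0, n0, e0⟩ := (mem_Fr (hne (mul_ne_zero hT0 (mul_ne_zero hB0 hD0)))).1 hd
  obtain ⟨a1, n1, e1⟩ := (mem_Fr (hne (mul_ne_zero hT0 (mul_ne_zero hB0 hH0)))).1 h₁
  obtain ⟨a2, n2, e2⟩ := (mem_Fr (hne (mul_ne_zero hT0 (mul_ne_zero hD0 hH0)))).1 h₂
  set ev : MvPolynomial (Fin 3) k →ₐ[k] K := aeval ![A, v, w] with hev
  set M := n0 + n1 + n2 with hM
  -- common exponent
  obtain ⟨b0, f0⟩ : ∃ b0, d * ev (uT k * (pB k * pD k)) ^ M = ev b0 := by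
    refine ⟨a0 * (uT k * (pB k * pD k)) ^ (n1 + n2), ?_⟩
    rw [map_mul ev a0, map_pow, ← e0, hM, add_assoc, pow_add]
    ring
  obtain ⟨b1, f1⟩ : ∃ b1, d₁ * ev (uT k * (pB k * H)) ^ M = ev b1 := by
    refine ⟨a1 * (uT k * (pB k * H)) ^ (n0 + n2), ?_⟩
    rw [map_mul ev a1, map_pow, ← e1, hM, show n0 + n1 + n2 = n1 + (n0 + n2) by omega, pow_add]
    ring
  obtain ⟨b2, f2⟩ : ∃ b2, d₂ * ev (uT k * (pD k * H)) ^ M = ev b2 := by
    refine ⟨a2 * (uT k * (pD k * H)) ^ (n0 + n1), ?_⟩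
    rw [map_mul ev a2, map_pow, ← e2, hM, show n0 + n1 + n2 = n2 + (n0 + n1) by omega, pow_add]
    ring
  have key : H ^ M * b0 = pB k ^ M * (-b2) + pD k ^ M * b1 := by
    apply hinj
    rw [map_add, map_mul, map_mul, map_mul, map_neg, map_pow, map_pow, map_pow, ← f0, ← f1,
      ← f2, h]
    simp only [map_mul, mul_pow]
    ring
  obtain ⟨x, y, hxy⟩ := N5_primary (H := H ^ M) (by
    rw [map_pow]
    exact pow_ne_zero M hH) M M b0 (-b2) b1 key
  have hTK := hne hT0
  have hBK := hne hB0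
  have hDK := hne hD0
  refine ⟨ev y / ev (uT k * pB k) ^ M, ?_, -(ev x / ev (uT k * pD k) ^ M), ?_, ?_⟩
  · rw [mem_Fr (hne (mul_ne_zero hT0 hB0))]
    refine ⟨y, M, ?_⟩
    have h3 : ev (uT k * pB k) ^ M ≠ 0 := pow_ne_zero M (by rw [map_mul]; exact mul_ne_zero hTK hBK)
    exact div_mul_cancel₀ _ h3
  · rw [mem_Fr (hne (mul_ne_zero hT0 hD0))]
    refine ⟨-x, M, ?_⟩
    rw [map_neg]
    have h3 : ev (uT k * pD k) ^ M ≠ 0 := pow_ne_zero M (by rw [map_mul]; exact mul_ne_zero hTK hDK)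
    exact (neg_mul _ _).trans (congrArg Neg.neg (div_mul_cancel₀ _ h3))
  · have h3 : ev (uT k * (pB k * pD k)) ^ M ≠ 0 :=
      pow_ne_zero M (by rw [map_mul, map_mul]; exact mul_ne_zero hTK (mul_ne_zero hBK hDK))
    have h4 : d = ev b0 / ev (uT k * (pB k * pD k)) ^ M := by
      rw [eq_div_iff h3]
      exact f0
    rw [h4, hxy]
    simp only [map_mul, map_add, map_pow, mul_pow]
    have hT' := pow_ne_zero M hTK
    have hB' := pow_ne_zero M hBK
    have hD' := pow_ne_zero M hDK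
    field_simp
    ring

end H1F
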