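import Pool.Agent.Lib.H1F.N.N12
import Pool.Agent.Lib.H1F.N.N4
import Pool.Agent.Lib.H1F.N.N5

/-!
# H1F, chunk N13

Step (b): the torus.  Abstract form: numbers `G0, G1, G3` (frames `0, 1, 3`), `G6` (chart `T6`).
-/

open MvPolynomial

namespace H1F

variable {k K : Type*} [Field k] [Field K] [Algebra k K]

/-- gluing over two comaximal localizations -/
theorem N13_two {A v w : K} (h : AlgebraicIndependent k ![A, v, w]) {U P Q : MvPolynomial (Fin 3) k}
    (hU : U ≠ 0) (hP : P ≠ 0) (hQ : Q ≠ 0) {s t : K} (hs : s ∈ Fr A v w U) (ht : t ∈ Fr A v w U)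
    (hst : s * aeval ![A, v, w] P + t * aeval ![A, v, w] Q = 1) {G1 G2 : K}
    (h12 : G1 - G2 ∈ Fr A v w (U * (P * Q))) :
    ∃ G, G - G1 ∈ Fr A v w (U * P) ∧ G - G2 ∈ Fr A v w (U * Q) := by
  have hP' := N12_ne_zero h hP
  have hQ' := N12_ne_zero h hQ
  set E := Fr A v w U with hE
  set g : Fin 2 → E := ![⟨aeval ![A, v, w] P, aeval_mem_Fr A v w U P⟩,
    ⟨aeval ![A, v, w] Q, aeval_mem_Fr A v w U Q⟩] with hg
  have hg0 : ((g 0 : E) : K) = aeval ![A, v, w] P := rfl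
  have hg1 : ((g 1 : E) : K) = aeval ![A, v, w] Q := rfl
  have hle : Fr A v w (U * (P * Q)) ≤ E ⊔ Algebra.adjoin k {((g 0 : E) : K)⁻¹, ((g 1 : E) : K)⁻¹} := by
    rw [← Fr_sup_inv (N12_ne_zero h (mul_ne_zero hU (mul_ne_zero hP hQ)))]
    refine sup_le_sup_left ?_ _
    refine Algebra.adjoin_le ?_
    rintro x hx
    rw [Set.mem_singleton_iff] at hx
    rw [hx, map_mul, mul_inv]
    exact mul_mem (Algebra.subset_adjoin (Or.inl rfl)) (Algebra.subset_adjoin (Or.inr rfl))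
  have hle' : Fr A v w (U * (P * Q)) ≤ E ⊔ Algebra.adjoin k {((g 1 : E) : K)⁻¹, ((g 0 : E) : K)⁻¹} := by
    rw [Set.pair_comm]
    exact hle
  have hspan : Ideal.span (Set.range g) = ⊤ := by
    rw [Ideal.eq_top_iff_one]
    have h1 : (1 : E) = (⟨s, hs⟩ : E) * g 0 + (⟨t, ht⟩ : E) * g 1 := by
      apply Subtype.ext
      exact hst.symm
    rw [h1]
    exact add_mem (Ideal.mul_mem_left _ _ (Ideal.subset_span ⟨0, rfl⟩))
      (Ideal.mul_mem_left _ _ (Ideal.subset_span ⟨1, rfl⟩))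
  obtain ⟨G₀, hG₀⟩ := cech E g (by
      intro i h0
      fin_cases i
      · exact hP' (congrArg Subtype.val h0)
      · exact hQ' (congrArg Subtype.val h0)) hspan ![G1, G2] (by
      intro i j
      fin_cases i <;> fin_cases j
      · change G1 - G1 ∈ _
        rw [sub_self]
        exact zero_mem _
      · exact hle h12
      · have h1 := neg_mem h12
        rw [neg_sub] at h1
        exact hle' h1
      · change G2 - G2 ∈ _
        rw [sub_self]
        exact zero_mem _)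
  refine ⟨G₀, ?_, ?_⟩
  · rw [← Fr_sup_inv (N12_ne_zero h (mul_ne_zero hU hP))]
    exact hG₀ 0
  · rw [← Fr_sup_inv (N12_ne_zero h (mul_ne_zero hU hQ))]
    exact hG₀ 1

/-- The open set `β ≠ 0` is covered by `β (v-w) ≠ 0` and `β δ ≠ 0`, because
`(v - w) + δ = β` is a unit.  Proof: `cech` with `E = Fr A v w (uT * pB)` and the two elements
`v - w`, `δ`. -/
theorem torus_beta {A v w : K} (h : AlgebraicIndependent k ![A, v, w]) {G1 G3 : K}
    (h13 : G1 - G3 ∈ Fr A v w (uT k * (pB k * pD k * pE k))) :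
    ∃ Gb, Gb - G1 ∈ Fr A v w (uT k * (pB k * pE k)) ∧
      Gb - G3 ∈ Fr A v w (uT k * (pB k * pD k)) := by
  obtain ⟨-, -, -, -, -, hB0, hD0, hE0, -, hT0⟩ := not_dvd_list (k := k) 2 le_rfl
  have hi := inv_mem_Fr (x := A) (y := v) (z := w) (U := uT k * pB k) (G := pB k)
    (dvd_mul_left _ _) (N12_ne_zero h (mul_ne_zero hT0 hB0))
  have hB' := N12_ne_zero h hB0
  obtain ⟨G, g1, g2⟩ := N13_two h (U := uT k * pB k) (P := pE k) (Q := pD k)
    (mul_ne_zero hT0 hB0) hE0 hD0 hi hi (by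
      rw [← mul_add, ← map_add]
      have e : pE k + pD k = pB k := by unfold pE pD pB; ring
      rw [e, inv_mul_cancel₀ hB']) (G1 := G1) (G2 := G3) (by
      have e : uT k * pB k * (pE k * pD k) = uT k * (pB k * pD k * pE k) := by ring
      rw [e]
      exact h13)
  rw [mul_assoc] at g1 g2
  exact ⟨G, g1, g2⟩

/-- The open set `δ ≠ 0`. -/
theorem torus_delta {A v w : K} (h : AlgebraicIndependent k ![A, v, w]) {G0 G3 : K}
    (h03 : G0 - G3 ∈ Fr A v w (uT k * (pB k * pD k * pE k))) :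
    ∃ Gd, Gd - G0 ∈ Fr A v w (uT k * (pD k * pE k)) ∧
      Gd - G3 ∈ Fr A v w (uT k * (pB k * pD k)) := by
  obtain ⟨-, -, -, -, -, hB0, hD0, hE0, -, hT0⟩ := not_dvd_list (k := k) 2 le_rfl
  have hi := inv_mem_Fr (x := A) (y := v) (z := w) (U := uT k * pD k) (G := pD k)
    (dvd_mul_left _ _) (N12_ne_zero h (mul_ne_zero hT0 hD0))
  have hD' := N12_ne_zero h hD0
  obtain ⟨G, g1, g2⟩ := N13_two h (U := uT k * pD k) (P := pE k) (Q := pB k)
    (mul_ne_zero hT0 hD0) hE0 hB0 (neg_mem hi) hi (by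
      have e : pD k = pB k - pE k := by unfold pE pD pB; ring
      have e2 : aeval ![A, v, w] (pD k) = aeval ![A, v, w] (pB k) - aeval ![A, v, w] (pE k) := by
        rw [← map_sub, ← e]
      calc -(aeval ![A, v, w] (pD k))⁻¹ * aeval ![A, v, w] (pE k) +
          (aeval ![A, v, w] (pD k))⁻¹ * aeval ![A, v, w] (pB k)
          = (aeval ![A, v, w] (pD k))⁻¹ * (aeval ![A, v, w] (pB k) - aeval ![A, v, w] (pE k)) := by
            ring
        _ = 1 := by rw [← e2, inv_mul_cancel₀ hD']) (G1 := G0) (G2 := G3) (by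
      have e : uT k * pD k * (pE k * pB k) = uT k * (pB k * pD k * pE k) := by ring
      rw [e]
      exact h03)
  have e3 : uT k * pD k * pB k = uT k * (pB k * pD k) := by ring
  rw [mul_assoc] at g1
  rw [e3] at g2
  exact ⟨G, g1, g2⟩

/-- The punctured torus.  `Gb - G6 ∈ Fr (uT β h)` by `Fr_inf` (prime `δ` against `v - w`) from
the comparisons through `G1` and `G3`; the same for `Gd`; then `h2` with `H = h` gives
`Gb - Gd = e₁ - e₂`; put `GT = Gb - e₁ = Gd - e₂`. -/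
theorem torus_glue (p : ℕ) (hp : 2 ≤ p) {A v w : K} (h : AlgebraicIndependent k ![A, v, w])
    {G0 G1 G3 G6 Gb Gd : K}
    (hb1 : Gb - G1 ∈ Fr A v w (uT k * (pB k * pE k)))
    (hb3 : Gb - G3 ∈ Fr A v w (uT k * (pB k * pD k)))
    (hd0 : Gd - G0 ∈ Fr A v w (uT k * (pD k * pE k)))
    (hd3 : Gd - G3 ∈ Fr A v w (uT k * (pB k * pD k)))
    (h06 : G0 - G6 ∈ Fr A v w (uT k * (pD k * pE k * pH k p)))
    (h16 : G1 - G6 ∈ Fr A v w (uT k * (pB k * pE k * pH k p)))
    (h36 : G3 - G6 ∈ Fr A v w (uT k * (pB k * pD k * pH k p))) :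
    ∃ GT, GT - Gb ∈ Fr A v w (uT k * pB k) ∧ GT - Gd ∈ Fr A v w (uT k * pD k) := by
  obtain ⟨nB, nD, nE, -, -, hB0, hD0, hE0, hH0, hT0⟩ := not_dvd_list (k := k) p hp
  have hmono : ∀ {U V : MvPolynomial (Fin 3) k}, U ∣ V → V ≠ 0 → Fr A v w U ≤ Fr A v w V :=
    fun hd hV => Fr_mono hd (N12_ne_zero h hV)
  -- `Gb - G6`
  have hb : Gb - G6 ∈ Fr A v w (uT k * (pB k * pH k p)) := by
    refine Fr_inf h (mul_ne_zero hT0 (mul_ne_zero hB0 hH0)) prime_pD
      (H := pE k) (fun hd => nD (dvd_mul_of_dvd_left (dvd_mul_of_dvd_right hd _) _)) ?_ ?_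
    · have e : uT k * (pB k * pH k p) * pD k = uT k * (pB k * pD k * pH k p) := by ring
      rw [e]
      exact N12_sub_mem (hmono ⟨pH k p, by ring⟩ (mul_ne_zero hT0 (mul_ne_zero (mul_ne_zero hB0 hD0)
        hH0)) hb3) h36
    · have e : uT k * (pB k * pH k p) * pE k = uT k * (pB k * pE k * pH k p) := by ring
      rw [e]
      exact N12_sub_mem (hmono ⟨pH k p, by ring⟩ (mul_ne_zero hT0 (mul_ne_zero (mul_ne_zero hB0 hE0)
        hH0)) hb1) h16
  have hd : Gd - G6 ∈ Fr A v w (uT k * (pD k * pH k p)) := by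
    refine Fr_inf h (mul_ne_zero hT0 (mul_ne_zero hD0 hH0)) prime_pB
      (H := pE k) (fun hd => nB (dvd_mul_of_dvd_left (dvd_mul_of_dvd_right hd _) _)) ?_ ?_
    · have e : uT k * (pD k * pH k p) * pB k = uT k * (pB k * pD k * pH k p) := by ring
      rw [e]
      exact N12_sub_mem (hmono ⟨pH k p, by ring⟩ (mul_ne_zero hT0 (mul_ne_zero (mul_ne_zero hB0 hD0)
        hH0)) hd3) h36
    · have e : uT k * (pD k * pH k p) * pE k = uT k * (pD k * pE k * pH k p) := by ring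
      rw [e]
      exact N12_sub_mem (hmono ⟨pH k p, by ring⟩ (mul_ne_zero hT0 (mul_ne_zero (mul_ne_zero hD0 hE0)
        hH0)) hd0) h06
  have hbd : Gb - Gd ∈ Fr A v w (uT k * (pB k * pD k)) := N12_sub_mem' hb3 hd3
  have hHv : aeval ![(X 0 : MvPolynomial (Fin 3) k), 1, 1] (pH k p) ≠ 0 := by
    have e : aeval ![(X 0 : MvPolynomial (Fin 3) k), 1, 1] (pH k p) = (X 0 - 1) * (X 0 - 1) *
        (X 0 - 1) := by
      unfold pH
      rw [map_mul, map_mul, map_sub, map_sub, map_sub, map_pow, map_pow, aeval_X, aeval_X, aeval_X,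
        map_one]
      change (X 0 - 1) * (X 0 - 1 ^ p) * (X 0 - 1 ^ p) = _
      rw [one_pow]
    rw [e]
    have h1 : (X 0 - 1 : MvPolynomial (Fin 3) k) ≠ 0 := by
      intro h0
      have h2 := congrArg (eval (fun _ => (0 : k))) h0
      simp at h2
    exact mul_ne_zero (mul_ne_zero h1 h1) h1
  obtain ⟨e₁, he₁, e₂, he₂, he⟩ := h2 h (pH k p) hHv hbd hb hd (by ring)
  refine ⟨Gb - e₁, ?_, ?_⟩
  · rw [sub_sub_cancel_left]
    exact neg_mem he₁
  · have e : Gb - e₁ - Gd = -e₂ := by linear_combination he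
    rw [e]
    exact neg_mem he₂

end H1F
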