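import Pool.Agent.Lib.H1F.N.N13

/-!
# H1F, chunk N14

Step (b), conclusion: the solution `GT` on the torus.
-/

open MvPolynomial

namespace H1F

variable {k K : Type*} [Field k] [Field K] [Algebra k K]

theorem N14_Fr_le_P3 (p : ℕ) {A v w : K} (h : AlgebraicIndependent k ![A, v, w])
    (U : MvPolynomial (Fin 3) k) : Fr A v w (uT k * U) ≤
      ring k p A v w .P3 ⊔ Algebra.adjoin k {(aeval ![A, v, w] U)⁻¹} := by
  have hK := K3_le_P3 p h
  have hS : ∀ x ∈ ({A, A⁻¹, v, v⁻¹, w, w⁻¹} : Set K), x ∈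
      ring k p A v w .P3 ⊔ Algebra.adjoin k {(aeval ![A, v, w] U)⁻¹} :=
    fun x hx => (le_sup_left : ring k p A v w .P3 ≤ _) (hK (Algebra.subset_adjoin hx))
  refine Algebra.adjoin_le ?_
  rintro x (hx | hx | hx | hx)
  · rw [hx]; exact hS _ (by simp)
  · rw [hx]; exact hS _ (by simp)
  · rw [hx]; exact hS _ (by simp)
  · have hx' : x = (aeval ![A, v, w] (uT k * U))⁻¹ := hx
    have e : aeval ![A, v, w] (uT k) = A * v * w := by
      unfold uT
      rw [map_mul, map_mul, aeval_X, aeval_X, aeval_X]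
      rfl
    rw [hx', map_mul, e, mul_inv, mul_inv, mul_inv]
    refine mul_mem (mul_mem (mul_mem (hS _ (by simp)) (hS _ (by simp))) (hS _ (by simp))) ?_
    exact (le_sup_right : Algebra.adjoin k {(aeval ![A, v, w] U)⁻¹} ≤ _)
      (Algebra.subset_adjoin rfl)

/-- Assembly of `torus_beta`, `torus_delta`, `torus_glue` and the comparisons of `N12`.
`GT - GF f` for `f = 0, 1, 3` is immediate, for `f = 2, 4, 5` through `GF_same`; `GT - G (M i)`
through `GF 3, GF 1, GF 0`; `GT - G P3`: in `P3[1/(βδ)]` and `P3[1/(β(v-w))]`, hence in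
`P3[1/β]` (`P3_inf1`), similarly in `P3[1/δ]` (`P3_inf2`), hence in `P3` (`P3_inf3`). -/
theorem exists_GT (p : ℕ) [Fact p.Prime] [CharP k p] {A v w : K}
    (h : AlgebraicIndependent k ![A, v, w]) {G : Ch → K}
    (hG : Cocycle k p A v w G) {GF : Fin 6 → K} (hF : ∀ f,
      GF f - G (.NI f) ∈ ring k p A v w (.NI f) ∧ GF f - G (.NII f) ∈ ring k p A v w (.NII f)) :
    ∃ GT : K, (∀ f, GT - GF f ∈ Fr A v w (uT k * den k f)) ∧
      GT - G .P3 ∈ ring k p A v w .P3 ∧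
      ∀ i, GT - G (.M i) ∈ Fr A v w (uT k * mden k p i) := by
  have hp2 : 2 ≤ p := (Fact.out : p.Prime).two_le
  obtain ⟨nB, nD, nE, -, -, hB0, hD0, hE0, hH0, hT0⟩ := not_dvd_list (k := k) p hp2
  have hmono : ∀ {U V : MvPolynomial (Fin 3) k}, U ∣ V → V ≠ 0 → Fr A v w U ≤ Fr A v w V :=
    fun hd hV => Fr_mono hd (N12_ne_zero h hV)
  have hNI : ∀ f f', GF f - GF f' ∈ Fr A v w (uT k * (pB k * pD k * pE k)) := fun f f' =>
    sup_le (NI_le p h f) (NI_le p h f') (GF_NI p h hG hF f f')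
  obtain ⟨Gb, b1, b3⟩ := torus_beta h (hNI 1 3)
  obtain ⟨Gd, d0, d3⟩ := torus_delta h (hNI 0 3)
  obtain ⟨GT, tb, td⟩ := torus_glue p hp2 h b1 b3 d0 d3 (GF_T6 p h hG hF 0) (GF_T6 p h hG hF 1)
    (GF_T6 p h hG hF 3)
  -- the frames
  have t0 : GT - GF 0 ∈ Fr A v w (uT k * den k 0) :=
    N12_sub_mem (hmono (V := uT k * (pD k * pE k)) ⟨pE k, by ring⟩
      (mul_ne_zero hT0 (mul_ne_zero hD0 hE0)) td) d0
  have t1 : GT - GF 1 ∈ Fr A v w (uT k * den k 1) :=
    N12_sub_mem (hmono (V := uT k * (pB k * pE k)) ⟨pE k, by ring⟩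
      (mul_ne_zero hT0 (mul_ne_zero hB0 hE0)) tb) b1
  have t3 : GT - GF 3 ∈ Fr A v w (uT k * den k 3) :=
    N12_sub_mem (hmono (V := uT k * (pB k * pD k)) ⟨pD k, by ring⟩
      (mul_ne_zero hT0 (mul_ne_zero hB0 hD0)) tb) b3
  refine ⟨GT, ?_, ?_, ?_⟩
  · intro f
    fin_cases f
    · exact t0
    · exact t1
    · exact N12_sub_mem t0 (GF_same p h hG hF 0 2 rfl)
    · exact t3
    · exact N12_sub_mem t1 (GF_same p h hG hF 1 4 rfl)
    · exact N12_sub_mem t3 (GF_same p h hG hF 3 5 rfl)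
  · have r0 : GT - G .P3 ∈
        ring k p A v w .P3 ⊔ Algebra.adjoin k {(aeval ![A, v, w] (den k 0))⁻¹} :=
      N12_sub_mem (N14_Fr_le_P3 p h (den k 0) t0) (GF_P3 p h hG hF 0)
    have r1 : GT - G .P3 ∈
        ring k p A v w .P3 ⊔ Algebra.adjoin k {(aeval ![A, v, w] (den k 1))⁻¹} :=
      N12_sub_mem (N14_Fr_le_P3 p h (den k 1) t1) (GF_P3 p h hG hF 1)
    have r3 : GT - G .P3 ∈
        ring k p A v w .P3 ⊔ Algebra.adjoin k {(aeval ![A, v, w] (den k 3))⁻¹} :=
      N12_sub_mem (N14_Fr_le_P3 p h (den k 3) t3) (GF_P3 p h hG hF 3)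
    have eB : aeval ![A, v, w] (pB k) = v - 1 := by
      unfold pB
      rw [map_sub, aeval_X, map_one]
      rfl
    have eD : aeval ![A, v, w] (pD k) = w - 1 := by
      unfold pD
      rw [map_sub, aeval_X, map_one]
      rfl
    have eE : aeval ![A, v, w] (pE k) = v - w := by
      unfold pE
      rw [map_sub, aeval_X, aeval_X]
      rfl
    have e0 : aeval ![A, v, w] (den k 0) = (w - 1) * (v - w) := by
      change aeval ![A, v, w] (pD k * pE k) = _
      rw [map_mul, eD, eE]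
    have e1 : aeval ![A, v, w] (den k 1) = (v - 1) * (v - w) := by
      change aeval ![A, v, w] (pB k * pE k) = _
      rw [map_mul, eB, eE]
    have e3 : aeval ![A, v, w] (den k 3) = (v - 1) * (w - 1) := by
      change aeval ![A, v, w] (pB k * pD k) = _
      rw [map_mul, eB, eD]
    rw [e0] at r0
    rw [e1] at r1
    rw [e3] at r3
    exact P3_inf3 p h (P3_inf1 p h r3 r1) (P3_inf2 p h r3 r0)
  · obtain ⟨m0, m1, m2⟩ := GF_M p h hG hF
    have hX0 : (X 0 - X 1 ^ p) * (X 0 - X 2 ^ p) ≠ (0 : MvPolynomial (Fin 3) k) := by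
      intro h0
      apply hH0
      unfold pH
      rw [mul_assoc, h0, mul_zero]
    have h0' : (X 0 - 1 : MvPolynomial (Fin 3) k) ≠ 0 := by
      intro h0
      apply hH0
      unfold pH
      rw [h0, zero_mul, zero_mul]
    have h1' : (X 0 - X 1 ^ p : MvPolynomial (Fin 3) k) ≠ 0 := left_ne_zero_of_mul hX0
    have h2' : (X 0 - X 2 ^ p : MvPolynomial (Fin 3) k) ≠ 0 := right_ne_zero_of_mul hX0
    intro i
    fin_cases i
    · refine N12_sub_mem (hmono (V := uT k * mden k p 0) ?_ ?_ t3) m0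
      · exact ⟨(X 0 - X 1 ^ p) * (X 0 - X 2 ^ p), by
          change uT k * (pB k * pD k * ((X 0 - X 1 ^ p) * (X 0 - X 2 ^ p))) =
            uT k * (pB k * pD k) * _
          ring⟩
      · exact mul_ne_zero hT0 (mul_ne_zero (mul_ne_zero hB0 hD0) (mul_ne_zero h1' h2'))
    · refine N12_sub_mem (hmono (V := uT k * mden k p 1) ?_ ?_ t1) m1
      · exact ⟨(X 0 - 1) * (X 0 - X 2 ^ p), by
          change uT k * (pB k * pE k * ((X 0 - 1) * (X 0 - X 2 ^ p))) =
            uT k * (pB k * pE k) * _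
          ring⟩
      · exact mul_ne_zero hT0 (mul_ne_zero (mul_ne_zero hB0 hE0) (mul_ne_zero h0' h2'))
    · refine N12_sub_mem (hmono (V := uT k * mden k p 2) ?_ ?_ t0) m2
      · exact ⟨(X 0 - 1) * (X 0 - X 1 ^ p), by
          change uT k * (pD k * pE k * ((X 0 - 1) * (X 0 - X 1 ^ p))) =
            uT k * (pD k * pE k) * _
          ring⟩
      · exact mul_ne_zero hT0 (mul_ne_zero (mul_ne_zero hD0 hE0) (mul_ne_zero h0' h1'))

end H1F
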