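import Pool.Agent.Lib.H1F.N.N8
import Pool.Agent.Lib.H1F.N.N4
import Pool.Agent.Lib.H1F.N.N3
import Pool.Agent.Lib.H1F.N.N2

/-!
# H1F, chunk N15

Step (c): the toric chart `(v, w) ∈ A¹ × A¹`.
-/

open MvPolynomial

namespace H1F

variable {k K : Type*} [Field k] [Field K] [Algebra k K]

theorem N15_ne {a v w : K} (h : AlgebraicIndependent k ![a, v, w]) {P : MvPolynomial (Fin 3) k}
    (hP : P ≠ 0) : aeval ![a, v, w] P ≠ 0 := by
  have inj : Function.Injective (aeval ![a, v, w] : MvPolynomial (Fin 3) k →ₐ[k] K) := h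
  intro h0
  exact hP (inj (by rw [h0, map_zero]))

theorem N15_X0 (a v w : K) : aeval ![a, v, w] (X 0 : MvPolynomial (Fin 3) k) = a := by simp

theorem N15_X1 (a v w : K) : aeval ![a, v, w] (X 1 : MvPolynomial (Fin 3) k) = v := by simp

theorem N15_X2 (a v w : K) : aeval ![a, v, w] (X 2 : MvPolynomial (Fin 3) k) = w := by simp

theorem N15_B (a v w : K) : aeval ![a, v, w] (pB k) = v - 1 := by simp [pB]

theorem N15_D (a v w : K) : aeval ![a, v, w] (pD k) = w - 1 := by simp [pD]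

theorem N15_E (a v w : K) : aeval ![a, v, w] (pE k) = v - w := by simp [pE]

theorem N15_M (p : ℕ) (a v w : K) : aeval ![a, v, w] (mden k p 0) =
    (v - 1) * (w - 1) * ((a - v ^ p) * (a - w ^ p)) := by
  simp [mden, pB, pD]

/-- `Fr (X 0 * Q) ≤ S` if `S` contains `Fr (X 0)` and `1/Q`. -/
theorem N15_le {a v w : K} {Q : MvPolynomial (Fin 3) k} {S : Subalgebra k K}
    (hE : Fr a v w (X 0 : MvPolynomial (Fin 3) k) ≤ S) (hQ : (aeval ![a, v, w] Q)⁻¹ ∈ S) :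
    Fr a v w (X 0 * Q) ≤ S := by
  refine Algebra.adjoin_le ?_
  rintro r (hr | hr | hr | hr)
  · rw [hr]; exact hE (N1_x_mem a v w _)
  · rw [hr]; exact hE (N1_y_mem a v w _)
  · rw [hr]; exact hE (N1_z_mem a v w _)
  · rw [hr, map_mul, mul_inv]
    exact mul_mem (hE (N1_u_mem a v w _)) hQ

theorem NI_le_pp {a v w : K} (h : AlgebraicIndependent k ![a, v, w]) :
    NI k a v w ≤ Fr a v w (X 0 * (pB k * pD k * pE k)) ∧
    NI k a w v ≤ Fr a v w (X 0 * (pB k * pD k * pE k)) := by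
  obtain ⟨ha, hv, hw, ha1, hv1, hw1, hvw, -, -⟩ := ind_ne h
  have hU : aeval ![a, v, w] (X 0 * (pB k * pD k * pE k)) ≠ 0 := by
    rw [map_mul, map_mul, map_mul, N15_X0, N15_B, N15_D, N15_E]
    exact mul_ne_zero ha (mul_ne_zero (mul_ne_zero (sub_ne_zero.2 hv1) (sub_ne_zero.2 hw1))
      (sub_ne_zero.2 hvw))
  set S := Fr a v w (X 0 * (pB k * pD k * pE k)) with hS
  have mx : a ∈ S := N1_x_mem a v w _
  have my : v ∈ S := N1_y_mem a v w _
  have mz : w ∈ S := N1_z_mem a v w _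
  have ia : a⁻¹ ∈ S := by
    have := inv_mem_Fr (x := a) (y := v) (z := w)
      (show (X 0 : MvPolynomial (Fin 3) k) ∣ X 0 * (pB k * pD k * pE k) from dvd_mul_right _ _) hU
    rwa [N15_X0] at this
  have ib : (v - 1)⁻¹ ∈ S := by
    have := inv_mem_Fr (x := a) (y := v) (z := w)
      (show pB k ∣ X 0 * (pB k * pD k * pE k) from ⟨X 0 * (pD k * pE k), by ring⟩) hU
    rwa [N15_B] at this
  have id' : (w - 1)⁻¹ ∈ S := by
    have := inv_mem_Fr (x := a) (y := v) (z := w)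
      (show pD k ∣ X 0 * (pB k * pD k * pE k) from ⟨X 0 * (pB k * pE k), by ring⟩) hU
    rwa [N15_D] at this
  have ie : (v - w)⁻¹ ∈ S := by
    have := inv_mem_Fr (x := a) (y := v) (z := w)
      (show pE k ∣ X 0 * (pB k * pD k * pE k) from ⟨X 0 * (pB k * pD k), by ring⟩) hU
    rwa [N15_E] at this
  have ie' : (w - v)⁻¹ ∈ S := by
    have : (w - v)⁻¹ = -(v - w)⁻¹ := by rw [← neg_sub v w, inv_neg]
    rw [this]
    exact neg_mem ie
  constructor
  · refine Algebra.adjoin_le ?_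
    rintro r (hr | hr | hr | hr | hr)
    · rw [hr]; exact sub_mem my (one_mem S)
    · rw [hr, div_eq_mul_inv]; exact mul_mem (sub_mem mx (one_mem S)) ib
    · rw [hr]; exact id'
    · rw [hr]; exact ia
    · rw [hr, div_eq_mul_inv]; exact mul_mem (sub_mem mz (one_mem S)) ie'
  · refine Algebra.adjoin_le ?_
    rintro r (hr | hr | hr | hr | hr)
    · rw [hr]; exact sub_mem mz (one_mem S)
    · rw [hr, div_eq_mul_inv]; exact mul_mem (sub_mem mx (one_mem S)) id'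
    · rw [hr]; exact ib
    · rw [hr]; exact ia
    · rw [hr, div_eq_mul_inv]; exact mul_mem (sub_mem my (one_mem S)) ie

theorem N15_av (p : ℕ) {a v w : K} (h : AlgebraicIndependent k ![a, v, w]) :
    a - v ^ p ≠ 0 ∧ a - w ^ p ≠ 0 := by
  obtain ⟨ha, hv, hw, ha1, hv1, hw1, hvw, h1, h2⟩ := ind_ne h
  rcases Nat.eq_zero_or_pos p with rfl | hp
  · simpa [sub_eq_zero] using ha1
  · exact ⟨sub_ne_zero.2 (h1 p hp), sub_ne_zero.2 (h2 p hp)⟩

theorem MM_le_pp (p : ℕ) {a v w : K} (h : AlgebraicIndependent k ![a, v, w]) :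
    MM k p a v w ≤ Fr a v w (X 0 * mden k p 0) := by
  obtain ⟨ha, hv, hw, ha1, hv1, hw1, hvw, -, -⟩ := ind_ne h
  obtain ⟨hav, haw⟩ := N15_av p h
  have hU : aeval ![a, v, w] (X 0 * mden k p 0) ≠ 0 := by
    rw [map_mul, N15_X0, N15_M]
    exact mul_ne_zero ha (mul_ne_zero (mul_ne_zero (sub_ne_zero.2 hv1) (sub_ne_zero.2 hw1))
      (mul_ne_zero hav haw))
  have em : mden k p 0 = pB k * pD k * ((X 0 - X 1 ^ p) * (X 0 - X 2 ^ p)) := rfl
  set S := Fr a v w (X 0 * mden k p 0) with hS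
  have mx : a ∈ S := N1_x_mem a v w _
  have my : v ∈ S := N1_y_mem a v w _
  have mz : w ∈ S := N1_z_mem a v w _
  have ia : a⁻¹ ∈ S := by
    have := inv_mem_Fr (x := a) (y := v) (z := w)
      (show (X 0 : MvPolynomial (Fin 3) k) ∣ X 0 * mden k p 0 from dvd_mul_right _ _) hU
    rwa [N15_X0] at this
  have ib : (v - 1)⁻¹ ∈ S := by
    have := inv_mem_Fr (x := a) (y := v) (z := w)
      (show pB k ∣ X 0 * mden k p 0 from
        ⟨X 0 * (pD k * ((X 0 - X 1 ^ p) * (X 0 - X 2 ^ p))), by rw [em]; ring⟩) hU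
    rwa [N15_B] at this
  have id' : (w - 1)⁻¹ ∈ S := by
    have := inv_mem_Fr (x := a) (y := v) (z := w)
      (show pD k ∣ X 0 * mden k p 0 from
        ⟨X 0 * (pB k * ((X 0 - X 1 ^ p) * (X 0 - X 2 ^ p))), by rw [em]; ring⟩) hU
    rwa [N15_D] at this
  have iv : (a - v ^ p)⁻¹ ∈ S := by
    have := inv_mem_Fr (x := a) (y := v) (z := w)
      (show (X 0 - X 1 ^ p : MvPolynomial (Fin 3) k) ∣ X 0 * mden k p 0 from
        ⟨X 0 * (pB k * pD k * (X 0 - X 2 ^ p)), by rw [em]; ring⟩) hU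
    rwa [map_sub, map_pow, N15_X0, N15_X1] at this
  have iw : (a - w ^ p)⁻¹ ∈ S := by
    have := inv_mem_Fr (x := a) (y := v) (z := w)
      (show (X 0 - X 2 ^ p : MvPolynomial (Fin 3) k) ∣ X 0 * mden k p 0 from
        ⟨X 0 * (pB k * pD k * (X 0 - X 1 ^ p)), by rw [em]; ring⟩) hU
    rwa [map_sub, map_pow, N15_X0, N15_X2] at this
  refine Algebra.adjoin_le ?_
  rintro r (hr | hr | hr | hr | hr | hr)
  · rw [hr]; exact mx
  · rw [hr]; exact ia
  · rw [hr]; exact ib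
  · rw [hr]; exact id'
  · rw [hr, div_eq_mul_inv]
    exact mul_mem (pow_mem (sub_mem my (one_mem S)) p) iv
  · rw [hr, div_eq_mul_inv]
    exact mul_mem (pow_mem (sub_mem mz (one_mem S)) p) iw

/-- The four elements of the ring `E`. -/
theorem N15_span (p : ℕ) (hp : 2 ≤ p) {a : K} (ha : a ≠ 0) (E : Subalgebra k K)
    (xa xv xw xi : E) (hxa : (xa : K) = a) (hxi : (xi : K) = a⁻¹) :
    Ideal.span (Set.range (![(xw - 1) * (xv - xw), (xv - 1) * (xv - xw), xv * xw,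
      (xv - 1) * (xw - 1) * ((xa - xv ^ p) * (xa - xw ^ p))] : Fin 4 → E)) = ⊤ := by
  by_contra hne
  obtain ⟨M, hM, hle⟩ := Ideal.exists_le_maximal _ hne
  have hMp : M.IsPrime := hM.isPrime
  have hmem : ∀ i : Fin 4, (![(xw - 1) * (xv - xw), (xv - 1) * (xv - xw), xv * xw,
      (xv - 1) * (xw - 1) * ((xa - xv ^ p) * (xa - xw ^ p))] : Fin 4 → E) i ∈ M := fun i =>
    hle (Ideal.subset_span ⟨i, rfl⟩)
  have h0 : (xw - 1) * (xv - xw) ∈ M := hmem 0
  have h1 : (xv - 1) * (xv - xw) ∈ M := hmem 1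
  have h2 : xv * xw ∈ M := hmem 2
  have h3 : (xv - 1) * (xw - 1) * ((xa - xv ^ p) * (xa - xw ^ p)) ∈ M := hmem 3
  have h4 : xv - xw ∈ M := by
    have h5 : (xv - xw) * (xv - xw) ∈ M := by
      have h6 := M.sub_mem h1 h0
      have h7 : (xv - 1) * (xv - xw) - (xw - 1) * (xv - xw) = (xv - xw) * (xv - xw) := by ring
      rwa [h7] at h6
    rcases hMp.mem_or_mem h5 with h | h <;> exact h
  have h5 : xv ∈ M ∧ xw ∈ M := by
    rcases hMp.mem_or_mem h2 with h | h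
    · refine ⟨h, ?_⟩
      have := M.sub_mem h h4
      rwa [sub_sub_cancel] at this
    · refine ⟨?_, h⟩
      have := M.add_mem h4 h
      rwa [sub_add_cancel] at this
  obtain ⟨hv, hw⟩ := h5
  have hp0 : p ≠ 0 := by omega
  have hvp : xv ^ p ∈ M := Ideal.pow_mem_of_mem M hv p (by omega)
  have hwp : xw ^ p ∈ M := Ideal.pow_mem_of_mem M hw p (by omega)
  have h1M : (1 : E) ∉ M := fun h => hM.ne_top ((Ideal.eq_top_iff_one M).2 h)
  have haM : xa ∉ M := by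
    intro h
    apply h1M
    have h6 : xa * xi = 1 := by
      apply Subtype.ext
      simp [hxa, hxi, ha]
    rw [← h6]
    exact M.mul_mem_right _ h
  rcases hMp.mem_or_mem h3 with h | h
  · rcases hMp.mem_or_mem h with h | h
    · apply h1M
      have := M.sub_mem hv h
      rwa [sub_sub_cancel] at this
    · apply h1M
      have := M.sub_mem hw h
      rwa [sub_sub_cancel] at this
  · rcases hMp.mem_or_mem h with h | h
    · apply haM
      have := M.add_mem h hvp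
      rwa [sub_add_cancel] at this
    · apply haM
      have := M.add_mem h hwp
      rwa [sub_add_cancel] at this

/-- `cech` on `E = k[a^±, v, w] = Fr a v w (X 0)` with the four elements
`g₁ = (w-1)(v-w)`, `g₂ = (v-1)(v-w)`, `g₃ = v w`, `g₄ = (v-1)(w-1)(a-v^p)(a-w^p)`.  They generate the
unit ideal: in a maximal ideal containing them `g₂ - g₁ = (v-w)^2`, so `v ≡ w`, then `v^2 ≡ 0`,
`v ≡ w ≡ 0` and `g₄ ≡ a^2`, a unit. -/
theorem toric_pp (p : ℕ) (hp : 2 ≤ p) {a v w : K} (h : AlgebraicIndependent k ![a, v, w])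
    {GT G1 G2 GM : K}
    (h1 : GT - G1 ∈ Fr a v w (uT k * (pD k * pE k)))
    (h2 : GT - G2 ∈ Fr a v w (uT k * (pB k * pE k)))
    (hM : GT - GM ∈ Fr a v w (uT k * mden k p 0))
    (h12 : G1 - G2 ∈ NI k a v w ⊔ NI k a w v)
    (h1M : G1 - GM ∈ NI k a v w ⊔ MM k p a v w)
    (h2M : G2 - GM ∈ NI k a w v ⊔ MM k p a v w) :
    ∃ Gs, Gs - GT ∈ K3 k a v w ∧ Gs - G1 ∈ Fr a v w (X 0 * (pD k * pE k)) ∧
      Gs - G2 ∈ Fr a v w (X 0 * (pB k * pE k)) := by
  obtain ⟨ha, hv, hw, ha1, hv1, hw1, hvw, -, -⟩ := ind_ne h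
  obtain ⟨hav, haw⟩ := N15_av p h
  have sv1 := sub_ne_zero.2 hv1
  have sw1 := sub_ne_zero.2 hw1
  have svw := sub_ne_zero.2 hvw
  set E := Fr a v w (X 0 : MvPolynomial (Fin 3) k) with hE
  have hX0 : aeval ![a, v, w] (X 0 : MvPolynomial (Fin 3) k) ≠ 0 := by rw [N15_X0]; exact ha
  have mi : a⁻¹ ∈ E := by
    have := N1_u_mem a v w (X 0 : MvPolynomial (Fin 3) k)
    rwa [N15_X0] at this
  let xa : E := ⟨a, N1_x_mem a v w _⟩
  let xv : E := ⟨v, N1_y_mem a v w _⟩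
  let xw : E := ⟨w, N1_z_mem a v w _⟩
  let xi : E := ⟨a⁻¹, mi⟩
  have hspan := N15_span p hp ha E xa xv xw xi rfl rfl
  set g : Fin 4 → E := ![(xw - 1) * (xv - xw), (xv - 1) * (xv - xw), xv * xw,
      (xv - 1) * (xw - 1) * ((xa - xv ^ p) * (xa - xw ^ p))] with hg
  have e0 : ((g 0 : E) : K) = (w - 1) * (v - w) := rfl
  have e1 : ((g 1 : E) : K) = (v - 1) * (v - w) := rfl
  have e2 : ((g 2 : E) : K) = v * w := rfl
  have e3 : ((g 3 : E) : K) = (v - 1) * (w - 1) * ((a - v ^ p) * (a - w ^ p)) := by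
    show ((((xv - 1) * (xw - 1) * ((xa - xv ^ p) * (xa - xw ^ p))) : E) : K) = _
    push_cast
    rfl
  have hg0 : ∀ i, g i ≠ 0 := by
    intro i hi
    have hi' : ((g i : E) : K) = 0 := by rw [hi]; rfl
    revert hi'
    fin_cases i
    · show ((g 0 : E) : K) ≠ 0
      rw [e0]; exact mul_ne_zero sw1 svw
    · show ((g 1 : E) : K) ≠ 0
      rw [e1]; exact mul_ne_zero sv1 svw
    · show ((g 2 : E) : K) ≠ 0
      rw [e2]; exact mul_ne_zero hv hw
    · show ((g 3 : E) : K) ≠ 0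
      rw [e3]; exact mul_ne_zero (mul_ne_zero sv1 sw1) (mul_ne_zero hav haw)
  have hle : ∀ i j, E ≤ E ⊔ Algebra.adjoin k {((g i : E) : K)⁻¹, ((g j : E) : K)⁻¹} :=
    fun i j => le_sup_left
  have hgi : ∀ i j, ((g i : E) : K)⁻¹ ∈
      E ⊔ Algebra.adjoin k {((g i : E) : K)⁻¹, ((g j : E) : K)⁻¹} := fun i j =>
    Algebra.mem_sup_right (Algebra.subset_adjoin (by simp))
  have hgj : ∀ i j, ((g j : E) : K)⁻¹ ∈
      E ⊔ Algebra.adjoin k {((g i : E) : K)⁻¹, ((g j : E) : K)⁻¹} := fun i j =>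
    Algebra.mem_sup_right (Algebra.subset_adjoin (by simp))
  have hmv : v ∈ E := xv.2
  have hmw : w ∈ E := xw.2
  have hma : a ∈ E := xa.2
  have hmv1 : v - 1 ∈ E := sub_mem hmv (one_mem E)
  have hmw1 : w - 1 ∈ E := sub_mem hmw (one_mem E)
  have hmvw : v - w ∈ E := sub_mem hmv hmw
  have hmav : a - v ^ p ∈ E := sub_mem hma (pow_mem hmv p)
  have hmaw : a - w ^ p ∈ E := sub_mem hma (pow_mem hmw p)
  have eBDE : aeval ![a, v, w] (pB k * pD k * pE k) = (v - 1) * (w - 1) * (v - w) := by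
    rw [map_mul, map_mul, N15_B, N15_D, N15_E]
  have uTe : ∀ Q : MvPolynomial (Fin 3) k, uT k * Q = X 0 * (X 1 * X 2 * Q) := by
    intro Q; unfold uT; ring
  obtain ⟨hNI, hNI'⟩ := NI_le_pp h
  have hMM := MM_le_pp p h
  have P01 : G1 - G2 ∈ E ⊔ Algebra.adjoin k {((g 0 : E) : K)⁻¹, ((g 1 : E) : K)⁻¹} := by
    refine (sup_le hNI hNI').trans (N15_le (hle 0 1) ?_) h12
    have e : (aeval ![a, v, w] (pB k * pD k * pE k))⁻¹ =
        ((g 0 : E) : K)⁻¹ * (((g 1 : E) : K)⁻¹ * (v - w)) := by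
      rw [eBDE, e0, e1]
      field_simp
    rw [e]
    exact mul_mem (hgi 0 1) (mul_mem (hgj 0 1) (hle 0 1 hmvw))
  have P02 : G1 - GT ∈ E ⊔ Algebra.adjoin k {((g 0 : E) : K)⁻¹, ((g 2 : E) : K)⁻¹} := by
    rw [← neg_sub]
    refine neg_mem ?_
    rw [uTe] at h1
    refine N15_le (hle 0 2) ?_ h1
    have e : (aeval ![a, v, w] (X 1 * X 2 * (pD k * pE k)))⁻¹ =
        ((g 0 : E) : K)⁻¹ * ((g 2 : E) : K)⁻¹ := by
      rw [map_mul, map_mul, map_mul, N15_X1, N15_X2, N15_D, N15_E, e0, e2]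
      field_simp
    rw [e]
    exact mul_mem (hgi 0 2) (hgj 0 2)
  have P12 : G2 - GT ∈ E ⊔ Algebra.adjoin k {((g 1 : E) : K)⁻¹, ((g 2 : E) : K)⁻¹} := by
    rw [← neg_sub]
    refine neg_mem ?_
    rw [uTe] at h2
    refine N15_le (hle 1 2) ?_ h2
    have e : (aeval ![a, v, w] (X 1 * X 2 * (pB k * pE k)))⁻¹ =
        ((g 1 : E) : K)⁻¹ * ((g 2 : E) : K)⁻¹ := by
      rw [map_mul, map_mul, map_mul, N15_X1, N15_X2, N15_B, N15_E, e1, e2]
      field_simp
    rw [e]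
    exact mul_mem (hgi 1 2) (hgj 1 2)
  have P23 : GT - GM ∈ E ⊔ Algebra.adjoin k {((g 2 : E) : K)⁻¹, ((g 3 : E) : K)⁻¹} := by
    rw [uTe] at hM
    refine N15_le (hle 2 3) ?_ hM
    have e : (aeval ![a, v, w] (X 1 * X 2 * mden k p 0))⁻¹ =
        ((g 2 : E) : K)⁻¹ * ((g 3 : E) : K)⁻¹ := by
      rw [map_mul, map_mul, N15_X1, N15_X2, N15_M, e2, e3]
      field_simp
    rw [e]
    exact mul_mem (hgi 2 3) (hgj 2 3)
  have P03 : G1 - GM ∈ E ⊔ Algebra.adjoin k {((g 0 : E) : K)⁻¹, ((g 3 : E) : K)⁻¹} := by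
    refine sup_le (hNI.trans (N15_le (hle 0 3) ?_)) (hMM.trans (N15_le (hle 0 3) ?_)) h1M
    · have e : (aeval ![a, v, w] (pB k * pD k * pE k))⁻¹ =
          ((g 0 : E) : K)⁻¹ * (((g 3 : E) : K)⁻¹ *
            ((w - 1) * ((a - v ^ p) * (a - w ^ p)))) := by
        rw [eBDE, e0, e3]
        field_simp
      rw [e]
      exact mul_mem (hgi 0 3) (mul_mem (hgj 0 3)
        (hle 0 3 (mul_mem hmw1 (mul_mem hmav hmaw))))
    · rw [N15_M, ← e3]
      exact hgj 0 3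
  have P13 : G2 - GM ∈ E ⊔ Algebra.adjoin k {((g 1 : E) : K)⁻¹, ((g 3 : E) : K)⁻¹} := by
    refine sup_le (hNI'.trans (N15_le (hle 1 3) ?_)) (hMM.trans (N15_le (hle 1 3) ?_)) h2M
    · have e : (aeval ![a, v, w] (pB k * pD k * pE k))⁻¹ =
          ((g 1 : E) : K)⁻¹ * (((g 3 : E) : K)⁻¹ *
            ((v - 1) * ((a - v ^ p) * (a - w ^ p)))) := by
        rw [eBDE, e1, e3]
        field_simp
      rw [e]
      exact mul_mem (hgi 1 3) (mul_mem (hgj 1 3)
        (hle 1 3 (mul_mem hmv1 (mul_mem hmav hmaw))))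
    · rw [N15_M, ← e3]
      exact hgj 1 3
  have hsym : ∀ (i j : Fin 4) (x y : K),
      x - y ∈ E ⊔ Algebra.adjoin k {((g i : E) : K)⁻¹, ((g j : E) : K)⁻¹} →
      y - x ∈ E ⊔ Algebra.adjoin k {((g j : E) : K)⁻¹, ((g i : E) : K)⁻¹} := by
    intro i j x y hx
    rw [Set.pair_comm, ← neg_sub]
    exact neg_mem hx
  have hself : ∀ (i : Fin 4) (x : K),
      x - x ∈ E ⊔ Algebra.adjoin k {((g i : E) : K)⁻¹, ((g i : E) : K)⁻¹} := by
    intro i x
    rw [sub_self]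
    exact zero_mem _
  have hG : ∀ i j : Fin 4, (![G1, G2, GT, GM] : Fin 4 → K) i - (![G1, G2, GT, GM] : Fin 4 → K) j ∈
      E ⊔ Algebra.adjoin k {((g i : E) : K)⁻¹, ((g j : E) : K)⁻¹} := by
    intro i j
    fin_cases i <;> fin_cases j
    · exact hself 0 G1
    · exact P01
    · exact P02
    · exact P03
    · exact hsym 0 1 _ _ P01
    · exact hself 1 G2
    · exact P12
    · exact P13
    · exact hsym 0 2 _ _ P02
    · exact hsym 1 2 _ _ P12
    · exact hself 2 GT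
    · exact P23
    · exact hsym 0 3 _ _ P03
    · exact hsym 1 3 _ _ P13
    · exact hsym 2 3 _ _ P23
    · exact hself 3 GM
  obtain ⟨Gs, hGs⟩ := cech E g hg0 hspan ![G1, G2, GT, GM] hG
  have hc0 : Gs - G1 ∈ E ⊔ Algebra.adjoin k {((g 0 : E) : K)⁻¹} := hGs 0
  have hc1 : Gs - G2 ∈ E ⊔ Algebra.adjoin k {((g 1 : E) : K)⁻¹} := hGs 1
  have hc2 : Gs - GT ∈ E ⊔ Algebra.adjoin k {((g 2 : E) : K)⁻¹} := hGs 2
  refine ⟨Gs, ?_, ?_, ?_⟩
  · have hU : aeval ![a, v, w] (uT k) ≠ 0 := by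
      have : aeval ![a, v, w] (uT k) = a * v * w := by simp [uT]
      rw [this]
      exact mul_ne_zero (mul_ne_zero ha hv) hw
    rw [K3_eq_Fr hU]
    refine sup_le (Fr_mono ⟨X 1 * X 2, by unfold uT; ring⟩ hU) ?_ hc2
    refine Algebra.adjoin_le ?_
    intro r hr
    rw [Set.mem_singleton_iff] at hr
    have := inv_mem_Fr (x := a) (y := v) (z := w)
      (show (X 1 * X 2 : MvPolynomial (Fin 3) k) ∣ uT k from ⟨X 0, by unfold uT; ring⟩) hU
    rw [map_mul, N15_X1, N15_X2, ← e2, ← hr] at this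
    exact this
  · have hU : aeval ![a, v, w] (X 0 * (pD k * pE k)) ≠ 0 := by
      rw [map_mul, map_mul, N15_X0, N15_D, N15_E]
      exact mul_ne_zero ha (mul_ne_zero sw1 svw)
    refine sup_le (Fr_mono (dvd_mul_right _ _) hU) ?_ hc0
    refine Algebra.adjoin_le ?_
    intro r hr
    rw [Set.mem_singleton_iff] at hr
    have := inv_mem_Fr (x := a) (y := v) (z := w)
      (show (pD k * pE k) ∣ X 0 * (pD k * pE k) from dvd_mul_left _ _) hU
    rw [map_mul, N15_D, N15_E, ← e0, ← hr] at this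
    exact this
  · have hU : aeval ![a, v, w] (X 0 * (pB k * pE k)) ≠ 0 := by
      rw [map_mul, map_mul, N15_X0, N15_B, N15_E]
      exact mul_ne_zero ha (mul_ne_zero sv1 svw)
    refine sup_le (Fr_mono (dvd_mul_right _ _) hU) ?_ hc1
    refine Algebra.adjoin_le ?_
    intro r hr
    rw [Set.mem_singleton_iff] at hr
    have := inv_mem_Fr (x := a) (y := v) (z := w)
      (show (pB k * pE k) ∣ X 0 * (pB k * pE k) from dvd_mul_left _ _) hU
    rw [map_mul, N15_B, N15_E, ← e1, ← hr] at this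
    exact this

end H1F
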