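import Pool.Agent.Lib.H1F.N.N8
import Pool.Agent.Lib.H1F.N.N4
import Pool.Agent.Lib.H1F.N.N3
import Pool.Agent.Lib.H1F.N.N2

/-!
# H1F, chunk N16

Step (c): the toric chart `(1/v, w) ∈ A¹ × A¹` (and `(v, 1/w)` by symmetry).
-/

open MvPolynomial

namespace H1F

variable {k K : Type*} [Field k] [Field K] [Algebra k K]


theorem N16_Fr_le {x y z : K} {U : MvPolynomial (Fin 3) k} {S : Subalgebra k K}
    (hx : x ∈ S) (hy : y ∈ S) (hz : z ∈ S) (hu : (aeval ![x, y, z] U)⁻¹ ∈ S) :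
    Fr x y z U ≤ S := by
  refine Algebra.adjoin_le ?_
  rintro r (hr | hr | hr | hr)
  · rw [hr]; exact hx
  · rw [hr]; exact hy
  · rw [hr]; exact hz
  · rw [hr]; exact hu

theorem N16_NI_le {a v w : K} {S : Subalgebra k K} (ha : a ∈ S) (hv : v ∈ S) (hw : w ∈ S)
    (ia : a⁻¹ ∈ S) (iv : (v - 1)⁻¹ ∈ S) (iw : (w - 1)⁻¹ ∈ S) (ivw : (v - w)⁻¹ ∈ S) :
    NI k a v w ≤ S ∧ NI k a w v ≤ S := by
  have ivw' : (w - v)⁻¹ ∈ S := by
    have : (w - v)⁻¹ = -(v - w)⁻¹ := by rw [← neg_sub v w, inv_neg]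
    rw [this]
    exact neg_mem ivw
  constructor
  · refine Algebra.adjoin_le ?_
    rintro r (hr | hr | hr | hr | hr)
    · rw [hr]; exact sub_mem hv (one_mem S)
    · rw [hr, div_eq_mul_inv]; exact mul_mem (sub_mem ha (one_mem S)) iv
    · rw [hr]; exact iw
    · rw [hr]; exact ia
    · rw [hr, div_eq_mul_inv]; exact mul_mem (sub_mem hw (one_mem S)) ivw'
  · refine Algebra.adjoin_le ?_
    rintro r (hr | hr | hr | hr | hr)
    · rw [hr]; exact sub_mem hw (one_mem S)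
    · rw [hr, div_eq_mul_inv]; exact mul_mem (sub_mem ha (one_mem S)) iw
    · rw [hr]; exact iv
    · rw [hr]; exact ia
    · rw [hr, div_eq_mul_inv]; exact mul_mem (sub_mem hv (one_mem S)) ivw

theorem N16_span (E : Subalgebra k K) (x w : E) :
    Ideal.span (Set.range (![x * (w - 1) * (1 - x * w), (1 - x) * (1 - x * w), x * w] :
      Fin 3 → E)) = ⊤ := by
  by_contra hne
  obtain ⟨M, hM, hle⟩ := Ideal.exists_le_maximal _ hne
  have hMp : M.IsPrime := hM.isPrime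
  have hmem : ∀ i : Fin 3, (![x * (w - 1) * (1 - x * w), (1 - x) * (1 - x * w), x * w] :
      Fin 3 → E) i ∈ M := fun i => hle (Ideal.subset_span ⟨i, rfl⟩)
  have h0 : x * (w - 1) * (1 - x * w) ∈ M := hmem 0
  have h1 : (1 - x) * (1 - x * w) ∈ M := hmem 1
  have h2 : x * w ∈ M := hmem 2
  have h1M : (1 : E) ∉ M := fun h => hM.ne_top ((Ideal.eq_top_iff_one M).2 h)
  have h3 : 1 - x * w ∉ M := by
    intro h
    apply h1M
    have := M.add_mem h h2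
    rwa [sub_add_cancel] at this
  have h4 : 1 - x ∈ M := (hMp.mem_or_mem h1).resolve_right h3
  have h5 : x ∉ M := by
    intro h
    apply h1M
    have := M.add_mem h4 h
    rwa [sub_add_cancel] at this
  have h6 : w ∈ M := (hMp.mem_or_mem h2).resolve_left h5
  have h7 : w - 1 ∈ M := (hMp.mem_or_mem ((hMp.mem_or_mem h0).resolve_right h3)).resolve_left h5
  apply h1M
  have := M.sub_mem h6 h7
  rwa [sub_sub_cancel] at this

/-- `cech` on `E = k[a^±, v⁻¹, w] = Fr (k := k) a v⁻¹ w (X 0)` with (`x = v⁻¹`) the three elements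
`g₁ = x (w-1)(1 - x w)`, `g₂ = (1-x)(1-x w)`, `g₃ = x w`; they generate the unit ideal: in a maximal
ideal containing them `x w ≡ 0`, so `1 - x ≡ 0`, `x ≡ 1`, `w ≡ 0`, `g₁ ≡ -1`. -/
theorem toric_mp {a v w : K} (h : AlgebraicIndependent k ![a, v, w]) {GT G1 G2 : K}
    (h1 : GT - G1 ∈ Fr (k := k) a v w (uT k * (pD k * pE k)))
    (h2 : GT - G2 ∈ Fr (k := k) a v w (uT k * (pB k * pE k)))
    (h12 : G1 - G2 ∈ NI k a v w ⊔ NI k a w v) :
    ∃ Gs, Gs - GT ∈ K3 k a v w ∧ Gs - G1 ∈ Fr (k := k) a v w (X 0 * X 1 * (pD k * pE k)) ∧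
      Gs - G2 ∈ Fr (k := k) a v⁻¹ w (X 0 * ((1 - X 1) * (1 - X 1 * X 2))) := by
  obtain ⟨ha, hv, hw, ha1, hv1, hw1, hvw, -, -⟩ := ind_ne h
  have sv1 := sub_ne_zero.2 hv1
  have sw1 := sub_ne_zero.2 hw1
  have svw := sub_ne_zero.2 hvw
  have s1v : (1 : K) - v⁻¹ ≠ 0 := by
    intro h0
    apply hv1
    have : v⁻¹ = 1 := (sub_eq_zero.1 h0).symm
    exact inv_eq_one.1 this
  have s1vw : (1 : K) - v⁻¹ * w ≠ 0 := by
    intro h0
    apply svw
    have h00 : v * (1 - v⁻¹ * w) = v - w := by field_simp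
    rw [← h00, h0, mul_zero]
  set E := Fr (k := k) a v⁻¹ w (X 0 : MvPolynomial (Fin 3) k) with hE
  have ma : a ∈ E := N1_x_mem a v⁻¹ w _
  have mx : v⁻¹ ∈ E := N1_y_mem a v⁻¹ w _
  have mw : w ∈ E := N1_z_mem a v⁻¹ w _
  have mi : a⁻¹ ∈ E := by
    have := N1_u_mem a v⁻¹ w (X 0 : MvPolynomial (Fin 3) k)
    have e : aeval ![a, v⁻¹, w] (X 0 : MvPolynomial (Fin 3) k) = a := by simp
    rwa [e] at this
  let xx : E := ⟨v⁻¹, mx⟩
  let xw : E := ⟨w, mw⟩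
  have hspan := N16_span E xx xw
  set g : Fin 3 → E := ![xx * (xw - 1) * (1 - xx * xw), (1 - xx) * (1 - xx * xw), xx * xw] with hg
  have e0 : ((g 0 : E) : K) = v⁻¹ * (w - 1) * (1 - v⁻¹ * w) := rfl
  have e1 : ((g 1 : E) : K) = (1 - v⁻¹) * (1 - v⁻¹ * w) := rfl
  have e2 : ((g 2 : E) : K) = v⁻¹ * w := rfl
  have n0 : ((g 0 : E) : K) ≠ 0 := by
    rw [e0]; exact mul_ne_zero (mul_ne_zero (inv_ne_zero hv) sw1) s1vw
  have n1 : ((g 1 : E) : K) ≠ 0 := by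
    rw [e1]; exact mul_ne_zero s1v s1vw
  have n2 : ((g 2 : E) : K) ≠ 0 := by
    rw [e2]; exact mul_ne_zero (inv_ne_zero hv) hw
  have hg0 : ∀ i, g i ≠ 0 := by
    intro i hi
    have hi' : ((g i : E) : K) = 0 := by rw [hi]; rfl
    revert hi'
    fin_cases i
    · exact n0
    · exact n1
    · exact n2
  have hle : ∀ i j, E ≤ E ⊔ Algebra.adjoin k {((g i : E) : K)⁻¹, ((g j : E) : K)⁻¹} :=
    fun i j => le_sup_left
  have hgi : ∀ i j, ((g i : E) : K)⁻¹ ∈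
      E ⊔ Algebra.adjoin k {((g i : E) : K)⁻¹, ((g j : E) : K)⁻¹} := fun i j =>
    Algebra.mem_sup_right (Algebra.subset_adjoin (by simp))
  have hgj : ∀ i j, ((g j : E) : K)⁻¹ ∈
      E ⊔ Algebra.adjoin k {((g i : E) : K)⁻¹, ((g j : E) : K)⁻¹} := fun i j =>
    Algebra.mem_sup_right (Algebra.subset_adjoin (by simp))
  have mw1 : w - 1 ∈ E := sub_mem mw (one_mem E)
  have mx1 : 1 - v⁻¹ ∈ E := sub_mem (one_mem E) mx
  have mxw : 1 - v⁻¹ * w ∈ E := sub_mem (one_mem E) (mul_mem mx mw)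
  -- expressions
  have f0 : v = ((g 0 : E) : K)⁻¹ * ((w - 1) * (1 - v⁻¹ * w)) := by
    rw [e0, mul_inv, mul_inv, inv_inv]
    field_simp
  have f2 : v = ((g 2 : E) : K)⁻¹ * w := by
    rw [e2, mul_inv, inv_inv]
    field_simp
  have fw2 : w⁻¹ = ((g 2 : E) : K)⁻¹ * v⁻¹ := by
    rw [e2, mul_inv, inv_inv]
    field_simp
  have fw1 : (w - 1)⁻¹ = ((g 0 : E) : K)⁻¹ * (v⁻¹ * (1 - v⁻¹ * w)) := by
    rw [e0, mul_inv, mul_inv, inv_inv]
    field_simp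
  have fvw0 : (v - w)⁻¹ = ((g 0 : E) : K)⁻¹ * (v⁻¹ * v⁻¹ * (w - 1)) := by
    rw [e0, mul_inv, mul_inv, inv_inv]
    have : v - w = v * (1 - v⁻¹ * w) := by field_simp
    rw [this]
    field_simp
  have fv1 : (v - 1)⁻¹ = ((g 1 : E) : K)⁻¹ * (v⁻¹ * (1 - v⁻¹ * w)) := by
    rw [e1, mul_inv]
    have : v - 1 = v * (1 - v⁻¹) := by field_simp
    rw [this]
    field_simp
  have fvw1 : (v - w)⁻¹ = ((g 1 : E) : K)⁻¹ * (v⁻¹ * (1 - v⁻¹)) := by
    rw [e1, mul_inv]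
    have : v - w = v * (1 - v⁻¹ * w) := by field_simp
    rw [this]
    field_simp
  have eu1 : (aeval ![a, v, w] (uT k * (pD k * pE k)))⁻¹ =
      a⁻¹ * v⁻¹ * w⁻¹ * ((w - 1)⁻¹ * (v - w)⁻¹) := by
    simp [uT, pD, pE]
    ring
  have eu2 : (aeval ![a, v, w] (uT k * (pB k * pE k)))⁻¹ =
      a⁻¹ * v⁻¹ * w⁻¹ * ((v - 1)⁻¹ * (v - w)⁻¹) := by
    simp [uT, pB, pE]
    ring
  have P01 : G1 - G2 ∈ E ⊔ Algebra.adjoin k {((g 0 : E) : K)⁻¹, ((g 1 : E) : K)⁻¹} := by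
    have hh := N16_NI_le (k := k) (a := a) (v := v) (w := w)
      (S := E ⊔ Algebra.adjoin k {((g 0 : E) : K)⁻¹, ((g 1 : E) : K)⁻¹})
      (hle 0 1 ma) (by rw [f0]; exact mul_mem (hgi 0 1) (hle 0 1 (mul_mem mw1 mxw)))
      (hle 0 1 mw) (hle 0 1 mi)
      (by rw [fv1]; exact mul_mem (hgj 0 1) (hle 0 1 (mul_mem mx mxw)))
      (by rw [fw1]; exact mul_mem (hgi 0 1) (hle 0 1 (mul_mem mx mxw)))
      (by rw [fvw1]; exact mul_mem (hgj 0 1) (hle 0 1 (mul_mem mx mx1)))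
    exact (sup_le hh.1 hh.2) h12
  have P02 : G1 - GT ∈ E ⊔ Algebra.adjoin k {((g 0 : E) : K)⁻¹, ((g 2 : E) : K)⁻¹} := by
    rw [← neg_sub]
    refine neg_mem ?_
    refine N16_Fr_le (hle 0 2 ma)
      (by rw [f2]; exact mul_mem (hgj 0 2) (hle 0 2 mw)) (hle 0 2 mw) ?_ h1
    rw [eu1]
    refine mul_mem (mul_mem (mul_mem (hle 0 2 mi) (hle 0 2 mx)) ?_) (mul_mem ?_ ?_)
    · rw [fw2]; exact mul_mem (hgj 0 2) (hle 0 2 mx)
    · rw [fw1]; exact mul_mem (hgi 0 2) (hle 0 2 (mul_mem mx mxw))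
    · rw [fvw0]; exact mul_mem (hgi 0 2) (hle 0 2 (mul_mem (mul_mem mx mx) mw1))
  have P12 : G2 - GT ∈ E ⊔ Algebra.adjoin k {((g 1 : E) : K)⁻¹, ((g 2 : E) : K)⁻¹} := by
    rw [← neg_sub]
    refine neg_mem ?_
    refine N16_Fr_le (hle 1 2 ma)
      (by rw [f2]; exact mul_mem (hgj 1 2) (hle 1 2 mw)) (hle 1 2 mw) ?_ h2
    rw [eu2]
    refine mul_mem (mul_mem (mul_mem (hle 1 2 mi) (hle 1 2 mx)) ?_) (mul_mem ?_ ?_)
    · rw [fw2]; exact mul_mem (hgj 1 2) (hle 1 2 mx)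
    · rw [fv1]; exact mul_mem (hgi 1 2) (hle 1 2 (mul_mem mx mxw))
    · rw [fvw1]; exact mul_mem (hgi 1 2) (hle 1 2 (mul_mem mx mx1))
  have hsym : ∀ (i j : Fin 3) (x y : K),
      x - y ∈ E ⊔ Algebra.adjoin k {((g i : E) : K)⁻¹, ((g j : E) : K)⁻¹} →
      y - x ∈ E ⊔ Algebra.adjoin k {((g j : E) : K)⁻¹, ((g i : E) : K)⁻¹} := by
    intro i j x y hx
    rw [Set.pair_comm, ← neg_sub]
    exact neg_mem hx
  have hself : ∀ (i : Fin 3) (x : K),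
      x - x ∈ E ⊔ Algebra.adjoin k {((g i : E) : K)⁻¹, ((g i : E) : K)⁻¹} := by
    intro i x
    rw [sub_self]
    exact zero_mem _
  have hG : ∀ i j : Fin 3, (![G1, G2, GT] : Fin 3 → K) i - (![G1, G2, GT] : Fin 3 → K) j ∈
      E ⊔ Algebra.adjoin k {((g i : E) : K)⁻¹, ((g j : E) : K)⁻¹} := by
    intro i j
    fin_cases i <;> fin_cases j
    · exact hself 0 G1
    · exact P01
    · exact P02
    · exact hsym 0 1 _ _ P01
    · exact hself 1 G2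
    · exact P12
    · exact hsym 0 2 _ _ P02
    · exact hsym 1 2 _ _ P12
    · exact hself 2 GT
  obtain ⟨Gs, hGs⟩ := cech E g hg0 hspan ![G1, G2, GT] hG
  have hc0 : Gs - G1 ∈ E ⊔ Algebra.adjoin k {((g 0 : E) : K)⁻¹} := hGs 0
  have hc1 : Gs - G2 ∈ E ⊔ Algebra.adjoin k {((g 1 : E) : K)⁻¹} := hGs 1
  have hc2 : Gs - GT ∈ E ⊔ Algebra.adjoin k {((g 2 : E) : K)⁻¹} := hGs 2
  refine ⟨Gs, ?_, ?_, ?_⟩
  · have kk : ∀ z ∈ ({a, a⁻¹, v, v⁻¹, w, w⁻¹} : Set K), z ∈ K3 k a v w := fun z hz =>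
      Algebra.subset_adjoin hz
    refine sup_le (N16_Fr_le (kk _ (by simp)) (kk _ (by simp)) (kk _ (by simp)) ?_) ?_ hc2
    · have e : (aeval ![a, v⁻¹, w] (X 0 : MvPolynomial (Fin 3) k))⁻¹ = a⁻¹ := by simp
      rw [e]; exact kk _ (by simp)
    · refine Algebra.adjoin_le ?_
      intro r hr
      rw [Set.mem_singleton_iff] at hr
      rw [hr, e2, mul_inv, inv_inv]
      exact mul_mem (kk _ (by simp)) (kk _ (by simp))
  · have hU : aeval ![a, v, w] (X 0 * X 1 * (pD k * pE k)) = a * v * ((w - 1) * (v - w)) := by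
      simp [pD, pE]
    set S := Fr (k := k) a v w (X 0 * X 1 * (pD k * pE k)) with hS
    have sa : a ∈ S := N1_x_mem a v w _
    have sv : v ∈ S := N1_y_mem a v w _
    have sw : w ∈ S := N1_z_mem a v w _
    have su : (a * v * ((w - 1) * (v - w)))⁻¹ ∈ S := by
      rw [← hU]; exact N1_u_mem a v w _
    refine sup_le (N16_Fr_le sa ?_ sw ?_) ?_ hc0
    · have e : v⁻¹ = (a * v * ((w - 1) * (v - w)))⁻¹ * (a * ((w - 1) * (v - w))) := by
        field_simp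
      rw [e]
      exact mul_mem su (mul_mem sa (mul_mem (sub_mem sw (one_mem S)) (sub_mem sv sw)))
    · have e : (aeval ![a, v⁻¹, w] (X 0 : MvPolynomial (Fin 3) k))⁻¹ =
          (a * v * ((w - 1) * (v - w)))⁻¹ * (v * ((w - 1) * (v - w))) := by
        have e' : (aeval ![a, v⁻¹, w] (X 0 : MvPolynomial (Fin 3) k)) = a := by simp
        rw [e']
        field_simp
      rw [e]
      exact mul_mem su (mul_mem sv (mul_mem (sub_mem sw (one_mem S)) (sub_mem sv sw)))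
    · refine Algebra.adjoin_le ?_
      intro r hr
      rw [Set.mem_singleton_iff] at hr
      have e : ((g 0 : E) : K)⁻¹ = (a * v * ((w - 1) * (v - w)))⁻¹ * (a * v * (v * v)) := by
        have e3 : v * (1 - v⁻¹ * w) = v - w := by field_simp
        rw [e0, ← e3]
        field_simp
      rw [hr, e]
      exact mul_mem su (mul_mem (mul_mem sa sv) (mul_mem sv sv))
  · have hU : aeval ![a, v⁻¹, w] (X 0 * ((1 - X 1) * (1 - X 1 * X 2)) :
        MvPolynomial (Fin 3) k) = a * ((1 - v⁻¹) * (1 - v⁻¹ * w)) := by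
      simp
    set S := Fr (k := k) a v⁻¹ w (X 0 * ((1 - X 1) * (1 - X 1 * X 2))) with hS
    have sa : a ∈ S := N1_x_mem a v⁻¹ w _
    have sv : v⁻¹ ∈ S := N1_y_mem a v⁻¹ w _
    have sw : w ∈ S := N1_z_mem a v⁻¹ w _
    have su : (a * ((1 - v⁻¹) * (1 - v⁻¹ * w)))⁻¹ ∈ S := by
      rw [← hU]; exact N1_u_mem a v⁻¹ w _
    refine sup_le (N16_Fr_le sa sv sw ?_) ?_ hc1
    · have e : (aeval ![a, v⁻¹, w] (X 0 : MvPolynomial (Fin 3) k))⁻¹ =
          (a * ((1 - v⁻¹) * (1 - v⁻¹ * w)))⁻¹ * ((1 - v⁻¹) * (1 - v⁻¹ * w)) := by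
        have e' : (aeval ![a, v⁻¹, w] (X 0 : MvPolynomial (Fin 3) k)) = a := by simp
        rw [e', mul_inv, mul_assoc, inv_mul_cancel₀ (mul_ne_zero s1v s1vw), mul_one]
      rw [e]
      exact mul_mem su (mul_mem (sub_mem (one_mem S) sv) (sub_mem (one_mem S) (mul_mem sv sw)))
    · refine Algebra.adjoin_le ?_
      intro r hr
      rw [Set.mem_singleton_iff] at hr
      have e : ((g 1 : E) : K)⁻¹ = (a * ((1 - v⁻¹) * (1 - v⁻¹ * w)))⁻¹ * a := by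
        rw [e1, mul_inv a, mul_comm a⁻¹, mul_assoc, inv_mul_cancel₀ ha, mul_one]
      rw [hr, e]
      exact mul_mem su sa

theorem N16_swap {a v w : K} (h : AlgebraicIndependent k ![a, v, w]) :
    AlgebraicIndependent k ![a, w, v] := by
  have h1 := h.comp (Equiv.swap (1 : Fin 3) 2) (Equiv.swap (1 : Fin 3) 2).injective
  have h2 : (![a, v, w] ∘ (Equiv.swap (1 : Fin 3) 2) : Fin 3 → K) = ![a, w, v] := by
    funext i
    fin_cases i
    · rfl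
    · simp
    · simp
  rwa [h2] at h1

theorem N16_sw {x y z x' y' z' : K} {U U' : MvPolynomial (Fin 3) k}
    (hx : x ∈ Fr (k := k) x' y' z' U') (hy : y ∈ Fr (k := k) x' y' z' U')
    (hz : z ∈ Fr (k := k) x' y' z' U')
    (hu : aeval ![x, y, z] U = aeval ![x', y', z'] U' ∨
      aeval ![x, y, z] U = - aeval ![x', y', z'] U') :
    Fr (k := k) x y z U ≤ Fr (k := k) x' y' z' U' := by
  refine N16_Fr_le hx hy hz ?_
  rcases hu with h | h
  · rw [h]; exact N1_u_mem x' y' z' U'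
  · rw [h, inv_neg]; exact neg_mem (N1_u_mem x' y' z' U')

/-- The mirror image of `toric_mp` under `v ↔ w`. -/
theorem toric_pm {a v w : K} (h : AlgebraicIndependent k ![a, v, w]) {GT G1 G2 : K}
    (h1 : GT - G1 ∈ Fr (k := k) a v w (uT k * (pD k * pE k)))
    (h2 : GT - G2 ∈ Fr (k := k) a v w (uT k * (pB k * pE k)))
    (h12 : G1 - G2 ∈ NI k a v w ⊔ NI k a w v) :
    ∃ Gs, Gs - GT ∈ K3 k a v w ∧ Gs - G2 ∈ Fr (k := k) a v w (X 0 * X 2 * (pB k * pE k)) ∧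
      Gs - G1 ∈ Fr (k := k) a v w⁻¹ (X 0 * ((1 - X 2) * (1 - X 1 * X 2))) := by
  have h1' : GT - G1 ∈ Fr (k := k) a w v (uT k * (pB k * pE k)) := by
    refine N16_sw (N1_x_mem _ _ _ _) (N1_z_mem _ _ _ _) (N1_y_mem _ _ _ _) (Or.inr ?_) h1
    simp [uT, pB, pD, pE]
    ring
  have h2' : GT - G2 ∈ Fr (k := k) a w v (uT k * (pD k * pE k)) := by
    refine N16_sw (N1_x_mem _ _ _ _) (N1_z_mem _ _ _ _) (N1_y_mem _ _ _ _) (Or.inr ?_) h2
    simp [uT, pB, pD, pE]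
    ring
  have h12' : G2 - G1 ∈ NI k a w v ⊔ NI k a v w := by
    rw [sup_comm, ← neg_sub]
    exact neg_mem h12
  obtain ⟨Gs, c0, c1, c2⟩ := toric_mp (N16_swap h) h2' h1' h12'
  refine ⟨Gs, ?_, ?_, ?_⟩
  · have e : K3 k a w v = K3 k a v w := by
      unfold K3
      congr 1
      ext z
      simp only [Set.mem_insert_iff, Set.mem_singleton_iff]
      tauto
    rw [← e]
    exact c0
  · refine N16_sw (N1_x_mem _ _ _ _) (N1_z_mem _ _ _ _) (N1_y_mem _ _ _ _) (Or.inr ?_) c1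
    simp [pB, pD, pE]
    ring
  · refine N16_sw (N1_x_mem _ _ _ _) (N1_z_mem _ _ _ _) (N1_y_mem _ _ _ _) (Or.inl ?_) c2
    simp [mul_comm w⁻¹ v]

end H1F
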