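import Pool.Agent.Lib.H1F.N.N8
import Pool.Agent.Lib.H1F.N.N4
import Pool.Agent.Lib.H1F.N.N3
import Pool.Agent.Lib.H1F.N.N2

/-!
# H1F, chunk N17

Step (c): the toric chart `(1/v, 1/w) ∈ A¹ × A¹`.
-/

open MvPolynomial

namespace H1F

variable {k K : Type*} [Field k] [Field K] [Algebra k K]

theorem N17_Fr {x y z : K} {U : MvPolynomial (Fin 3) k} {S : Subalgebra k K} (hx : x ∈ S)
    (hy : y ∈ S) (hz : z ∈ S) (hU : (aeval ![x, y, z] U)⁻¹ ∈ S) : Fr x y z U ≤ S := by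
  refine Algebra.adjoin_le ?_
  rintro r (hr | hr | hr | hr)
  · rw [hr]; exact hx
  · rw [hr]; exact hy
  · rw [hr]; exact hz
  · rw [hr]; exact hU

theorem N17_NI {a v w : K} {S : Subalgebra k K} (h1 : v - 1 ∈ S) (h2 : (a - 1) / (v - 1) ∈ S)
    (h3 : (w - 1)⁻¹ ∈ S) (h4 : a⁻¹ ∈ S) (h5 : (w - 1) / (w - v) ∈ S) : NI k a v w ≤ S := by
  refine Algebra.adjoin_le ?_
  rintro r (hr | hr | hr | hr | hr)
  · rw [hr]; exact h1
  · rw [hr]; exact h2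
  · rw [hr]; exact h3
  · rw [hr]; exact h4
  · rw [hr]; exact h5

theorem N17_MM {p : ℕ} {a v w : K} {S : Subalgebra k K} (h1 : a ∈ S) (h2 : a⁻¹ ∈ S)
    (h3 : (v - 1)⁻¹ ∈ S) (h4 : (w - 1)⁻¹ ∈ S) (h5 : (v - 1) ^ p / (a - v ^ p) ∈ S)
    (h6 : (w - 1) ^ p / (a - w ^ p) ∈ S) : MM k p a v w ≤ S := by
  refine Algebra.adjoin_le ?_
  rintro r (hr | hr | hr | hr | hr | hr)
  · rw [hr]; exact h1
  · rw [hr]; exact h2
  · rw [hr]; exact h3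
  · rw [hr]; exact h4
  · rw [hr]; exact h5
  · rw [hr]; exact h6

theorem N17_X0 (a v w : K) : aeval ![a, v, w] (X 0 : MvPolynomial (Fin 3) k) = a := by simp

theorem N17_X1 (a v w : K) : aeval ![a, v, w] (X 1 : MvPolynomial (Fin 3) k) = v := by simp

theorem N17_X2 (a v w : K) : aeval ![a, v, w] (X 2 : MvPolynomial (Fin 3) k) = w := by simp

/-- The four elements of the ring `E`. -/
theorem N17_span (p : ℕ) (hp : p ≠ 0) {E : Type*} [CommRing E] (a x y : E) :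
    Ideal.span (Set.range (![x * ((1 - y) * (x - y)), y * ((1 - x) * (x - y)), x * y,
      (1 - x) * (1 - y) * ((a * x ^ p - 1) * (a * y ^ p - 1))] : Fin 4 → E)) = ⊤ := by
  by_contra hne
  obtain ⟨M, hM, hle⟩ := Ideal.exists_le_maximal _ hne
  have hMp : M.IsPrime := hM.isPrime
  have hmem : ∀ i : Fin 4, (![x * ((1 - y) * (x - y)), y * ((1 - x) * (x - y)), x * y,
      (1 - x) * (1 - y) * ((a * x ^ p - 1) * (a * y ^ p - 1))] : Fin 4 → E) i ∈ M := fun i =>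
    hle (Ideal.subset_span ⟨i, rfl⟩)
  have h0 : x * ((1 - y) * (x - y)) ∈ M := hmem 0
  have h1 : y * ((1 - x) * (x - y)) ∈ M := hmem 1
  have h2 : x * y ∈ M := hmem 2
  have h3 : (1 - x) * (1 - y) * ((a * x ^ p - 1) * (a * y ^ p - 1)) ∈ M := hmem 3
  have h1M : (1 : E) ∉ M := fun h => hM.ne_top ((Ideal.eq_top_iff_one M).2 h)
  have c1 : ∀ t : E, t ∈ M → 1 - t ∉ M := by
    intro t ht h
    apply h1M
    have := M.add_mem h ht
    rwa [sub_add_cancel] at this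
  have hxy : x ∈ M ∧ y ∈ M := by
    rcases hMp.mem_or_mem h2 with h | h
    · refine ⟨h, ?_⟩
      rcases hMp.mem_or_mem h1 with h' | h'
      · exact h'
      · rcases hMp.mem_or_mem h' with h' | h'
        · exact absurd h' (c1 x h)
        · have := M.sub_mem h h'
          rwa [sub_sub_cancel] at this
    · refine ⟨?_, h⟩
      rcases hMp.mem_or_mem h0 with h' | h'
      · exact h'
      · rcases hMp.mem_or_mem h' with h' | h'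
        · exact absurd h' (c1 y h)
        · have := M.add_mem h' h
          rwa [sub_add_cancel] at this
  obtain ⟨hx, hy⟩ := hxy
  have c2 : ∀ t : E, t ∈ M → a * t ^ p - 1 ∉ M := by
    intro t ht h
    apply h1M
    have h4 : a * t ^ p ∈ M := M.mul_mem_left a (Ideal.pow_mem_of_mem M ht p (by omega))
    have := M.sub_mem h4 h
    rwa [sub_sub_cancel] at this
  rcases hMp.mem_or_mem h3 with h | h
  · rcases hMp.mem_or_mem h with h | h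
    · exact c1 x hx h
    · exact c1 y hy h
  · rcases hMp.mem_or_mem h with h | h
    · exact c2 x hx h
    · exact c2 y hy h

/-- `toric_mm` in the coordinates `x = v⁻¹`, `y = w⁻¹`. -/
theorem N17_main (p : ℕ) (hp : 2 ≤ p) {a x y : K} (h : AlgebraicIndependent k ![a, x⁻¹, y⁻¹])
    {GT G1 G2 GM : K}
    (h1 : GT - G1 ∈ Fr (k := k) a x⁻¹ y⁻¹ (uT k * (pD k * pE k)))
    (h2 : GT - G2 ∈ Fr (k := k) a x⁻¹ y⁻¹ (uT k * (pB k * pE k)))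
    (hM : GT - GM ∈ Fr (k := k) a x⁻¹ y⁻¹ (uT k * mden k p 0))
    (h12 : G1 - G2 ∈ NI k a x⁻¹ y⁻¹ ⊔ NI k a y⁻¹ x⁻¹)
    (h1M : G1 - GM ∈ NI k a x⁻¹ y⁻¹ ⊔ MM k p a x⁻¹ y⁻¹)
    (h2M : G2 - GM ∈ NI k a y⁻¹ x⁻¹ ⊔ MM k p a x⁻¹ y⁻¹) :
    ∃ Gs, Gs - GT ∈ K3 k a x⁻¹ y⁻¹ ∧
      Gs - G1 ∈ Fr (k := k) a x⁻¹ y (X 0 * X 1 * ((1 - X 2) * (1 - X 1 * X 2))) ∧
      Gs - G2 ∈ Fr (k := k) a x y⁻¹ (X 0 * X 2 * ((1 - X 1) * (1 - X 1 * X 2))) := by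
  obtain ⟨ha, hv, hw, ha1, hv1, hw1, hvw, hav, haw⟩ := ind_ne h
  have hp0 : 0 < p := by omega
  have hx : x ≠ 0 := by
    rintro rfl
    exact hv inv_zero
  have hy : y ≠ 0 := by
    rintro rfl
    exact hw inv_zero
  have hx1 : 1 - x ≠ 0 := by
    intro h0
    apply hv1
    rw [← sub_eq_zero.1 h0, inv_one]
  have hy1 : 1 - y ≠ 0 := by
    intro h0
    apply hw1
    rw [← sub_eq_zero.1 h0, inv_one]
  have hxy : x - y ≠ 0 := by
    intro h0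
    apply hvw
    rw [sub_eq_zero.1 h0]
  have hax : a * x ^ p - 1 ≠ 0 := by
    intro h0
    apply hav p hp0
    rw [inv_pow]
    exact eq_inv_of_mul_eq_one_left (sub_eq_zero.1 h0)
  have hay : a * y ^ p - 1 ≠ 0 := by
    intro h0
    apply haw p hp0
    rw [inv_pow]
    exact eq_inv_of_mul_eq_one_left (sub_eq_zero.1 h0)
  -- the identities
  have ev1 : x⁻¹ - 1 = (1 - x) * x⁻¹ := by field_simp
  have ew1 : y⁻¹ - 1 = (1 - y) * y⁻¹ := by field_simp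
  have evi : (x⁻¹ - 1)⁻¹ = x * (1 - x)⁻¹ := by rw [ev1, mul_inv, inv_inv, mul_comm]
  have ewi : (y⁻¹ - 1)⁻¹ = y * (1 - y)⁻¹ := by rw [ew1, mul_inv, inv_inv, mul_comm]
  have evw : x⁻¹ - y⁻¹ = -((x - y) * (x⁻¹ * y⁻¹)) := by
    field_simp
    ring
  have evwi : (x⁻¹ - y⁻¹)⁻¹ = -(x * y * (x - y)⁻¹) := by
    rw [evw, inv_neg, mul_inv, mul_inv, inv_inv, inv_inv]
    ring
  have eav : a - x⁻¹ ^ p = (a * x ^ p - 1) * (x ^ p)⁻¹ := by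
    rw [inv_pow, sub_mul, one_mul, mul_inv_cancel_right₀ (pow_ne_zero p hx)]
  have eaw : a - y⁻¹ ^ p = (a * y ^ p - 1) * (y ^ p)⁻¹ := by
    rw [inv_pow, sub_mul, one_mul, mul_inv_cancel_right₀ (pow_ne_zero p hy)]
  have eavi : (a - x⁻¹ ^ p)⁻¹ = x ^ p * (a * x ^ p - 1)⁻¹ := by
    rw [eav, mul_inv, inv_inv, mul_comm]
  have eawi : (a - y⁻¹ ^ p)⁻¹ = y ^ p * (a * y ^ p - 1)⁻¹ := by
    rw [eaw, mul_inv, inv_inv, mul_comm]
  have exM : (x⁻¹ - 1) ^ p / (a - x⁻¹ ^ p) = (1 - x) ^ p * (a * x ^ p - 1)⁻¹ := by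
    rw [div_eq_mul_inv, eavi, ev1, mul_pow, inv_pow]
    have := pow_ne_zero p hx
    field_simp
  have eyM : (y⁻¹ - 1) ^ p / (a - y⁻¹ ^ p) = (1 - y) ^ p * (a * y ^ p - 1)⁻¹ := by
    rw [div_eq_mul_inv, eawi, ew1, mul_pow, inv_pow]
    have := pow_ne_zero p hy
    field_simp
  have e5 : (y⁻¹ - 1) / (y⁻¹ - x⁻¹) = x * (1 - y) * (x - y)⁻¹ := by
    rw [div_eq_mul_inv, ← neg_sub x⁻¹ y⁻¹, inv_neg, evwi, ew1]
    field_simp
  have e5' : (x⁻¹ - 1) / (x⁻¹ - y⁻¹) = -(y * (1 - x) * (x - y)⁻¹) := by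
    rw [div_eq_mul_inv, evwi, ev1]
    field_simp
  -- the ring
  set E := Fr a x y (X 0 : MvPolynomial (Fin 3) k) with hE
  have ma : a ∈ E := N1_x_mem _ _ _ _
  have mx : x ∈ E := N1_y_mem _ _ _ _
  have my : y ∈ E := N1_z_mem _ _ _ _
  have mi : a⁻¹ ∈ E := by
    have := N1_u_mem a x y (X 0 : MvPolynomial (Fin 3) k)
    rwa [N17_X0] at this
  have m1x : 1 - x ∈ E := sub_mem (one_mem E) mx
  have m1y : 1 - y ∈ E := sub_mem (one_mem E) my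
  have mxy : x - y ∈ E := sub_mem mx my
  have max : a * x ^ p - 1 ∈ E := sub_mem (mul_mem ma (pow_mem mx p)) (one_mem E)
  have may : a * y ^ p - 1 ∈ E := sub_mem (mul_mem ma (pow_mem my p)) (one_mem E)
  let xa : E := ⟨a, ma⟩
  let xx : E := ⟨x, mx⟩
  let xy : E := ⟨y, my⟩
  have hspan := N17_span p hp0.ne' xa xx xy
  set g : Fin 4 → E := ![xx * ((1 - xy) * (xx - xy)), xy * ((1 - xx) * (xx - xy)), xx * xy,
      (1 - xx) * (1 - xy) * ((xa * xx ^ p - 1) * (xa * xy ^ p - 1))] with hg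
  have e0 : ((g 0 : E) : K) = x * ((1 - y) * (x - y)) := rfl
  have e1 : ((g 1 : E) : K) = y * ((1 - x) * (x - y)) := rfl
  have e2 : ((g 2 : E) : K) = x * y := rfl
  have e3 : ((g 3 : E) : K) = (1 - x) * (1 - y) * ((a * x ^ p - 1) * (a * y ^ p - 1)) := by
    show ((((1 - xx) * (1 - xy) * ((xa * xx ^ p - 1) * (xa * xy ^ p - 1))) : E) : K) = _
    push_cast
    rfl
  have n0 : x * ((1 - y) * (x - y)) ≠ 0 := mul_ne_zero hx (mul_ne_zero hy1 hxy)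
  have n1 : y * ((1 - x) * (x - y)) ≠ 0 := mul_ne_zero hy (mul_ne_zero hx1 hxy)
  have n2 : x * y ≠ 0 := mul_ne_zero hx hy
  have n3 : (1 - x) * (1 - y) * ((a * x ^ p - 1) * (a * y ^ p - 1)) ≠ 0 :=
    mul_ne_zero (mul_ne_zero hx1 hy1) (mul_ne_zero hax hay)
  have hg0 : ∀ i, g i ≠ 0 := by
    intro i hi
    have hi' : ((g i : E) : K) = 0 := by rw [hi]; rfl
    revert hi'
    fin_cases i
    · show ((g 0 : E) : K) ≠ 0
      rw [e0]; exact n0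
    · show ((g 1 : E) : K) ≠ 0
      rw [e1]; exact n1
    · show ((g 2 : E) : K) ≠ 0
      rw [e2]; exact n2
    · show ((g 3 : E) : K) ≠ 0
      rw [e3]; exact n3
  have hle : ∀ i j, E ≤ E ⊔ Algebra.adjoin k {((g i : E) : K)⁻¹, ((g j : E) : K)⁻¹} :=
    fun i j => le_sup_left
  have hgi : ∀ i j, ((g i : E) : K)⁻¹ ∈
      E ⊔ Algebra.adjoin k {((g i : E) : K)⁻¹, ((g j : E) : K)⁻¹} := fun i j =>
    Algebra.mem_sup_right (Algebra.subset_adjoin (by simp))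
  have hgj : ∀ i j, ((g j : E) : K)⁻¹ ∈
      E ⊔ Algebra.adjoin k {((g i : E) : K)⁻¹, ((g j : E) : K)⁻¹} := fun i j =>
    Algebra.mem_sup_right (Algebra.subset_adjoin (by simp))
  -- inverses of factors
  have q0 : ∀ S : Subalgebra k K, E ≤ S → ((g 0 : E) : K)⁻¹ ∈ S →
      x⁻¹ ∈ S ∧ (1 - y)⁻¹ ∈ S ∧ (x - y)⁻¹ ∈ S := by
    intro S hS hs
    rw [e0] at hs
    refine ⟨?_, ?_, ?_⟩
    · have e : x⁻¹ = (1 - y) * (x - y) * (x * ((1 - y) * (x - y)))⁻¹ := by field_simp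
      rw [e]; exact mul_mem (hS (mul_mem m1y mxy)) hs
    · have e : (1 - y)⁻¹ = x * (x - y) * (x * ((1 - y) * (x - y)))⁻¹ := by field_simp
      rw [e]; exact mul_mem (hS (mul_mem mx mxy)) hs
    · have e : (x - y)⁻¹ = x * (1 - y) * (x * ((1 - y) * (x - y)))⁻¹ := by field_simp
      rw [e]; exact mul_mem (hS (mul_mem mx m1y)) hs
  have q1 : ∀ S : Subalgebra k K, E ≤ S → ((g 1 : E) : K)⁻¹ ∈ S →
      y⁻¹ ∈ S ∧ (1 - x)⁻¹ ∈ S ∧ (x - y)⁻¹ ∈ S := by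
    intro S hS hs
    rw [e1] at hs
    refine ⟨?_, ?_, ?_⟩
    · have e : y⁻¹ = (1 - x) * (x - y) * (y * ((1 - x) * (x - y)))⁻¹ := by field_simp
      rw [e]; exact mul_mem (hS (mul_mem m1x mxy)) hs
    · have e : (1 - x)⁻¹ = y * (x - y) * (y * ((1 - x) * (x - y)))⁻¹ := by field_simp
      rw [e]; exact mul_mem (hS (mul_mem my mxy)) hs
    · have e : (x - y)⁻¹ = y * (1 - x) * (y * ((1 - x) * (x - y)))⁻¹ := by field_simp
      rw [e]; exact mul_mem (hS (mul_mem my m1x)) hs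
  have q2 : ∀ S : Subalgebra k K, E ≤ S → ((g 2 : E) : K)⁻¹ ∈ S → x⁻¹ ∈ S ∧ y⁻¹ ∈ S := by
    intro S hS hs
    rw [e2] at hs
    refine ⟨?_, ?_⟩
    · have e : x⁻¹ = y * (x * y)⁻¹ := by field_simp
      rw [e]; exact mul_mem (hS my) hs
    · have e : y⁻¹ = x * (x * y)⁻¹ := by field_simp
      rw [e]; exact mul_mem (hS mx) hs
  have q3 : ∀ S : Subalgebra k K, E ≤ S → ((g 3 : E) : K)⁻¹ ∈ S →
      (1 - x)⁻¹ ∈ S ∧ (1 - y)⁻¹ ∈ S ∧ (a * x ^ p - 1)⁻¹ ∈ S ∧ (a * y ^ p - 1)⁻¹ ∈ S := by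
    intro S hS hs
    rw [e3] at hs
    refine ⟨?_, ?_, ?_, ?_⟩
    · have e : (1 - x)⁻¹ = (1 - y) * ((a * x ^ p - 1) * (a * y ^ p - 1)) *
          ((1 - x) * (1 - y) * ((a * x ^ p - 1) * (a * y ^ p - 1)))⁻¹ := by field_simp
      rw [e]; exact mul_mem (hS (mul_mem m1y (mul_mem max may))) hs
    · have e : (1 - y)⁻¹ = (1 - x) * ((a * x ^ p - 1) * (a * y ^ p - 1)) *
          ((1 - x) * (1 - y) * ((a * x ^ p - 1) * (a * y ^ p - 1)))⁻¹ := by field_simp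
      rw [e]; exact mul_mem (hS (mul_mem m1x (mul_mem max may))) hs
    · have e : (a * x ^ p - 1)⁻¹ = (1 - x) * (1 - y) * (a * y ^ p - 1) *
          ((1 - x) * (1 - y) * ((a * x ^ p - 1) * (a * y ^ p - 1)))⁻¹ := by field_simp
      rw [e]; exact mul_mem (hS (mul_mem (mul_mem m1x m1y) may)) hs
    · have e : (a * y ^ p - 1)⁻¹ = (1 - x) * (1 - y) * (a * x ^ p - 1) *
          ((1 - x) * (1 - y) * ((a * x ^ p - 1) * (a * y ^ p - 1)))⁻¹ := by field_simp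
      rw [e]; exact mul_mem (hS (mul_mem (mul_mem m1x m1y) max)) hs
  -- the rings of the charts
  have N1 : ∀ S : Subalgebra k K, E ≤ S → ((g 0 : E) : K)⁻¹ ∈ S → (1 - x)⁻¹ ∈ S →
      NI k a x⁻¹ y⁻¹ ≤ S := by
    intro S hS hs hs'
    obtain ⟨s1, s2, s3⟩ := q0 S hS hs
    refine N17_NI ?_ ?_ ?_ (hS mi) ?_
    · exact sub_mem s1 (one_mem S)
    · rw [div_eq_mul_inv, evi]
      exact mul_mem (hS (sub_mem ma (one_mem E))) (mul_mem (hS mx) hs')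
    · rw [ewi]; exact mul_mem (hS my) s2
    · rw [e5]; exact mul_mem (mul_mem (hS mx) (hS m1y)) s3
  have N2 : ∀ S : Subalgebra k K, E ≤ S → ((g 1 : E) : K)⁻¹ ∈ S → (1 - y)⁻¹ ∈ S →
      NI k a y⁻¹ x⁻¹ ≤ S := by
    intro S hS hs hs'
    obtain ⟨s1, s2, s3⟩ := q1 S hS hs
    refine N17_NI ?_ ?_ ?_ (hS mi) ?_
    · exact sub_mem s1 (one_mem S)
    · rw [div_eq_mul_inv, ewi]
      exact mul_mem (hS (sub_mem ma (one_mem E))) (mul_mem (hS my) hs')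
    · rw [evi]; exact mul_mem (hS mx) s2
    · rw [e5']; exact neg_mem (mul_mem (mul_mem (hS my) (hS m1x)) s3)
  have NM : ∀ S : Subalgebra k K, E ≤ S → ((g 3 : E) : K)⁻¹ ∈ S → MM k p a x⁻¹ y⁻¹ ≤ S := by
    intro S hS hs
    obtain ⟨s1, s2, s3, s4⟩ := q3 S hS hs
    refine N17_MM (hS ma) (hS mi) ?_ ?_ ?_ ?_
    · rw [evi]; exact mul_mem (hS mx) s1
    · rw [ewi]; exact mul_mem (hS my) s2
    · rw [exM]; exact mul_mem (hS (pow_mem m1x p)) s3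
    · rw [eyM]; exact mul_mem (hS (pow_mem m1y p)) s4
  have euT : aeval ![a, x⁻¹, y⁻¹] (uT k) = a * x⁻¹ * y⁻¹ := by
    unfold uT
    rw [map_mul, map_mul, N17_X0, N17_X1, N17_X2]
  have P01 : G1 - G2 ∈ E ⊔ Algebra.adjoin k {((g 0 : E) : K)⁻¹, ((g 1 : E) : K)⁻¹} := by
    refine sup_le (N1 _ (hle 0 1) (hgi 0 1) ?_) (N2 _ (hle 0 1) (hgj 0 1) ?_) h12
    · exact (q1 _ (hle 0 1) (hgj 0 1)).2.1
    · exact (q0 _ (hle 0 1) (hgi 0 1)).2.1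
  have P02 : G1 - GT ∈ E ⊔ Algebra.adjoin k {((g 0 : E) : K)⁻¹, ((g 2 : E) : K)⁻¹} := by
    rw [← neg_sub]
    refine neg_mem ?_
    obtain ⟨s1, s2, s3⟩ := q0 _ (hle 0 2) (hgi 0 2)
    obtain ⟨t1, t2⟩ := q2 _ (hle 0 2) (hgj 0 2)
    refine N17_Fr (hle 0 2 ma) t1 t2 ?_ h1
    have e : aeval ![a, x⁻¹, y⁻¹] (uT k * (pD k * pE k)) =
        a * x⁻¹ * y⁻¹ * ((y⁻¹ - 1) * (x⁻¹ - y⁻¹)) := by
      rw [map_mul, euT, map_mul]
      simp [pD, pE]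
    rw [e, mul_inv, mul_inv, mul_inv, mul_inv, inv_inv, inv_inv, ewi, evwi]
    exact mul_mem (mul_mem (mul_mem (hle 0 2 mi) (hle 0 2 mx)) (hle 0 2 my))
      (mul_mem (mul_mem (hle 0 2 my) s2)
        (neg_mem (mul_mem (mul_mem (hle 0 2 mx) (hle 0 2 my)) s3)))
  have P12 : G2 - GT ∈ E ⊔ Algebra.adjoin k {((g 1 : E) : K)⁻¹, ((g 2 : E) : K)⁻¹} := by
    rw [← neg_sub]
    refine neg_mem ?_
    obtain ⟨s1, s2, s3⟩ := q1 _ (hle 1 2) (hgi 1 2)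
    obtain ⟨t1, t2⟩ := q2 _ (hle 1 2) (hgj 1 2)
    refine N17_Fr (hle 1 2 ma) t1 t2 ?_ h2
    have e : aeval ![a, x⁻¹, y⁻¹] (uT k * (pB k * pE k)) =
        a * x⁻¹ * y⁻¹ * ((x⁻¹ - 1) * (x⁻¹ - y⁻¹)) := by
      rw [map_mul, euT, map_mul]
      simp [pB, pE]
    rw [e, mul_inv, mul_inv, mul_inv, mul_inv, inv_inv, inv_inv, evi, evwi]
    exact mul_mem (mul_mem (mul_mem (hle 1 2 mi) (hle 1 2 mx)) (hle 1 2 my))
      (mul_mem (mul_mem (hle 1 2 mx) s2)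
        (neg_mem (mul_mem (mul_mem (hle 1 2 mx) (hle 1 2 my)) s3)))
  have P23 : GT - GM ∈ E ⊔ Algebra.adjoin k {((g 2 : E) : K)⁻¹, ((g 3 : E) : K)⁻¹} := by
    obtain ⟨t1, t2⟩ := q2 _ (hle 2 3) (hgi 2 3)
    obtain ⟨s1, s2, s3, s4⟩ := q3 _ (hle 2 3) (hgj 2 3)
    refine N17_Fr (hle 2 3 ma) t1 t2 ?_ hM
    have e : aeval ![a, x⁻¹, y⁻¹] (uT k * mden k p 0) =
        a * x⁻¹ * y⁻¹ * ((x⁻¹ - 1) * (y⁻¹ - 1) * ((a - x⁻¹ ^ p) * (a - y⁻¹ ^ p))) := by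
      rw [map_mul, euT]
      simp [mden, pB, pD]
    rw [e, mul_inv, mul_inv, mul_inv, mul_inv, mul_inv, mul_inv, inv_inv, inv_inv, evi, ewi,
      eavi, eawi]
    exact mul_mem (mul_mem (mul_mem (hle 2 3 mi) (hle 2 3 mx)) (hle 2 3 my))
      (mul_mem (mul_mem (mul_mem (hle 2 3 mx) s1) (mul_mem (hle 2 3 my) s2))
        (mul_mem (mul_mem (hle 2 3 (pow_mem mx p)) s3) (mul_mem (hle 2 3 (pow_mem my p)) s4)))
  have P03 : G1 - GM ∈ E ⊔ Algebra.adjoin k {((g 0 : E) : K)⁻¹, ((g 3 : E) : K)⁻¹} := by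
    refine sup_le (N1 _ (hle 0 3) (hgi 0 3) ?_) (NM _ (hle 0 3) (hgj 0 3)) h1M
    exact (q3 _ (hle 0 3) (hgj 0 3)).1
  have P13 : G2 - GM ∈ E ⊔ Algebra.adjoin k {((g 1 : E) : K)⁻¹, ((g 3 : E) : K)⁻¹} := by
    refine sup_le (N2 _ (hle 1 3) (hgi 1 3) ?_) (NM _ (hle 1 3) (hgj 1 3)) h2M
    exact (q3 _ (hle 1 3) (hgj 1 3)).2.1
  have hsym : ∀ (i j : Fin 4) (x y : K),
      x - y ∈ E ⊔ Algebra.adjoin k {((g i : E) : K)⁻¹, ((g j : E) : K)⁻¹} →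
      y - x ∈ E ⊔ Algebra.adjoin k {((g j : E) : K)⁻¹, ((g i : E) : K)⁻¹} := by
    intro i j x y hx
    rw [Set.pair_comm, ← neg_sub]
    exact neg_mem hx
  have hself : ∀ (i : Fin 4) (x : K),
      x - x ∈ E ⊔ Algebra.adjoin k {((g i : E) : K)⁻¹, ((g i : E) : K)⁻¹} := by
    intro i x
    rw [sub_self]
    exact zero_mem _
  have hG : ∀ i j : Fin 4, (![G1, G2, GT, GM] : Fin 4 → K) i - (![G1, G2, GT, GM] : Fin 4 → K) j ∈
      E ⊔ Algebra.adjoin k {((g i : E) : K)⁻¹, ((g j : E) : K)⁻¹} := by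
    intro i j
    fin_cases i <;> fin_cases j
    · exact hself 0 G1
    · exact P01
    · exact P02
    · exact P03
    · exact hsym 0 1 _ _ P01
    · exact hself 1 G2
    · exact P12
    · exact P13
    · exact hsym 0 2 _ _ P02
    · exact hsym 1 2 _ _ P12
    · exact hself 2 GT
    · exact P23
    · exact hsym 0 3 _ _ P03
    · exact hsym 1 3 _ _ P13
    · exact hsym 2 3 _ _ P23
    · exact hself 3 GM
  obtain ⟨Gs, hGs⟩ := cech E g hg0 hspan ![G1, G2, GT, GM] hG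
  have hc0 : Gs - G1 ∈ E ⊔ Algebra.adjoin k {((g 0 : E) : K)⁻¹} := hGs 0
  have hc1 : Gs - G2 ∈ E ⊔ Algebra.adjoin k {((g 1 : E) : K)⁻¹} := hGs 1
  have hc2 : Gs - GT ∈ E ⊔ Algebra.adjoin k {((g 2 : E) : K)⁻¹} := hGs 2
  refine ⟨Gs, ?_, ?_, ?_⟩
  · have m : ∀ t ∈ ({a, a⁻¹, x⁻¹, (x⁻¹)⁻¹, y⁻¹, (y⁻¹)⁻¹} : Set K), t ∈ K3 k a x⁻¹ y⁻¹ :=
      fun t ht => Algebra.subset_adjoin ht
    have mx' : x ∈ K3 k a x⁻¹ y⁻¹ := by
      have := m (x⁻¹)⁻¹ (by simp)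
      rwa [inv_inv] at this
    have my' : y ∈ K3 k a x⁻¹ y⁻¹ := by
      have := m (y⁻¹)⁻¹ (by simp)
      rwa [inv_inv] at this
    refine sup_le (N17_Fr (m _ (by simp)) mx' my' ?_) ?_ hc2
    · rw [N17_X0]; exact m _ (by simp)
    · refine Algebra.adjoin_le ?_
      intro r hr
      rw [Set.mem_singleton_iff] at hr
      rw [hr, e2, mul_inv]
      exact mul_mem (m _ (by simp)) (m _ (by simp))
  · set S := Fr (k := k) a x⁻¹ y (X 0 * X 1 * ((1 - X 2) * (1 - X 1 * X 2))) with hS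
    have ta : a ∈ S := N1_x_mem _ _ _ _
    have tv : x⁻¹ ∈ S := N1_y_mem _ _ _ _
    have ty : y ∈ S := N1_z_mem _ _ _ _
    have tu : (a * x⁻¹ * ((1 - y) * (1 - x⁻¹ * y)))⁻¹ ∈ S := by
      have := N1_u_mem (k := k) a x⁻¹ y (X 0 * X 1 * ((1 - X 2) * (1 - X 1 * X 2)))
      rw [map_mul, map_mul, map_mul, map_sub, map_sub, map_mul, map_one, N17_X0, N17_X1,
        N17_X2] at this
      exact this
    have f1 : 1 - x⁻¹ * y = (x - y) * x⁻¹ := by field_simp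
    have f2 : (a * x⁻¹ * ((1 - y) * (1 - x⁻¹ * y)))⁻¹ =
        a⁻¹ * x ^ 2 * ((1 - y)⁻¹ * (x - y)⁻¹) := by
      rw [f1]
      field_simp
    have tai : a⁻¹ ∈ S := by
      have e : a⁻¹ = x⁻¹ * ((1 - y) * (1 - x⁻¹ * y)) * (a * x⁻¹ * ((1 - y) * (1 - x⁻¹ * y)))⁻¹ := by
        rw [f2, f1]
        field_simp
      rw [e]
      exact mul_mem (mul_mem tv (mul_mem (sub_mem (one_mem S) ty)
        (sub_mem (one_mem S) (mul_mem tv ty)))) tu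
    have tx : x ∈ S := by
      have e : x = a * ((1 - y) * (1 - x⁻¹ * y)) * (a * x⁻¹ * ((1 - y) * (1 - x⁻¹ * y)))⁻¹ := by
        rw [f2, f1]
        field_simp
      rw [e]
      exact mul_mem (mul_mem ta (mul_mem (sub_mem (one_mem S) ty)
        (sub_mem (one_mem S) (mul_mem tv ty)))) tu
    refine sup_le (N17_Fr ta tx ty ?_) ?_ hc0
    · rw [N17_X0]; exact tai
    · refine Algebra.adjoin_le ?_
      intro r hr
      rw [Set.mem_singleton_iff] at hr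
      rw [hr, e0]
      have e : (x * ((1 - y) * (x - y)))⁻¹ =
          a * x⁻¹ ^ 3 * (a * x⁻¹ * ((1 - y) * (1 - x⁻¹ * y)))⁻¹ := by
        rw [f2]
        field_simp
      rw [e]
      exact mul_mem (mul_mem ta (pow_mem tv 3)) tu
  · set S := Fr (k := k) a x y⁻¹ (X 0 * X 2 * ((1 - X 1) * (1 - X 1 * X 2))) with hS
    have ta : a ∈ S := N1_x_mem _ _ _ _
    have tx : x ∈ S := N1_y_mem _ _ _ _
    have tw : y⁻¹ ∈ S := N1_z_mem _ _ _ _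
    have tu : (a * y⁻¹ * ((1 - x) * (1 - x * y⁻¹)))⁻¹ ∈ S := by
      have := N1_u_mem (k := k) a x y⁻¹ (X 0 * X 2 * ((1 - X 1) * (1 - X 1 * X 2)))
      rw [map_mul, map_mul, map_mul, map_sub, map_sub, map_mul, map_one, N17_X0, N17_X1,
        N17_X2] at this
      exact this
    have f1 : 1 - x * y⁻¹ = -((x - y) * y⁻¹) := by
      field_simp
      ring
    have f2 : (a * y⁻¹ * ((1 - x) * (1 - x * y⁻¹)))⁻¹ =
        -(a⁻¹ * y ^ 2 * ((1 - x)⁻¹ * (x - y)⁻¹)) := by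
      rw [f1]
      field_simp
    have tai : a⁻¹ ∈ S := by
      have e : a⁻¹ = y⁻¹ * ((1 - x) * (1 - x * y⁻¹)) * (a * y⁻¹ * ((1 - x) * (1 - x * y⁻¹)))⁻¹ := by
        rw [f2, f1]
        field_simp
      rw [e]
      exact mul_mem (mul_mem tw (mul_mem (sub_mem (one_mem S) tx)
        (sub_mem (one_mem S) (mul_mem tx tw)))) tu
    have ty : y ∈ S := by
      have e : y = a * ((1 - x) * (1 - x * y⁻¹)) * (a * y⁻¹ * ((1 - x) * (1 - x * y⁻¹)))⁻¹ := by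
        rw [f2, f1]
        field_simp
      rw [e]
      exact mul_mem (mul_mem ta (mul_mem (sub_mem (one_mem S) tx)
        (sub_mem (one_mem S) (mul_mem tx tw)))) tu
    refine sup_le (N17_Fr ta tx ty ?_) ?_ hc1
    · rw [N17_X0]; exact tai
    · refine Algebra.adjoin_le ?_
      intro r hr
      rw [Set.mem_singleton_iff] at hr
      rw [hr, e1]
      have e : (y * ((1 - x) * (x - y)))⁻¹ =
          -(a * y⁻¹ ^ 3 * (a * y⁻¹ * ((1 - x) * (1 - x * y⁻¹)))⁻¹) := by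
        rw [f2]
        field_simp
      rw [e]
      exact neg_mem (mul_mem (mul_mem ta (pow_mem tw 3)) tu)

/-- `cech` on `E = k[a^±, v⁻¹, w⁻¹]` with (`x = v⁻¹`, `y = w⁻¹`) the four elements
`g₁ = x (1-y)(x-y)`, `g₂ = y (1-x)(x-y)`, `g₃ = x y`, `g₄ = (1-x)(1-y)(a x^p-1)(a y^p-1)`.  They
generate the unit ideal: in a maximal ideal containing them `x ≡ 0` or `y ≡ 0`; if `x ≡ 0` then
`g₂ ≡ -y^2`, so `y ≡ 0` and `g₄ ≡ 1`. -/
theorem toric_mm (p : ℕ) (hp : 2 ≤ p) {a v w : K} (h : AlgebraicIndependent k ![a, v, w])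
    {GT G1 G2 GM : K}
    (h1 : GT - G1 ∈ Fr (k := k) a v w (uT k * (pD k * pE k)))
    (h2 : GT - G2 ∈ Fr (k := k) a v w (uT k * (pB k * pE k)))
    (hM : GT - GM ∈ Fr (k := k) a v w (uT k * mden k p 0))
    (h12 : G1 - G2 ∈ NI k a v w ⊔ NI k a w v)
    (h1M : G1 - GM ∈ NI k a v w ⊔ MM k p a v w)
    (h2M : G2 - GM ∈ NI k a w v ⊔ MM k p a v w) :
    ∃ Gs, Gs - GT ∈ K3 k a v w ∧
      Gs - G1 ∈ Fr (k := k) a v w⁻¹ (X 0 * X 1 * ((1 - X 2) * (1 - X 1 * X 2))) ∧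
      Gs - G2 ∈ Fr (k := k) a v⁻¹ w (X 0 * X 2 * ((1 - X 1) * (1 - X 1 * X 2))) := by
  obtain ⟨x, rfl⟩ : ∃ x, v = x⁻¹ := ⟨v⁻¹, (inv_inv v).symm⟩
  obtain ⟨y, rfl⟩ : ∃ y, w = y⁻¹ := ⟨w⁻¹, (inv_inv w).symm⟩
  rw [inv_inv, inv_inv]
  exact N17_main p hp h h1 h2 hM h12 h1M h2M

end H1F
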