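import Pool.Agent.Lib.H1F.N.N0

/-!
# H1F, chunk N6

Splitting of Laurent polynomials and intersections of `E[t]` and `E[1/t]`.
-/

open MvPolynomial

namespace H1F

variable {k K : Type*} [Field k] [Field K] [Algebra k K]

/-- elements of `E[t]` are values of polynomials -/
theorem N6_poly (E : Subalgebra k K) (t : K) {x : K} (hx : x ∈ E ⊔ Algebra.adjoin k {t}) :
    ∃ P : Polynomial E, Polynomial.aeval t P = x := by
  have h1 : E ⊔ Algebra.adjoin k {t} ≤
      ((Polynomial.aeval t : Polynomial E →ₐ[E] K).restrictScalars k).range := by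
    refine sup_le ?_ ?_
    · intro y hy
      exact ⟨Polynomial.C ⟨y, hy⟩, by
        show Polynomial.aeval t (Polynomial.C (⟨y, hy⟩ : E)) = y
        rw [Polynomial.aeval_C]
        rfl⟩
    · rw [Algebra.adjoin_le_iff]
      intro s hs
      rw [Set.mem_singleton_iff] at hs
      exact ⟨Polynomial.X, by
        show Polynomial.aeval t (Polynomial.X : Polynomial E) = s
        rw [Polynomial.aeval_X, hs]⟩
  obtain ⟨P, hP⟩ := h1 hx
  exact ⟨P, hP⟩

theorem N6_mem (E : Subalgebra k K) (t : K) (P : Polynomial E) :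
    Polynomial.aeval t P ∈ E ⊔ Algebra.adjoin k {t} := by
  rw [Polynomial.aeval_eq_sum_range]
  refine sum_mem fun i _ => ?_
  rw [Algebra.smul_def]
  refine mul_mem (Algebra.mem_sup_left (P.coeff i).2) (Algebra.mem_sup_right (pow_mem ?_ i))
  exact Algebra.subset_adjoin (Set.mem_singleton _)

theorem N6_step (E : Subalgebra k K) (t : K) {x : K} (hx : x ∈ E ⊔ Algebra.adjoin k {t}) :
    ∃ c ∈ E, ∃ y ∈ E ⊔ Algebra.adjoin k {t}, x = c + t * y := by
  obtain ⟨P, rfl⟩ := N6_poly E t hx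
  refine ⟨(P.coeff 0 : K), (P.coeff 0).2, Polynomial.aeval t P.divX, N6_mem E t _, ?_⟩
  conv_lhs => rw [← Polynomial.divX_mul_X_add P]
  rw [map_add, map_mul, Polynomial.aeval_X, Polynomial.aeval_C, add_comm, mul_comm]
  rfl

/-- the elements which are multiplied into `E` by a power of `u` -/
def N6_loc (E : Subalgebra k K) {u : K} (hu : u ∈ E) : Subalgebra k K where
  carrier := {x | ∃ N : ℕ, u ^ N * x ∈ E}
  mul_mem' := by
    rintro x y ⟨N, hN⟩ ⟨M, hM⟩
    refine ⟨N + M, ?_⟩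
    have h : u ^ (N + M) * (x * y) = (u ^ N * x) * (u ^ M * y) := by ring
    rw [h]
    exact mul_mem hN hM
  add_mem' := by
    rintro x y ⟨N, hN⟩ ⟨M, hM⟩
    refine ⟨N + M, ?_⟩
    have h : u ^ (N + M) * (x + y) = u ^ M * (u ^ N * x) + u ^ N * (u ^ M * y) := by ring
    rw [h]
    exact add_mem (mul_mem (pow_mem hu M) hN) (mul_mem (pow_mem hu N) hM)
  algebraMap_mem' := fun r => ⟨0, by
    rw [pow_zero, one_mul]
    exact E.algebraMap_mem r⟩

theorem N6_ind (E : Subalgebra k K) {t : K} (ht : t ≠ 0) (N : ℕ) :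
    ∀ r : K, t ^ N * r ∈ E ⊔ Algebra.adjoin k {t} →
      ∃ a ∈ E ⊔ Algebra.adjoin k {t}, ∃ b ∈ E ⊔ Algebra.adjoin k {t⁻¹}, r = a + b := by
  induction N with
  | zero =>
    intro r hr
    rw [pow_zero, one_mul] at hr
    exact ⟨r, hr, 0, zero_mem _, by rw [add_zero]⟩
  | succ N ih =>
    intro r hr
    obtain ⟨c, hc, y, hy, hcy⟩ := N6_step E t hr
    have h1 : t ^ N * (r - c * (t⁻¹) ^ (N + 1)) = y := by
      apply mul_left_cancel₀ ht
      have h2 : t ^ (N + 1) * (t⁻¹) ^ (N + 1) = 1 := by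
        rw [← mul_pow, mul_inv_cancel₀ ht, one_pow]
      linear_combination hcy - c * h2
    obtain ⟨a, ha, b, hb, hab⟩ := ih (r - c * (t⁻¹) ^ (N + 1)) (by rw [h1]; exact hy)
    refine ⟨a, ha, b + c * (t⁻¹) ^ (N + 1), ?_, by linear_combination hab⟩
    refine add_mem hb (mul_mem (Algebra.mem_sup_left hc) (Algebra.mem_sup_right (pow_mem ?_ _)))
    exact Algebra.subset_adjoin (Set.mem_singleton _)

/-- Every element of `E[t, 1/t]` is a sum of elements of `E[t]` and of `E[1/t]`. -/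
theorem split (E : Subalgebra k K) {t : K} (ht : t ≠ 0) {r : K}
    (hr : r ∈ E ⊔ Algebra.adjoin k {t, t⁻¹}) :
    ∃ a ∈ E ⊔ Algebra.adjoin k {t}, ∃ b ∈ E ⊔ Algebra.adjoin k {t⁻¹}, r = a + b := by
  have htm : t ∈ E ⊔ Algebra.adjoin k {t} :=
    Algebra.mem_sup_right (Algebra.subset_adjoin (Set.mem_singleton _))
  have h1 : E ⊔ Algebra.adjoin k {t, t⁻¹} ≤ N6_loc (E ⊔ Algebra.adjoin k {t}) htm := by
    refine sup_le ?_ ?_
    · intro y hy
      exact ⟨0, by rw [pow_zero, one_mul]; exact Algebra.mem_sup_left hy⟩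
    · rw [Algebra.adjoin_le_iff]
      intro s hs
      rw [Set.mem_insert_iff, Set.mem_singleton_iff] at hs
      rcases hs with rfl | rfl
      · exact ⟨0, by rw [pow_zero, one_mul]; exact htm⟩
      · exact ⟨1, by rw [pow_one, mul_inv_cancel₀ ht]; exact one_mem _⟩
  obtain ⟨N, hN⟩ := h1 hr
  exact N6_ind E ht N r hN

/-- If `t` is transcendental over `E` then `E[t] ∩ E[1/t] = E`. -/
theorem int_zz (E : Subalgebra k K) {t : K} (ht : Transcendental E t) {r : K}
    (h1 : r ∈ E ⊔ Algebra.adjoin k {t}) (h2 : r ∈ E ⊔ Algebra.adjoin k {t⁻¹}) : r ∈ E := by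
  have ht0 : t ≠ 0 := by
    rintro rfl
    exact ht isAlgebraic_zero
  rw [transcendental_iff_injective] at ht
  obtain ⟨P, hP⟩ := N6_poly E t h1
  obtain ⟨Q, hQ⟩ := N6_poly E t⁻¹ h2
  let _ : Invertible (t⁻¹) := ⟨t, mul_inv_cancel₀ ht0, inv_mul_cancel₀ ht0⟩
  have h3 := Polynomial.eval₂_reverse_mul_pow (algebraMap E K) (t⁻¹) Q
  have h4 : (⅟(t⁻¹) : K) = t := rfl
  rw [h4] at h3
  have h5 : Polynomial.aeval t (P * Polynomial.X ^ Q.natDegree) = Polynomial.aeval t Q.reverse := by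
    have h6 : Polynomial.aeval t Q.reverse * (t⁻¹) ^ Q.natDegree = r := by
      rw [← hQ]
      exact h3
    rw [map_mul, map_pow, Polynomial.aeval_X, hP, ← h6, mul_assoc, ← mul_pow,
      inv_mul_cancel₀ ht0, one_pow, mul_one]
  have h6 := ht h5
  by_cases hP0 : P = 0
  · rw [← hP, hP0, map_zero]
    exact zero_mem _
  · have h7 := Polynomial.natDegree_mul_X_pow Q.natDegree hP0
    rw [h6] at h7
    have h8 := Q.reverse_natDegree_le
    have h9 : P.natDegree = 0 := by omega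
    rw [Polynomial.eq_C_of_natDegree_eq_zero h9, Polynomial.aeval_C] at hP
    rw [← hP]
    exact (P.coeff 0).2

end H1F
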