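import Pool.Agent.Lib.H1F.N.N8
import Pool.Agent.Lib.H1F.N.N6
import Pool.Agent.Lib.H1F.N.N4
import Pool.Agent.Lib.H1F.N.N3
import Pool.Agent.Lib.H1F.N.N2

/-!
# H1F, chunk N18

Step (d): gluing the four toric charts (`P¹ × P¹`).
-/

open MvPolynomial

namespace H1F

variable {k K : Type*} [Field k] [Field K] [Algebra k K]

/-- inverting one entry preserves algebraic independence -/
theorem N18_inv {x : Fin 3 → K} (h : AlgebraicIndependent k x) (i : Fin 3) :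
    AlgebraicIndependent k (Function.update x i (x i)⁻¹) := by
  rw [AlgebraicIndependent.iff_transcendental_adjoin_image i] at h ⊢
  obtain ⟨h1, h2⟩ := h
  have e1 : (fun j : {j // j ≠ i} => Function.update x i (x i)⁻¹ j) =
      fun j : {j // j ≠ i} => x j := by
    funext j
    exact Function.update_of_ne j.2 _ _
  have e2 : Function.update x i (x i)⁻¹ '' {i}ᶜ = x '' {i}ᶜ :=
    Set.image_congr fun j hj => Function.update_of_ne hj _ _
  rw [e1, e2, Function.update_self]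
  exact ⟨h1, fun h3 => h2 (IsAlgebraic.inv_iff.mp h3)⟩

theorem N18_inv1 {a v w : K} (h : AlgebraicIndependent k ![a, v, w]) :
    AlgebraicIndependent k ![a, v⁻¹, w] := by
  have h1 := N18_inv h 1
  have e : Function.update ![a, v, w] 1 ((![a, v, w] : Fin 3 → K) 1)⁻¹ = ![a, v⁻¹, w] := by
    funext i
    fin_cases i <;> rfl
  rwa [e] at h1

theorem N18_inv2 {a v w : K} (h : AlgebraicIndependent k ![a, v, w]) :
    AlgebraicIndependent k ![a, v, w⁻¹] := by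
  have h1 := N18_inv h 2
  have e : Function.update ![a, v, w] 2 ((![a, v, w] : Fin 3 → K) 2)⁻¹ = ![a, v, w⁻¹] := by
    funext i
    fin_cases i <;> rfl
  rwa [e] at h1

theorem N18_le {x y z : K} {U : MvPolynomial (Fin 3) k} {S : Subalgebra k K} (hx : x ∈ S)
    (hy : y ∈ S) (hz : z ∈ S) (hU : (aeval ![x, y, z] U)⁻¹ ∈ S) : Fr x y z U ≤ S := by
  refine Algebra.adjoin_le ?_
  rintro r (rfl | rfl | rfl | rfl)
  · exact hx
  · exact hy
  · exact hz
  · exact hU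

theorem N18_e0 (x y z : K) : aeval ![x, y, z] (X 0 : MvPolynomial (Fin 3) k) = x := by simp

theorem N18_e1 (x y z : K) : aeval ![x, y, z] (X 1 : MvPolynomial (Fin 3) k) = y := by simp

theorem N18_e2 (x y z : K) : aeval ![x, y, z] (X 2 : MvPolynomial (Fin 3) k) = z := by simp

/-- `X i` does not divide a polynomial which does not vanish for `X i = 0` -/
theorem N18_ndvd (i : Fin 3) (x : Fin 3 → k) (hx : x i = 0) (P : MvPolynomial (Fin 3) k)
    (hP : aeval x P ≠ 0) : ¬ (X i : MvPolynomial (Fin 3) k) ∣ P :=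
  not_dvd_of_eval x (by rw [aeval_X, hx]) hP

open scoped IntermediateField.algebraAdjoinAdjoin in
theorem N18_trans {a v w : K} (h : AlgebraicIndependent k ![a, v, w]) :
    Transcendental (K2 k a w) v := by
  have h1 := ((AlgebraicIndependent.iff_transcendental_adjoin_image 1).mp h).2
  set S : Set K := (![a, v, w] : Fin 3 → K) '' {1}ᶜ with hS
  have h1' : Transcendental (Algebra.adjoin k S) v := h1
  have h2 : Transcendental (IntermediateField.adjoin k S) v := fun h3 => h1'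
    ((IsFractionRing.isAlgebraic_iff (Algebra.adjoin k S) (IntermediateField.adjoin k S) K).mpr h3)
  have ha : a ∈ IntermediateField.adjoin k S :=
    IntermediateField.subset_adjoin k S ⟨0, by simp, rfl⟩
  have hw : w ∈ IntermediateField.adjoin k S :=
    IntermediateField.subset_adjoin k S ⟨2, by simp, rfl⟩
  have hle : K2 k a w ≤ (IntermediateField.adjoin k S).toSubalgebra := by
    refine Algebra.adjoin_le ?_
    rintro r (rfl | rfl | rfl | rfl)
    · exact ha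
    · exact (IntermediateField.adjoin k S).inv_mem ha
    · exact hw
    · exact (IntermediateField.adjoin k S).inv_mem hw
  exact Transcendental.of_tower_top_of_subalgebra_le hle h2

/-- `N (a; v, w)` is covered by two toric charts: with `s = (w-1)⁻¹` the first ring is `ON[1/s]`
and the second is `ON[1/(1+s)]` (`inf_of_comax`). -/
theorem ON_inf {a v w : K} (h : AlgebraicIndependent k ![a, v, w]) {r : K}
    (h1 : r ∈ Fr (k := k) a v w (X 0 * (pD k * pE k)))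
    (h2 : r ∈ Fr (k := k) a v w⁻¹ (X 0 * ((1 - X 2) * (1 - X 1 * X 2)))) : r ∈ ON k a v w := by
  obtain ⟨ha, hv, hw, -, -, hw1, hvw, -, -⟩ := ind_ne h
  have hw1' : w - 1 ≠ 0 := sub_ne_zero.mpr hw1
  have hwv' : w - v ≠ 0 := sub_ne_zero.mpr hvw.symm
  have hvw' : v - w ≠ 0 := sub_ne_zero.mpr hvw
  have m : ∀ t ∈ ({a, a⁻¹, v, (w - 1)⁻¹, (w - 1) / (w - v)} : Set K), t ∈ ON k a v w :=
    fun t ht => Algebra.subset_adjoin ht
  have ma : a ∈ ON k a v w := m _ (by simp)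
  have mai : a⁻¹ ∈ ON k a v w := m _ (by simp)
  have mv : v ∈ ON k a v w := m _ (by simp)
  have ms : (w - 1)⁻¹ ∈ ON k a v w := m _ (by simp)
  have mu : (w - 1) / (w - v) ∈ ON k a v w := m _ (by simp)
  have m1s : w / (w - 1) ∈ ON k a v w := by
    have e : w / (w - 1) = 1 + (w - 1)⁻¹ := by field_simp; ring
    rw [e]
    exact add_mem (one_mem _) ms
  let g : ON k a v w := ⟨(w - 1)⁻¹, ms⟩
  let g' : ON k a v w := ⟨w / (w - 1), m1s⟩
  have hg : g ≠ 0 := fun h0 => inv_ne_zero hw1' (congrArg Subtype.val h0)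
  have hg' : g' ≠ 0 := fun h0 => div_ne_zero hw hw1' (congrArg Subtype.val h0)
  refine inf_of_comax (ON k a v w) g g' hg hg' ?_ ?_ ?_
  · rw [Ideal.eq_top_iff_one, Ideal.mem_span_pair]
    refine ⟨-1, 1, Subtype.ext ?_⟩
    change (-1 : K) * (w - 1)⁻¹ + 1 * (w / (w - 1)) = 1
    field_simp
    ring
  · have hle : ON k a v w ≤ ON k a v w ⊔ Algebra.adjoin k {((g : K))⁻¹} := le_sup_left
    refine N18_le (hle ma) (hle mv) ?_ ?_ h1
    · have e : w = ((g : K))⁻¹ + 1 := by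
        change w = ((w - 1)⁻¹)⁻¹ + 1
        rw [inv_inv, sub_add_cancel]
      have h3 : ((g : K))⁻¹ + 1 ∈ ON k a v w ⊔ Algebra.adjoin k {((g : K))⁻¹} :=
        add_mem (Algebra.mem_sup_right (Algebra.subset_adjoin (Set.mem_singleton _)))
          (one_mem _)
      rwa [← e] at h3
    · have e : (aeval ![a, v, w] (X 0 * (pD k * pE k)))⁻¹ =
          a⁻¹ * (w - 1)⁻¹ * (-((w - 1) / (w - v)) * (w - 1)⁻¹) := by
        simp only [pD, pE, map_mul, map_sub, map_one, N18_e0, N18_e1, N18_e2]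
        rw [← neg_sub w v]
        field_simp
      rw [e]
      exact hle (mul_mem (mul_mem mai ms) (mul_mem (neg_mem mu) ms))
  · have hle : ON k a v w ≤ ON k a v w ⊔ Algebra.adjoin k {((g' : K))⁻¹} := le_sup_left
    refine N18_le (hle ma) (hle mv) ?_ ?_ h2
    · have e : w⁻¹ = 1 - ((g' : K))⁻¹ := by
        change w⁻¹ = 1 - (w / (w - 1))⁻¹
        field_simp
        ring
      have h3 : 1 - ((g' : K))⁻¹ ∈ ON k a v w ⊔ Algebra.adjoin k {((g' : K))⁻¹} :=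
        sub_mem (one_mem _) (Algebra.mem_sup_right (Algebra.subset_adjoin (Set.mem_singleton _)))
      rwa [← e] at h3
    · have e : (aeval ![a, v, w⁻¹] (X 0 * ((1 - X 2) * (1 - X 1 * X 2)) :
          MvPolynomial (Fin 3) k))⁻¹ = a⁻¹ * (w / (w - 1)) * (w / (w - 1) * ((w - 1) / (w - v))) := by
        simp only [map_mul, map_sub, map_one, N18_e0, N18_e1, N18_e2]
        have h4 : 1 - w⁻¹ = (w - 1) / w := by field_simp
        have h5 : 1 - v * w⁻¹ = (w - v) / w := by field_simp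
        rw [h4, h5]
        field_simp
      rw [e]
      exact hle (mul_mem (mul_mem mai m1s) (mul_mem m1s mu))

/-- common part of `glue_p` and `glue_m` -/
theorem N18_glue {a v w : K} (h : AlgebraicIndependent k ![a, v, w]) {H : MvPolynomial (Fin 3) k}
    (hH : ¬ (X 2 : MvPolynomial (Fin 3) k) ∣ H) {GT G1 Gpp Gmp : K}
    (hpT : Gpp - GT ∈ K3 k a v w) (hmT : Gmp - GT ∈ K3 k a v w)
    (hp1 : Gpp - G1 ∈ Fr (k := k) a v w (X 0 * H))
    (hm1 : Gmp - G1 ∈ Fr (k := k) a v w (X 0 * X 1 * H)) :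
    ∃ Gp, Gp - Gpp ∈ Fr (k := k) a v w (X 0) ∧ Gp - Gmp ∈ Fr (k := k) a v⁻¹ w (X 0) := by
  obtain ⟨ha, hv, hw, -⟩ := ind_ne h
  have inj : Function.Injective (aeval ![a, v, w] : MvPolynomial (Fin 3) k →ₐ[k] K) := h
  have ne : ∀ {P : MvPolynomial (Fin 3) k}, P ≠ 0 → aeval ![a, v, w] P ≠ 0 := fun hP h =>
    hP (inj (by rw [h, map_zero]))
  have x0 : (X 0 : MvPolynomial (Fin 3) k) ≠ 0 := (prime_X 0).ne_zero
  have x1 : (X 1 : MvPolynomial (Fin 3) k) ≠ 0 := (prime_X 1).ne_zero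
  have hH0 : H ≠ 0 := by
    rintro rfl
    exact hH (dvd_zero _)
  have hD1 : Gpp - Gmp ∈ Fr (k := k) a v w (X 0 * X 1 * X 2) := by
    have h1 : Gpp - Gmp ∈ K3 k a v w := by
      have := sub_mem hpT hmT
      rwa [sub_sub_sub_cancel_right] at this
    have huT : aeval ![a, v, w] (uT k) ≠ 0 :=
      ne (mul_ne_zero (mul_ne_zero x0 x1) (prime_X 2).ne_zero)
    rw [K3_eq_Fr huT] at h1
    exact h1
  have hD2 : Gpp - Gmp ∈ Fr (k := k) a v w (X 0 * X 1 * H) := by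
    have h1 : Gpp - G1 ∈ Fr (k := k) a v w (X 0 * X 1 * H) :=
      Fr_mono ⟨X 1, by ring⟩ (ne (mul_ne_zero (mul_ne_zero x0 x1) hH0)) hp1
    have := sub_mem h1 hm1
    rwa [sub_sub_sub_cancel_right] at this
  have hD := Fr_inf h (mul_ne_zero x0 x1) (prime_X 2) hH hD1 hD2
  set E : Subalgebra k K := Algebra.adjoin k {a, a⁻¹, w} with hE
  have mE : ∀ t ∈ ({a, a⁻¹, w} : Set K), t ∈ E := fun t ht => Algebra.subset_adjoin ht
  have hle : Fr (k := k) a v w (X 0 * X 1) ≤ E ⊔ Algebra.adjoin k {v, v⁻¹} := by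
    refine N18_le (Algebra.mem_sup_left (mE _ (by simp)))
      (Algebra.mem_sup_right (Algebra.subset_adjoin (by simp)))
      (Algebra.mem_sup_left (mE _ (by simp))) ?_
    rw [map_mul, N18_e0, N18_e1, mul_inv]
    exact mul_mem (Algebra.mem_sup_left (mE _ (by simp)))
      (Algebra.mem_sup_right (Algebra.subset_adjoin (by simp)))
  obtain ⟨α, hα, β, hβ, hαβ⟩ := split E hv (hle hD)
  have hle1 : E ⊔ Algebra.adjoin k {v} ≤ Fr (k := k) a v w (X 0) := by
    refine sup_le (Algebra.adjoin_le ?_) (Algebra.adjoin_le ?_)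
    · rintro r (rfl | rfl | rfl)
      · exact N1_x_mem _ _ _ _
      · have := N1_u_mem (k := k) a v w (X 0)
        rwa [N18_e0] at this
      · exact N1_z_mem _ _ _ _
    · rintro r hr
      rw [Set.mem_singleton_iff] at hr
      rw [hr]
      exact N1_y_mem _ _ _ _
  have hle2 : E ⊔ Algebra.adjoin k {v⁻¹} ≤ Fr (k := k) a v⁻¹ w (X 0) := by
    refine sup_le (Algebra.adjoin_le ?_) (Algebra.adjoin_le ?_)
    · rintro r (rfl | rfl | rfl)
      · exact N1_x_mem _ _ _ _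
      · have := N1_u_mem (k := k) a v⁻¹ w (X 0)
        rwa [N18_e0] at this
      · exact N1_z_mem _ _ _ _
    · rintro r hr
      rw [Set.mem_singleton_iff] at hr
      rw [hr]
      exact N1_y_mem _ _ _ _
  refine ⟨Gpp - α, ?_, ?_⟩
  · have e : Gpp - α - Gpp = -α := by ring
    rw [e]
    exact neg_mem (hle1 hα)
  · have e : Gpp - α - Gmp = β := by linear_combination hαβ
    rw [e]
    exact hle2 hβ

/-- Gluing in the direction of `v`, for `w ∈ A¹`: `Gpp - Gmp` lies in `K3 = Fr (uT)` and in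
`Fr (X0 X1 (w-1)(v-w))`, hence in `Fr (X0 X1) = k[a^±, v^±, w]` (prime `X 2`); then `split`. -/
theorem glue_p {a v w : K} (h : AlgebraicIndependent k ![a, v, w]) {GT G1 Gpp Gmp : K}
    (hpT : Gpp - GT ∈ K3 k a v w) (hmT : Gmp - GT ∈ K3 k a v w)
    (hp1 : Gpp - G1 ∈ Fr (k := k) a v w (X 0 * (pD k * pE k)))
    (hm1 : Gmp - G1 ∈ Fr (k := k) a v w (X 0 * X 1 * (pD k * pE k))) :
    ∃ Gp, Gp - Gpp ∈ Fr (k := k) a v w (X 0) ∧ Gp - Gmp ∈ Fr (k := k) a v⁻¹ w (X 0) := by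
  refine N18_glue h ?_ hpT hmT hp1 hm1
  refine N18_ndvd 2 ![0, 1, 0] rfl _ ?_
  simp [pD, pE]

theorem N18_K3 (a v w : K) : K3 k a v w⁻¹ = K3 k a v w := by
  unfold K3
  rw [inv_inv]
  congr 1
  ext t
  simp only [Set.mem_insert_iff, Set.mem_singleton_iff]
  tauto

theorem N18_K3' (a v w : K) : K3 k a v⁻¹ w = K3 k a v w := by
  unfold K3
  rw [inv_inv]
  congr 1
  ext t
  simp only [Set.mem_insert_iff, Set.mem_singleton_iff]
  tauto

/-- Gluing in the direction of `v`, for `1/w ∈ A¹`. -/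
theorem glue_m {a v w : K} (h : AlgebraicIndependent k ![a, v, w]) {GT G1 Gpm Gmm : K}
    (hpT : Gpm - GT ∈ K3 k a v w) (hmT : Gmm - GT ∈ K3 k a v w)
    (hp1 : Gpm - G1 ∈ Fr (k := k) a v w⁻¹ (X 0 * ((1 - X 2) * (1 - X 1 * X 2))))
    (hm1 : Gmm - G1 ∈ Fr (k := k) a v w⁻¹ (X 0 * X 1 * ((1 - X 2) * (1 - X 1 * X 2)))) :
    ∃ Gm, Gm - Gpm ∈ Fr (k := k) a v w⁻¹ (X 0) ∧ Gm - Gmm ∈ Fr (k := k) a v⁻¹ w⁻¹ (X 0) := by
  rw [← N18_K3] at hpT hmT
  refine N18_glue (N18_inv2 h) ?_ hpT hmT hp1 hm1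
  refine N18_ndvd 2 ![0, 1, 0] rfl _ ?_
  simp

/-- The difference of the two results lies in `k[a^±, w^±]`: it lies in `k[a^±, v, w^±]` (through
`Gpp - Gpm ∈ Fr (X0 X2)`, prime `X 1` against `(v-1)(v-w)`) and in `k[a^±, v⁻¹, w^±]` (through
`Gmp - Gmm`); `int_zz`. -/
theorem glue_pm {a v w : K} (h : AlgebraicIndependent k ![a, v, w])
    {GT G2 Gpp Gmp Gpm Gmm Gp Gm : K}
    (hppT : Gpp - GT ∈ K3 k a v w) (hmpT : Gmp - GT ∈ K3 k a v w)
    (hpmT : Gpm - GT ∈ K3 k a v w) (hmmT : Gmm - GT ∈ K3 k a v w)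
    (h1 : Gpp - G2 ∈ Fr (k := k) a v w (X 0 * (pB k * pE k)))
    (h2 : Gpm - G2 ∈ Fr (k := k) a v w (X 0 * X 2 * (pB k * pE k)))
    (h3 : Gmp - G2 ∈ Fr (k := k) a v⁻¹ w (X 0 * ((1 - X 1) * (1 - X 1 * X 2))))
    (h4 : Gmm - G2 ∈ Fr (k := k) a v⁻¹ w (X 0 * X 2 * ((1 - X 1) * (1 - X 1 * X 2))))
    (hp1 : Gp - Gpp ∈ Fr (k := k) a v w (X 0)) (hp2 : Gp - Gmp ∈ Fr (k := k) a v⁻¹ w (X 0))
    (hm1 : Gm - Gpm ∈ Fr (k := k) a v w⁻¹ (X 0)) (hm2 : Gm - Gmm ∈ Fr (k := k) a v⁻¹ w⁻¹ (X 0)) :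
    Gp - Gm ∈ K2 k a w := by
  have key : ∀ {v : K} (h : AlgebraicIndependent k ![a, v, w]) {H : MvPolynomial (Fin 3) k}
      (hH : ¬ (X 1 : MvPolynomial (Fin 3) k) ∣ H) {Gpp Gpm : K}
      (hpT : Gpp - GT ∈ K3 k a v w) (hmT : Gpm - GT ∈ K3 k a v w)
      (h1 : Gpp - G2 ∈ Fr (k := k) a v w (X 0 * H))
      (h2 : Gpm - G2 ∈ Fr (k := k) a v w (X 0 * X 2 * H))
      (hp : Gp - Gpp ∈ Fr (k := k) a v w (X 0)) (hm : Gm - Gpm ∈ Fr (k := k) a v w⁻¹ (X 0)),
      Gp - Gm ∈ K2 k a w ⊔ Algebra.adjoin k {v} := by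
    intro v h H hH Gpp Gpm hpT hmT h1 h2 hp hm
    have inj : Function.Injective (aeval ![a, v, w] : MvPolynomial (Fin 3) k →ₐ[k] K) := h
    have ne : ∀ {P : MvPolynomial (Fin 3) k}, P ≠ 0 → aeval ![a, v, w] P ≠ 0 := fun hP h =>
      hP (inj (by rw [h, map_zero]))
    have x0 : (X 0 : MvPolynomial (Fin 3) k) ≠ 0 := (prime_X 0).ne_zero
    have x2 : (X 2 : MvPolynomial (Fin 3) k) ≠ 0 := (prime_X 2).ne_zero
    have hH0 : H ≠ 0 := by
      rintro rfl
      exact hH (dvd_zero _)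
    have hD1 : Gpp - Gpm ∈ Fr (k := k) a v w (X 0 * X 2 * X 1) := by
      have h5 : Gpp - Gpm ∈ K3 k a v w := by
        have := sub_mem hpT hmT
        rwa [sub_sub_sub_cancel_right] at this
      have huT : aeval ![a, v, w] (uT k) ≠ 0 :=
        ne (mul_ne_zero (mul_ne_zero x0 (prime_X 1).ne_zero) x2)
      rw [K3_eq_Fr huT] at h5
      have e : (X 0 * X 2 * X 1 : MvPolynomial (Fin 3) k) = uT k := by
        unfold uT
        ring
      rwa [e]
    have hD2 : Gpp - Gpm ∈ Fr (k := k) a v w (X 0 * X 2 * H) := by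
      have h5 : Gpp - G2 ∈ Fr (k := k) a v w (X 0 * X 2 * H) :=
        Fr_mono ⟨X 2, by ring⟩ (ne (mul_ne_zero (mul_ne_zero x0 x2) hH0)) h1
      have := sub_mem h5 h2
      rwa [sub_sub_sub_cancel_right] at this
    have hD := Fr_inf h (mul_ne_zero x0 x2) (prime_X 1) hH hD1 hD2
    have mE : ∀ t ∈ ({a, a⁻¹, w, w⁻¹} : Set K), t ∈ K2 k a w := fun t ht =>
      Algebra.subset_adjoin ht
    have mv : v ∈ K2 k a w ⊔ Algebra.adjoin k {v} :=
      Algebra.mem_sup_right (Algebra.subset_adjoin (Set.mem_singleton _))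
    have ml : ∀ t ∈ ({a, a⁻¹, w, w⁻¹} : Set K), t ∈ K2 k a w ⊔ Algebra.adjoin k {v} := fun t ht =>
      Algebra.mem_sup_left (mE t ht)
    have l1 : Fr (k := k) a v w (X 0 * X 2) ≤ K2 k a w ⊔ Algebra.adjoin k {v} := by
      refine N18_le (ml _ (by simp)) mv (ml _ (by simp)) ?_
      rw [map_mul, N18_e0, N18_e2, mul_inv]
      exact mul_mem (ml _ (by simp)) (ml _ (by simp))
    have l2 : Fr (k := k) a v w (X 0) ≤ K2 k a w ⊔ Algebra.adjoin k {v} := by
      refine N18_le (ml _ (by simp)) mv (ml _ (by simp)) ?_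
      rw [N18_e0]
      exact ml _ (by simp)
    have l3 : Fr (k := k) a v w⁻¹ (X 0) ≤ K2 k a w ⊔ Algebra.adjoin k {v} := by
      refine N18_le (ml _ (by simp)) mv (ml _ (by simp)) ?_
      rw [N18_e0]
      exact ml _ (by simp)
    have e : Gp - Gm = (Gp - Gpp) + (Gpp - Gpm) - (Gm - Gpm) := by ring
    rw [e]
    exact sub_mem (add_mem (l2 hp) (l1 hD)) (l3 hm)
  refine int_zz (K2 k a w) (N18_trans h) ?_ ?_
  · refine key h ?_ hppT hpmT h1 h2 hp1 hm1
    refine N18_ndvd 1 ![0, 0, 1] rfl _ ?_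
    simp [pB, pE]
  · rw [← N18_K3'] at hmpT hmmT
    refine key (N18_inv1 h) ?_ hmpT hmmT h3 h4 hp2 hm2
    refine N18_ndvd 1 ![0, 0, 1] rfl _ ?_
    simp

end H1F
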