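import Pool.Agent.Lib.H1F.N.N15
import Pool.Agent.Lib.H1F.N.N16
import Pool.Agent.Lib.H1F.N.N17
import Pool.Agent.Lib.H1F.N.N18

/-!
# H1F, chunk N19

Steps (c), (d): the solution on the open set `W_a` (`a ≠ 0, ∞`).
-/

open MvPolynomial

namespace H1F

variable {k K : Type*} [Field k] [Field K] [Algebra k K]

theorem N19_sub_mem {S : Subalgebra k K} {x y z : K} (h1 : x - y ∈ S) (h2 : y - z ∈ S) :
    x - z ∈ S := by
  have h3 := add_mem h1 h2
  rwa [sub_add_sub_cancel] at h3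

/-- `Fr a x y (X 0)` is contained in every subalgebra containing `a, x, y, 1/a` -/
theorem N19_Fr_le {a x y : K} {S : Subalgebra k K} (ha : a ∈ S) (ha' : a⁻¹ ∈ S) (hx : x ∈ S)
    (hy : y ∈ S) : Fr (k := k) a x y (X 0) ≤ S := by
  refine Algebra.adjoin_le ?_
  rintro z (hz | hz | hz | hz)
  · rw [hz]; exact ha
  · rw [hz]; exact hx
  · rw [hz]; exact hy
  · have hz' : z = (aeval ![a, x, y] (X 0 : MvPolynomial (Fin 3) k))⁻¹ := hz
    rw [hz', aeval_X]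
    exact ha'

theorem N19_K1_le {a t : K} {S : Subalgebra k K} (ha : a ∈ S) (ha' : a⁻¹ ∈ S) (ht : t ∈ S) :
    K1 k a ⊔ Algebra.adjoin k {t} ≤ S := by
  refine sup_le (Algebra.adjoin_le ?_) (Algebra.adjoin_le ?_)
  · rintro z (hz | hz)
    · rw [hz]; exact ha
    · rw [hz]; exact ha'
  · rintro z hz
    rw [Set.mem_singleton_iff] at hz
    rw [hz]; exact ht

/-- the generators and `1/a` lie in `Fr a x y (X 0 * U)` -/
theorem N19_mem {a x y : K} (U : MvPolynomial (Fin 3) k)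
    (hU : aeval ![a, x, y] (X 0 * U) ≠ 0) :
    a ∈ Fr a x y (X 0 * U) ∧ a⁻¹ ∈ Fr a x y (X 0 * U) ∧ x ∈ Fr a x y (X 0 * U) ∧
      y ∈ Fr a x y (X 0 * U) := by
  refine ⟨Algebra.subset_adjoin (by simp), ?_, Algebra.subset_adjoin (by simp),
    Algebra.subset_adjoin (by simp)⟩
  have e := inv_mem_Fr (x := a) (y := x) (z := y) (U := X 0 * U) (G := X 0) (dvd_mul_right _ _) hU
  rwa [aeval_X] at e

/-- a ring `Fr` is contained in a subalgebra -/
theorem N19_Fr_le' {a x y : K} {U : MvPolynomial (Fin 3) k} {S : Subalgebra k K} (ha : a ∈ S)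
    (hx : x ∈ S) (hy : y ∈ S) (hU : (aeval ![a, x, y] U)⁻¹ ∈ S) : Fr a x y U ≤ S := by
  refine Algebra.adjoin_le ?_
  rintro z (hz | hz | hz | hz)
  · rw [hz]; exact ha
  · rw [hz]; exact hx
  · rw [hz]; exact hy
  · have hz' : z = (aeval ![a, x, y] U)⁻¹ := hz
    rw [hz']
    exact hU

/-- Assembly: the four toric solutions, `glue_p`, `glue_m`, `glue_pm`, then `split` for
`k[a^±, w^±]`; `Gx - G1 ∈ ON` by `ON_inf`, and `Gx - G2 ∈ ON` by `ON_inf` with `v ↔ w`. -/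
theorem xsys (p : ℕ) (hp : 2 ≤ p) {a v w : K} (h : AlgebraicIndependent k ![a, v, w])
    {GT G1 G2 GM : K}
    (h1 : GT - G1 ∈ Fr a v w (uT k * (pD k * pE k)))
    (h2 : GT - G2 ∈ Fr a v w (uT k * (pB k * pE k)))
    (hM : GT - GM ∈ Fr a v w (uT k * mden k p 0))
    (h12 : G1 - G2 ∈ NI k a v w ⊔ NI k a w v)
    (h1M : G1 - GM ∈ NI k a v w ⊔ MM k p a v w)
    (h2M : G2 - GM ∈ NI k a w v ⊔ MM k p a v w) :
    ∃ Gx, Gx - GT ∈ K3 k a v w ∧ Gx - G1 ∈ ON k a v w ∧ Gx - G2 ∈ ON k a w v := by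
  obtain ⟨ha0, hv0, hw0, ha1, hv1, hw1, hvw, -, -⟩ := ind_ne h
  obtain ⟨Gpp, pp0, pp1, pp2⟩ := toric_pp p hp h h1 h2 hM h12 h1M h2M
  obtain ⟨Gmp, mp0, mp1, mp2⟩ := toric_mp h h1 h2 h12
  obtain ⟨Gpm, pm0, pm2, pm1⟩ := toric_pm h h1 h2 h12
  obtain ⟨Gmm, mm0, mm1, mm2⟩ := toric_mm p hp h h1 h2 hM h12 h1M h2M
  obtain ⟨Gp, gp1, gp2⟩ := glue_p h pp0 mp0 pp1 mp1
  obtain ⟨Gm, gm1, gm2⟩ := glue_m h pm0 mm0 pm1 mm1
  have hpm := glue_pm h pp0 mp0 pm0 mm0 pp2 pm2 mp2 mm2 gp1 gp2 gm1 gm2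
  -- splitting
  have hK2 : K2 k a w ≤ K1 k a ⊔ Algebra.adjoin k {w, w⁻¹} := by
    refine Algebra.adjoin_le ?_
    rintro z (hz | hz | hz | hz)
    · rw [hz]; exact (le_sup_left : K1 k a ≤ _) (Algebra.subset_adjoin (by simp))
    · rw [hz]; exact (le_sup_left : K1 k a ≤ _) (Algebra.subset_adjoin (by simp))
    · rw [hz]
      exact (le_sup_right : Algebra.adjoin k {w, w⁻¹} ≤ _) (Algebra.subset_adjoin (by simp))
    · rw [hz]
      exact (le_sup_right : Algebra.adjoin k {w, w⁻¹} ≤ _) (Algebra.subset_adjoin (by simp))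
  obtain ⟨x, hx, y, hy, hxy⟩ := split (K1 k a) hw0 (hK2 hpm)
  have ex : ∀ z : K, Gp - x - z = (Gp - Gpp) - x + (Gpp - z) := fun z => by ring
  have ey : ∀ z : K, Gp - x - z = (Gm - Gpm) + y + (Gpm - z) := fun z => by
    linear_combination hxy
  have ez : ∀ z : K, Gp - x - z = (Gp - Gmp) - x + (Gmp - z) := fun z => by ring
  have hX0 : aeval ![a, v, w] (X 0 * (pD k * pE k)) = a * ((w - 1) * (v - w)) := by
    unfold pD pE
    rw [map_mul, map_mul, map_sub, map_sub, aeval_X, aeval_X, aeval_X, map_one]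
    rfl
  have hX1 : aeval ![a, v, w] (X 0 * (pB k * pE k)) = a * ((v - 1) * (v - w)) := by
    unfold pB pE
    rw [map_mul, map_mul, map_sub, map_sub, aeval_X, aeval_X, aeval_X, map_one]
    rfl
  have hX2 : aeval ![a, w, v] (X 0 * (pD k * pE k)) = a * ((v - 1) * (w - v)) := by
    unfold pD pE
    rw [map_mul, map_mul, map_sub, map_sub, aeval_X, aeval_X, aeval_X, map_one]
    rfl
  have hX3 : aeval ![a, v, w⁻¹] (X 0 * ((1 - X 2) * (1 - X 1 * X 2)) : MvPolynomial (Fin 3) k) =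
      a * ((1 - w⁻¹) * (1 - v * w⁻¹)) := by
    rw [map_mul, map_mul, map_sub, map_sub, map_mul, aeval_X, aeval_X, aeval_X, map_one]
    rfl
  have hX4 : aeval ![a, v⁻¹, w] (X 0 * ((1 - X 1) * (1 - X 1 * X 2)) : MvPolynomial (Fin 3) k) =
      a * ((1 - v⁻¹) * (1 - v⁻¹ * w)) := by
    rw [map_mul, map_mul, map_sub, map_sub, map_mul, aeval_X, aeval_X, aeval_X, map_one]
    rfl
  have hX5 : aeval ![a, w, v⁻¹] (X 0 * ((1 - X 2) * (1 - X 1 * X 2)) : MvPolynomial (Fin 3) k) =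
      a * ((1 - v⁻¹) * (1 - w * v⁻¹)) := by
    rw [map_mul, map_mul, map_sub, map_sub, map_mul, aeval_X, aeval_X, aeval_X, map_one]
    rfl
  have nv1 : v - 1 ≠ 0 := sub_ne_zero.2 hv1
  have nw1 : w - 1 ≠ 0 := sub_ne_zero.2 hw1
  have nvw : v - w ≠ 0 := sub_ne_zero.2 hvw
  have nwv : w - v ≠ 0 := sub_ne_zero.2 hvw.symm
  have nw1' : 1 - w⁻¹ ≠ 0 := by
    rw [sub_ne_zero]
    intro h0
    exact hw1 (inv_eq_one.1 h0.symm)
  have nv1' : 1 - v⁻¹ ≠ 0 := by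
    rw [sub_ne_zero]
    intro h0
    exact hv1 (inv_eq_one.1 h0.symm)
  have nvw' : 1 - v * w⁻¹ ≠ 0 := by
    rw [sub_ne_zero]
    intro h0
    apply hvw
    rw [eq_comm, ← div_eq_mul_inv, div_eq_one_iff_eq hw0] at h0
    exact h0
  have nwv' : 1 - w * v⁻¹ ≠ 0 := by
    rw [sub_ne_zero]
    intro h0
    apply hvw
    rw [eq_comm, ← div_eq_mul_inv, div_eq_one_iff_eq hv0] at h0
    exact h0.symm
  have nwv'' : 1 - v⁻¹ * w ≠ 0 := by rw [mul_comm]; exact nwv'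
  refine ⟨Gp - x, ?_, ?_, ?_⟩
  · rw [ex]
    have hmem : ∀ z ∈ ({a, a⁻¹, v, v⁻¹, w, w⁻¹} : Set K), z ∈ K3 k a v w :=
      fun z hz => Algebra.subset_adjoin hz
    refine add_mem (sub_mem ?_ ?_) pp0
    · exact N19_Fr_le (hmem _ (by simp)) (hmem _ (by simp)) (hmem _ (by simp)) (hmem _ (by simp)) gp1
    · exact N19_K1_le (hmem _ (by simp)) (hmem _ (by simp)) (hmem _ (by simp)) hx
  · apply ON_inf h
    · rw [ex]
      obtain ⟨m1, m2, m3, m4⟩ := N19_mem (k := k) (a := a) (x := v) (y := w) (pD k * pE k)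
        (by rw [hX0]; exact mul_ne_zero ha0 (mul_ne_zero nw1 nvw))
      exact add_mem (sub_mem (N19_Fr_le m1 m2 m3 m4 gp1) (N19_K1_le m1 m2 m4 hx)) pp1
    · rw [ey]
      obtain ⟨m1, m2, m3, m4⟩ := N19_mem (k := k) (a := a) (x := v) (y := w⁻¹)
        ((1 - X 2) * (1 - X 1 * X 2))
        (by rw [hX3]; exact mul_ne_zero ha0 (mul_ne_zero nw1' nvw'))
      exact add_mem (add_mem (N19_Fr_le m1 m2 m3 m4 gm1) (N19_K1_le m1 m2 m4 hy)) pm1
  · apply ON_inf (frame_ind p h 1)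
    · change _ ∈ Fr (k := k) a w v (X 0 * (pD k * pE k))
      have hle : Fr a v w (X 0 * (pB k * pE k)) ≤ Fr a w v (X 0 * (pD k * pE k)) := by
        obtain ⟨m1, m2, m3, m4⟩ := N19_mem (k := k) (a := a) (x := w) (y := v) (pD k * pE k)
          (by rw [hX2]; exact mul_ne_zero ha0 (mul_ne_zero nv1 nwv))
        refine N19_Fr_le' m1 m4 m3 ?_
        have e : (aeval ![a, v, w] (X 0 * (pB k * pE k)))⁻¹ =
            -(aeval ![a, w, v] (X 0 * (pD k * pE k)))⁻¹ := by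
          rw [hX1, hX2, ← inv_neg]
          congr 1
          ring
        rw [e]
        exact neg_mem (Algebra.subset_adjoin (by simp))
      apply hle
      rw [ex]
      obtain ⟨m1, m2, m3, m4⟩ := N19_mem (k := k) (a := a) (x := v) (y := w) (pB k * pE k)
        (by rw [hX1]; exact mul_ne_zero ha0 (mul_ne_zero nv1 nvw))
      exact add_mem (sub_mem (N19_Fr_le m1 m2 m3 m4 gp1) (N19_K1_le m1 m2 m4 hx)) pp2
    · change _ ∈ Fr (k := k) a w v⁻¹ (X 0 * ((1 - X 2) * (1 - X 1 * X 2)))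
      have hle : Fr (k := k) a v⁻¹ w (X 0 * ((1 - X 1) * (1 - X 1 * X 2))) ≤
          Fr (k := k) a w v⁻¹ (X 0 * ((1 - X 2) * (1 - X 1 * X 2))) := by
        obtain ⟨m1, m2, m3, m4⟩ := N19_mem (k := k) (a := a) (x := w) (y := v⁻¹)
          ((1 - X 2) * (1 - X 1 * X 2))
          (by rw [hX5]; exact mul_ne_zero ha0 (mul_ne_zero nv1' nwv'))
        refine N19_Fr_le' m1 m4 m3 ?_
        rw [hX4, mul_comm v⁻¹ w, ← hX5]
        exact Algebra.subset_adjoin (by simp)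
      apply hle
      rw [ez]
      obtain ⟨m1, m2, m3, m4⟩ := N19_mem (k := k) (a := a) (x := v⁻¹) (y := w)
        ((1 - X 1) * (1 - X 1 * X 2))
        (by rw [hX4]; exact mul_ne_zero ha0 (mul_ne_zero nv1' nwv''))
      exact add_mem (sub_mem (N19_Fr_le m1 m2 m3 m4 gp2) (N19_K1_le m1 m2 m4 hx)) mp2

end H1F
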