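import Pool.Agent.Lib.H1F.N.N8
import Pool.Agent.Lib.H1F.N.N6
import Pool.Agent.Lib.H1F.N.N3
import Pool.Agent.Lib.H1F.N.N2

/-!
# H1F, chunk N20

Step (e): comparison of two of the three open sets `W_x, W_y, W_z`.
-/

open MvPolynomial

namespace H1F

variable {k K : Type*} [Field k] [Field K] [Algebra k K]

theorem N20_ind_iff (a v w : K) : AlgebraicIndependent k ![a, v, w] ↔
    AlgebraicIndependent k (fun j : {j : Fin 3 // j ≠ 2} => ![a, v, (0 : K)] j.1) ∧
      Transcendental (Algebra.adjoin k {a, v}) w := by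
  rw [AlgebraicIndependent.iff_transcendental_adjoin_image (2 : Fin 3)]
  have e1 : (fun j : {j : Fin 3 // j ≠ 2} => ![a, v, w] j.1) =
      fun j : {j : Fin 3 // j ≠ 2} => ![a, v, (0 : K)] j.1 := by
    funext ⟨j, hj⟩
    fin_cases j
    · rfl
    · rfl
    · exact absurd rfl hj
  have e2 : ![a, v, w] '' {2}ᶜ = {a, v} := by
    ext x
    constructor
    · rintro ⟨j, hj, rfl⟩
      fin_cases j
      · exact Or.inl rfl
      · exact Or.inr rfl
      · exact absurd rfl hj
    · rintro (rfl | rfl)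
      · exact ⟨0, by decide, rfl⟩
      · exact ⟨1, by decide, rfl⟩
  rw [e1, e2]
  rfl

theorem N20_ind_inv {a v w : K} (h : AlgebraicIndependent k ![a, v, w]) :
    AlgebraicIndependent k ![a, v, w⁻¹] := by
  rw [N20_ind_iff] at h ⊢
  exact ⟨h.1, fun h2 => h.2 (IsAlgebraic.inv_iff.1 h2)⟩

theorem N20_trans {a v w : K} (h : AlgebraicIndependent k ![a, v, w]) :
    Transcendental (K2 k a v) w := by
  rw [N20_ind_iff] at h
  have h1 : Transcendental (IntermediateField.adjoin k {a, v}) w :=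
    IntermediateField.transcendental_adjoin_iff.2 h.2
  have h2 : K2 k a v ≤ (IntermediateField.adjoin k {a, v}).toSubalgebra := by
    refine Algebra.adjoin_le ?_
    have ha : a ∈ IntermediateField.adjoin k {a, v} :=
      IntermediateField.subset_adjoin k _ (Set.mem_insert _ _)
    have hv : v ∈ IntermediateField.adjoin k {a, v} :=
      IntermediateField.subset_adjoin k _ (Set.mem_insert_of_mem _ (Set.mem_singleton _))
    have ha' : a⁻¹ ∈ IntermediateField.adjoin k {a, v} := inv_mem ha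
    have hv' : v⁻¹ ∈ IntermediateField.adjoin k {a, v} := inv_mem hv
    rintro x (hx | hx | hx | hx)
    · rw [hx]; exact ha
    · rw [hx]; exact ha'
    · rw [hx]; exact hv
    · rw [hx]; exact hv'
  exact Transcendental.of_tower_top_of_subalgebra_le h2 h1

/-- both charts lie in a subalgebra containing the listed elements -/
theorem N20_NI_le (p : ℕ) {a v w : K} (hv0 : v ≠ 0) (hv1 : v ≠ 1) (hvw : w ≠ v)
    (S : Subalgebra k K) (ha : a ∈ S) (ha' : a⁻¹ ∈ S) (hv : v ∈ S) (hv' : v⁻¹ ∈ S)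
    (hb : (v - 1)⁻¹ ∈ S) (hd : (w - 1)⁻¹ ∈ S) (he : (w - 1) / (w - v) ∈ S)
    (hf : v / (w - v) ∈ S) (hg : (w - v) / (w - 1) ∈ S) :
    NI k a v w ≤ S ∧ NI k (a / v ^ p) v⁻¹ (w / v) ≤ S := by
  have hv1' : v - 1 ≠ 0 := sub_ne_zero.2 hv1
  have hwv' : w - v ≠ 0 := sub_ne_zero.2 hvw
  have h1v : 1 - v ≠ 0 := sub_ne_zero.2 hv1.symm
  constructor
  · refine Algebra.adjoin_le ?_
    rintro x (rfl | rfl | rfl | rfl | rfl)
    · exact sub_mem hv (one_mem S)
    · rw [div_eq_mul_inv]
      exact mul_mem (sub_mem ha (one_mem S)) hb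
    · exact hd
    · exact ha'
    · exact he
  · refine Algebra.adjoin_le ?_
    rintro x (rfl | rfl | rfl | rfl | rfl)
    · exact sub_mem hv' (one_mem S)
    · have h1 : (a / v ^ p - 1) / (v⁻¹ - 1) = (a * v⁻¹ ^ p - 1) * (-(v * (v - 1)⁻¹)) := by
        have h2 : v⁻¹ - 1 = -((v - 1) * v⁻¹) := by
          field_simp
          ring
        rw [h2, div_eq_mul_inv (a / v ^ p - 1), inv_neg, mul_inv, inv_inv, div_eq_mul_inv, inv_pow,
          mul_comm (v - 1)⁻¹ v]
      rw [h1]
      exact mul_mem (sub_mem (mul_mem ha (pow_mem hv' p)) (one_mem S))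
        (neg_mem (mul_mem hv hb))
    · have h1 : (w / v - 1)⁻¹ = v / (w - v) := by
        have h2 : w / v - 1 = (w - v) / v := by field_simp
        rw [h2, inv_div]
      rw [h1]
      exact hf
    · rw [inv_div, div_eq_mul_inv]
      exact mul_mem (pow_mem hv p) ha'
    · have h1 : (w / v - 1) / (w / v - v⁻¹) = (w - v) / (w - 1) := by
        have h2 : w / v - 1 = (w - v) * v⁻¹ := by field_simp
        have h3 : w / v - v⁻¹ = (w - 1) * v⁻¹ := by field_simp
        rw [h2, h3, mul_div_mul_right _ _ (inv_ne_zero hv0)]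
      rw [h1]
      exact hg

theorem N20_ON_le_NI (a v w : K) (ha1 : (a - 1) / (v - 1) * (v - 1) = a - 1) :
    ON k a v w ≤ NI k a v w := by
  refine Algebra.adjoin_le ?_
  have hsub : ∀ x ∈ ({v - 1, (a - 1) / (v - 1), (w - 1)⁻¹, a⁻¹, (w - 1) / (w - v)} : Set K),
      x ∈ NI k a v w := fun x hx => Algebra.subset_adjoin hx
  have h1 : v - 1 ∈ NI k a v w := hsub _ (by simp)
  have h2 : (a - 1) / (v - 1) ∈ NI k a v w := hsub _ (by simp)
  have h3 : a ∈ NI k a v w := by
    have e := add_mem (mul_mem h2 h1) (one_mem (NI k a v w))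
    rwa [ha1, sub_add_cancel] at e
  have h4 : v ∈ NI k a v w := by
    have e := add_mem h1 (one_mem (NI k a v w))
    rwa [sub_add_cancel] at e
  rintro x (hx | hx | hx | hx | hx)
  · rw [hx]; exact h3
  · rw [hx]; exact hsub _ (by simp)
  · rw [hx]; exact h4
  · rw [hx]; exact hsub _ (by simp)
  · rw [hx]; exact hsub _ (by simp)

theorem N20_Fr_le (a v t : K) :
    Fr a v t (X 0 * X 1 : MvPolynomial (Fin 3) k) ≤ K2 k a v ⊔ Algebra.adjoin k {t} := by
  have hK : ∀ x ∈ ({a, a⁻¹, v, v⁻¹} : Set K), x ∈ K2 k a v ⊔ Algebra.adjoin k {t} :=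
    fun x hx => (le_sup_left : K2 k a v ≤ _) (Algebra.subset_adjoin hx)
  refine Algebra.adjoin_le ?_
  rintro x (rfl | rfl | rfl | rfl)
  · exact hK _ (by simp)
  · exact hK _ (by simp)
  · exact (le_sup_right : Algebra.adjoin k {x} ≤ _) (Algebra.subset_adjoin rfl)
  · have h1 : (aeval ![a, v, t] (X 0 * X 1 : MvPolynomial (Fin 3) k))⁻¹ = a⁻¹ * v⁻¹ := by
      rw [map_mul, aeval_X, aeval_X, mul_inv]
      rfl
    change (aeval ![a, v, t] (X 0 * X 1 : MvPolynomial (Fin 3) k))⁻¹ ∈ _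
    rw [h1]
    exact mul_mem (hK _ (by simp)) (hK _ (by simp))

/-- `GX - GY ∈ K3` and, through `G1 - G2`, in `k[a^±, v^±, w][1/((v-1)(w-1)(v-w))]` and in
`k[a^±, v^±, w⁻¹][1/...]`; hence (`Fr_inf`, prime `X 2`) in `k[a^±, v^±, w]` and `k[a^±, v^±, w⁻¹]`,
hence (`int_zz`) in `k[a^±, v^±]`.  Note `a/v^p, v⁻¹, w/v` is the frame of the other open set,
its units are `a/v^p, v`. -/
theorem pairE (p : ℕ) (hp : 2 ≤ p) {a v w : K} (h : AlgebraicIndependent k ![a, v, w])
    {GT GX GY G1 G2 : K} (hX : GX - GT ∈ K3 k a v w) (hY : GY - GT ∈ K3 k a v w)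
    (h1 : GX - G1 ∈ ON k a v w) (h2 : GY - G2 ∈ ON k (a / v ^ p) v⁻¹ (w / v))
    (h12 : G1 - G2 ∈ NI k a v w ⊔ NI k (a / v ^ p) v⁻¹ (w / v)) :
    GX - GY ∈ K2 k a v := by
  obtain ⟨ha0, hv0, hw0, ha1, hv1, hw1, hvw, -, -⟩ := ind_ne h
  have hind' := N20_ind_inv h
  have hv1' : v - 1 ≠ 0 := sub_ne_zero.2 hv1
  have hw1' : w - 1 ≠ 0 := sub_ne_zero.2 hw1
  have hwv' : w - v ≠ 0 := sub_ne_zero.2 hvw.symm
  have hvw' : v - w ≠ 0 := sub_ne_zero.2 hvw
  have hv1'' : v⁻¹ - 1 ≠ 0 := by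
    rw [sub_ne_zero]
    intro h0
    exact hv1 (inv_eq_one.1 h0)
  -- membership in every subalgebra containing the two charts
  have hr : ∀ S : Subalgebra k K, NI k a v w ≤ S → NI k (a / v ^ p) v⁻¹ (w / v) ≤ S →
      GX - GY ∈ S := by
    intro S hS1 hS2
    have e1 : GX - G1 ∈ S := hS1 (N20_ON_le_NI a v w (div_mul_cancel₀ _ hv1') h1)
    have e2 : GY - G2 ∈ S :=
      hS2 (N20_ON_le_NI (a / v ^ p) v⁻¹ (w / v) (div_mul_cancel₀ _ hv1'') h2)
    have e3 : G1 - G2 ∈ S := sup_le hS1 hS2 h12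
    have e4 := sub_mem (add_mem e1 e3) e2
    have e5 : GX - G1 + (G1 - G2) - (GY - G2) = GX - GY := by ring
    rwa [e5] at e4
  have hK3 : GX - GY ∈ K3 k a v w := by
    have e4 := sub_mem hX hY
    rwa [sub_sub_sub_cancel_right] at e4
  have hU0 : (X 0 * X 1 : MvPolynomial (Fin 3) k) ≠ 0 := mul_ne_zero (X_ne_zero 0) (X_ne_zero 1)
  have hne : ∀ {t : K}, AlgebraicIndependent k ![a, v, t] → ∀ {U : MvPolynomial (Fin 3) k},
      U ≠ 0 → aeval ![a, v, t] U ≠ 0 := by
    intro t ht U hU h0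
    have hinj : Function.Injective (aeval ![a, v, t] : MvPolynomial (Fin 3) k →ₐ[k] K) := ht
    exact hU (hinj (by rw [h0, map_zero]))
  obtain ⟨-, -, -, -, hX2, hB0, hD0, hE0, -, hT0⟩ := not_dvd_list (k := k) p hp
  -- first intersection
  have hA : GX - GY ∈ K2 k a v ⊔ Algebra.adjoin k {w} := by
    apply N20_Fr_le a v w
    apply Fr_inf h hU0 (prime_X 2) hX2
    · rw [K3_eq_Fr (hne h hT0)] at hK3
      exact hK3
    · set U : MvPolynomial (Fin 3) k := X 0 * X 1 * (pB k * pD k * pE k) with hU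
      have hUne : aeval ![a, v, w] U ≠ 0 :=
        hne h (mul_ne_zero hU0 (mul_ne_zero (mul_ne_zero hB0 hD0) hE0))
      have ma : a ∈ Fr a v w U := Algebra.subset_adjoin (by simp)
      have mv : v ∈ Fr a v w U := Algebra.subset_adjoin (by simp)
      have mw : w ∈ Fr a v w U := Algebra.subset_adjoin (by simp)
      have ia : a⁻¹ ∈ Fr a v w U := by
        have e := inv_mem_Fr (x := a) (y := v) (z := w) (U := U) (G := X 0)
          ⟨X 1 * (pB k * pD k * pE k), by rw [hU]; ring⟩ hUne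
        rwa [aeval_X] at e
      have iv : v⁻¹ ∈ Fr a v w U := by
        have e := inv_mem_Fr (x := a) (y := v) (z := w) (U := U) (G := X 1)
          ⟨X 0 * (pB k * pD k * pE k), by rw [hU]; ring⟩ hUne
        rwa [aeval_X] at e
      have iB : (v - 1)⁻¹ ∈ Fr a v w U := by
        have e := inv_mem_Fr (x := a) (y := v) (z := w) (U := U) (G := pB k)
          ⟨X 0 * X 1 * (pD k * pE k), by rw [hU]; ring⟩ hUne
        unfold pB at e
        rw [map_sub, aeval_X, map_one] at e
        exact e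
      have iD : (w - 1)⁻¹ ∈ Fr a v w U := by
        have e := inv_mem_Fr (x := a) (y := v) (z := w) (U := U) (G := pD k)
          ⟨X 0 * X 1 * (pB k * pE k), by rw [hU]; ring⟩ hUne
        unfold pD at e
        rw [map_sub, aeval_X, map_one] at e
        exact e
      have iE : (v - w)⁻¹ ∈ Fr a v w U := by
        have e := inv_mem_Fr (x := a) (y := v) (z := w) (U := U) (G := pE k)
          ⟨X 0 * X 1 * (pB k * pD k), by rw [hU]; ring⟩ hUne
        unfold pE at e
        rw [map_sub, aeval_X, aeval_X] at e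
        exact e
      have iE' : (w - v)⁻¹ ∈ Fr a v w U := by
        have e : (w - v)⁻¹ = -(v - w)⁻¹ := by rw [← inv_neg, neg_sub]
        rw [e]
        exact neg_mem iE
      obtain ⟨k1, k2⟩ := N20_NI_le (k := k) p hv0 hv1 hvw.symm (Fr a v w U) ma ia mv iv iB iD
        (by rw [div_eq_mul_inv]; exact mul_mem (sub_mem mw (one_mem _)) iE')
        (by rw [div_eq_mul_inv]; exact mul_mem mv iE')
        (by rw [div_eq_mul_inv]; exact mul_mem (sub_mem mw mv) iD)
      exact hr _ k1 k2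
  -- second intersection
  have hB : GX - GY ∈ K2 k a v ⊔ Algebra.adjoin k {w⁻¹} := by
    apply N20_Fr_le a v w⁻¹
    set H : MvPolynomial (Fin 3) k := pB k * (pD k * (X 1 * X 2 - 1)) with hH
    have hHnd : ¬ (X 2 : MvPolynomial (Fin 3) k) ∣ H := by
      apply not_dvd_of_eval (F := k) (fun _ => 0)
      · rw [aeval_X]
      · rw [hH]
        unfold pB pD
        simp
    have hH0 : H ≠ 0 := by
      rintro h0
      rw [h0] at hHnd
      exact hHnd (dvd_zero _)
    apply Fr_inf hind' hU0 (prime_X 2) hHnd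
    · have e : K3 k a v w ≤ K3 k a v w⁻¹ := by
        refine Algebra.adjoin_le ?_
        rintro x (rfl | rfl | rfl | rfl | rfl | rfl)
        · exact Algebra.subset_adjoin (by simp)
        · exact Algebra.subset_adjoin (by simp)
        · exact Algebra.subset_adjoin (by simp)
        · exact Algebra.subset_adjoin (by simp)
        · exact Algebra.subset_adjoin (by simp)
        · exact Algebra.subset_adjoin (by simp)
      have e2 := e hK3
      rw [K3_eq_Fr (hne hind' hT0)] at e2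
      exact e2
    · set U : MvPolynomial (Fin 3) k := X 0 * X 1 * H with hU
      have hUne : aeval ![a, v, w⁻¹] U ≠ 0 := hne hind' (mul_ne_zero hU0 hH0)
      have ma : a ∈ Fr a v w⁻¹ U := Algebra.subset_adjoin (by simp)
      have mv : v ∈ Fr a v w⁻¹ U := Algebra.subset_adjoin (by simp)
      have mw : w⁻¹ ∈ Fr a v w⁻¹ U := Algebra.subset_adjoin (by simp)
      have ia : a⁻¹ ∈ Fr a v w⁻¹ U := by
        have e := inv_mem_Fr (x := a) (y := v) (z := w⁻¹) (U := U) (G := X 0)
          ⟨X 1 * H, by rw [hU]; ring⟩ hUne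
        rwa [aeval_X] at e
      have iv : v⁻¹ ∈ Fr a v w⁻¹ U := by
        have e := inv_mem_Fr (x := a) (y := v) (z := w⁻¹) (U := U) (G := X 1)
          ⟨X 0 * H, by rw [hU]; ring⟩ hUne
        rwa [aeval_X] at e
      have iB : (v - 1)⁻¹ ∈ Fr a v w⁻¹ U := by
        have e := inv_mem_Fr (x := a) (y := v) (z := w⁻¹) (U := U) (G := pB k)
          ⟨X 0 * X 1 * (pD k * (X 1 * X 2 - 1)), by rw [hU, hH]; ring⟩ hUne
        unfold pB at e
        rw [map_sub, aeval_X, map_one] at e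
        exact e
      have iD : (w⁻¹ - 1)⁻¹ ∈ Fr a v w⁻¹ U := by
        have e := inv_mem_Fr (x := a) (y := v) (z := w⁻¹) (U := U) (G := pD k)
          ⟨X 0 * X 1 * (pB k * (X 1 * X 2 - 1)), by rw [hU, hH]; ring⟩ hUne
        unfold pD at e
        rw [map_sub, aeval_X, map_one] at e
        exact e
      have iE : (v * w⁻¹ - 1)⁻¹ ∈ Fr a v w⁻¹ U := by
        have e := inv_mem_Fr (x := a) (y := v) (z := w⁻¹) (U := U) (G := X 1 * X 2 - 1)
          ⟨X 0 * X 1 * (pB k * pD k), by rw [hU, hH]; ring⟩ hUne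
        rw [map_sub, map_mul, aeval_X, aeval_X, map_one] at e
        exact e
      have e1 : w⁻¹ - 1 = -((w - 1) * w⁻¹) := by field_simp; ring
      have e2 : v * w⁻¹ - 1 = -((w - v) * w⁻¹) := by field_simp; ring
      have iD' : (w - 1)⁻¹ ∈ Fr a v w⁻¹ U := by
        have e : (w - 1)⁻¹ = -(w⁻¹ * (w⁻¹ - 1)⁻¹) := by
          rw [e1, inv_neg, mul_inv, inv_inv]
          field_simp
        rw [e]
        exact neg_mem (mul_mem mw iD)
      obtain ⟨k1, k2⟩ := N20_NI_le (k := k) p hv0 hv1 hvw.symm (Fr a v w⁻¹ U) ma ia mv iv iB iD'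
        (by
          have e : (w - 1) / (w - v) = (w⁻¹ - 1) * (v * w⁻¹ - 1)⁻¹ := by
            rw [e1, e2, inv_neg, mul_inv, inv_inv]
            field_simp
          rw [e]
          exact mul_mem (sub_mem mw (one_mem _)) iE)
        (by
          have e : v / (w - v) = -(v * w⁻¹ * (v * w⁻¹ - 1)⁻¹) := by
            rw [e2, inv_neg, mul_inv, inv_inv]
            field_simp
          rw [e]
          exact neg_mem (mul_mem (mul_mem mv mw) iE))
        (by
          have e : (w - v) / (w - 1) = (v * w⁻¹ - 1) * (w⁻¹ - 1)⁻¹ := by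
            rw [e1, e2, inv_neg, mul_inv, inv_inv]
            field_simp
          rw [e]
          exact mul_mem (sub_mem (mul_mem mv mw) (one_mem _)) iD)
      exact hr _ k1 k2
  exact int_zz (K2 k a v) (N20_trans h) hA hB

end H1F
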