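import Pool.Agent.Lib.H1F.N.N8

/-!
# H1F, chunk N21

Step (e): comparison of monomials.
-/

open MvPolynomial

namespace H1F

variable {k K : Type*} [Field k] [Field K] [Algebra k K]

/-- the Laurent monomials -/
def N21_m (A v w : K) (s : ℤ × ℤ × ℤ) : K := A ^ s.1 * v ^ s.2.1 * w ^ s.2.2

theorem N21_zpow_mem {S : Subalgebra k K} {x : K} (hx : x ∈ S) (hx' : x⁻¹ ∈ S) (n : ℤ) :
    x ^ n ∈ S := by
  cases n with
  | ofNat n => rw [Int.ofNat_eq_natCast, zpow_natCast]; exact pow_mem hx n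
  | negSucc n =>
    rw [zpow_negSucc, ← inv_pow]
    exact pow_mem hx' _

theorem N21_m_add {A v w : K} (hA : A ≠ 0) (hv : v ≠ 0) (hw : w ≠ 0) (s t : ℤ × ℤ × ℤ) :
    N21_m A v w (s + t) = N21_m A v w s * N21_m A v w t := by
  unfold N21_m
  simp only [Prod.fst_add, Prod.snd_add]
  rw [zpow_add₀ hA, zpow_add₀ hv, zpow_add₀ hw]
  ring

/-- exponents -/
noncomputable def N21_e (N : ℕ) (s : ℤ × ℤ × ℤ) : Fin 3 →₀ ℕ :=
  Finsupp.equivFunOnFinite.symm ![(s.1 + N).toNat, (s.2.1 + N).toNat, (s.2.2 + N).toNat]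

theorem N21_li {A v w : K} (h : AlgebraicIndependent k ![A, v, w]) :
    LinearIndependent k (N21_m A v w) := by
  obtain ⟨hA, hv, hw, -⟩ := ind_ne h
  have inj : Function.Injective (aeval ![A, v, w] : MvPolynomial (Fin 3) k →ₐ[k] K) := h
  rw [linearIndependent_iff']
  intro S g h0 s0 hs0
  set N : ℕ := ∑ s ∈ S, (s.1.natAbs + s.2.1.natAbs + s.2.2.natAbs) with hN
  have hle : ∀ s ∈ S, s.1.natAbs + s.2.1.natAbs + s.2.2.natAbs ≤ N := fun s hs =>
    Finset.single_le_sum (f := fun s : ℤ × ℤ × ℤ => s.1.natAbs + s.2.1.natAbs + s.2.2.natAbs)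
      (fun _ _ => Nat.zero_le _) hs
  have h1 : ∀ s ∈ S, 0 ≤ s.1 + N ∧ 0 ≤ s.2.1 + N ∧ 0 ≤ s.2.2 + N := by
    intro s hs
    have := hle s hs
    refine ⟨?_, ?_, ?_⟩ <;> omega
  set P : MvPolynomial (Fin 3) k := ∑ s ∈ S, monomial (N21_e N s) (g s) with hP
  have hP0 : P = 0 := by
    apply inj
    rw [map_zero, hP, map_sum]
    have h2 : ∀ s ∈ S, aeval ![A, v, w] (monomial (N21_e N s) (g s)) =
        (A * v * w) ^ N * (g s • N21_m A v w s) := by
      intro s hs
      obtain ⟨a1, a2, a3⟩ := h1 s hs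
      rw [aeval_monomial, Finsupp.prod_fintype _ _ (fun i => pow_zero _), Fin.prod_univ_three]
      have e1 : A ^ ((s.1 + N).toNat) = A ^ s.1 * A ^ N := by
        rw [← zpow_natCast, Int.toNat_of_nonneg a1, zpow_add₀ hA, zpow_natCast]
      have e2 : v ^ ((s.2.1 + N).toNat) = v ^ s.2.1 * v ^ N := by
        rw [← zpow_natCast, Int.toNat_of_nonneg a2, zpow_add₀ hv, zpow_natCast]
      have e3 : w ^ ((s.2.2 + N).toNat) = w ^ s.2.2 * w ^ N := by
        rw [← zpow_natCast, Int.toNat_of_nonneg a3, zpow_add₀ hw, zpow_natCast]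
      have f1 : (![A, v, w] : Fin 3 → K) 0 ^ (N21_e N s) 0 = A ^ ((s.1 + N).toNat) := rfl
      have f2 : (![A, v, w] : Fin 3 → K) 1 ^ (N21_e N s) 1 = v ^ ((s.2.1 + N).toNat) := rfl
      have f3 : (![A, v, w] : Fin 3 → K) 2 ^ (N21_e N s) 2 = w ^ ((s.2.2 + N).toNat) := rfl
      rw [f1, f2, f3, e1, e2, e3, Algebra.smul_def]
      unfold N21_m
      rw [mul_pow, mul_pow]
      ring
    rw [Finset.sum_congr rfl h2, ← Finset.mul_sum, h0, mul_zero]
  have hc : coeff (N21_e N s0) P = g s0 := by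
    rw [hP, coeff_sum, Finset.sum_eq_single s0]
    · rw [coeff_monomial, if_pos rfl]
    · intro s hs hne
      rw [coeff_monomial, if_neg]
      intro he
      apply hne
      obtain ⟨a1, a2, a3⟩ := h1 s hs
      obtain ⟨b1, b2, b3⟩ := h1 s0 hs0
      have g1 : (s.1 + N).toNat = (s0.1 + N).toNat := DFunLike.congr_fun he 0
      have g2 : (s.2.1 + N).toNat = (s0.2.1 + N).toNat := DFunLike.congr_fun he 1
      have g3 : (s.2.2 + N).toNat = (s0.2.2 + N).toNat := DFunLike.congr_fun he 2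
      refine Prod.ext ?_ (Prod.ext ?_ ?_)
      · omega
      · show s.2.1 = s0.2.1
        omega
      · show s.2.2 = s0.2.2
        omega
    · intro hs
      exact absurd hs0 hs
  rw [← hc, hP0, coeff_zero]

/-- elements of a ring generated by monomials -/
theorem N21_span {A v w : K} (hA : A ≠ 0) (hv : v ≠ 0) (hw : w ≠ 0)
    (H : AddSubgroup (ℤ × ℤ × ℤ)) (T : Set K) (hT : ∀ t ∈ T, ∃ s ∈ H, N21_m A v w s = t)
    {x : K} (hx : x ∈ Algebra.adjoin k T) :
    ∃ f : (ℤ × ℤ × ℤ) →₀ k, (∀ s, f s ≠ 0 → s ∈ H) ∧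
      Finsupp.linearCombination k (N21_m A v w) f = x := by
  rw [← Subalgebra.mem_toSubmodule, Algebra.adjoin_eq_span] at hx
  have h1 : (Submonoid.closure T : Set K) ⊆ N21_m A v w '' (H : Set (ℤ × ℤ × ℤ)) := by
    intro y hy
    induction hy using Submonoid.closure_induction with
    | mem y hy =>
      obtain ⟨s, hs, e⟩ := hT y hy
      exact ⟨s, hs, e⟩
    | one => exact ⟨0, H.zero_mem, by simp [N21_m]⟩
    | mul y z _ _ hy hz =>
      obtain ⟨s, hs, e⟩ := hy
      obtain ⟨t, ht, e'⟩ := hz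
      exact ⟨s + t, H.add_mem hs ht, by rw [N21_m_add hA hv hw, e, e']⟩
  have h2 := Submodule.span_mono h1 hx
  rw [Finsupp.mem_span_image_iff_linearCombination] at h2
  obtain ⟨f, hf, e⟩ := h2
  refine ⟨f, fun s hs => ?_, e⟩
  exact (Finsupp.mem_supported k f).1 hf (Finsupp.mem_support_iff.2 hs)

theorem N21_mem {A v w : K} (S : Subalgebra k K) (f : (ℤ × ℤ × ℤ) →₀ k)
    (hf : ∀ s, f s ≠ 0 → N21_m A v w s ∈ S) :
    Finsupp.linearCombination k (N21_m A v w) f ∈ S := by
  rw [Finsupp.linearCombination_apply]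
  refine sum_mem fun s hs => S.smul_mem (hf s (Finsupp.mem_support_iff.1 hs)) _

/-- Expand in the (linearly independent) Laurent monomials `A^i v^j w^l`.  `F12` contains only
`l = 0`, `F13` only `j = 0`, `F13 - F12` only `j + l + p i = 0`.  So the terms of `F13` with
`l ≠ 0` are powers of `A / w^p`, the terms of `F12` with `j ≠ 0` are powers of `A / v^p`, and
what remains lies in `k[A, 1/A]` and differs by a constant. -/
theorem monoE (p : ℕ) (hp : 1 ≤ p) {A v w : K} (h : AlgebraicIndependent k ![A, v, w])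
    {F12 F13 : K} (h12 : F12 ∈ K2 k A v) (h13 : F13 ∈ K2 k A w)
    (h23 : F13 - F12 ∈ K2 k (A / v ^ p) (w / v)) :
    ∃ a ∈ K1 k A, ∃ b ∈ K1 k (A / v ^ p), ∃ c ∈ K1 k (A / w ^ p), F12 = a - b ∧ F13 = a - c := by
  obtain ⟨hA, hv, hw, -⟩ := ind_ne h
  have hp0 : (p : ℤ) ≠ 0 := by omega
  -- the three subgroups
  let H12 : AddSubgroup (ℤ × ℤ × ℤ) :=
    { carrier := {s | s.2.2 = 0}
      add_mem' := by
        intro s t hs ht
        simp only [Set.mem_ofPred_eq, Prod.snd_add] at hs ht ⊢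
        omega
      zero_mem' := rfl
      neg_mem' := by
        intro s hs
        simp only [Set.mem_ofPred_eq, Prod.snd_neg] at hs ⊢
        omega }
  let H13 : AddSubgroup (ℤ × ℤ × ℤ) :=
    { carrier := {s | s.2.1 = 0}
      add_mem' := by
        intro s t hs ht
        simp only [Set.mem_ofPred_eq, Prod.snd_add, Prod.fst_add] at hs ht ⊢
        omega
      zero_mem' := rfl
      neg_mem' := by
        intro s hs
        simp only [Set.mem_ofPred_eq, Prod.snd_neg, Prod.fst_neg] at hs ⊢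
        omega }
  let H23 : AddSubgroup (ℤ × ℤ × ℤ) :=
    { carrier := {s | s.2.1 + s.2.2 + p * s.1 = 0}
      add_mem' := by
        intro s t hs ht
        simp only [Set.mem_ofPred_eq, Prod.snd_add, Prod.fst_add] at hs ht ⊢
        linear_combination hs + ht
      zero_mem' := by simp
      neg_mem' := by
        intro s hs
        simp only [Set.mem_ofPred_eq, Prod.snd_neg, Prod.fst_neg] at hs ⊢
        linear_combination -hs }
  obtain ⟨f12, g12, e12⟩ := N21_span (k := k) hA hv hw H12 {A, A⁻¹, v, v⁻¹} (by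
    rintro t (rfl | rfl | rfl | rfl)
    · exact ⟨(1, 0, 0), rfl, by simp [N21_m]⟩
    · exact ⟨(-1, 0, 0), rfl, by simp [N21_m]⟩
    · exact ⟨(0, 1, 0), rfl, by simp [N21_m]⟩
    · exact ⟨(0, -1, 0), rfl, by simp [N21_m]⟩) h12
  obtain ⟨f13, g13, e13⟩ := N21_span (k := k) hA hv hw H13 {A, A⁻¹, w, w⁻¹} (by
    rintro t (rfl | rfl | rfl | rfl)
    · exact ⟨(1, 0, 0), rfl, by simp [N21_m]⟩
    · exact ⟨(-1, 0, 0), rfl, by simp [N21_m]⟩
    · exact ⟨(0, 0, 1), rfl, by simp [N21_m]⟩
    · exact ⟨(0, 0, -1), rfl, by simp [N21_m]⟩) h13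
  obtain ⟨f23, g23, e23⟩ := N21_span (k := k) hA hv hw H23
    {A / v ^ p, (A / v ^ p)⁻¹, w / v, (w / v)⁻¹} (by
    rintro t (rfl | rfl | rfl | rfl)
    · refine ⟨(1, -p, 0), ?_, ?_⟩
      · show -(p : ℤ) + 0 + p * 1 = 0
        ring
      · simp [N21_m, div_eq_mul_inv]
    · refine ⟨(-1, p, 0), ?_, ?_⟩
      · show (p : ℤ) + 0 + p * (-1) = 0
        ring
      · simp only [N21_m, zpow_neg, zpow_one, zpow_natCast, zpow_zero, mul_one]
        rw [inv_div, div_eq_mul_inv, mul_comm]
    · refine ⟨(0, -1, 1), ?_, ?_⟩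
      · show (-1 : ℤ) + 1 + p * 0 = 0
        ring
      · simp only [N21_m, zpow_neg, zpow_one, zpow_zero, one_mul]
        rw [div_eq_mul_inv, mul_comm]
    · refine ⟨(0, 1, -1), ?_, ?_⟩
      · show (1 : ℤ) + (-1) + p * 0 = 0
        ring
      · simp only [N21_m, zpow_neg, zpow_one, zpow_zero, one_mul]
        rw [inv_div, div_eq_mul_inv]) h23
  have hf : f13 - f12 = f23 := by
    have li := N21_li h
    rw [LinearIndependent] at li
    apply li
    rw [map_sub, e12, e13, e23]
  have hfs : ∀ s, f13 s - f12 s = f23 s := fun s => by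
    rw [← hf, Finsupp.sub_apply]
  -- the parts
  set L := Finsupp.linearCombination k (N21_m A v w) with hL
  have s12 := Finsupp.filter_add_filter_not f12 (fun s => s.2.1 = 0)
  have s13 := Finsupp.filter_add_filter_not f13 (fun s => s.2.2 = 0)
  set a := L (f12.filter (fun s => s.2.1 = 0)) with ha
  set b := L (f12.filter (fun s => ¬ s.2.1 = 0)) with hb
  set c := L (f13.filter (fun s => ¬ s.2.2 = 0)) with hc
  set d := L (f13.filter (fun s => s.2.2 = 0)) with hd
  have E12 : F12 = a + b := by rw [← e12, ← s12, map_add]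
  have E13 : F13 = d + c := by rw [← e13, ← s13, map_add]
  have za : a ∈ K1 k A := by
    refine N21_mem _ _ fun s hs => ?_
    rw [Finsupp.filter_apply] at hs
    split_ifs at hs with h1
    · have h2 : s.2.2 = 0 := g12 s hs
      unfold N21_m
      rw [h1, h2, zpow_zero, zpow_zero, mul_one, mul_one]
      exact N21_zpow_mem (Algebra.subset_adjoin (by simp)) (Algebra.subset_adjoin (by simp)) _
    · exact absurd rfl hs
  have zb : b ∈ K1 k (A / v ^ p) := by
    refine N21_mem _ _ fun s hs => ?_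
    rw [Finsupp.filter_apply] at hs
    split_ifs at hs with h1
    · exact absurd rfl hs
    · have h2 : s.2.2 = 0 := g12 s hs
      have h3 : f13 s = 0 := by
        by_contra h3
        exact h1 (g13 s h3)
      have h4 : f23 s ≠ 0 := by
        rw [← hfs s, h3, zero_sub]
        exact neg_ne_zero.2 hs
      have h5 : s.2.1 + s.2.2 + p * s.1 = 0 := g23 s h4
      have h6 : s.2.1 = -(p * s.1) := by linear_combination h5 - h2
      have h7 : N21_m A v w s = (A / v ^ p) ^ s.1 := by
        unfold N21_m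
        rw [h2, h6, zpow_zero, mul_one, div_zpow, zpow_neg, zpow_mul, zpow_natCast,
          div_eq_mul_inv]
      rw [h7]
      exact N21_zpow_mem (Algebra.subset_adjoin (by simp)) (Algebra.subset_adjoin (by simp)) _
  have zc : c ∈ K1 k (A / w ^ p) := by
    refine N21_mem _ _ fun s hs => ?_
    rw [Finsupp.filter_apply] at hs
    split_ifs at hs with h1
    · exact absurd rfl hs
    · have h2 : s.2.1 = 0 := g13 s hs
      have h3 : f12 s = 0 := by
        by_contra h3
        exact h1 (g12 s h3)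
      have h4 : f23 s ≠ 0 := by
        rw [← hfs s, h3, sub_zero]
        exact hs
      have h5 : s.2.1 + s.2.2 + p * s.1 = 0 := g23 s h4
      have h6 : s.2.2 = -(p * s.1) := by linear_combination h5 - h2
      have h7 : N21_m A v w s = (A / w ^ p) ^ s.1 := by
        unfold N21_m
        rw [h2, h6, zpow_zero, mul_one, div_zpow, zpow_neg, zpow_mul, zpow_natCast,
          div_eq_mul_inv]
      rw [h7]
      exact N21_zpow_mem (Algebra.subset_adjoin (by simp)) (Algebra.subset_adjoin (by simp)) _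
  have zd : d - a ∈ K1 k (A / w ^ p) := by
    rw [hd, ha, ← map_sub]
    refine N21_mem _ _ fun s hs => ?_
    rw [Finsupp.sub_apply, Finsupp.filter_apply, Finsupp.filter_apply] at hs
    have hs00 : s = 0 := by
      by_cases h1 : s.2.2 = 0
      · by_cases h2 : s.2.1 = 0
        · rw [if_pos h1, if_pos h2, hfs] at hs
          have h5 : s.2.1 + s.2.2 + p * s.1 = 0 := g23 s hs
          have h6 : (p : ℤ) * s.1 = 0 := by linear_combination h5 - h1 - h2
          have h7 : s.1 = 0 := by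
            rcases mul_eq_zero.1 h6 with h | h
            · exact absurd h hp0
            · exact h
          exact Prod.ext h7 (Prod.ext h2 h1)
        · rw [if_pos h1, if_neg h2, sub_zero] at hs
          exact absurd (g13 s hs) h2
      · rw [if_neg h1, zero_sub, neg_ne_zero] at hs
        split_ifs at hs with h2
        · exact absurd (g12 s hs) h1
        · exact absurd rfl hs
    rw [hs00]
    have : N21_m A v w 0 = 1 := by simp [N21_m]
    rw [this]
    exact one_mem _
  refine ⟨a, za, -b, neg_mem zb, -(d - a) - c, sub_mem (neg_mem zd) zc, ?_, ?_⟩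
  · rw [E12]; ring
  · rw [E13]; ring

end H1F
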