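import Pool.Agent.Lib.H1F.N.N8
import Pool.Agent.Lib.H1F.N.N3

/-!
# H1F, chunk N9

Change of frame for the localizations of the torus ring.
-/

open MvPolynomial

namespace H1F

variable {k K : Type*} [Field k] [Field K] [Algebra k K]

theorem N9_ne {A v w : K} (h : AlgebraicIndependent k ![A, v, w]) {P : MvPolynomial (Fin 3) k}
    (hP : P ≠ 0) : aeval ![A, v, w] P ≠ 0 := fun h0 =>
  hP (h.eq_zero_of_aeval_eq_zero P h0)

theorem N9_key {x y z A v w : K} (hK : K3 k x y z = K3 k A v w) {G G' : MvPolynomial (Fin 3) k}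
    {u : K} (hu : N8_U (K3 k A v w) u)
    (hG : aeval ![x, y, z] G = u * aeval ![A, v, w] G')
    (h1 : aeval ![x, y, z] (uT k * G) ≠ 0) (h2 : aeval ![A, v, w] (uT k * G') ≠ 0) :
    Fr x y z (uT k * G) = Fr A v w (uT k * G') := by
  have h1' : aeval ![x, y, z] (uT k) ≠ 0 := by
    rw [map_mul] at h1
    exact left_ne_zero_of_mul h1
  have h2' : aeval ![A, v, w] (uT k) ≠ 0 := by
    rw [map_mul] at h2
    exact left_ne_zero_of_mul h2
  have hG0 : aeval ![x, y, z] G ≠ 0 := by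
    rw [map_mul] at h1
    exact right_ne_zero_of_mul h1
  have hu0 : u ≠ 0 := by
    rintro rfl
    exact hG0 (by rw [hG, zero_mul])
  rw [← Fr_sup_inv h1, ← Fr_sup_inv h2, ← K3_eq_Fr h1', ← K3_eq_Fr h2', hK, hG]
  have l1 : K3 k A v w ≤ K3 k A v w ⊔ Algebra.adjoin k {(aeval ![A, v, w] G')⁻¹} := le_sup_left
  have l2 : Algebra.adjoin k {(aeval ![A, v, w] G')⁻¹} ≤
    K3 k A v w ⊔ Algebra.adjoin k {(aeval ![A, v, w] G')⁻¹} := le_sup_right
  have l3 : K3 k A v w ≤ K3 k A v w ⊔ Algebra.adjoin k {(u * aeval ![A, v, w] G')⁻¹} :=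
    le_sup_left
  have l4 : Algebra.adjoin k {(u * aeval ![A, v, w] G')⁻¹} ≤
    K3 k A v w ⊔ Algebra.adjoin k {(u * aeval ![A, v, w] G')⁻¹} := le_sup_right
  apply le_antisymm
  · refine sup_le l1 (Algebra.adjoin_le ?_)
    rintro r hr
    rw [Set.mem_singleton_iff] at hr
    rw [hr, mul_inv]
    exact mul_mem (l1 hu.2) (l2 (Algebra.subset_adjoin (Set.mem_singleton _)))
  · refine sup_le l3 (Algebra.adjoin_le ?_)
    rintro r hr
    rw [Set.mem_singleton_iff] at hr
    have e : (aeval ![A, v, w] G')⁻¹ = u * (u * aeval ![A, v, w] G')⁻¹ := by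
      rw [mul_inv, ← mul_assoc, mul_inv_cancel₀ hu0, one_mul]
    rw [hr, e]
    exact mul_mem (l3 hu.1) (l4 (Algebra.subset_adjoin (Set.mem_singleton _)))

theorem N9_neg {S : Subalgebra k K} {x : K} (hx : N8_U S x) : N8_U S (-x) :=
  ⟨neg_mem hx.1, by rw [inv_neg]; exact neg_mem hx.2⟩

theorem N9_one (S : Subalgebra k K) : N8_U S (1 : K) :=
  ⟨one_mem S, by rw [inv_one]; exact one_mem S⟩

theorem N9_xp {i j : Fin 3} (h : i ≠ j) (p : ℕ) : (X i - X j ^ p : MvPolynomial (Fin 3) k) ≠ 0 :=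
  (prime_X_sub _ _ (N3_vars_pow h p)).ne_zero

theorem N9_uT : uT k ≠ 0 := by
  unfold uT
  exact mul_ne_zero (mul_ne_zero (prime_X 0).ne_zero (prime_X 1).ne_zero) (prime_X 2).ne_zero

theorem N9_den (f : Fin 6) : uT k * den k f ≠ 0 := by
  refine mul_ne_zero N9_uT ?_
  fin_cases f
  · exact mul_ne_zero prime_pD.ne_zero prime_pE.ne_zero
  · exact mul_ne_zero prime_pB.ne_zero prime_pE.ne_zero
  · exact mul_ne_zero prime_pD.ne_zero prime_pE.ne_zero
  · exact mul_ne_zero prime_pB.ne_zero prime_pD.ne_zero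
  · exact mul_ne_zero prime_pB.ne_zero prime_pE.ne_zero
  · exact mul_ne_zero prime_pB.ne_zero prime_pD.ne_zero

theorem N9_mden (p : ℕ) (i : Fin 3) : uT k * mden k p i ≠ 0 := by
  refine mul_ne_zero N9_uT ?_
  have h1 : (X 0 - 1 : MvPolynomial (Fin 3) k) ≠ 0 := (prime_X_sub 0 1 (N3_vars_one 0)).ne_zero
  fin_cases i
  · exact mul_ne_zero (mul_ne_zero prime_pB.ne_zero prime_pD.ne_zero)
      (mul_ne_zero (N9_xp (by decide) p) (N9_xp (by decide) p))
  · exact mul_ne_zero (mul_ne_zero prime_pB.ne_zero prime_pE.ne_zero)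
      (mul_ne_zero h1 (N9_xp (by decide) p))
  · exact mul_ne_zero (mul_ne_zero prime_pD.ne_zero prime_pE.ne_zero)
      (mul_ne_zero h1 (N9_xp (by decide) p))

/-- In the frame `f` the denominator `den f` is `(w_f - 1)(v_f - w_f)` up to a unit of the
torus. -/
theorem frame_den (p : ℕ) {A v w : K} (h : AlgebraicIndependent k ![A, v, w]) (f : Fin 6) :
    Fr (fa p A v w f) (fv v w f) (fw v w f) (uT k * (pD k * pE k)) =
      Fr A v w (uT k * den k f) := by
  obtain ⟨hA, hv, hw, -⟩ := N8_ne h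
  have hK := frame_K3 (k := k) p hv hw hA f
  have n1 := N9_ne (frame_ind p h f) (N9_den (k := k) 0)
  have n2 := N9_ne h (N9_den (k := k) f)
  have uv := N8_U1 (k := k) A v w
  have uw := N8_U2 (k := k) A v w
  fin_cases f
  · rfl
  · refine N9_key hK (N9_neg (N9_one _)) ?_ n1 n2
    simp [fa, fv, fw, den, pB, pD, pE]
    ring
  · refine N9_key hK ((uv.inv).pow 2) ?_ n1 n2
    simp [fa, fv, fw, den, pB, pD, pE]
    field_simp
    ring
  · refine N9_key hK (N9_neg ((uv.inv).pow 2)) ?_ n1 n2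
    simp [fa, fv, fw, den, pB, pD, pE]
    field_simp
    ring
  · refine N9_key hK (N9_neg ((uw.inv).pow 2)) ?_ n1 n2
    simp [fa, fv, fw, den, pB, pD, pE]
    field_simp
    ring
  · refine N9_key hK (N9_neg ((uw.inv).pow 2)) ?_ n1 n2
    simp [fa, fv, fw, den, pB, pD, pE]
    field_simp
    ring

/-- The denominators of the swapped frames `(a; w, v)`: for the frames `0, 2, 4` with swaps
`1, 3, 5`. -/
theorem frame_den_swap (p : ℕ) {A v w : K} (h : AlgebraicIndependent k ![A, v, w]) :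
    Fr A v w (uT k * (pB k * pE k)) = Fr A v w (uT k * den k 1) ∧
    Fr (fa p A v w 2) (fv v w 2) (fw v w 2) (uT k * (pB k * pE k)) =
      Fr A v w (uT k * den k 3) ∧
    Fr (fa p A v w 4) (fv v w 4) (fw v w 4) (uT k * (pB k * pE k)) =
      Fr A v w (uT k * den k 5) := by
  obtain ⟨hA, hv, hw, -⟩ := N8_ne h
  have uv := N8_U1 (k := k) A v w
  have uw := N8_U2 (k := k) A v w
  refine ⟨rfl, ?_, ?_⟩
  · refine N9_key (frame_K3 (k := k) p hv hw hA 2) ((uv.inv).pow 2) ?_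
      (N9_ne (frame_ind p h 2) (N9_den (k := k) 1)) (N9_ne h (N9_den (k := k) 3))
    simp [fa, fv, fw, den, pB, pD, pE]
    field_simp
    ring
  · refine N9_key (frame_K3 (k := k) p hv hw hA 4) ((uw.inv).pow 2) ?_
      (N9_ne (frame_ind p h 4) (N9_den (k := k) 1)) (N9_ne h (N9_den (k := k) 5))
    simp [fa, fv, fw, den, pB, pD, pE]
    field_simp
    ring

/-- The denominators of the charts `M` in the frames `0, 2, 4`. -/
theorem frame_mden (p : ℕ) {A v w : K} (h : AlgebraicIndependent k ![A, v, w]) :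
    Fr (fa p A v w 2) (fv v w 2) (fw v w 2) (uT k * mden k p 0) =
      Fr A v w (uT k * mden k p 1) ∧
    Fr (fa p A v w 4) (fv v w 4) (fw v w 4) (uT k * mden k p 0) =
      Fr A v w (uT k * mden k p 2) := by
  obtain ⟨hA, hv, hw, -⟩ := N8_ne h
  have uv := N8_U1 (k := k) A v w
  have uw := N8_U2 (k := k) A v w
  refine ⟨?_, ?_⟩
  · refine N9_key (frame_K3 (k := k) p hv hw hA 2) ((uv.inv).pow (2 + 2 * p)) ?_
      (N9_ne (frame_ind p h 2) (N9_mden (k := k) p 0)) (N9_ne h (N9_mden (k := k) p 1))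
    simp [fa, fv, fw, mden, pB, pD, pE, div_pow]
    field_simp
    ring
  · refine N9_key (frame_K3 (k := k) p hv hw hA 4) (N9_neg ((uw.inv).pow (2 + 2 * p))) ?_
      (N9_ne (frame_ind p h 4) (N9_mden (k := k) p 0)) (N9_ne h (N9_mden (k := k) p 2))
    simp [fa, fv, fw, mden, pB, pD, pE, div_pow]
    field_simp
    ring

end H1F
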