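import Pool.Agent.Lib.H1F.N.N14
import Pool.Agent.Lib.H1F.N.N9
import Pool.Agent.Lib.H1F.N.N19
import Pool.Agent.Lib.H1F.N.N20
import Pool.Agent.Lib.H1F.N.N21

/-!
# H1F, chunk N22

The Cousin theorem: `H¹(V⁺, O) = 0` (as far as it is needed).
-/

open MvPolynomial

namespace H1F

variable {k K : Type*} [Field k] [Field K] [Algebra k K]

theorem N22_K1_le_ON (a v w : K) : K1 k a ≤ ON k a v w := by
  refine Algebra.adjoin_le ?_
  rintro x (hx | hx)
  · rw [hx]; exact Algebra.subset_adjoin (by simp)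
  · rw [hx]; exact Algebra.subset_adjoin (by simp)

theorem N22_K1_le_K3 (a v w : K) : K1 k a ≤ K3 k a v w := by
  refine Algebra.adjoin_le ?_
  rintro x (hx | hx)
  · rw [hx]; exact Algebra.subset_adjoin (by simp)
  · rw [hx]; exact Algebra.subset_adjoin (by simp)

theorem N22_mem_sup {S T : Subalgebra k K} {x : K} (hx : x ∈ S) : x ∈ S ⊔ T :=
  (le_sup_left : S ≤ S ⊔ T) hx

/-- the last step, for one frame -/
theorem N22_frame {a v w : K} (h : AlgebraicIndependent k ![a, v, w]) {g G₀ gx gf gn : K}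
    (hg : g ∈ K1 k a) (h0 : G₀ = gx - g) (h1 : gx - gf ∈ ON k a v w)
    (h2 : gf - gn ∈ NI k a v w) : G₀ - gn ∈ NI k a v w := by
  obtain ⟨-, -, -, -, hv1, -, -, -, -⟩ := ind_ne h
  have hle : ON k a v w ≤ NI k a v w :=
    N20_ON_le_NI a v w (div_mul_cancel₀ _ (sub_ne_zero.2 hv1))
  have h3 := add_mem (sub_mem (hle h1) (hle (N22_K1_le_ON a v w hg))) h2
  have h4 : gx - gf - g + (gf - gn) = G₀ - gn := by rw [h0]; ring
  rwa [h4] at h3

/-- `xsys` for a frame -/
theorem N22_xsys (p : ℕ) (hp : 2 ≤ p) {A v w : K} (h : AlgebraicIndependent k ![A, v, w])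
    {G : Ch → K} (hG : Cocycle k p A v w G) {GF : Fin 6 → K} (hF : ∀ f,
      GF f - G (.NI f) ∈ ring k p A v w (.NI f) ∧ GF f - G (.NII f) ∈ ring k p A v w (.NII f))
    {GT : K} (f f' : Fin 6) (m : Fin 3)
    (hfa : fa p A v w f' = fa p A v w f) (hfv : fv v w f' = fw v w f)
    (hfw : fw v w f' = fv v w f)
    (hm : ring k p A v w (.M m) = MM k p (fa p A v w f) (fv v w f) (fw v w f))
    (h1 : GT - GF f ∈ Fr (fa p A v w f) (fv v w f) (fw v w f) (uT k * (pD k * pE k)))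
    (h2 : GT - GF f' ∈ Fr (fa p A v w f) (fv v w f) (fw v w f) (uT k * (pB k * pE k)))
    (hM : GT - G (.M m) ∈ Fr (fa p A v w f) (fv v w f) (fw v w f) (uT k * mden k p 0)) :
    ∃ Gx, Gx - GT ∈ K3 k A v w ∧ Gx - GF f ∈ ON k (fa p A v w f) (fv v w f) (fw v w f) ∧
      Gx - GF f' ∈ ON k (fa p A v w f') (fv v w f') (fw v w f') := by
  obtain ⟨hA0, hv0, hw0, -⟩ := ind_ne h
  have e1 : ring k p A v w (.NI f) = NI k (fa p A v w f) (fv v w f) (fw v w f) := rfl
  have e2 : ring k p A v w (.NI f') = NI k (fa p A v w f) (fw v w f) (fv v w f) := by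
    rw [← hfa, ← hfv, ← hfw]
    rfl
  obtain ⟨Gx, g1, g2, g3⟩ := xsys p hp (frame_ind p h f) h1 h2 hM
    (by
      have := GF_NI p h hG hF f f'
      rwa [e1, e2] at this)
    (by
      have h3 := hG (.NI f) (.M m) trivial trivial
      rw [e1, hm] at h3
      have h4 := (hF f).1
      rw [e1] at h4
      exact N12_sub_mem (N22_mem_sup h4) h3)
    (by
      have h3 := hG (.NI f') (.M m) trivial trivial
      rw [e2, hm] at h3
      have h4 := (hF f').1
      rw [e2] at h4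
      exact N12_sub_mem (N22_mem_sup h4) h3)
  refine ⟨Gx, ?_, g2, ?_⟩
  · rwa [frame_K3 p hv0 hw0 hA0 f] at g1
  · rw [hfa, hfv, hfw]
    exact g3

/-- Assembly: `exists_GF`, `exists_GT`, `xsys` in the frames `0, 2, 4` (with swaps `1, 3, 5` and
`M 0, M 1, M 2`; the hypotheses by `frame_den`, `frame_den_swap`, `frame_mden`, `frame_K3`, `GF_NI`),
`pairE` for the pairs (0,2), (1,4), (3,5) [the triple `(a, v, w)` = frame `0, 1, 3`], `monoE`. -/
theorem cousin (p : ℕ) [Fact p.Prime] [CharP k p] (hp : 5 ≤ p) {A v w : K}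
    (h : AlgebraicIndependent k ![A, v, w]) {G : Ch → K} (hG : Cocycle k p A v w G) :
    ∃ G₀ : K, (∀ f, G₀ - G (.NI f) ∈ ring k p A v w (.NI f)) ∧
      G₀ - G .P3 ∈ ring k p A v w .P3 := by
  have hp2 : 2 ≤ p := by omega
  obtain ⟨hA0, hv0, hw0, -⟩ := ind_ne h
  obtain ⟨GF, hF⟩ := exists_GF p h hG
  obtain ⟨GT, hT, hP3, hM⟩ := exists_GT p h hG hF
  obtain ⟨d1, d2, d3⟩ := frame_den_swap p h
  obtain ⟨m1, m2⟩ := frame_mden p h
  -- the three open sets
  obtain ⟨Gx, x1, x2, x3⟩ := N22_xsys p hp2 h hG hF (GT := GT) 0 1 0 rfl rfl rfl rfl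
    (by rw [frame_den p h 0]; exact hT 0) (hT 1) (hM 0)
  obtain ⟨Gy, y1, y2, y3⟩ := N22_xsys p hp2 h hG hF (GT := GT) 2 3 1 rfl rfl rfl rfl
    (by rw [frame_den p h 2]; exact hT 2) (by rw [d2]; exact hT 3) (by rw [m1]; exact hM 1)
  obtain ⟨Gz, z1, z2, z3⟩ := N22_xsys p hp2 h hG hF (GT := GT) 4 5 2 rfl rfl rfl rfl
    (by rw [frame_den p h 4]; exact hT 4) (by rw [d3]; exact hT 5) (by rw [m2]; exact hM 2)
  -- the pairs
  have h12 : Gx - Gy ∈ K2 k A v :=
    pairE p hp2 (frame_ind p h 0) (by rw [frame_K3 p hv0 hw0 hA0 0]; exact x1)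
      (by rw [frame_K3 p hv0 hw0 hA0 0]; exact y1) x2 y2 (GF_NI p h hG hF 0 2)
  have h13 : Gx - Gz ∈ K2 k A w :=
    pairE p hp2 (frame_ind p h 1) (by rw [frame_K3 p hv0 hw0 hA0 1]; exact x1)
      (by rw [frame_K3 p hv0 hw0 hA0 1]; exact z1) x3 z2 (GF_NI p h hG hF 1 4)
  have h23 : Gy - Gz ∈ K2 k (A / v ^ p) (w / v) := by
    have ea : fa p A v w 3 / fv v w 3 ^ p = fa p A v w 5 := by
      change A / v ^ p / (w / v) ^ p = A / w ^ p
      rw [div_pow]
      field_simp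
    have ev : (fv v w 3)⁻¹ = fv v w 5 := by
      change (w / v)⁻¹ = v / w
      rw [inv_div]
    have ew : fw v w 3 / fv v w 3 = fw v w 5 := by
      change v⁻¹ / (w / v) = w⁻¹
      field_simp
    refine pairE p hp2 (frame_ind p h 3) (GT := GT) (G1 := GF 3) (G2 := GF 5)
      (by rw [frame_K3 p hv0 hw0 hA0 3]; exact y1)
      (by rw [frame_K3 p hv0 hw0 hA0 3]; exact z1) y3 ?_ ?_
    · rw [ea, ev, ew]
      exact z3
    · rw [ea, ev, ew]
      exact GF_NI p h hG hF 3 5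
  obtain ⟨a, ha, b, hb, c, hc, e12, e13⟩ := monoE p (by omega) h h12 h13
    (by
      have e : Gx - Gz - (Gx - Gy) = Gy - Gz := by ring
      rw [e]
      exact h23)
  refine ⟨Gx - a, ?_, ?_⟩
  · have ey : Gx - a = Gy - b := by linear_combination e12
    have ez : Gx - a = Gz - c := by linear_combination e13
    intro f
    fin_cases f
    · exact N22_frame (frame_ind p h 0) ha rfl x2 (hF 0).1
    · exact N22_frame (frame_ind p h 1) ha rfl x3 (hF 1).1
    · exact N22_frame (frame_ind p h 2) hb ey y2 (hF 2).1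
    · exact N22_frame (frame_ind p h 3) hb ey y3 (hF 3).1
    · exact N22_frame (frame_ind p h 4) hc ez z2 (hF 4).1
    · exact N22_frame (frame_ind p h 5) hc ez z3 (hF 5).1
  · have hK := K3_le_P3 p h
    have h1 := add_mem (sub_mem (hK x1) (hK (N22_K1_le_K3 A v w ha))) hP3
    have h2 : Gx - GT - a + (GT - G .P3) = Gx - a - G .P3 := by ring
    rwa [h2] at h1

end H1F
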