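import Pool.Agent.Lib.H1F.N.N11

/-!
# H1F, chunk N33

Values of elements of `K` at points of the chart `P3`.
-/

open MvPolynomial

namespace H1F

variable {k K : Type*} [Field k] [Field K] [Algebra k K]


/-- `r` is regular at the point `x` (of the affine space with coordinates `β, δ, y`) and has
there the value `c`. -/
def HasVal (k : Type*) {K : Type*} [Field k] [Field K] [Algebra k K] {F : Type*} [CommRing F]
    [Algebra k F] (β δ y : K) (x : Fin 3 → F) (r : K) (c : F) : Prop :=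
  ∃ P U : MvPolynomial (Fin 3) k, IsUnit (aeval x U) ∧ aeval ![β, δ, y] U ≠ 0 ∧
    r * aeval ![β, δ, y] U = aeval ![β, δ, y] P ∧ c * aeval x U = aeval x P

variable {F : Type*} [CommRing F] [Algebra k F] {β δ y : K} {x : Fin 3 → F}

theorem HasVal.unique [Nontrivial F] (h : AlgebraicIndependent k ![β, δ, y]) {r : K} {c c' : F}
    (h1 : HasVal k β δ y x r c) (h2 : HasVal k β δ y x r c') : c = c' := by
  obtain ⟨P, U, hu, hn, e1, e2⟩ := h1
  obtain ⟨P', U', hu', hn', e1', e2'⟩ := h2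
  have h3 : P * U' = P' * U := by
    apply h
    show aeval ![β, δ, y] (P * U') = aeval ![β, δ, y] (P' * U)
    rw [map_mul, map_mul, ← e1, ← e1']
    ring
  have h4 := congrArg (MvPolynomial.aeval x) h3
  rw [map_mul, map_mul, ← e2, ← e2'] at h4
  have h5 : (c - c') * (MvPolynomial.aeval x U * MvPolynomial.aeval x U') = 0 := by
    linear_combination h4
  exact sub_eq_zero.1 ((hu.mul hu').mul_left_eq_zero.1 h5)

theorem HasVal.add {r s : K} {c d : F} (h1 : HasVal k β δ y x r c) (h2 : HasVal k β δ y x s d) :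
    HasVal k β δ y x (r + s) (c + d) := by
  obtain ⟨P, U, hu, hn, e1, e2⟩ := h1
  obtain ⟨P', U', hu', hn', e1', e2'⟩ := h2
  refine ⟨P * U' + P' * U, U * U', ?_, ?_, ?_, ?_⟩
  · rw [map_mul]
    exact hu.mul hu'
  · rw [map_mul]
    exact mul_ne_zero hn hn'
  · rw [map_add, map_mul, map_mul, map_mul, ← e1, ← e1']
    ring
  · rw [map_add, map_mul, map_mul, map_mul, ← e2, ← e2']
    ring

theorem HasVal.mul {r s : K} {c d : F} (h1 : HasVal k β δ y x r c) (h2 : HasVal k β δ y x s d) :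
    HasVal k β δ y x (r * s) (c * d) := by
  obtain ⟨P, U, hu, hn, e1, e2⟩ := h1
  obtain ⟨P', U', hu', hn', e1', e2'⟩ := h2
  refine ⟨P * P', U * U', ?_, ?_, ?_, ?_⟩
  · rw [map_mul]
    exact hu.mul hu'
  · rw [map_mul]
    exact mul_ne_zero hn hn'
  · rw [map_mul, map_mul, ← e1, ← e1']
    ring
  · rw [map_mul, map_mul, ← e2, ← e2']
    ring

theorem HasVal.inv {r : K} (hr : r ≠ 0) {c : Fˣ} (h1 : HasVal k β δ y x r (c : F)) :
    HasVal k β δ y x r⁻¹ ((c⁻¹ : Fˣ) : F) := by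
  obtain ⟨P, U, hu, hn, e1, e2⟩ := h1
  refine ⟨U, P, ?_, ?_, ?_, ?_⟩
  · rw [← e2]
    exact c.isUnit.mul hu
  · rw [← e1]
    exact mul_ne_zero hr hn
  · rw [← e1, inv_mul_cancel_left₀ hr]
  · rw [← e2, Units.inv_mul_cancel_left]

theorem HasVal.aeval (P : MvPolynomial (Fin 3) k) :
    HasVal k β δ y x (MvPolynomial.aeval ![β, δ, y] P) (MvPolynomial.aeval x P) := by
  refine ⟨P, 1, ?_, ?_, ?_, ?_⟩
  · rw [map_one]
    exact isUnit_one
  · rw [map_one]
    exact one_ne_zero
  · rw [map_one, mul_one]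
  · rw [map_one, mul_one]

/-- All elements of a subalgebra generated by `s` have values in the subalgebra `E` of `F` if the
elements of `s` do. -/
theorem HasVal.of_adjoin (E : Subalgebra k F) {s : Set K}
    (hs : ∀ r ∈ s, ∃ c ∈ E, HasVal k β δ y x r c) {r : K} (hr : r ∈ Algebra.adjoin k s) :
    ∃ c ∈ E, HasVal k β δ y x r c := by
  induction hr using Algebra.adjoin_induction with
  | mem r hr => exact hs r hr
  | algebraMap a =>
    refine ⟨algebraMap k F a, E.algebraMap_mem a, ?_⟩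
    have h := HasVal.aeval (β := β) (δ := δ) (y := y) (x := x) (C a : MvPolynomial (Fin 3) k)
    rwa [algHom_C, algHom_C] at h
  | add r s _ _ hr hs =>
    obtain ⟨c, hc, h1⟩ := hr
    obtain ⟨d, hd, h2⟩ := hs
    exact ⟨c + d, E.add_mem hc hd, h1.add h2⟩
  | mul r s _ _ hr hs =>
    obtain ⟨c, hc, h1⟩ := hr
    obtain ⟨d, hd, h2⟩ := hs
    exact ⟨c * d, E.mul_mem hc hd, h1.mul h2⟩

end H1F
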