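import Pool.Agent.Lib.H1F.N.N33
import Pool.Agent.Lib.H1F.N.N10

/-!
# H1F, chunk N34

The three curves `C_z, C_y, C_x` in the chart `P3` and the values of the chart rings on them.
-/

open MvPolynomial

namespace H1F

variable {k K : Type*} [Field k] [Field K] [Algebra k K]


/-- The generic point of `C_z`: `β = 0, δ = T, y = 0`. -/
noncomputable def xz (k : Type*) [Field k] : Fin 3 → RatFunc k := ![0, RatFunc.X, 0]

/-- The generic point of `C_y`: `β = T, δ = 0, y = - T ^ (p-3)`. -/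
noncomputable def xy (k : Type*) [Field k] (p : ℕ) : Fin 3 → RatFunc k :=
  ![RatFunc.X, 0, -RatFunc.X ^ (p - 3)]

/-- The generic point of `C_x`: `β = δ = T, y = T ^ (p-3)`. -/
noncomputable def xx (k : Type*) [Field k] (p : ℕ) : Fin 3 → RatFunc k :=
  ![RatFunc.X, RatFunc.X, RatFunc.X ^ (p - 3)]

/-- `k[1/T]`. -/
noncomputable def Einf (k : Type*) [Field k] : Subalgebra k (RatFunc k) :=
  Algebra.adjoin k {(RatFunc.X : RatFunc k)⁻¹}

/-- `k[T, 1/(1+T)]`. -/
noncomputable def Ezero (k : Type*) [Field k] : Subalgebra k (RatFunc k) :=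
  Algebra.adjoin k {(RatFunc.X : RatFunc k), (1 + RatFunc.X : RatFunc k)⁻¹}

theorem N34_C (c : k) : algebraMap k (RatFunc k) c =
    algebraMap (Polynomial k) (RatFunc k) (Polynomial.C c) := by
  rw [IsScalarTower.algebraMap_apply k (Polynomial k) (RatFunc k)]
  rfl

theorem N34_X_ne : (RatFunc.X : RatFunc k) ≠ 0 := RatFunc.X_ne_zero

theorem N34_1X_ne : (1 + RatFunc.X : RatFunc k) ≠ 0 := by
  intro h
  have h1 : (1 + RatFunc.X : RatFunc k) =
      algebraMap (Polynomial k) (RatFunc k) (1 + Polynomial.X) := by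
    rw [map_add, map_one, RatFunc.algebraMap_X]
  rw [h1, map_eq_zero_iff _ (RatFunc.algebraMap_injective k)] at h
  have h2 := congrArg (fun q : Polynomial k => q.coeff 1) h
  simp [Polynomial.coeff_one] at h2

theorem N34_inf {c : RatFunc k} (h : c ∈ Einf k) : ∃ (m : ℕ) (a : Polynomial k),
    a.natDegree ≤ m ∧ c * RatFunc.X ^ m = algebraMap (Polynomial k) (RatFunc k) a := by
  unfold Einf at h
  induction h using Algebra.adjoin_induction with
  | mem r hr =>
    rw [Set.mem_singleton_iff] at hr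
    refine ⟨1, 1, by simp, ?_⟩
    rw [hr, pow_one, inv_mul_cancel₀ N34_X_ne, map_one]
  | algebraMap r => exact ⟨0, Polynomial.C r, by simp, by rw [pow_zero, mul_one, N34_C]⟩
  | add r s _ _ hr hs =>
    obtain ⟨m, a, h1, h2⟩ := hr
    obtain ⟨n, b, h3, h4⟩ := hs
    refine ⟨m + n, a * Polynomial.X ^ n + b * Polynomial.X ^ m, ?_, ?_⟩
    · refine (Polynomial.natDegree_add_le _ _).trans (max_le ?_ ?_)
      · refine Polynomial.natDegree_mul_le.trans ?_
        rw [Polynomial.natDegree_X_pow]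
        omega
      · refine Polynomial.natDegree_mul_le.trans ?_
        rw [Polynomial.natDegree_X_pow]
        omega
    · rw [map_add, map_mul, map_mul, map_pow, map_pow, RatFunc.algebraMap_X, ← h2, ← h4]
      ring
  | mul r s _ _ hr hs =>
    obtain ⟨m, a, h1, h2⟩ := hr
    obtain ⟨n, b, h3, h4⟩ := hs
    refine ⟨m + n, a * b, Polynomial.natDegree_mul_le.trans (by omega), ?_⟩
    rw [map_mul, ← h2, ← h4]
    ring

theorem N34_zero {c : RatFunc k} (h : c ∈ Ezero k) : ∃ (m : ℕ) (a : Polynomial k),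
    c * (1 + RatFunc.X) ^ m = algebraMap (Polynomial k) (RatFunc k) a := by
  unfold Ezero at h
  induction h using Algebra.adjoin_induction with
  | mem r hr =>
    rcases hr with hr | hr
    · exact ⟨0, Polynomial.X, by rw [hr, pow_zero, mul_one, RatFunc.algebraMap_X]⟩
    · rw [Set.mem_singleton_iff] at hr
      refine ⟨1, 1, ?_⟩
      rw [hr, pow_one, inv_mul_cancel₀ N34_1X_ne, map_one]
  | algebraMap r => exact ⟨0, Polynomial.C r, by rw [pow_zero, mul_one, N34_C]⟩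
  | add r s _ _ hr hs =>
    obtain ⟨m, a, h2⟩ := hr
    obtain ⟨n, b, h4⟩ := hs
    refine ⟨m + n, a * (1 + Polynomial.X) ^ n + b * (1 + Polynomial.X) ^ m, ?_⟩
    rw [map_add, map_mul, map_mul, map_pow, map_pow, map_add, map_one, RatFunc.algebraMap_X,
      ← h2, ← h4]
    ring
  | mul r s _ _ hr hs =>
    obtain ⟨m, a, h2⟩ := hr
    obtain ⟨n, b, h4⟩ := hs
    refine ⟨m + n, a * b, ?_⟩
    rw [map_mul, ← h2, ← h4]
    ring

/-- `k[1/T] ∩ k[T, 1/(1+T)] = k`. -/
theorem Einf_inf_Ezero {c : RatFunc k} (h1 : c ∈ Einf k) (h2 : c ∈ Ezero k) :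
    ∃ c₀ : k, c = algebraMap k (RatFunc k) c₀ := by
  obtain ⟨m, a, hd, ha⟩ := N34_inf h1
  obtain ⟨n, b, hb⟩ := N34_zero h2
  have h3 : a * (1 + Polynomial.X) ^ n = b * Polynomial.X ^ m := by
    apply RatFunc.algebraMap_injective k
    rw [map_mul, map_mul, map_pow, map_pow, map_add, map_one, RatFunc.algebraMap_X, ← ha, ← hb]
    ring
  have hcop : IsCoprime ((Polynomial.X : Polynomial k) ^ m) ((1 + Polynomial.X) ^ n) := by
    apply IsCoprime.pow
    exact ⟨-1, 1, by ring⟩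
  obtain ⟨q, hq⟩ : (Polynomial.X : Polynomial k) ^ m ∣ a := by
    refine hcop.dvd_of_dvd_mul_right ?_
    rw [h3]
    exact dvd_mul_left _ _
  have hXm : (RatFunc.X : RatFunc k) ^ m ≠ 0 := pow_ne_zero _ N34_X_ne
  by_cases hq0 : q = 0
  · rw [hq0, mul_zero] at hq
    rw [hq, map_zero] at ha
    refine ⟨0, ?_⟩
    rw [map_zero]
    exact (mul_eq_zero.1 ha).resolve_right hXm
  · have h4 : q.natDegree = 0 := by
      rw [hq, Polynomial.natDegree_mul (pow_ne_zero _ Polynomial.X_ne_zero) hq0,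
        Polynomial.natDegree_X_pow] at hd
      omega
    obtain ⟨c₀, hc₀⟩ := Polynomial.natDegree_eq_zero.1 h4
    refine ⟨c₀, ?_⟩
    rw [N34_C, hc₀]
    apply mul_right_cancel₀ hXm
    rw [ha, hq, map_mul, map_pow, RatFunc.algebraMap_X, mul_comm]

/-- the polynomial `A` in the coordinates of `P3` -/
noncomputable def N34_A (k : Type*) [Field k] (p : ℕ) : MvPolynomial (Fin 3) k :=
  1 + X 0 ^ (p - 1) * X 1 + X 0 * X 1 * (X 0 - X 1) * X 2

theorem N34_A_eval (p : ℕ) {A v w : K} (h : AlgebraicIndependent k ![A, v, w]) :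
    aeval ![v - 1, w - 1, yy p A v w] (N34_A k p) = A := by
  simp only [N34_A, map_pow, map_mul, map_sub, map_one, map_add, aeval_X, Matrix.cons_val_zero,
    Matrix.cons_val_one, Matrix.cons_val]
  exact (A_eq p h).symm

theorem N34_A_z (p : ℕ) (hp : 5 ≤ p) : aeval (xz k) (N34_A k p) = 1 := by
  simp only [N34_A, xz, map_pow, map_mul, map_sub, map_one, map_add, aeval_X,
    Matrix.cons_val_zero, Matrix.cons_val_one, Matrix.cons_val]
  rw [zero_pow (by omega)]
  ring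

theorem N34_A_y (p : ℕ) : aeval (xy k p) (N34_A k p) = 1 := by
  simp only [N34_A, xy, map_pow, map_mul, map_sub, map_one, map_add, aeval_X,
    Matrix.cons_val_zero, Matrix.cons_val_one, Matrix.cons_val]
  ring

theorem N34_A_x (p : ℕ) (hp : 5 ≤ p) : aeval (xx k p) (N34_A k p) = 1 + RatFunc.X ^ p := by
  simp only [N34_A, xx, map_pow, map_mul, map_sub, map_one, map_add, aeval_X,
    Matrix.cons_val_zero, Matrix.cons_val_one, Matrix.cons_val]
  obtain ⟨q, rfl⟩ : ∃ q, p = q + 1 := ⟨p - 1, by omega⟩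
  rw [Nat.add_sub_cancel]
  ring

theorem N34_char (p : ℕ) [Fact p.Prime] [CharP k p] :
    (1 + RatFunc.X : RatFunc k) ^ p = 1 + RatFunc.X ^ p := by
  have : CharP (RatFunc k) p := (Algebra.charP_iff k (RatFunc k) p).1 inferInstance
  rw [add_pow_char, one_pow]

/-- On `C_z`: the elements of `NI 0` have values in `k[1/T]`: `v-1 ↦ 0`, `(A-1)/(v-1) ↦ 0`,
`1/(w-1) ↦ 1/T`, `1/A ↦ 1`, `(w-1)/(w-v) ↦ 1`. -/
theorem val_z (p : ℕ) [Fact p.Prime] [CharP k p] (hp : 5 ≤ p) {A v w : K}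
    (h : AlgebraicIndependent k ![A, v, w]) {r : K} (hr : r ∈ ring k p A v w (.NI 0)) :
    ∃ c ∈ Einf k, HasVal k (v - 1) (w - 1) (yy p A v w) (xz k) r c := by
  obtain ⟨hA, hv, hw, hA1, hv1, hw1, hvw, -, -⟩ := ind_ne h
  have h1 : v - 1 ≠ 0 := sub_ne_zero.2 hv1
  have h2 : w - 1 ≠ 0 := sub_ne_zero.2 hw1
  have h3 : v - w ≠ 0 := sub_ne_zero.2 hvw
  have h3' : w - v ≠ 0 := sub_ne_zero.2 hvw.symm
  have hAe := A_eq p h
  have hX := N34_X_ne (k := k)
  refine HasVal.of_adjoin (Einf k) ?_ hr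
  rintro r (hr | hr | hr | hr | hr)
  · refine ⟨0, (Einf k).zero_mem, X 0, 1, ?_, ?_, ?_, ?_⟩
    · rw [map_one]; exact isUnit_one
    · rw [map_one]; exact one_ne_zero
    · rw [hr]
      simp [fv]
    · simp [xz]
  · refine ⟨0, (Einf k).zero_mem, X 0 ^ (p - 2) * X 1 + X 1 * (X 0 - X 1) * X 2, 1, ?_, ?_, ?_, ?_⟩
    · rw [map_one]; exact isUnit_one
    · rw [map_one]; exact one_ne_zero
    · have h4 : r = (A - 1) / (v - 1) := hr
      rw [h4, map_one, mul_one, div_eq_iff h1]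
      simp only [map_pow, map_mul, map_sub, map_add, aeval_X, Matrix.cons_val_zero,
        Matrix.cons_val_one, Matrix.cons_val]
      obtain ⟨q, rfl⟩ : ∃ q, p = q + 2 := ⟨p - 2, by omega⟩
      have h5 : q + 2 - 1 = q + 1 := rfl
      rw [h5] at hAe
      rw [Nat.add_sub_cancel]
      linear_combination hAe
    · simp only [xz, map_pow, map_mul, map_sub, map_add, map_one, aeval_X, Matrix.cons_val_zero,
        Matrix.cons_val_one, Matrix.cons_val]
      rw [zero_pow (by omega)]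
      ring
  · refine ⟨RatFunc.X⁻¹, Algebra.subset_adjoin rfl, 1, X 1, ?_, ?_, ?_, ?_⟩
    · rw [isUnit_iff_ne_zero]
      simpa [xz] using hX
    · simpa using h2
    · have h4 : r = (w - 1)⁻¹ := hr
      rw [h4]
      simp [h2]
    · simp [xz, hX]
  · refine ⟨1, (Einf k).one_mem, 1, N34_A k p, ?_, ?_, ?_, ?_⟩
    · rw [N34_A_z p hp]; exact isUnit_one
    · rw [N34_A_eval p h]; exact hA
    · have h4 : r = A⁻¹ := hr
      rw [h4, N34_A_eval p h, map_one, inv_mul_cancel₀ hA]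
    · rw [N34_A_z p hp, map_one, mul_one]
  · refine ⟨1, (Einf k).one_mem, X 1, X 1 - X 0, ?_, ?_, ?_, ?_⟩
    · rw [isUnit_iff_ne_zero]
      simpa [xz] using hX
    · simpa using h3'
    · have h4 : r = (w - 1) / (w - v) := hr
      rw [h4]
      simp [div_mul_cancel₀ _ h3']
    · simp [xz]

/-- On `C_y`: the elements of `NI 1`: `w-1 ↦ 0`, `(A-1)/(w-1) ↦ 0` (it is
`β^(p-1) + β (β-δ) y`), `1/(v-1) ↦ 1/T`, `1/A ↦ 1`, `(v-1)/(v-w) ↦ 1`. -/
theorem val_y (p : ℕ) [Fact p.Prime] [CharP k p] (hp : 5 ≤ p) {A v w : K}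
    (h : AlgebraicIndependent k ![A, v, w]) {r : K} (hr : r ∈ ring k p A v w (.NI 1)) :
    ∃ c ∈ Einf k, HasVal k (v - 1) (w - 1) (yy p A v w) (xy k p) r c := by
  obtain ⟨hA, hv, hw, hA1, hv1, hw1, hvw, -, -⟩ := ind_ne h
  have h1 : v - 1 ≠ 0 := sub_ne_zero.2 hv1
  have h2 : w - 1 ≠ 0 := sub_ne_zero.2 hw1
  have h3 : v - w ≠ 0 := sub_ne_zero.2 hvw
  have hAe := A_eq p h
  have hX := N34_X_ne (k := k)
  refine HasVal.of_adjoin (Einf k) ?_ hr
  rintro r (hr | hr | hr | hr | hr)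
  · refine ⟨0, (Einf k).zero_mem, X 1, 1, ?_, ?_, ?_, ?_⟩
    · rw [map_one]; exact isUnit_one
    · rw [map_one]; exact one_ne_zero
    · have h4 : r = w - 1 := hr
      rw [h4]
      simp
    · simp [xy]
  · refine ⟨0, (Einf k).zero_mem, X 0 ^ (p - 1) + X 0 * (X 0 - X 1) * X 2, 1, ?_, ?_, ?_, ?_⟩
    · rw [map_one]; exact isUnit_one
    · rw [map_one]; exact one_ne_zero
    · have h4 : r = (A - 1) / (w - 1) := hr
      rw [h4, map_one, mul_one, div_eq_iff h2]
      simp only [map_pow, map_mul, map_sub, map_add, aeval_X, Matrix.cons_val_zero,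
        Matrix.cons_val_one, Matrix.cons_val]
      linear_combination hAe
    · simp only [xy, map_pow, map_mul, map_sub, map_add, map_one, aeval_X, Matrix.cons_val_zero,
        Matrix.cons_val_one, Matrix.cons_val]
      obtain ⟨q, rfl⟩ : ∃ q, p = q + 3 := ⟨p - 3, by omega⟩
      have h5 : q + 3 - 1 = q + 2 := rfl
      rw [h5, Nat.add_sub_cancel]
      ring
  · refine ⟨RatFunc.X⁻¹, Algebra.subset_adjoin rfl, 1, X 0, ?_, ?_, ?_, ?_⟩
    · rw [isUnit_iff_ne_zero]
      simpa [xy] using hX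
    · simpa using h1
    · have h4 : r = (v - 1)⁻¹ := hr
      rw [h4]
      simp [h1]
    · simp [xy, hX]
  · refine ⟨1, (Einf k).one_mem, 1, N34_A k p, ?_, ?_, ?_, ?_⟩
    · rw [N34_A_y p]; exact isUnit_one
    · rw [N34_A_eval p h]; exact hA
    · have h4 : r = A⁻¹ := hr
      rw [h4, N34_A_eval p h, map_one, inv_mul_cancel₀ hA]
    · rw [N34_A_y p, map_one, mul_one]
  · refine ⟨1, (Einf k).one_mem, X 0, X 0 - X 1, ?_, ?_, ?_, ?_⟩
    · rw [isUnit_iff_ne_zero]
      simpa [xy] using hX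
    · simpa using h3
    · have h4 : r = (v - 1) / (v - w) := hr
      rw [h4]
      simp [div_mul_cancel₀ _ h3]
    · simp [xy]

/-- On `C_x`: the elements of `NI 3`: `w/v - 1 ↦ 0`, `(A/v^p-1)/(w/v-1) ↦ 0` (it is
`v^(1-p) (β^(p-1) - β δ y)`), `1/(1/v-1) = -(1+β)/β ↦ -1-1/T`, `v^p/A ↦ 1`,
`(1/v-1)/(1/v-w/v) = β/δ ↦ 1`. -/
theorem val_x (p : ℕ) [Fact p.Prime] [CharP k p] (hp : 5 ≤ p) {A v w : K}
    (h : AlgebraicIndependent k ![A, v, w]) {r : K} (hr : r ∈ ring k p A v w (.NI 3)) :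
    ∃ c ∈ Einf k, HasVal k (v - 1) (w - 1) (yy p A v w) (xx k p) r c := by
  obtain ⟨hA, hv, hw, hA1, hv1, hw1, hvw, -, -⟩ := ind_ne h
  have h1 : v - 1 ≠ 0 := sub_ne_zero.2 hv1
  have h2 : w - 1 ≠ 0 := sub_ne_zero.2 hw1
  have h3 : v - w ≠ 0 := sub_ne_zero.2 hvw
  have h3' : w - v ≠ 0 := sub_ne_zero.2 hvw.symm
  have hAe := A_eq p h
  have hX := N34_X_ne (k := k)
  have hX1 := N34_1X_ne (k := k)
  have hvp : v ^ p ≠ 0 := pow_ne_zero _ hv
  have e1 : w / v - 1 = (w - v) / v := by field_simp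
  have e2 : v⁻¹ - 1 = -((v - 1) / v) := by
    field_simp
    ring
  have e3 : v⁻¹ - w / v = -((w - 1) / v) := by
    field_simp
    ring
  have : CharP K p := (Algebra.charP_iff k K p).1 inferInstance
  have hvp1 : v ^ p = (v - 1) ^ p + 1 := by
    rw [sub_pow_char, one_pow, sub_add_cancel]
  refine HasVal.of_adjoin (Einf k) ?_ hr
  rintro r (hr | hr | hr | hr | hr)
  · refine ⟨0, (Einf k).zero_mem, X 1 - X 0, 1 + X 0, ?_, ?_, ?_, ?_⟩
    · rw [isUnit_iff_ne_zero]
      simpa [xx] using hX1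
    · simpa using hv
    · have h4 : r = w / v - 1 := hr
      rw [h4, e1]
      simp [div_mul_cancel₀ _ hv]
    · simp [xx]
  · refine ⟨0, (Einf k).zero_mem, (X 0 ^ (p - 1) - X 0 * X 1 * X 2) * (1 + X 0), (1 + X 0) ^ p,
      ?_, ?_, ?_, ?_⟩
    · rw [isUnit_iff_ne_zero]
      simp only [map_pow, map_add, map_one, aeval_X, xx, Matrix.cons_val_zero]
      exact pow_ne_zero _ hX1
    · simp only [map_pow, map_add, map_one, aeval_X, Matrix.cons_val_zero, add_sub_cancel]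
      exact hvp
    · have h4 : r = (A / v ^ p - 1) / (w / v - 1) := hr
      have h5 : (A - v ^ p) = (w - v) * ((v - 1) ^ (p - 1) - (v - 1) * (w - 1) * yy p A v w) := by
        obtain ⟨q, rfl⟩ : ∃ q, p = q + 1 := ⟨p - 1, by omega⟩
        rw [Nat.add_sub_cancel] at hAe ⊢
        linear_combination hAe - hvp1
      have h6 : (A / v ^ p - 1) / (w / v - 1) = ((A - v ^ p) / (w - v)) * v / v ^ p := by
        rw [e1]
        field_simp
      rw [h4, h6, h5, mul_div_cancel_left₀ _ h3']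
      simp only [map_pow, map_mul, map_sub, map_add, map_one, aeval_X, Matrix.cons_val_zero,
        Matrix.cons_val_one, Matrix.cons_val, add_sub_cancel]
      rw [div_mul_cancel₀ _ hvp]
    · simp only [xx, map_pow, map_mul, map_sub, map_add, map_one, aeval_X, Matrix.cons_val_zero,
        Matrix.cons_val_one, Matrix.cons_val]
      obtain ⟨q, rfl⟩ : ∃ q, p = q + 3 := ⟨p - 3, by omega⟩
      have h5 : q + 3 - 1 = q + 2 := rfl
      rw [h5, Nat.add_sub_cancel]
      ring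
  · refine ⟨-1 - RatFunc.X⁻¹, ?_, -(1 + X 0), X 0, ?_, ?_, ?_, ?_⟩
    · exact (Einf k).sub_mem ((Einf k).neg_mem (Einf k).one_mem) (Algebra.subset_adjoin rfl)
    · rw [isUnit_iff_ne_zero]
      simpa [xx] using hX
    · simpa using h1
    · have h4 : r = (v⁻¹ - 1)⁻¹ := hr
      rw [h4, e2, inv_neg, inv_div]
      simp only [map_neg, map_add, map_one, aeval_X, Matrix.cons_val_zero, add_sub_cancel]
      rw [neg_mul, div_mul_cancel₀ _ h1]
    · simp only [xx, map_neg, map_add, map_one, aeval_X, Matrix.cons_val_zero]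
      field_simp
      ring
  · refine ⟨1, (Einf k).one_mem, (1 + X 0) ^ p, N34_A k p, ?_, ?_, ?_, ?_⟩
    · rw [N34_A_x p hp, ← N34_char p, isUnit_iff_ne_zero]
      exact pow_ne_zero _ hX1
    · rw [N34_A_eval p h]; exact hA
    · have h4 : r = (A / v ^ p)⁻¹ := hr
      rw [h4, N34_A_eval p h, inv_div, div_mul_cancel₀ _ hA]
      simp
    · rw [N34_A_x p hp, ← N34_char p]
      simp [xx]
  · refine ⟨1, (Einf k).one_mem, X 0, X 1, ?_, ?_, ?_, ?_⟩
    · rw [isUnit_iff_ne_zero]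
      simpa [xx] using hX
    · simpa using h2
    · have h4 : r = (v⁻¹ - 1) / (v⁻¹ - w / v) := hr
      have h5 : (v⁻¹ - 1) / (v⁻¹ - w / v) = (v - 1) / (w - 1) := by
        rw [e2, e3]
        field_simp
      rw [h4, h5]
      simp [div_mul_cancel₀ _ h2]
    · simp [xx]

theorem N34_mem_X : (RatFunc.X : RatFunc k) ∈ Ezero k := Algebra.subset_adjoin (by simp)

theorem N34_mem_inv : (1 + RatFunc.X : RatFunc k)⁻¹ ∈ Ezero k := Algebra.subset_adjoin (by simp)

/-- Elements of `P3` have values in `k[T, 1/(1+T)]` on all three curves. -/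
theorem val_P3 (p : ℕ) [Fact p.Prime] [CharP k p] (hp : 5 ≤ p) {A v w : K}
    (h : AlgebraicIndependent k ![A, v, w]) {r : K} (hr : r ∈ ring k p A v w .P3) :
    (∃ c ∈ Ezero k, HasVal k (v - 1) (w - 1) (yy p A v w) (xz k) r c) ∧
    (∃ c ∈ Ezero k, HasVal k (v - 1) (w - 1) (yy p A v w) (xy k p) r c) ∧
    (∃ c ∈ Ezero k, HasVal k (v - 1) (w - 1) (yy p A v w) (xx k p) r c) := by
  obtain ⟨hA, hv, hw, -⟩ := ind_ne h
  have hX1 := N34_1X_ne (k := k)
  have hmX := N34_mem_X (k := k)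
  have hmi := N34_mem_inv (k := k)
  -- a polynomial, and an inverse of a polynomial
  have hpoly : ∀ (x : Fin 3 → RatFunc k) (P : MvPolynomial (Fin 3) k) {r : K} {c : RatFunc k},
      aeval ![v - 1, w - 1, yy p A v w] P = r → aeval x P = c → c ∈ Ezero k →
      ∃ c ∈ Ezero k, HasVal k (v - 1) (w - 1) (yy p A v w) x r c := by
    intro x P r c h1 h2 h3
    refine ⟨c, h3, P, 1, ?_, ?_, ?_, ?_⟩
    · rw [map_one]; exact isUnit_one
    · rw [map_one]; exact one_ne_zero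
    · rw [map_one, mul_one, h1]
    · rw [map_one, mul_one, h2]
  have hinv : ∀ (x : Fin 3 → RatFunc k) (P : MvPolynomial (Fin 3) k) {r : K} {c : RatFunc k},
      aeval ![v - 1, w - 1, yy p A v w] P = r → r ≠ 0 → aeval x P = c → c ≠ 0 → c⁻¹ ∈ Ezero k →
      ∃ c ∈ Ezero k, HasVal k (v - 1) (w - 1) (yy p A v w) x r⁻¹ c := by
    intro x P r c h1 h1' h2 h2' h3
    refine ⟨c⁻¹, h3, 1, P, ?_, ?_, ?_, ?_⟩
    · rw [isUnit_iff_ne_zero, h2]; exact h2'
    · rw [h1]; exact h1'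
    · rw [h1, map_one, inv_mul_cancel₀ h1']
    · rw [h2, map_one, inv_mul_cancel₀ h2']
  have h0 := (Ezero k).zero_mem
  have h1 := (Ezero k).one_mem
  have ep0 : aeval ![v - 1, w - 1, yy p A v w] (X 0 : MvPolynomial (Fin 3) k) = v - 1 := by simp
  have ep1 : aeval ![v - 1, w - 1, yy p A v w] (X 1 : MvPolynomial (Fin 3) k) = w - 1 := by simp
  have ep2 : aeval ![v - 1, w - 1, yy p A v w] (X 2 : MvPolynomial (Fin 3) k) = yy p A v w := by
    simp
  have ev : aeval ![v - 1, w - 1, yy p A v w] (1 + X 0 : MvPolynomial (Fin 3) k) = v := by simp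
  have ew : aeval ![v - 1, w - 1, yy p A v w] (1 + X 1 : MvPolynomial (Fin 3) k) = w := by simp
  refine ⟨?_, ?_, ?_⟩
  · refine HasVal.of_adjoin (Ezero k) ?_ hr
    rintro r (hr | hr | hr | hr | hr | hr)
    · rw [hr]; exact hpoly _ (X 0) ep0 (c := 0) (by simp [xz]) h0
    · rw [hr]; exact hpoly _ (X 1) ep1 (c := RatFunc.X) (by simp [xz]) hmX
    · rw [hr]; exact hpoly _ (X 2) ep2 (c := 0) (by simp [xz]) h0
    · rw [hr]
      exact hinv _ (N34_A k p) (N34_A_eval p h) hA (N34_A_z p hp) one_ne_zero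
        (by rw [inv_one]; exact h1)
    · rw [hr]
      exact hinv _ (1 + X 0) ev hv (c := 1) (by simp [xz]) one_ne_zero (by rw [inv_one]; exact h1)
    · rw [hr]
      exact hinv _ (1 + X 1) ew hw (c := 1 + RatFunc.X) (by simp [xz]) hX1 hmi
  · refine HasVal.of_adjoin (Ezero k) ?_ hr
    rintro r (hr | hr | hr | hr | hr | hr)
    · rw [hr]; exact hpoly _ (X 0) ep0 (c := RatFunc.X) (by simp [xy]) hmX
    · rw [hr]; exact hpoly _ (X 1) ep1 (c := 0) (by simp [xy]) h0
    · rw [hr]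
      exact hpoly _ (X 2) ep2 (c := -RatFunc.X ^ (p - 3)) (by simp [xy])
        ((Ezero k).neg_mem ((Ezero k).pow_mem hmX _))
    · rw [hr]
      exact hinv _ (N34_A k p) (N34_A_eval p h) hA (N34_A_y p) one_ne_zero
        (by rw [inv_one]; exact h1)
    · rw [hr]
      exact hinv _ (1 + X 0) ev hv (c := 1 + RatFunc.X) (by simp [xy]) hX1 hmi
    · rw [hr]
      exact hinv _ (1 + X 1) ew hw (c := 1) (by simp [xy]) one_ne_zero (by rw [inv_one]; exact h1)
  · refine HasVal.of_adjoin (Ezero k) ?_ hr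
    rintro r (hr | hr | hr | hr | hr | hr)
    · rw [hr]; exact hpoly _ (X 0) ep0 (c := RatFunc.X) (by simp [xx]) hmX
    · rw [hr]; exact hpoly _ (X 1) ep1 (c := RatFunc.X) (by simp [xx]) hmX
    · rw [hr]
      exact hpoly _ (X 2) ep2 (c := RatFunc.X ^ (p - 3)) (by simp [xx])
        ((Ezero k).pow_mem hmX _)
    · rw [hr]
      refine hinv _ (N34_A k p) (N34_A_eval p h) hA (N34_A_x p hp) ?_ ?_
      · rw [← N34_char p]
        exact pow_ne_zero _ hX1
      · rw [← N34_char p, ← inv_pow]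
        exact (Ezero k).pow_mem hmi _
    · rw [hr]
      exact hinv _ (1 + X 0) ev hv (c := 1 + RatFunc.X) (by simp [xx]) hX1 hmi
    · rw [hr]
      exact hinv _ (1 + X 1) ew hw (c := 1 + RatFunc.X) (by simp [xx]) hX1 hmi

end H1F
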