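import Pool.Agent.Lib.H1F.N.N34
import Pool.Agent.Lib.H1F.N.N32

/-!
# H1F, chunk N35

Comparison along the curves `C_z` and `C_y`.
-/

open MvPolynomial

namespace H1F

variable {k K : Type*} [Field k] [Field K] [Algebra k K]


/-- comparison of two charts -/
theorem N35_gen (p : ℕ) [Fact p.Prime] [CharP k p] {A v w : K}
    (F : LiftedFamily p (fun c : {c : Ch // c.inV} ↦ ring k p A v w c.1))
    (cN : {c : Ch // c.inV}) {a e g κ : F.L} (haN : a ∈ F.S cN)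
    (he : e ∈ F.S ⟨.P3, trivial⟩) (hg : g ∈ F.S ⟨.P3, trivial⟩)
    (heR : F.π e ∈ ring k p A v w cN.1) (hgR : F.π g ∈ ring k p A v w cN.1)
    (hκ : a = 1 + e * g + p * κ) :
    ∃ κ₀ x₁ x₂ : K, κ₀ ∈ ring k p A v w cN.1 ∧
      x₁ ∈ ring k p A v w cN.1 ⊔ ring k p A v w .P3 ∧
      x₂ ∈ ring k p A v w cN.1 ⊔ ring k p A v w .P3 ∧
      F.π κ = κ₀ + x₁ * F.π g + x₂ * F.π e := by
  have hpk : (p : k) = 0 := CharP.cast_eq_zero k p
  have hpK : (p : K) = 0 := by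
    rw [← map_natCast (algebraMap k K), hpk, map_zero]
  have hpp : ∀ x : F.L, (p : F.L) * (p * x) = 0 := fun x => p_mul_p_mul F.π p hpK F.ann x
  obtain ⟨e₀, he₀S, he₀⟩ := F.lift cN (F.π e) heR
  obtain ⟨g₀, hg₀S, hg₀⟩ := F.lift cN (F.π g) hgR
  obtain ⟨κ₀, hκ₀⟩ := (F.ker (a - 1 - e₀ * g₀)).1 (by
    rw [hκ, map_sub, map_sub, map_add, map_add, map_one, map_mul, map_mul, map_mul, he₀, hg₀,
      map_natCast, hpK]
    ring)
  obtain ⟨x₁, hx₁⟩ := (F.ker (e₀ - e)).1 (by rw [map_sub, he₀, sub_self])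
  obtain ⟨x₂, hx₂⟩ := (F.ker (g₀ - g)).1 (by rw [map_sub, hg₀, sub_self])
  refine ⟨F.π κ₀, F.π x₁, F.π x₂, ?_, ?_, ?_, ?_⟩
  · refine of_mul_mem_self F cN ?_
    rw [← hκ₀]
    exact sub_mem (sub_mem haN (one_mem _)) (mul_mem he₀S hg₀S)
  · refine F.of_mul_mem cN ⟨.P3, trivial⟩ x₁ ?_
    rw [← hx₁]
    exact sub_mem (F.le_left _ _ he₀S) (F.le_right _ _ he)
  · refine F.of_mul_mem cN ⟨.P3, trivial⟩ x₂ ?_
    rw [← hx₂]
    exact sub_mem (F.le_left _ _ hg₀S) (F.le_right _ _ hg)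
  · have h1 : (p : F.L) * (κ - (κ₀ + x₁ * g + x₂ * e)) = 0 := by
      have e1 : e₀ * g₀ = e * g + p * (x₁ * g + x₂ * e) + p * (p * (x₁ * x₂)) := by
        have h2 : e₀ = e + p * x₁ := by linear_combination hx₁
        have h3 : g₀ = g + p * x₂ := by linear_combination hx₂
        rw [h2, h3]
        ring
      rw [hpp, add_zero] at e1
      linear_combination hκ₀ - hκ + e1
    have h2 := (F.ann _).1 h1
    rw [map_sub, sub_eq_zero] at h2
    rw [h2]
    simp only [map_add, map_mul]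

/-- the elements of the join have values -/
theorem N35_val (p : ℕ) {A v w : K} {x : Fin 3 → RatFunc k} (c : Ch)
    (h1 : ∀ r ∈ ring k p A v w c, ∃ t : RatFunc k, HasVal k (v - 1) (w - 1) (yy p A v w) x r t)
    (h2 : ∀ r ∈ ring k p A v w .P3, ∃ t : RatFunc k, HasVal k (v - 1) (w - 1) (yy p A v w) x r t)
    {r : K} (hr : r ∈ ring k p A v w c ⊔ ring k p A v w .P3) :
    ∃ t : RatFunc k, HasVal k (v - 1) (w - 1) (yy p A v w) x r t := by
  have h3 : ring k p A v w c ⊔ ring k p A v w .P3 =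
      Algebra.adjoin k ((ring k p A v w c : Set K) ∪ (ring k p A v w .P3 : Set K)) := by
    rw [Algebra.adjoin_union, Algebra.adjoin_eq, Algebra.adjoin_eq]
  rw [h3] at hr
  obtain ⟨t, -, ht⟩ := HasVal.of_adjoin (β := v - 1) (δ := w - 1) (y := yy p A v w)
    (x := x) (⊤ : Subalgebra k (RatFunc k)) (s := (ring k p A v w c : Set K) ∪
      (ring k p A v w .P3 : Set K)) (by
      rintro s (hs | hs)
      · obtain ⟨t, ht⟩ := h1 s hs
        exact ⟨t, Algebra.mem_top, ht⟩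
      · obtain ⟨t, ht⟩ := h2 s hs
        exact ⟨t, Algebra.mem_top, ht⟩) hr
  exact ⟨t, ht⟩

theorem N35_ne (p : ℕ) (hp : 2 ≤ p) {A v w : K} (h : AlgebraicIndependent k ![A, v, w]) :
    v - 1 ≠ 0 ∧ w - 1 ≠ 0 := by
  have hinj : Function.Injective (aeval (R := k) ![A, v, w]) := h
  have hne : ∀ P : MvPolynomial (Fin 3) k, P ≠ 0 → aeval ![A, v, w] P ≠ 0 := by
    intro P hP h0
    exact hP (hinj (by rw [h0, map_zero]))
  obtain ⟨-, -, -, -, -, hB, hD, -, -, -⟩ := not_dvd_list (k := k) p hp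
  refine ⟨?_, ?_⟩
  · intro h0
    apply hne _ hB
    simpa [pB] using h0
  · intro h0
    apply hne _ hD
    simpa [pD] using h0

/-- The expansion of a lift of `A` in the chart `P3`. -/
theorem expand (p : ℕ) [Fact p.Prime] [CharP k p] (hp : 5 ≤ p) {A v w : K}
    (h : AlgebraicIndependent k ![A, v, w])
    (F : LiftedFamily p (fun c : {c : Ch // c.inV} ↦ ring k p A v w c.1))
    {a b d y : F.L} (ha : F.π a = A) (haP : a ∈ F.S ⟨.P3, trivial⟩)
    (hb : F.π b = v - 1) (hbP : b ∈ F.S ⟨.P3, trivial⟩)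
    (hd : F.π d = w - 1) (hdP : d ∈ F.S ⟨.P3, trivial⟩)
    (hy : F.π y = yy p A v w) (hyP : y ∈ F.S ⟨.P3, trivial⟩) :
    ∃ κ : F.L, F.π κ ∈ ring k p A v w .P3 ∧
      a = 1 + b ^ (p - 1) * d + b * d * (b - d) * y + p * κ := by
  obtain ⟨κ, hκ⟩ := (F.ker (a - (1 + b ^ (p - 1) * d + b * d * (b - d) * y))).1 (by
    simp only [map_sub, map_add, map_one, map_mul, map_pow, ha, hb, hd, hy]
    have h1 := A_eq p h
    linear_combination h1)
  refine ⟨κ, ?_, by linear_combination hκ⟩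
  refine of_mul_mem_self F ⟨.P3, trivial⟩ ?_
  rw [← hκ]
  exact sub_mem haP (add_mem (add_mem (one_mem _) (mul_mem (pow_mem hbP _) hdP))
    (mul_mem (mul_mem (mul_mem hbP hdP) (sub_mem hbP hdP)) hyP))

/-- On `C_z` the coefficient `κ` has a value in `k[1/T]`.  Proof: in the chart `NI 0` take lifts
`b₀, q₀ ∈ S (NI 0)` of `v - 1`, `q = (A-1)/(v-1)`; `a = 1 + b₀ q₀ + p κ₀`, `π κ₀ ∈ NI 0`.  In `L`:
`b₀ = b + p x₁`, `q₀ = b^(p-2) d + d (b-d) y + p x₂` with `π x₁, π x₂ ∈ NI 0 ⊔ P3`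
(`of_mul_mem`), so `π κ = π κ₀ + π x₁ q + π x₂ β`.  Elements of `NI 0 ⊔ P3` are regular on `C_z`
and `q, β` vanish there. -/
theorem curve_z (p : ℕ) [Fact p.Prime] [CharP k p] (hp : 5 ≤ p) {A v w : K}
    (h : AlgebraicIndependent k ![A, v, w])
    (F : LiftedFamily p (fun c : {c : Ch // c.inV} ↦ ring k p A v w c.1))
    {a b d y κ : F.L} (ha : F.π a = A) (haN : a ∈ F.S ⟨.NI 0, trivial⟩)
    (hb : F.π b = v - 1) (hbP : b ∈ F.S ⟨.P3, trivial⟩)
    (hd : F.π d = w - 1) (hdP : d ∈ F.S ⟨.P3, trivial⟩)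
    (hy : F.π y = yy p A v w) (hyP : y ∈ F.S ⟨.P3, trivial⟩)
    (hκ : a = 1 + b ^ (p - 1) * d + b * d * (b - d) * y + p * κ) :
    ∃ c ∈ Einf k, HasVal k (v - 1) (w - 1) (yy p A v w) (xz k) (F.π κ) c := by
  obtain ⟨hv1, hw1⟩ := N35_ne p (by omega) h
  have hA := A_eq p h
  have hpow : ∀ t : F.L, t ^ (p - 1) = t ^ (p - 2) * t := by
    intro t
    rw [← pow_succ]
    congr 1
    omega
  have hpowK : ∀ t : K, t ^ (p - 1) = t ^ (p - 2) * t := by
    intro t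
    rw [← pow_succ]
    congr 1
    omega
  have hπg : F.π (b ^ (p - 2) * d + d * (b - d) * y) = (A - 1) / (v - 1) := by
    rw [eq_div_iff hv1]
    simp only [map_add, map_mul, map_pow, map_sub, hb, hd, hy]
    rw [hpowK] at hA
    linear_combination -hA
  obtain ⟨κ₀, x₁, x₂, h1, h2, h3, h4⟩ := N35_gen p F ⟨.NI 0, trivial⟩ (a := a) (e := b)
    (g := b ^ (p - 2) * d + d * (b - d) * y) (κ := κ) haN hbP
    (add_mem (mul_mem (pow_mem hbP _) hdP) (mul_mem (mul_mem hdP (sub_mem hbP hdP)) hyP))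
    (by rw [hb]; exact Algebra.subset_adjoin (by simp [fv]))
    (by rw [hπg]; exact Algebra.subset_adjoin (by simp [fa, fv]))
    (by rw [hκ, hpow]; ring)
  obtain ⟨c, hc, hvc⟩ := val_z p hp h h1
  have hv : ∀ r ∈ ring k p A v w (.NI 0) ⊔ ring k p A v w .P3,
      ∃ t : RatFunc k, HasVal k (v - 1) (w - 1) (yy p A v w) (xz k) r t := by
    intro r hr
    refine N35_val p (.NI 0) ?_ ?_ hr
    · intro s hs
      obtain ⟨t, -, ht⟩ := val_z p hp h hs
      exact ⟨t, ht⟩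
    · intro s hs
      obtain ⟨t, -, ht⟩ := (val_P3 p hp h hs).1
      exact ⟨t, ht⟩
  obtain ⟨c₁, hc₁⟩ := hv x₁ h2
  obtain ⟨c₂, hc₂⟩ := hv x₂ h3
  have vg : HasVal k (v - 1) (w - 1) (yy p A v w) (xz k)
      (F.π (b ^ (p - 2) * d + d * (b - d) * y)) 0 := by
    have e1 := HasVal.aeval (k := k) (β := v - 1) (δ := w - 1) (y := yy p A v w) (x := xz k)
      (X 0 ^ (p - 2) * X 1 + X 1 * (X 0 - X 1) * X 2)
    simp only [map_add, map_mul, map_pow, map_sub, aeval_X, xz, Matrix.cons_val_zero,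
      Matrix.cons_val_one, Matrix.cons_val] at e1
    simp only [map_add, map_mul, map_pow, map_sub, hb, hd, hy]
    have e2 : (0 : RatFunc k) ^ (p - 2) * RatFunc.X + RatFunc.X * (0 - RatFunc.X) * 0 = 0 := by
      rw [zero_pow (by omega)]
      ring
    rw [e2] at e1
    exact e1
  have ve : HasVal k (v - 1) (w - 1) (yy p A v w) (xz k) (F.π b) 0 := by
    have e1 := HasVal.aeval (k := k) (β := v - 1) (δ := w - 1) (y := yy p A v w) (x := xz k)
      (X 0)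
    simp only [aeval_X, xz, Matrix.cons_val_zero] at e1
    rw [hb]
    exact e1
  refine ⟨c, hc, ?_⟩
  have hfin := (hvc.add (hc₁.mul vg)).add (hc₂.mul ve)
  rw [← h4] at hfin
  have he : c + c₁ * 0 + c₂ * 0 = c := by ring
  rw [he] at hfin
  exact hfin

/-- The same on `C_y` with the chart `NI 1`: `q = (A-1)/(w-1) = β^(p-1) + β (β-δ) y`. -/
theorem curve_y (p : ℕ) [Fact p.Prime] [CharP k p] (hp : 5 ≤ p) {A v w : K}
    (h : AlgebraicIndependent k ![A, v, w])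
    (F : LiftedFamily p (fun c : {c : Ch // c.inV} ↦ ring k p A v w c.1))
    {a b d y κ : F.L} (ha : F.π a = A) (haN : a ∈ F.S ⟨.NI 1, trivial⟩)
    (hb : F.π b = v - 1) (hbP : b ∈ F.S ⟨.P3, trivial⟩)
    (hd : F.π d = w - 1) (hdP : d ∈ F.S ⟨.P3, trivial⟩)
    (hy : F.π y = yy p A v w) (hyP : y ∈ F.S ⟨.P3, trivial⟩)
    (hκ : a = 1 + b ^ (p - 1) * d + b * d * (b - d) * y + p * κ) :
    ∃ c ∈ Einf k, HasVal k (v - 1) (w - 1) (yy p A v w) (xy k p) (F.π κ) c := by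
  obtain ⟨hv1, hw1⟩ := N35_ne p (by omega) h
  have hA := A_eq p h
  have hπg : F.π (b ^ (p - 1) + b * (b - d) * y) = (A - 1) / (w - 1) := by
    rw [eq_div_iff hw1]
    simp only [map_add, map_mul, map_pow, map_sub, hb, hd, hy]
    linear_combination -hA
  obtain ⟨κ₀, x₁, x₂, h1, h2, h3, h4⟩ := N35_gen p F ⟨.NI 1, trivial⟩ (a := a) (e := d)
    (g := b ^ (p - 1) + b * (b - d) * y) (κ := κ) haN hdP
    (add_mem (pow_mem hbP _) (mul_mem (mul_mem hbP (sub_mem hbP hdP)) hyP))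
    (by rw [hd]; exact Algebra.subset_adjoin (by simp [fv]))
    (by rw [hπg]; exact Algebra.subset_adjoin (by simp [fa, fv]))
    (by rw [hκ]; ring)
  obtain ⟨c, hc, hvc⟩ := val_y p hp h h1
  have hv : ∀ r ∈ ring k p A v w (.NI 1) ⊔ ring k p A v w .P3,
      ∃ t : RatFunc k, HasVal k (v - 1) (w - 1) (yy p A v w) (xy k p) r t := by
    intro r hr
    refine N35_val p (.NI 1) ?_ ?_ hr
    · intro s hs
      obtain ⟨t, -, ht⟩ := val_y p hp h hs
      exact ⟨t, ht⟩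
    · intro s hs
      obtain ⟨t, -, ht⟩ := (val_P3 p hp h hs).2.1
      exact ⟨t, ht⟩
  obtain ⟨c₁, hc₁⟩ := hv x₁ h2
  obtain ⟨c₂, hc₂⟩ := hv x₂ h3
  have vg : HasVal k (v - 1) (w - 1) (yy p A v w) (xy k p)
      (F.π (b ^ (p - 1) + b * (b - d) * y)) 0 := by
    have e1 := HasVal.aeval (k := k) (β := v - 1) (δ := w - 1) (y := yy p A v w) (x := xy k p)
      (X 0 ^ (p - 1) + X 0 * (X 0 - X 1) * X 2)
    simp only [map_add, map_mul, map_pow, map_sub, aeval_X, xy, Matrix.cons_val_zero,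
      Matrix.cons_val_one, Matrix.cons_val] at e1
    simp only [map_add, map_mul, map_pow, map_sub, hb, hd, hy]
    have e2 : (RatFunc.X : RatFunc k) ^ (p - 1) +
        RatFunc.X * (RatFunc.X - 0) * -RatFunc.X ^ (p - 3) = 0 := by
      have e3 : p - 1 = p - 3 + 2 := by omega
      rw [e3]
      ring
    rw [e2] at e1
    exact e1
  have ve : HasVal k (v - 1) (w - 1) (yy p A v w) (xy k p) (F.π d) 0 := by
    have e1 := HasVal.aeval (k := k) (β := v - 1) (δ := w - 1) (y := yy p A v w) (x := xy k p)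
      (X 1)
    simp only [aeval_X, xy, Matrix.cons_val_one, Matrix.cons_val_zero] at e1
    rw [hd]
    exact e1
  refine ⟨c, hc, ?_⟩
  have hfin := (hvc.add (hc₁.mul vg)).add (hc₂.mul ve)
  rw [← h4] at hfin
  have he : c + c₁ * 0 + c₂ * 0 = c := by ring
  rw [he] at hfin
  exact hfin

end H1F
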