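import Pool.Agent.Lib.H1F.N.N6

/-!
# H1F, chunk N7

The charts `NI`, `NII` over `ON`, and step (a): `NI + NII = NI ⊔ NII`.
-/

open MvPolynomial

namespace H1F

variable {k K : Type*} [Field k] [Field K] [Algebra k K]

theorem N7_sub (S : Set K) {x : K} (h : x ∈ S) : x ∈ Algebra.adjoin k S := Algebra.subset_adjoin h

theorem NI_eq {a v w : K} (ha : a ≠ 0) (ha1 : a ≠ 1) (hv : v ≠ 1) (hw : w ≠ 1) (hvw : v ≠ w) :
    NI k a v w = ON k a v w ⊔ Algebra.adjoin k {(a - 1) / (v - 1)} := by
  have hv' : v - 1 ≠ 0 := sub_ne_zero.2 hv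
  apply le_antisymm
  · unfold NI
    rw [Algebra.adjoin_le_iff]
    intro s hs
    have hO : ∀ x, x ∈ ON k a v w → x ∈ ON k a v w ⊔ Algebra.adjoin k {(a - 1) / (v - 1)} :=
      fun x hx => Algebra.mem_sup_left hx
    simp only [Set.mem_insert_iff, Set.mem_singleton_iff] at hs
    rcases hs with rfl | rfl | rfl | rfl | rfl
    · exact hO _ (sub_mem (N7_sub _ (by simp)) (one_mem _))
    · exact Algebra.mem_sup_right (N7_sub _ (Set.mem_singleton _))
    · exact hO _ (N7_sub _ (by simp))
    · exact hO _ (N7_sub _ (by simp))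
    · exact hO _ (N7_sub _ (by simp))
  · refine sup_le ?_ ?_
    · unfold ON
      rw [Algebra.adjoin_le_iff]
      intro s hs
      simp only [Set.mem_insert_iff, Set.mem_singleton_iff] at hs
      rcases hs with rfl | rfl | rfl | rfl | rfl
      · have h1 : s = (v - 1) * ((s - 1) / (v - 1)) + 1 := by
          field_simp
          ring
        rw [h1]
        refine add_mem (mul_mem (N7_sub _ ?_) (N7_sub _ ?_)) (one_mem _)
        · simp
        · rw [← h1]
          simp
      · exact N7_sub _ (by simp)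
      · have h1 : s = (s - 1) + 1 := by ring
        rw [h1]
        refine add_mem (N7_sub _ ?_) (one_mem _)
        simp
      · exact N7_sub _ (by simp)
      · exact N7_sub _ (by simp)
    · rw [Algebra.adjoin_le_iff]
      intro s hs
      rw [Set.mem_singleton_iff] at hs
      rw [hs]
      exact N7_sub _ (by simp)

theorem NII_eq {a v w : K} (ha : a ≠ 0) (ha1 : a ≠ 1) (hv : v ≠ 1) (hw : w ≠ 1) (hvw : v ≠ w) :
    NII k a v w = ON k a v w ⊔ Algebra.adjoin k {((a - 1) / (v - 1))⁻¹} := by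
  have hv' : v - 1 ≠ 0 := sub_ne_zero.2 hv
  have ha' : a - 1 ≠ 0 := sub_ne_zero.2 ha1
  rw [inv_div]
  apply le_antisymm
  · unfold NII
    rw [Algebra.adjoin_le_iff]
    intro s hs
    have hO : ∀ x, x ∈ ON k a v w → x ∈ ON k a v w ⊔ Algebra.adjoin k {(v - 1) / (a - 1)} :=
      fun x hx => Algebra.mem_sup_left hx
    simp only [Set.mem_insert_iff, Set.mem_singleton_iff] at hs
    rcases hs with rfl | rfl | rfl | rfl | rfl
    · exact hO _ (sub_mem (N7_sub _ (by simp)) (one_mem _))
    · exact Algebra.mem_sup_right (N7_sub _ (Set.mem_singleton _))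
    · exact hO _ (N7_sub _ (by simp))
    · exact hO _ (N7_sub _ (by simp))
    · exact hO _ (N7_sub _ (by simp))
  · refine sup_le ?_ ?_
    · unfold ON
      rw [Algebra.adjoin_le_iff]
      intro s hs
      simp only [Set.mem_insert_iff, Set.mem_singleton_iff] at hs
      rcases hs with rfl | rfl | rfl | rfl | rfl
      · have h1 : s = (s - 1) + 1 := by ring
        rw [h1]
        refine add_mem (N7_sub _ ?_) (one_mem _)
        simp
      · exact N7_sub _ (by simp)
      · have h1 : s = (a - 1) * ((s - 1) / (a - 1)) + 1 := by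
          field_simp
          ring
        rw [h1]
        refine add_mem (mul_mem (N7_sub _ ?_) (N7_sub _ ?_)) (one_mem _)
        · simp
        · rw [← h1]
          simp
      · exact N7_sub _ (by simp)
      · exact N7_sub _ (by simp)
    · rw [Algebra.adjoin_le_iff]
      intro s hs
      rw [Set.mem_singleton_iff] at hs
      rw [hs]
      exact N7_sub _ (by simp)

/-- Step (a): from `NI_eq`, `NII_eq` and `split`. -/
theorem stepA {a v w : K} (ha : a ≠ 0) (ha1 : a ≠ 1) (hv : v ≠ 1) (hw : w ≠ 1) (hvw : v ≠ w)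
    {r : K} (hr : r ∈ NI k a v w ⊔ NII k a v w) :
    ∃ x ∈ NI k a v w, ∃ y ∈ NII k a v w, r = x + y := by
  have ht : (a - 1) / (v - 1) ≠ 0 := div_ne_zero (sub_ne_zero.2 ha1) (sub_ne_zero.2 hv)
  rw [NI_eq ha ha1 hv hw hvw, NII_eq ha ha1 hv hw hvw] at hr ⊢
  apply split _ ht
  have h1 : ON k a v w ⊔ Algebra.adjoin k {(a - 1) / (v - 1)} ⊔
      (ON k a v w ⊔ Algebra.adjoin k {((a - 1) / (v - 1))⁻¹}) ≤
      ON k a v w ⊔ Algebra.adjoin k {(a - 1) / (v - 1), ((a - 1) / (v - 1))⁻¹} := by
    refine sup_le (sup_le_sup_left ?_ _) (sup_le_sup_left ?_ _)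
    · exact Algebra.adjoin_mono (by simp)
    · exact Algebra.adjoin_mono (by simp)
  exact h1 hr

end H1F
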