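import Pool.Agent.Lib.H1F.N.N1

/-!
# H1F, chunk N8

The six frames.
-/

open MvPolynomial

namespace H1F

variable {k K : Type*} [Field k] [Field K] [Algebra k K]

/-- Exchange: if an independent triple lies in the field generated by another triple, that triple
is independent. -/
theorem N8_exchange {x y : Fin 3 → K} (h : AlgebraicIndependent k x)
    (hy : ∀ i, x i ∈ IntermediateField.adjoin k (Set.range y)) : AlgebraicIndependent k y := by
  set L := IntermediateField.adjoin k (Set.range y) with hL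
  let x' : Fin 3 → L := fun i => ⟨x i, hy i⟩
  let y' : Fin 3 → L := fun i => ⟨y i, IntermediateField.subset_adjoin k _ ⟨i, rfl⟩⟩
  have hx' : AlgebraicIndependent k x' := AlgebraicIndependent.of_comp (L.val) h
  have halg : Algebra.IsAlgebraic (Algebra.adjoin k (Set.range y')) L := by
    refine ⟨fun l => ?_⟩
    obtain ⟨l, hl⟩ := l
    induction hl using IntermediateField.adjoin_induction with
    | mem z hz =>
      obtain ⟨i, rfl⟩ := hz
      have h1 : y' i ∈ Algebra.adjoin k (Set.range y') := Algebra.subset_adjoin ⟨i, rfl⟩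
      exact isAlgebraic_algebraMap (⟨y' i, h1⟩ : Algebra.adjoin k (Set.range y'))
    | algebraMap c =>
      have h1 : algebraMap k L c ∈ Algebra.adjoin k (Set.range y') := Subalgebra.algebraMap_mem _ c
      exact isAlgebraic_algebraMap (⟨algebraMap k L c, h1⟩ : Algebra.adjoin k (Set.range y'))
    | add z w hz hw h1 h2 => exact h1.add h2
    | inv z hz h1 => exact h1.inv
    | mul z w hz hw h1 h2 => exact h1.mul h2
  have hle := hx'.lift_cardinalMk_le_trdeg
  have hb := Algebra.IsAlgebraic.isTranscendenceBasis_of_lift_le_trdeg_of_finite k y' hle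
  exact hb.1.map' (f := L.val) (Subtype.val_injective)

/-- Elementary non-degeneracy of an algebraically independent triple. -/
theorem N8_ne {a v w : K} (h : AlgebraicIndependent k ![a, v, w]) :
    a ≠ 0 ∧ v ≠ 0 ∧ w ≠ 0 ∧ a ≠ 1 ∧ v ≠ 1 ∧ w ≠ 1 ∧ v ≠ w ∧ (∀ n, 0 < n → a ≠ v ^ n) ∧
    (∀ n, 0 < n → a ≠ w ^ n) := by
  have key : ∀ (P : MvPolynomial (Fin 3) k) (x : Fin 3 → k), MvPolynomial.eval x P ≠ 0 →
      aeval ![a, v, w] P ≠ 0 := by
    intro P x hx h0
    have : P = 0 := h.eq_zero_of_aeval_eq_zero P h0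
    exact hx (by rw [this, map_zero])
  refine ⟨?_, ?_, ?_, ?_, ?_, ?_, ?_, ?_, ?_⟩
  · simpa using key (X 0) 1 (by simp)
  · simpa using key (X 1) 1 (by simp)
  · simpa using key (X 2) 1 (by simp)
  · have := key (X 0 - 1) 0 (by simp)
    simp only [map_sub, aeval_X, map_one, Matrix.cons_val_zero] at this
    exact sub_ne_zero.1 this
  · have := key (X 1 - 1) 0 (by simp)
    simp only [map_sub, aeval_X, map_one, Matrix.cons_val_one, Matrix.cons_val_zero] at this
    exact sub_ne_zero.1 this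
  · have := key (X 2 - 1) 0 (by simp)
    simp only [map_sub, aeval_X, map_one, Matrix.cons_val] at this
    exact sub_ne_zero.1 this
  · have := key (X 1 - X 2) ![0, 1, 0] (by simp)
    simp only [map_sub, aeval_X, Matrix.cons_val] at this
    exact sub_ne_zero.1 this
  · intro n hn
    have := key (X 0 - X 1 ^ n) ![1, 0, 0] (by simp [hn.ne'])
    simp only [map_sub, map_pow, aeval_X, Matrix.cons_val] at this
    exact sub_ne_zero.1 this
  · intro n hn
    have := key (X 0 - X 2 ^ n) ![1, 0, 0] (by simp [hn.ne'])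
    simp only [map_sub, map_pow, aeval_X, Matrix.cons_val] at this
    exact sub_ne_zero.1 this

/-- All six frames are algebraically independent triples (`A = a`, or `A = a / v'^p` ..., and
`A, v, w` are rational functions of the frame; use
`AlgebraicIndependent` of a monomial change of variables, e.g. through transcendence degree, or
through the explicit inverse: a polynomial relation between the entries of the frame gives, after
clearing denominators, one between `A, v, w`). -/
theorem frame_ind (p : ℕ) {A v w : K} (h : AlgebraicIndependent k ![A, v, w]) (f : Fin 6) :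
    AlgebraicIndependent k ![fa p A v w f, fv v w f, fw v w f] := by
  obtain ⟨hA, hv, hw, -⟩ := N8_ne h
  have key : ∀ a b c : K,
      A ∈ IntermediateField.adjoin k (Set.range ![a, b, c]) →
      v ∈ IntermediateField.adjoin k (Set.range ![a, b, c]) →
      w ∈ IntermediateField.adjoin k (Set.range ![a, b, c]) →
      AlgebraicIndependent k ![a, b, c] := by
    intro a b c h1 h2 h3
    refine N8_exchange h ?_
    intro i
    fin_cases i
    · exact h1
    · exact h2
    · exact h3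
  have m0 : ∀ a b c : K, a ∈ IntermediateField.adjoin k (Set.range ![a, b, c]) := fun a b c =>
    IntermediateField.subset_adjoin k _ ⟨0, rfl⟩
  have m1 : ∀ a b c : K, b ∈ IntermediateField.adjoin k (Set.range ![a, b, c]) := fun a b c =>
    IntermediateField.subset_adjoin k _ ⟨1, rfl⟩
  have m2 : ∀ a b c : K, c ∈ IntermediateField.adjoin k (Set.range ![a, b, c]) := fun a b c =>
    IntermediateField.subset_adjoin k _ ⟨2, rfl⟩
  fin_cases f
  · exact h
  · exact key _ _ _ (m0 _ _ _) (m2 _ _ _) (m1 _ _ _)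
  · show AlgebraicIndependent k ![A / v ^ p, v⁻¹, w / v]
    have e : v ∈ IntermediateField.adjoin k (Set.range ![A / v ^ p, v⁻¹, w / v]) := by
      have := inv_mem (m1 (A / v ^ p) v⁻¹ (w / v) :
        v⁻¹ ∈ IntermediateField.adjoin k (Set.range ![A / v ^ p, v⁻¹, w / v]))
      rwa [inv_inv] at this
    refine key _ _ _ ?_ e ?_
    · have := mul_mem (m0 (A / v ^ p) v⁻¹ (w / v)) (pow_mem e p)
      rwa [div_mul_cancel₀ _ (pow_ne_zero p hv)] at this
    · have := mul_mem (m2 (A / v ^ p) v⁻¹ (w / v)) e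
      rwa [div_mul_cancel₀ _ hv] at this
  · show AlgebraicIndependent k ![A / v ^ p, w / v, v⁻¹]
    have e : v ∈ IntermediateField.adjoin k (Set.range ![A / v ^ p, w / v, v⁻¹]) := by
      have := inv_mem (m2 (A / v ^ p) (w / v) v⁻¹ :
        v⁻¹ ∈ IntermediateField.adjoin k (Set.range ![A / v ^ p, w / v, v⁻¹]))
      rwa [inv_inv] at this
    refine key _ _ _ ?_ e ?_
    · have := mul_mem (m0 (A / v ^ p) (w / v) v⁻¹) (pow_mem e p)
      rwa [div_mul_cancel₀ _ (pow_ne_zero p hv)] at this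
    · have := mul_mem (m1 (A / v ^ p) (w / v) v⁻¹) e
      rwa [div_mul_cancel₀ _ hv] at this
  · show AlgebraicIndependent k ![A / w ^ p, w⁻¹, v / w]
    have e : w ∈ IntermediateField.adjoin k (Set.range ![A / w ^ p, w⁻¹, v / w]) := by
      have := inv_mem (m1 (A / w ^ p) w⁻¹ (v / w) :
        w⁻¹ ∈ IntermediateField.adjoin k (Set.range ![A / w ^ p, w⁻¹, v / w]))
      rwa [inv_inv] at this
    refine key _ _ _ ?_ ?_ e
    · have := mul_mem (m0 (A / w ^ p) w⁻¹ (v / w)) (pow_mem e p)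
      rwa [div_mul_cancel₀ _ (pow_ne_zero p hw)] at this
    · have := mul_mem (m2 (A / w ^ p) w⁻¹ (v / w)) e
      rwa [div_mul_cancel₀ _ hw] at this
  · show AlgebraicIndependent k ![A / w ^ p, v / w, w⁻¹]
    have e : w ∈ IntermediateField.adjoin k (Set.range ![A / w ^ p, v / w, w⁻¹]) := by
      have := inv_mem (m2 (A / w ^ p) (v / w) w⁻¹ :
        w⁻¹ ∈ IntermediateField.adjoin k (Set.range ![A / w ^ p, v / w, w⁻¹]))
      rwa [inv_inv] at this
    refine key _ _ _ ?_ ?_ e
    · have := mul_mem (m0 (A / w ^ p) (v / w) w⁻¹) (pow_mem e p)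
      rwa [div_mul_cancel₀ _ (pow_ne_zero p hw)] at this
    · have := mul_mem (m1 (A / w ^ p) (v / w) w⁻¹) e
      rwa [div_mul_cancel₀ _ hw] at this

/-- Elementary non-degeneracy of an algebraically independent triple. -/
theorem ind_ne {a v w : K} (h : AlgebraicIndependent k ![a, v, w]) :
    a ≠ 0 ∧ v ≠ 0 ∧ w ≠ 0 ∧ a ≠ 1 ∧ v ≠ 1 ∧ w ≠ 1 ∧ v ≠ w ∧ (∀ n, 0 < n → a ≠ v ^ n) ∧
    (∀ n, 0 < n → a ≠ w ^ n) := N8_ne h

/-- Units of a subalgebra. -/
def N8_U (S : Subalgebra k K) (x : K) : Prop := x ∈ S ∧ x⁻¹ ∈ S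

theorem N8_U.mul {S : Subalgebra k K} {x y : K} (hx : N8_U S x) (hy : N8_U S y) :
    N8_U S (x * y) := ⟨mul_mem hx.1 hy.1, by rw [mul_inv]; exact mul_mem hx.2 hy.2⟩

theorem N8_U.inv {S : Subalgebra k K} {x : K} (hx : N8_U S x) : N8_U S x⁻¹ :=
  ⟨hx.2, by rw [inv_inv]; exact hx.1⟩

theorem N8_U.pow {S : Subalgebra k K} {x : K} (hx : N8_U S x) (n : ℕ) : N8_U S (x ^ n) :=
  ⟨pow_mem hx.1 n, by rw [← inv_pow]; exact pow_mem hx.2 n⟩

theorem N8_U.div {S : Subalgebra k K} {x y : K} (hx : N8_U S x) (hy : N8_U S y) :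
    N8_U S (x / y) := by
  rw [div_eq_mul_inv]
  exact hx.mul hy.inv

theorem N8_U0 (a v w : K) : N8_U (K3 k a v w) a :=
  ⟨Algebra.subset_adjoin (by simp), Algebra.subset_adjoin (by simp)⟩

theorem N8_U1 (a v w : K) : N8_U (K3 k a v w) v :=
  ⟨Algebra.subset_adjoin (by simp), Algebra.subset_adjoin (by simp)⟩

theorem N8_U2 (a v w : K) : N8_U (K3 k a v w) w :=
  ⟨Algebra.subset_adjoin (by simp), Algebra.subset_adjoin (by simp)⟩

theorem N8_K3_le {S : Subalgebra k K} {a v w : K} (ha : N8_U S a) (hv : N8_U S v)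
    (hw : N8_U S w) : K3 k a v w ≤ S := by
  refine Algebra.adjoin_le ?_
  rintro r (rfl | rfl | rfl | rfl | rfl | rfl)
  · exact ha.1
  · exact ha.2
  · exact hv.1
  · exact hv.2
  · exact hw.1
  · exact hw.2

/-- The torus ring does not depend on the frame. -/
theorem frame_K3 (p : ℕ) {A v w : K} (hv : v ≠ 0) (hw : w ≠ 0) (hA : A ≠ 0) (f : Fin 6) :
    K3 k (fa p A v w f) (fv v w f) (fw v w f) = K3 k A v w := by
  have a0 := N8_U0 (k := k) A v w
  have a1 := N8_U1 (k := k) A v w
  have a2 := N8_U2 (k := k) A v w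
  fin_cases f
  · rfl
  · exact le_antisymm (N8_K3_le a0 a2 a1)
      (N8_K3_le (N8_U0 _ _ _) (N8_U2 _ _ _) (N8_U1 _ _ _))
  · show K3 k (A / v ^ p) v⁻¹ (w / v) = K3 k A v w
    refine le_antisymm (N8_K3_le (a0.div (a1.pow p)) a1.inv (a2.div a1)) ?_
    have b0 := N8_U0 (k := k) (A / v ^ p) v⁻¹ (w / v)
    have b1 : N8_U (K3 k (A / v ^ p) v⁻¹ (w / v)) v := by
      have := (N8_U1 (k := k) (A / v ^ p) v⁻¹ (w / v)).inv
      rwa [inv_inv] at this
    have b2 := N8_U2 (k := k) (A / v ^ p) v⁻¹ (w / v)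
    refine N8_K3_le ?_ b1 ?_
    · have := b0.mul (b1.pow p)
      rwa [div_mul_cancel₀ _ (pow_ne_zero p hv)] at this
    · have := b2.mul b1
      rwa [div_mul_cancel₀ _ hv] at this
  · show K3 k (A / v ^ p) (w / v) v⁻¹ = K3 k A v w
    refine le_antisymm (N8_K3_le (a0.div (a1.pow p)) (a2.div a1) a1.inv) ?_
    have b0 := N8_U0 (k := k) (A / v ^ p) (w / v) v⁻¹
    have b1 : N8_U (K3 k (A / v ^ p) (w / v) v⁻¹) v := by
      have := (N8_U2 (k := k) (A / v ^ p) (w / v) v⁻¹).inv
      rwa [inv_inv] at this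
    have b2 := N8_U1 (k := k) (A / v ^ p) (w / v) v⁻¹
    refine N8_K3_le ?_ b1 ?_
    · have := b0.mul (b1.pow p)
      rwa [div_mul_cancel₀ _ (pow_ne_zero p hv)] at this
    · have := b2.mul b1
      rwa [div_mul_cancel₀ _ hv] at this
  · show K3 k (A / w ^ p) w⁻¹ (v / w) = K3 k A v w
    refine le_antisymm (N8_K3_le (a0.div (a2.pow p)) a2.inv (a1.div a2)) ?_
    have b0 := N8_U0 (k := k) (A / w ^ p) w⁻¹ (v / w)
    have b1 : N8_U (K3 k (A / w ^ p) w⁻¹ (v / w)) w := by
      have := (N8_U1 (k := k) (A / w ^ p) w⁻¹ (v / w)).inv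
      rwa [inv_inv] at this
    have b2 := N8_U2 (k := k) (A / w ^ p) w⁻¹ (v / w)
    refine N8_K3_le ?_ ?_ b1
    · have := b0.mul (b1.pow p)
      rwa [div_mul_cancel₀ _ (pow_ne_zero p hw)] at this
    · have := b2.mul b1
      rwa [div_mul_cancel₀ _ hw] at this
  · show K3 k (A / w ^ p) (v / w) w⁻¹ = K3 k A v w
    refine le_antisymm (N8_K3_le (a0.div (a2.pow p)) (a1.div a2) a2.inv) ?_
    have b0 := N8_U0 (k := k) (A / w ^ p) (v / w) w⁻¹
    have b1 : N8_U (K3 k (A / w ^ p) (v / w) w⁻¹) w := by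
      have := (N8_U2 (k := k) (A / w ^ p) (v / w) w⁻¹).inv
      rwa [inv_inv] at this
    have b2 := N8_U1 (k := k) (A / w ^ p) (v / w) w⁻¹
    refine N8_K3_le ?_ ?_ b1
    · have := b0.mul (b1.pow p)
      rwa [div_mul_cancel₀ _ (pow_ne_zero p hw)] at this
    · have := b2.mul b1
      rwa [div_mul_cancel₀ _ hw] at this

end H1F
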